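import Pool.Agent.FLG.Rleft

/-!
# FLG-Rtri: the restriction matrix is triangular for the Bruhat order
-/

set_option autoImplicit false

open scoped BigOperators
open Pool.Agent.DST.TE

namespace Pool.Agent.FLG.RS

variable {r : ℕ} {D : RS r}

private theorem C0_entry (h y : Fin r → ℂ) (p w : D.W) :
    ∑ u, D.Rm y p u * D.E0 (D.ch h) u w = (D.hv h w y - D.hv h p y) * D.Rm y p w := by
  have h1 := congrFun (congrFun (Rm_C0 h y) p) w
  rw [Matrix.diagonal_mul, C0, Matrix.mul_sub, Matrix.sub_apply, Matrix.mul_diagonal,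
    Matrix.mul_apply] at h1
  linear_combination h1

private theorem edge_of_ne {c : (Fin r → ℤ) → ℂ} {u w : D.W} (h : D.E0 c u w ≠ 0) :
    ∃ a ∈ D.Pos, u = w * D.refl a ∧ D.len u = D.len w + 1 := by
  unfold E0 at h
  rw [Matrix.of_apply] at h
  obtain ⟨a, ha, h1⟩ := Finset.exists_ne_zero_of_sum_ne_zero h
  refine ⟨a, ha, ?_⟩
  by_contra h2
  exact h1 (if_neg h2)

private theorem tri_reg {p : D.W} {y : Fin r → ℂ} (hy : y ∈ D.Reg) (n : ℕ) :
    ∀ w : D.W, D.dm ≤ D.len w + n → D.Rm y p w ≠ 0 → D.Bru w p := by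
  induction n with
  | zero =>
    intro w hw hne
    by_cases hwp : w = p
    · rw [hwp]
      exact Bru.refl p
    · exfalso
      have h1 := C0_entry D.ctr y p w
      rw [hv_ctr, hv_ctr] at h1
      have h2 : (pr (D.rt w D.tr) y - pr (D.rt p D.tr) y) * D.Rm y p w ≠ 0 :=
        mul_ne_zero (sub_ne_zero.2 (hy.2 w p hwp)) hne
      rw [← h1] at h2
      obtain ⟨u, _, hu⟩ := Finset.exists_ne_zero_of_sum_ne_zero h2
      obtain ⟨a, _, _, hl⟩ := edge_of_ne (right_ne_zero_of_mul hu)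
      have h3 := len_le_dm u
      omega
  | succ n ih =>
    intro w hw hne
    by_cases hwp : w = p
    · rw [hwp]
      exact Bru.refl p
    · have h1 := C0_entry D.ctr y p w
      rw [hv_ctr, hv_ctr] at h1
      have h2 : (pr (D.rt w D.tr) y - pr (D.rt p D.tr) y) * D.Rm y p w ≠ 0 :=
        mul_ne_zero (sub_ne_zero.2 (hy.2 w p hwp)) hne
      rw [← h1] at h2
      obtain ⟨u, _, hu⟩ := Finset.exists_ne_zero_of_sum_ne_zero h2
      obtain ⟨a, ha, hua, hl⟩ := edge_of_ne (right_ne_zero_of_mul hu)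
      have h3 : D.Bru u p := ih u (by omega) (left_ne_zero_of_mul hu)
      exact Relation.ReflTransGen.head ⟨a, ha, hua, by omega⟩ h3

theorem Rm_tri {p w : D.W} (h : ¬ D.Bru w p) (y : Fin r → ℂ) : D.Rm y p w = 0 := by
  have h1 : (fun y => D.Rm y p w) = fun _ => (0 : ℂ) := by
    refine Continuous.ext_on (dense_reg D) (Rm_diff p w).continuous continuous_const ?_
    intro z hz
    by_contra h2
    exact h (tri_reg hz D.dm w (by omega) h2)
  exact congrFun h1 y

private theorem Rm_len {p w : D.W} (h : w ≠ p) (hl : D.len p ≤ D.len w) (y : Fin r → ℂ) :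
    D.Rm y p w = 0 := by
  refine Rm_tri (fun hb => ?_) y
  have := Bru.len_lt hb h
  omega

private theorem pr_neg' (a : Fin r → ℤ) (y : Fin r → ℂ) : pr (-a) y = -pr a y := by
  unfold pr
  rw [← Finset.sum_neg_distrib]
  refine Finset.sum_congr rfl fun i _ => ?_
  rw [Pi.neg_apply]
  push_cast
  ring

private theorem Rm_step {v : D.W} {i : Fin r} (hl : D.len v < D.len (D.s i * v))
    (y : Fin r → ℂ) :
    D.Rm y (D.s i * v) (D.s i * v) = pr (al i) y * D.Rm (D.yt (D.s i) y) v v := by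
  have h1 := Rm_left (IsLeft.simple (D := D) i) (D.yt (D.s i) y) v (D.s i * v)
  rw [D.yt_inv_yt, s_inv] at h1
  rw [← h1, Matrix.mul_sub, Matrix.sub_apply, Matrix.mul_one, Matrix.mul_smul, Matrix.smul_apply,
    Matrix.mul_apply, Rm_len (fun h => by rw [h] at hl; exact lt_irrefl _ hl) hl.le]
  have h2 : ∑ u, D.Rm (D.yt (D.s i) y) v u * D.A i u (D.s i * v) =
      D.Rm (D.yt (D.s i) y) v v := by
    rw [Finset.sum_eq_single v]
    · unfold A
      rw [Matrix.of_apply, if_pos, mul_one]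
      refine ⟨?_, hl⟩
      rw [← mul_assoc, s_mul_self, one_mul]
    · intro u _ hu
      unfold A
      rw [Matrix.of_apply, if_neg, mul_zero]
      rintro ⟨h3, _⟩
      apply hu
      rw [h3, ← mul_assoc, s_mul_self, one_mul]
    · intro h3
      exact absurd (Finset.mem_univ v) h3
  rw [h2, smul_eq_mul, D.pr_yt, s_inv, rt_s_al, pr_neg']
  ring

private theorem filter_step {v : D.W} {i : Fin r} (hl : D.len v < D.len (D.s i * v))
    (y : Fin r → ℂ) :
    ∏ b ∈ D.Pos.filter (fun b => D.rt (D.s i * v)⁻¹ b ∉ D.Pos), pr b y =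
      pr (al i) y * ∏ b ∈ D.Pos.filter (fun b => D.rt v⁻¹ b ∉ D.Pos), pr b (D.yt (D.s i) y) := by
  classical
  have hv : D.rt v⁻¹ (al i) ∈ D.Pos := by
    by_contra h
    have := len_s_mul_of_neg i v h
    omega
  have hinv : ∀ b, D.rt (D.s i * v)⁻¹ b = D.rt v⁻¹ (D.rt (D.s i) b) := by
    intro b
    rw [mul_inv_rev, s_inv, D.rt_mul]
  have hss : ∀ b, D.rt (D.s i) (D.rt (D.s i) b) = b := by
    intro b
    rw [← D.rt_mul, s_mul_self, D.rt_one]
  have hm : al i ∈ D.Pos.filter (fun b => D.rt (D.s i * v)⁻¹ b ∉ D.Pos) := by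
    rw [Finset.mem_filter, hinv, rt_s_al, D.rt_neg]
    exact ⟨D.al_pos i, neg_not_pos hv⟩
  rw [← Finset.mul_prod_erase _ _ hm]
  congr 1
  refine Finset.prod_nbij' (fun b => D.rt (D.s i) b) (fun b => D.rt (D.s i) b) ?_ ?_ ?_ ?_ ?_
  · intro b hb
    rw [Finset.mem_erase, Finset.mem_filter, hinv] at hb
    rw [Finset.mem_filter]
    exact ⟨(s_perm i hb.2.1 hb.1).1, hb.2.2⟩
  · intro b hb
    rw [Finset.mem_filter] at hb
    have hne : b ≠ al i := by
      rintro rfl
      exact hb.2 hv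
    rw [Finset.mem_erase, Finset.mem_filter, hinv, hss]
    exact ⟨(s_perm i hb.1 hne).2, (s_perm i hb.1 hne).1, hb.2⟩
  · intro b _
    exact hss b
  · intro b _
    exact hss b
  · intro b _
    rw [D.pr_yt, s_inv, hss]

private theorem diag_aux (n : ℕ) : ∀ (p : D.W), D.len p = n → ∀ y : Fin r → ℂ,
    D.Rm y p p = ∏ b ∈ D.Pos.filter (fun b => D.rt p⁻¹ b ∉ D.Pos), pr b y := by
  induction n with
  | zero =>
    intro p hp y
    have h1 : p = 1 := eq_one_of_len hp
    rw [h1, Rm_one]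
    have h2 : D.Pos.filter (fun b => D.rt (1 : D.W)⁻¹ b ∉ D.Pos) = ∅ := by
      rw [Finset.filter_eq_empty_iff]
      intro b hb h
      rw [inv_one, D.rt_one] at h
      exact h hb
    rw [h2, Finset.prod_empty]
  | succ n ih =>
    intro p hp y
    have h1 : p ≠ 1 := by
      rintro rfl
      rw [len_one] at hp
      omega
    obtain ⟨i, hi⟩ := exists_descent h1
    obtain ⟨v, hv⟩ : ∃ v, v = D.s i * p := ⟨_, rfl⟩
    have hp2 : p = D.s i * v := by
      rw [hv, ← mul_assoc, s_mul_self, one_mul]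
    rw [← hv] at hi
    rw [hp2] at hi hp ⊢
    rw [Rm_step (by omega), filter_step (by omega), ih v (by omega)]

theorem Rm_diag (y : Fin r → ℂ) (p : D.W) :
    D.Rm y p p = ∏ b ∈ D.Pos.filter (fun b => D.rt p⁻¹ b ∉ D.Pos), pr b y := by
  exact diag_aux (D.len p) p rfl y

theorem Rm_det (y : Fin r → ℂ) : (D.Rm y).det = ∏ p, D.Rm y p p := by
  rw [Matrix.det_apply, Finset.sum_eq_single 1]
  · rw [Equiv.Perm.sign_one, one_smul]
    rfl
  · intro σ _ hσ
    have h1 : ∃ k, D.Rm y (σ k) k = 0 := by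
      by_contra h2
      push Not at h2
      have h3 : ∀ k, D.len k ≤ D.len (σ k) := by
        intro k
        by_contra h4
        refine h2 k (Rm_len ?_ (by omega) y)
        intro h5
        rw [← h5] at h4
        exact h4 le_rfl
      have h4 : ∑ k, D.len (σ k) = ∑ k, D.len k := Equiv.sum_comp σ D.len
      apply hσ
      ext1 k
      rw [Equiv.Perm.one_apply]
      by_contra h5
      have h6 : D.len k < D.len (σ k) := by
        by_contra h7
        exact h2 k (Rm_len (fun h8 => h5 h8.symm) (by omega) y)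
      have h7 := Finset.sum_lt_sum (s := Finset.univ) (fun k _ => h3 k) ⟨k, Finset.mem_univ k, h6⟩
      omega
    obtain ⟨k, hk⟩ := h1
    have h3 : ∏ j, D.Rm y (σ j) j = 0 := Finset.prod_eq_zero (Finset.mem_univ k) hk
    exact (congrArg (fun z => Equiv.Perm.sign σ • z) h3).trans (smul_zero _)
  · intro h
    exact absurd (Finset.mem_univ _) h

private theorem Rm_diag_ne {y : Fin r → ℂ} (hy : ∀ a ∈ D.Φ, pr a y ≠ 0) (p : D.W) :
    D.Rm y p p ≠ 0 := by
  rw [Rm_diag]
  exact Finset.prod_ne_zero_iff.2 fun b hb => hy b (mem_of_pos (Finset.mem_filter.1 hb).1)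

theorem Rm_det_ne {y : Fin r → ℂ} (hy : ∀ a ∈ D.Φ, pr a y ≠ 0) : (D.Rm y).det ≠ 0 := by
  rw [Rm_det]
  exact Finset.prod_ne_zero_iff.2 fun p _ => Rm_diag_ne hy p

/-- the diagonal entries of the inverse -/
theorem Rm_inv_diag {y : Fin r → ℂ} (hy : ∀ a ∈ D.Φ, pr a y ≠ 0) (p : D.W) :
    (D.Rm y)⁻¹ p p = (D.Rm y p p)⁻¹ := by
  have h0 : D.Rm y * (D.Rm y)⁻¹ = 1 :=
    Matrix.mul_nonsing_inv _ (isUnit_iff_ne_zero.2 (Rm_det_ne hy))
  have h1 : ∀ (n : ℕ) (q u : D.W), D.len q = n → q ≠ u → n ≤ D.len u → (D.Rm y)⁻¹ q u = 0 := by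
    intro n
    induction n using Nat.strong_induction_on with
    | _ n ih =>
      intro q u hq hqu hn
      have h2 := congrFun (congrFun h0 q) u
      rw [Matrix.one_apply_ne hqu, Matrix.mul_apply, Finset.sum_eq_single q] at h2
      · exact (mul_eq_zero.1 h2).resolve_left (Rm_diag_ne hy q)
      · intro k _ hk
        by_cases hlk : D.len k < n
        · rw [ih (D.len k) hlk k u rfl (fun h => by rw [h] at hlk; omega) (by omega), mul_zero]
        · rw [Rm_len hk (by omega), zero_mul]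
      · intro h
        exact absurd (Finset.mem_univ _) h
  have h2 := congrFun (congrFun h0 p) p
  rw [Matrix.one_apply_eq, Matrix.mul_apply, Finset.sum_eq_single p] at h2
  · exact eq_inv_of_mul_eq_one_right h2
  · intro k _ hk
    by_cases hlk : D.len k < D.len p
    · rw [h1 (D.len k) k p rfl hk hlk.le, mul_zero]
    · rw [Rm_len hk (by omega), zero_mul]
  · intro h
    exact absurd (Finset.mem_univ _) h

end Pool.Agent.FLG.RS
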