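import Pool.Agent.FLG.LenS

/-!
# FLG-Tau: the elements of length zero of the extended affine Weyl group
-/

set_option autoImplicit false

open scoped BigOperators

namespace Pool.Agent.FLG.RS

variable {r : ℕ} {D : RS r}

theorem exists_dom (D : RS r) (μ : Fin r → ℤ) : ∃ w : D.W, ∀ i, 0 ≤ D.yt w μ i := by
  have hne : (Finset.univ : Finset D.W).Nonempty := ⟨1, Finset.mem_univ _⟩
  obtain ⟨w, -, hw⟩ := Finset.exists_max_image Finset.univ
    (fun w : D.W => dotProduct (D.yt w μ) D.tr) hne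
  refine ⟨w, fun i => ?_⟩
  by_contra hi
  push Not at hi
  have h1 := hw (D.s i * w) (Finset.mem_univ _)
  have h2 : dotProduct (D.yt (D.s i * w) μ) D.tr =
      dotProduct (D.yt w μ) D.tr - 2 * D.yt w μ i := by
    rw [D.yt_mul, D.dot_yt, s_inv, rt_s_tr, dotProduct_sub, dotProduct_smul, dot_al, smul_eq_mul]
  rw [h2] at h1
  linarith

private theorem tau_dot_nonneg {p c : Fin r → ℤ} (hp : ∀ i, 0 ≤ p i) (hc : ∀ i, 0 ≤ c i) :
    0 ≤ dotProduct p c := Finset.sum_nonneg fun i _ => mul_nonneg (hp i) (hc i)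

private theorem tau_ht {b : Fin r → ℤ} (hb : b ∈ D.Pos) :
    0 < ∑ i, b i ∧ ∑ i, b i < 1 + ∑ a ∈ D.Pos, ∑ i, a i := by
  have h0 : ∀ a ∈ D.Pos, 0 ≤ ∑ i, a i := fun a ha => Finset.sum_nonneg fun i _ => (mem_Pos.1 ha).2 i
  constructor
  · rcases lt_or_eq_of_le (h0 b hb) with h1 | h1
    · exact h1
    · exfalso
      apply ne_zero (mem_of_pos hb)
      funext i
      exact (Finset.sum_eq_zero_iff_of_nonneg fun i _ => (mem_Pos.1 hb).2 i).1 h1.symm i
        (Finset.mem_univ i)
  · have h2 := Finset.single_le_sum (f := fun a : Fin r → ℤ => ∑ i, a i) h0 hb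
    have h3 : ∑ i, b i ≤ ∑ a ∈ D.Pos, ∑ i, a i := h2
    linarith

theorem exists_tau (D : RS r) {ν : Fin r → ℤ}
    (h : ∀ a ∈ D.Pos, dotProduct ν a = 0 ∨ dotProduct ν a = 1) : ∃ w, D.IsTau w ν := by
  obtain ⟨M, hM⟩ : ∃ M : ℤ, M = 1 + ∑ a ∈ D.Pos, ∑ i, a i := ⟨_, rfl⟩
  obtain ⟨p, hp⟩ : ∃ p : Fin r → ℤ, p = (fun _ => 1) - M • ν := ⟨_, rfl⟩
  obtain ⟨v, hv⟩ := exists_dom D p
  have hpb : ∀ b, dotProduct p b = ∑ i, b i - M * dotProduct ν b := by
    intro b
    have h1 : dotProduct (fun _ : Fin r => (1 : ℤ)) b = ∑ i, b i := by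
      simp [dotProduct]
    rw [hp, sub_dotProduct, smul_dotProduct, h1, smul_eq_mul]
  have hc : ∀ b, dotProduct (D.yt v p) (D.rt v b) = dotProduct p b := by
    intro b
    rw [D.dot_yt, D.rt_inv_rt]
  refine ⟨v⁻¹, fun b hb => ?_⟩
  rw [inv_inv]
  have hcm : D.rt v b ∈ D.Φ := D.rt_mem.2 hb
  have hpos : D.rt v b ∈ D.Pos → 0 ≤ dotProduct p b := by
    intro h1
    rw [← hc]
    exact tau_dot_nonneg hv (mem_Pos.1 h1).2
  have hneg : D.rt v b ∉ D.Pos → dotProduct p b ≤ 0 := by
    intro h1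
    rw [← hc]
    have h2 := tau_dot_nonneg hv (mem_Pos.1 ((not_pos_iff hcm).1 h1)).2
    rw [dotProduct_neg] at h2
    linarith
  by_cases hbp : b ∈ D.Pos
  · obtain ⟨h3, h4⟩ := tau_ht hbp
    rw [← hM] at h4
    rcases h b hbp with h5 | h5
    · have h6 : 0 < dotProduct p b := by
        rw [hpb, h5]
        linarith
      have h7 : D.rt v b ∈ D.Pos := by
        by_contra h8
        have := hneg h8
        linarith
      rw [if_pos h7, if_pos hbp, h5]
      rfl
    · have h6 : dotProduct p b < 0 := by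
        rw [hpb, h5]
        linarith
      have h7 : D.rt v b ∉ D.Pos := by
        intro h8
        have := hpos h8
        linarith
      rw [if_neg h7, if_pos hbp, h5]
      rfl
  · have hnb := (not_pos_iff hb).1 hbp
    obtain ⟨h3, h4⟩ := tau_ht hnb
    rw [← hM] at h4
    simp only [Pi.neg_apply, Finset.sum_neg_distrib] at h3 h4
    rcases h (-b) hnb with h5 | h5
    · rw [dotProduct_neg] at h5
      have h5' : dotProduct ν b = 0 := by linarith
      have h6 : dotProduct p b < 0 := by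
        rw [hpb, h5']
        linarith
      have h7 : D.rt v b ∉ D.Pos := by
        intro h8
        have := hpos h8
        linarith
      rw [if_neg h7, if_neg hbp, h5']
      rfl
    · rw [dotProduct_neg] at h5
      have h5' : dotProduct ν b = -1 := by linarith
      have h6 : 0 < dotProduct p b := by
        rw [hpb, h5']
        linarith
      have h7 : D.rt v b ∈ D.Pos := by
        by_contra h8
        have := hneg h8
        linarith
      rw [if_pos h7, if_neg hbp, h5']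
      rfl

private theorem tau_len (w : D.W) :
    (D.len w : ℤ) = ∑ a ∈ D.Pos, (if D.rt w a ∈ D.Pos then 0 else 1 : ℤ) := by
  unfold len
  rw [Finset.card_filter, Nat.cast_sum]
  refine Finset.sum_congr rfl fun a _ => ?_
  by_cases h : D.rt w a ∈ D.Pos
  · rw [if_pos h, if_neg (not_not.2 h), Nat.cast_zero]
  · rw [if_neg h, if_pos h, Nat.cast_one]

theorem IsTau.len {w : D.W} {ν : Fin r → ℤ} (h : D.IsTau w ν) (u : D.W) :
    (D.len (w * u) : ℤ) = D.len u - dotProduct ν (D.rt (w * u) D.tr) := by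
  have h1 : dotProduct ν (D.rt (w * u) D.tr) = ∑ a ∈ D.Pos, dotProduct ν (D.rt (w * u) a) := by
    unfold tr
    rw [D.rt_sum, dotProduct_sum]
  rw [h1, tau_len, tau_len, ← Finset.sum_sub_distrib]
  refine Finset.sum_congr rfl fun a ha => ?_
  have h2 := h (D.rt (w * u) a) (D.rt_mem.2 (mem_of_pos ha))
  have h3 : D.rt w⁻¹ (D.rt (w * u) a) = D.rt u a := by
    rw [D.rt_mul w u, D.rt_inv_rt]
  rw [h3] at h2
  linarith

end Pool.Agent.FLG.RS
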