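import Pool.Agent.FLG.Theta
import Pool.Agent.FLG.Tau

/-!
# FLG-GenP: the extended affine Weyl group is generated by the elementary elements

`(w, ν)` stands for `t_ν w`; `(w, ν) (u, μ) = (w u, ν + w μ)`. Induction on `∑ a ∈ Φ, (dotProduct ν a)^2`.
-/

set_option autoImplicit false

open scoped BigOperators

namespace Pool.Agent.FLG.RS

variable {r : ℕ} {D : RS r}

/-- the invariant form on the dual lattice -/
private def gF (D : RS r) (ν : Fin r → ℤ) : ℤ := ∑ a ∈ D.Φ, dotProduct ν a ^ 2

private theorem gF_nonneg (D : RS r) (ν : Fin r → ℤ) : 0 ≤ gF D ν :=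
  Finset.sum_nonneg fun _ _ => sq_nonneg _

private theorem g_reindex (D : RS r) (w : D.W) (f : (Fin r → ℤ) → ℤ) :
    ∑ a ∈ D.Φ, f (D.rt w a) = ∑ a ∈ D.Φ, f a := by
  refine Finset.sum_nbij' (D.rt w) (D.rt w⁻¹) (fun a ha => D.rt_mem.2 ha) (fun a ha => D.rt_mem.2 ha)
    (fun a _ => D.rt_inv_rt w a) (fun a _ => D.rt_rt_inv w a) (fun a _ => rfl)

private theorem gF_yt (D : RS r) (w : D.W) (ν : Fin r → ℤ) : gF D (D.yt w ν) = gF D ν := by
  unfold gF
  rw [← g_reindex D w⁻¹ fun a => dotProduct ν a ^ 2]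
  exact Finset.sum_congr rfl fun a _ => by rw [D.dot_yt]

private theorem gF_co {th : Fin r → ℤ} (h : th ∈ D.Φ) : 4 ≤ gF D (D.co th) := by
  have h1 : dotProduct (D.co th) th ^ 2 ≤ gF D (D.co th) :=
    Finset.single_le_sum (f := fun a => dotProduct (D.co th) a ^ 2) (fun a _ => sq_nonneg _) h
  rw [D.co_self th h] at h1
  linarith

private theorem gF_sub {th : Fin r → ℤ} (h : th ∈ D.Φ) (ν : Fin r → ℤ) :
    gF D (ν - D.co th) = gF D ν + (1 - dotProduct ν th) * gF D (D.co th) := by
  obtain ⟨S, hS⟩ : ∃ S, S = ∑ a ∈ D.Φ, dotProduct ν a * dotProduct (D.co th) a := ⟨_, rfl⟩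
  have h1 : S = -S + dotProduct ν th * gF D (D.co th) := by
    have h2 := g_reindex D (D.refl th) fun a => dotProduct ν a * dotProduct (D.co th) a
    rw [← hS] at h2
    have h3 : ∀ a ∈ D.Φ, dotProduct ν (D.rt (D.refl th) a) * dotProduct (D.co th) (D.rt (D.refl th) a) =
        -(dotProduct ν a * dotProduct (D.co th) a) + dotProduct ν th * dotProduct (D.co th) a ^ 2 := by
      intro a _
      rw [rt_refl h, dotProduct_sub, dotProduct_sub, dotProduct_smul, dotProduct_smul, D.co_self th h,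
        smul_eq_mul, smul_eq_mul]
      ring
    rw [Finset.sum_congr rfl h3, Finset.sum_add_distrib, Finset.sum_neg_distrib, ← hS,
      ← Finset.mul_sum] at h2
    exact h2.symm
  have h5 : gF D (ν - D.co th) = gF D ν - 2 * S + gF D (D.co th) := by
    rw [hS]
    unfold gF
    rw [Finset.mul_sum, ← Finset.sum_sub_distrib, ← Finset.sum_add_distrib]
    refine Finset.sum_congr rfl fun a _ => ?_
    rw [sub_dotProduct]
    ring
  rw [h5]
  linarith

private theorem generation_aux (G : D.W → Prop) (h1 : G 1) (hmul : ∀ w u, G w → G u → G (w * u))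
    (hs : ∀ i, G (D.s i)) (w : D.W) : G w := by
  have h2 : w ∈ Subgroup.closure (Set.range fun i => D.refl (Pi.single i 1)) := by
    rw [D.gen]
    exact Subgroup.mem_top w
  refine Subgroup.closure_induction (p := fun x _ => G x) ?_ h1 (fun x y _ _ => hmul x y) ?_ h2
  · rintro x ⟨i, rfl⟩
    exact hs i
  · intro x _ hx
    have h3 : ∀ n : ℕ, G (x ^ n) := by
      intro n
      induction n with
      | zero =>
        rw [pow_zero]
        exact h1
      | succ n ih =>
        rw [pow_succ]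
        exact hmul _ _ ih hx
    have h4 : x⁻¹ = x ^ (orderOf x - 1) := by
      refine inv_eq_of_mul_eq_one_left ?_
      rw [← pow_succ, Nat.sub_add_cancel (orderOf_pos x), pow_orderOf_eq_one]
    rw [h4]
    exact h3 _

theorem generation (G : D.W → (Fin r → ℤ) → Prop) (h1 : G 1 0)
    (hmul : ∀ w ν u μ, G w ν → G u μ → G (w * u) (ν + D.yt w μ)) (hs : ∀ i, G (D.s i) 0)
    (h0 : ∀ th, D.IsMax th → G (D.refl th) (D.co th)) (hτ : ∀ w ν, D.IsTau w ν → G w ν)
    (ν : Fin r → ℤ) : G 1 ν := by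
  have hW : ∀ w, G w 0 := by
    refine generation_aux (fun w => G w 0) h1 (fun w u hw hu => ?_) hs
    have h := hmul w 0 u 0 hw hu
    rw [D.yt_zero, add_zero] at h
    exact h
  have hyt : ∀ w μ, G 1 μ → G 1 (D.yt w μ) := by
    intro w μ h
    have h2 := hmul w 0 1 μ (hW w) h
    rw [mul_one, zero_add] at h2
    have h3 := hmul w _ w⁻¹ 0 h2 (hW w⁻¹)
    rw [mul_inv_cancel, D.yt_zero, add_zero] at h3
    exact h3
  have key : ∀ n : ℕ, ∀ μ, gF D μ < n → G 1 μ := by
    intro n
    induction n with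
    | zero =>
      intro μ hμ
      have h2 := gF_nonneg D μ
      rw [Nat.cast_zero] at hμ
      omega
    | succ n ih =>
      intro μ₀ hμ₀
      obtain ⟨w, hw⟩ := exists_dom D μ₀
      obtain ⟨μ, hμe⟩ : ∃ μ, μ = D.yt w μ₀ := ⟨_, rfl⟩
      rw [← hμe] at hw
      have hμ : gF D μ < n + 1 := by
        rw [hμe, gF_yt]
        push_cast at hμ₀
        exact hμ₀
      suffices h : G 1 μ by
        have h2 := hyt w⁻¹ μ h
        rw [hμe, D.yt_inv_yt] at h2
        exact h2
      by_cases hth : ∃ th, D.IsMax th ∧ 2 ≤ dotProduct μ th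
      · obtain ⟨th, hm, h2⟩ := hth
        have h3 := gF_sub hm.mem μ
        have h4 := gF_co hm.mem
        have h5 : gF D (μ - D.co th) < n := by
          rw [h3]
          nlinarith
        have h6 := ih _ h5
        have h7 := hmul _ _ _ _ (h0 th hm) (hW (D.refl th))
        rw [refl_mul_self hm.mem, D.yt_zero, add_zero] at h7
        have h8 := hmul _ _ _ _ h7 h6
        rw [D.yt_one, mul_one, add_sub_cancel] at h8
        exact h8
      · have h2 : ∀ a ∈ D.Pos, dotProduct μ a = 0 ∨ dotProduct μ a = 1 := by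
          intro a ha
          obtain ⟨th, hm, hle⟩ := exists_max (mem_of_pos ha)
          have h3 : dotProduct μ th < 2 := not_le.1 fun h => hth ⟨th, hm, h⟩
          have h4 : dotProduct μ a ≤ dotProduct μ th :=
            Finset.sum_le_sum fun i _ => mul_le_mul_of_nonneg_left (hle i) (hw i)
          have h5 : 0 ≤ dotProduct μ a :=
            Finset.sum_nonneg fun i _ => mul_nonneg (hw i) ((mem_Pos.1 ha).2 i)
          omega
        obtain ⟨x, hx⟩ := exists_tau D h2
        have h3 := hmul _ _ _ _ (hτ x μ hx) (hW x⁻¹)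
        rw [mul_inv_cancel, D.yt_zero, add_zero] at h3
        exact h3
  obtain ⟨n, hn⟩ : ∃ n : ℕ, gF D ν < n := by
    refine ⟨(gF D ν + 1).toNat, ?_⟩
    have h2 := gF_nonneg D ν
    omega
  exact key n ν hn

theorem generation_fin (G : D.W → Prop) (h1 : G 1) (hmul : ∀ w u, G w → G u → G (w * u))
    (hs : ∀ i, G (D.s i)) (w : D.W) : G w := by
  exact generation_aux G h1 hmul hs w

end Pool.Agent.FLG.RS
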