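import Pool.Agent.FLG.LenS

/-!
# FLG-CommA: the commutator of the quantum Chevalley operator and the divided difference operators

PLAN. Entry `(u, w)`. `(E A_i)_{u,w} = [s_i w < w] E_{u, s_i w}` (the sum over the middle index has one term), `(A_i E)_{u,w} = [u < s_i u] E_{s_i u, w}`
(`A_i` maps `v` to `u` iff `u = s_i v`, i.e. `v = s_i u`, and `len u < len v`). Both are sums over `a ∈ Pos` with the same condition
`u = s_i w s_a ↔ s_i u = w s_a`. Fix `a` with this condition, `x = s_i w`, so `u = x s_a`, `s_i u = w s_a`. Lengths change by `± 1` under `s_i`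
(`len_s_mul_of_pos/neg`). If `s_i w < w` and `u < s_i u` then `len u - len (s_i w) = len (s_i u) - len w` and the two terms cancel. If
`s_i w < w` and `s_i u < u`: `len (w s_a) - len w = len u - len x - 2`; a nonzero term of `E_{u,x}` has `len u - len x = 1` or `= 1 - L a`. The
second is impossible by `len_diff_le` for `w` (`-1 - L a`). In the first case `len x < len (x s_a)`, so `x a > 0` (`len_lt_of_neg`), and
`len (w s_a) < len w`, so `w a < 0` (`len_lt_of_pos`), `w a = s_i x a`; so `x a = al i` (`s_perm`), `refl a = x⁻¹ s_i x` (`refl_rt`), `u = s_i x = w`. Conversely for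
`u = w`: exactly one `a ∈ Pos` (`a = x⁻¹ al i = -w⁻¹ al i`) satisfies `u = x s_a` (`refl_inj`), its term is `c a = -c (w⁻¹ al i)`, and the quantum term
vanishes as `L a > 0`. The case `w < s_i w`, `u < s_i u` is symmetric (with the minus sign), and if
`w < s_i w`, `s_i u < u` both entries are zero and `u ≠ w`. Same proof for the graded pieces `E0` and `Eq t k`: for `Eq` no diagonal term.
-/

set_option autoImplicit false

open scoped BigOperators

namespace Pool.Agent.FLG.RS

variable {r : ℕ} {D : RS r}

private theorem ca_mulA (M : Matrix D.W D.W ℂ) (i : Fin r) (u w : D.W) :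
    (M * D.A i) u w = if D.len (D.s i * w) < D.len w then M u (D.s i * w) else 0 := by
  rw [Matrix.mul_apply, Finset.sum_eq_single (D.s i * w)]
  · unfold A
    rw [Matrix.of_apply]
    by_cases h : D.len (D.s i * w) < D.len w
    · rw [if_pos ⟨rfl, h⟩, if_pos h, mul_one]
    · rw [if_neg (fun h' => h h'.2), if_neg h, mul_zero]
  · intro v _ hv
    unfold A
    rw [Matrix.of_apply, if_neg (fun h' => hv h'.1), mul_zero]
  · intro h
    exact absurd (Finset.mem_univ _) h

private theorem ca_sq (i : Fin r) (w : D.W) : D.s i * (D.s i * w) = w := by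
  rw [← mul_assoc, s_mul_self, one_mul]

private theorem ca_Amul (M : Matrix D.W D.W ℂ) (i : Fin r) (u w : D.W) :
    (D.A i * M) u w = if D.len u < D.len (D.s i * u) then M (D.s i * u) w else 0 := by
  rw [Matrix.mul_apply, Finset.sum_eq_single (D.s i * u)]
  · unfold A
    rw [Matrix.of_apply]
    by_cases h : D.len u < D.len (D.s i * u)
    · rw [if_pos ⟨(ca_sq i u).symm, h⟩, if_pos h, one_mul]
    · rw [if_neg (fun h' => h h'.2), if_neg h, zero_mul]
  · intro v _ hv
    unfold A
    rw [Matrix.of_apply, if_neg, zero_mul]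
    rintro ⟨h', -⟩
    apply hv
    rw [h', ca_sq]
  · intro h
    exact absurd (Finset.mem_univ _) h

/-- the two conditions on the reflection agree -/
private theorem ca_iff (i : Fin r) (u w t : D.W) : u = D.s i * w * t ↔ D.s i * u = w * t := by
  constructor
  · intro h
    rw [h, mul_assoc, ca_sq]
  · intro h
    rw [mul_assoc, ← h, ca_sq]

private theorem ca_eq_al (i : Fin r) {b : Fin r → ℤ} (h1 : b ∈ D.Pos) (h2 : D.rt (D.s i) b ∉ D.Pos) :
    b = al i := by
  by_contra h
  exact h2 (s_perm i h1 h).1

private theorem ca_refl (i : Fin r) {x : D.W} {a : Fin r → ℤ} (h : D.rt x a = al i) :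
    x * D.refl a = D.s i * x := by
  have h1 : a = D.rt x⁻¹ (al i) := by rw [← h, D.rt_inv_rt]
  rw [h1, refl_rt x⁻¹ (D.al_mem i), inv_inv]
  unfold s
  group

theorem E0_A {c : (Fin r → ℤ) → ℂ} (hc : ∀ a ∈ D.Φ, c (-a) = -c a) (i : Fin r) :
    D.E0 c * D.A i - D.A i * D.E0 c = -Matrix.diagonal fun w => c (D.rt w⁻¹ (al i)) := by
  ext u w
  rw [Matrix.sub_apply, ca_mulA, ca_Amul, Matrix.neg_apply]
  have hlr : D.rt w⁻¹ (al i) ∈ D.Φ := D.act_mem _ _ (D.al_mem i)
  by_cases h1 : D.rt w⁻¹ (al i) ∈ D.Pos
  · have hw := len_s_mul_of_pos i w h1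
    rw [if_neg (by omega), zero_sub]
    by_cases h2 : D.rt u⁻¹ (al i) ∈ D.Pos
    · have hu := len_s_mul_of_pos i u h2
      rw [if_pos (by omega)]
      have key : ∀ a ∈ D.Pos, (D.s i * u = w * D.refl a ∧ D.len (D.s i * u) = D.len w + 1) ↔
          (u = w ∧ a = D.rt w⁻¹ (al i)) := by
        intro a ha
        constructor
        · rintro ⟨e1, e2⟩
          have e3 : D.rt w a ∈ D.Pos := by
            by_contra hcon
            have := len_lt_of_neg w ha hcon
            rw [← e1] at this
            omega
          have e4 : D.rt (D.s i * w) a ∉ D.Pos := by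
            intro hcon
            have := len_lt_of_pos (D.s i * w) ha hcon
            rw [← (ca_iff i u w (D.refl a)).2 e1] at this
            omega
          rw [D.rt_mul] at e4
          have e5 := ca_eq_al i e3 e4
          have e6 := ca_refl i e5
          rw [e6] at e1
          refine ⟨mul_left_cancel e1, ?_⟩
          rw [← e5, D.rt_inv_rt]
        · rintro ⟨rfl, rfl⟩
          refine ⟨?_, hw⟩
          rw [ca_refl i (D.rt_rt_inv _ _)]
      unfold E0
      rw [Matrix.of_apply]
      have hsum : (∑ a ∈ D.Pos, if D.s i * u = w * D.refl a ∧ D.len (D.s i * u) = D.len w + 1 then c a else 0) =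
          ∑ a ∈ D.Pos, if u = w ∧ a = D.rt w⁻¹ (al i) then c a else 0 := by
        apply Finset.sum_congr rfl
        intro a ha
        rw [if_congr (key a ha) rfl rfl]
      rw [hsum]
      congr 1
      by_cases huw : u = w
      · subst huw
        rw [Matrix.diagonal_apply_eq]
        rw [Finset.sum_eq_single (D.rt u⁻¹ (al i))]
        · rw [if_pos ⟨rfl, rfl⟩]
        · intro b _ hb
          rw [if_neg (fun h => hb h.2)]
        · intro h
          exact absurd h1 h
      · rw [Matrix.diagonal_apply_ne _ huw]
        apply Finset.sum_eq_zero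
        intro a _
        rw [if_neg (fun h => huw h.1)]
    · have hu := len_s_mul_of_neg i u h2
      rw [if_neg (by omega)]
      have huw : u ≠ w := by
        rintro rfl
        exact h2 h1
      rw [Matrix.diagonal_apply_ne _ huw]
  · have hw := len_s_mul_of_neg i w h1
    rw [if_pos (by omega)]
    by_cases h2 : D.rt u⁻¹ (al i) ∈ D.Pos
    · have hu := len_s_mul_of_pos i u h2
      rw [if_pos (by omega)]
      have huw : u ≠ w := by
        rintro rfl
        exact h1 h2
      rw [Matrix.diagonal_apply_ne _ huw, neg_zero, sub_eq_zero]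
      unfold E0
      rw [Matrix.of_apply, Matrix.of_apply]
      apply Finset.sum_congr rfl
      intro a _
      refine if_congr ?_ rfl rfl
      rw [ca_iff]
      constructor
      · rintro ⟨e1, e2⟩
        exact ⟨e1, by omega⟩
      · rintro ⟨e1, e2⟩
        exact ⟨e1, by omega⟩
    · have hu := len_s_mul_of_neg i u h2
      rw [if_neg (by omega), sub_zero]
      have ha0 : -D.rt w⁻¹ (al i) ∈ D.Pos := (not_pos_iff hlr).1 h1
      have hx0 : D.rt (D.s i * w) (-D.rt w⁻¹ (al i)) = al i := by
        rw [D.rt_neg, D.rt_mul, D.rt_rt_inv, rt_s_al, neg_neg]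
      have key : ∀ a ∈ D.Pos, (u = D.s i * w * D.refl a ∧ D.len u = D.len (D.s i * w) + 1) ↔
          (u = w ∧ a = -D.rt w⁻¹ (al i)) := by
        intro a ha
        constructor
        · rintro ⟨e1, e2⟩
          have e3 : D.rt (D.s i * w) a ∈ D.Pos := by
            by_contra hcon
            have := len_lt_of_neg (D.s i * w) ha hcon
            rw [← e1] at this
            omega
          have e4 : D.rt w a ∉ D.Pos := by
            intro hcon
            have := len_lt_of_pos w ha hcon
            rw [← (ca_iff i u w (D.refl a)).1 e1] at this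
            omega
          have e4' : D.rt (D.s i) (D.rt (D.s i * w) a) ∉ D.Pos := by
            rw [← D.rt_mul, ca_sq]
            exact e4
          have e5 := ca_eq_al i e3 e4'
          have e6 := ca_refl i e5
          rw [e6, ca_sq] at e1
          refine ⟨e1, ?_⟩
          exact D.rt_inj (D.s i * w) (e5.trans hx0.symm)
        · rintro ⟨rfl, rfl⟩
          refine ⟨?_, by omega⟩
          rw [ca_refl i hx0, ca_sq]
      unfold E0
      rw [Matrix.of_apply]
      have hsum : (∑ a ∈ D.Pos, if u = D.s i * w * D.refl a ∧ D.len u = D.len (D.s i * w) + 1 then c a else 0) =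
          ∑ a ∈ D.Pos, if u = w ∧ a = -D.rt w⁻¹ (al i) then c a else 0 := by
        apply Finset.sum_congr rfl
        intro a ha
        rw [if_congr (key a ha) rfl rfl]
      rw [hsum]
      by_cases huw : u = w
      · subst huw
        rw [Matrix.diagonal_apply_eq]
        rw [Finset.sum_eq_single (-D.rt u⁻¹ (al i))]
        · rw [if_pos ⟨rfl, rfl⟩, hc _ hlr]
        · intro b _ hb
          rw [if_neg (fun h => hb h.2)]
        · intro h
          exact absurd ha0 h
      · rw [Matrix.diagonal_apply_ne _ huw, neg_zero]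
        apply Finset.sum_eq_zero
        intro a _
        rw [if_neg (fun h => huw h.1)]

theorem Eq_A (c : (Fin r → ℤ) → ℂ) (t : Fin r → ℂ) (k : ℤ) (i : Fin r) :
    D.Eq c t k * D.A i = D.A i * D.Eq c t k := by
  ext u w
  rw [ca_mulA, ca_Amul]
  by_cases h1 : D.rt w⁻¹ (al i) ∈ D.Pos
  · have hw := len_s_mul_of_pos i w h1
    rw [if_neg (by omega)]
    by_cases h2 : D.rt u⁻¹ (al i) ∈ D.Pos
    · have hu := len_s_mul_of_pos i u h2
      rw [if_pos (by omega)]
      unfold RS.Eq
      rw [Matrix.of_apply]
      symm
      apply Finset.sum_eq_zero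
      intro a ha
      rw [if_neg]
      rintro ⟨e1, e2, -⟩
      have h3 := len_diff_le (D.s i * w) ha
      rw [← (ca_iff i u w (D.refl a)).2 e1] at h3
      have h4 := neg_abs_le ((D.len u : ℤ) - D.len (D.s i * w))
      omega
    · have hu := len_s_mul_of_neg i u h2
      rw [if_neg (by omega)]
  · have hw := len_s_mul_of_neg i w h1
    rw [if_pos (by omega)]
    by_cases h2 : D.rt u⁻¹ (al i) ∈ D.Pos
    · have hu := len_s_mul_of_pos i u h2
      rw [if_pos (by omega)]
      unfold RS.Eq
      rw [Matrix.of_apply, Matrix.of_apply]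
      apply Finset.sum_congr rfl
      intro a _
      refine if_congr ?_ rfl rfl
      rw [ca_iff]
      constructor
      · rintro ⟨e1, e2, e3⟩
        exact ⟨e1, by omega, e3⟩
      · rintro ⟨e1, e2, e3⟩
        exact ⟨e1, by omega, e3⟩
    · have hu := len_s_mul_of_neg i u h2
      rw [if_neg (by omega)]
      unfold RS.Eq
      rw [Matrix.of_apply]
      apply Finset.sum_eq_zero
      intro a ha
      rw [if_neg]
      rintro ⟨e1, e2, -⟩
      have h3 := len_diff_le w ha
      rw [← (ca_iff i u w (D.refl a)).1 e1] at h3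
      have h4 := neg_abs_le ((D.len (D.s i * u) : ℤ) - D.len w)
      omega

end Pool.Agent.FLG.RS
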