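import Pool.Agent.FLG.BDefs
import Pool.Agent.FLG.CommA
import Pool.Agent.FLG.GenP

/-!
# FLG-Lmat: the left action of the Weyl group

PLAN. `IsLeft.one'`: `M = 1` (`yt 1 y = y`). `IsLeft.mul`: `(w u)⁻¹ y = u⁻¹ (w⁻¹ y)`; `homog`: `yt` commutes with scalars; every field is immediate
(`homog` for the product: sum over the middle index, `x^{l(u)} M_{uk} N_{kv} = x^{l(k)} ... `: multiply out: for each `k`,
`x^{l u} M(xy)_{uk} N(xy')_{kv} = x^{l k} M(y)_{uk} N(xy')_{kv} = M(y)_{uk} x^{l v} N(y')_{kv}`).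
`IsLeft.simple`: `M y = 1 - pr (al i) y • A i`. `det`: `A i * A i = 0` (it maps `w` to `s_i w` only if the length drops), and `(1 - c A)` is unipotent: e.g. the determinant is a polynomial in `c`
with `det (1 - c A) * det (1 + c A) = det (1 - c^2 A^2) = 1`, or: `A i` is block triangular for the length (`Matrix.det_of_upperTriangular` after an order), or
reindex by pairs `{w, s_i w}`; another way: `det (1 - c A)` with `A^2 = 0` via `Matrix.isNilpotent_charpoly...`/`LinearMap`: `IsNilpotent A → det (1 + A) = 1` (`Matrix.det_one_add_of_isNilpotent`-like lemma, or `charpoly` of a nilpotent matrix is `X^n`: evaluate).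
`one`: column `1`: `A i u 1 = 0` because no element is shorter than `1`. `homog`: `A i u v ≠ 0` only if `len v = len u + 1` (`len_s_mul_of_*`).
`comm0`: `E0_A` with the labels `ch h` (odd: `co_neg`) and the diagonal part: for `λ = pr (al i) y`, `hv h u y - hv h u (s_i y) = λ * ch h (rt u⁻¹ (al i))` (`yt_refl`, `co_rt_eq`) and
`hv h (s i * u) y = hv h u (s_i y)`, which is what is needed for the entries `(s_i u, u)` of `diag * A i - A i * diag`. `commq`: `Eq_A`.
`exists_left`: `generation_fin`.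
-/

set_option autoImplicit false

open scoped BigOperators
open Pool.Agent.DST.TE

namespace Pool.Agent.FLG.RS

variable {r : ℕ} {D : RS r}

theorem ch_neg (h : Fin r → ℂ) : ∀ a ∈ D.Φ, D.ch h (-a) = -D.ch h a := by
  intro a ha
  unfold ch
  rw [co_neg ha, ← Finset.sum_neg_distrib]
  refine Finset.sum_congr rfl fun j _ => ?_
  rw [Pi.neg_apply]
  push_cast
  ring

theorem hv_mul (h : Fin r → ℂ) (w u : D.W) (y : Fin r → ℂ) :
    D.hv h (w * u) y = D.hv h u (D.yt w⁻¹ y) := by
  unfold hv
  rw [mul_inv_rev, D.yt_mul]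

theorem hv_ctr (u : D.W) (y : Fin r → ℂ) : D.hv D.ctr u y = pr (D.rt u D.tr) y := by
  rw [D.pr_rt]
  rfl

private theorem lm_cc (h : Fin r → ℂ) (u : D.W) {b : Fin r → ℤ} (hb : b ∈ D.Φ) :
    D.hv h u (cc (D.co b)) = D.ch h (D.rt u⁻¹ b) := by
  unfold hv ch
  rw [co_rt_eq u⁻¹ hb, D.yt_cc]
  rfl

private theorem lm_lin (h : Fin r → ℂ) (u : D.W) (c : ℂ) (x y : Fin r → ℂ) :
    D.hv h u (x - c • y) = D.hv h u x - c * D.hv h u y := by
  unfold hv
  rw [D.yt_sub, D.yt_smul, Finset.mul_sum, ← Finset.sum_sub_distrib]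
  refine Finset.sum_congr rfl fun j _ => ?_
  rw [Pi.sub_apply, Pi.smul_apply, smul_eq_mul]
  ring

theorem hv_refl (h : Fin r → ℂ) (u : D.W) {b : Fin r → ℤ} (hb : b ∈ D.Φ) (y : Fin r → ℂ) :
    D.hv h (D.refl b * u) y = D.hv h u y - pr b y * D.ch h (D.rt u⁻¹ b) := by
  rw [hv_mul, refl_inv hb, yt_refl hb, lm_lin, lm_cc h u hb]

theorem ch_ctr (a : Fin r → ℤ) : D.ch D.ctr a = D.L a := by
  unfold ch L dotProduct ctr
  push_cast
  exact Finset.sum_congr rfl fun j _ => mul_comm _ _

/-! ### entries -/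

private theorem lm_A (i : Fin r) (u v : D.W) : D.A i u v =
    if u = D.s i * v ∧ D.len u < D.len v then 1 else 0 := rfl

private theorem lm_Alen {i : Fin r} {u v : D.W} (h : D.A i u v ≠ 0) :
    u = D.s i * v ∧ D.len v = D.len u + 1 := by
  rw [lm_A] at h
  by_cases h1 : u = D.s i * v ∧ D.len u < D.len v
  · refine ⟨h1.1, ?_⟩
    have h4 := h1.2
    rw [h1.1] at h4 ⊢
    by_cases h2 : D.rt v⁻¹ (al i) ∈ D.Pos
    · have h3 := len_s_mul_of_pos i v h2
      omega
    · have h3 := len_s_mul_of_neg i v h2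
      omega
  · rw [if_neg h1] at h
    exact absurd rfl h

private theorem lm_diff (a : Fin r → ℤ) : Differentiable ℂ fun y : Fin r → ℂ => pr a y := by
  unfold pr
  fun_prop

private theorem lm_diff_yt (w : D.W) :
    Differentiable ℂ fun y : Fin r → ℂ => D.yt w y := by
  unfold RS.yt
  fun_prop

theorem IsLeft.one' : D.IsLeft 1 fun _ => 1 where
  diff u v := differentiable_const _
  zero := rfl
  det y := Matrix.det_one
  homog x y u v := by
    rw [Matrix.one_apply]
    by_cases h : u = v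
    · rw [h]
    · rw [if_neg h, mul_zero, mul_zero]
  one y u := Matrix.one_apply
  comm0 h y := by
    rw [inv_one, D.yt_one, mul_one, one_mul]
  commq c t k y := by
    rw [mul_one, one_mul]

theorem IsLeft.mul {w u : D.W} {M N : (Fin r → ℂ) → Matrix D.W D.W ℂ} (hM : D.IsLeft w M)
    (hN : D.IsLeft u N) : D.IsLeft (w * u) fun y => M y * N (D.yt w⁻¹ y) where
  diff a b := by
    have h1 : (fun y => (M y * N (D.yt w⁻¹ y)) a b) =
        fun y => ∑ k, M y a k * N (D.yt w⁻¹ y) k b := by
      funext y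
      exact Matrix.mul_apply
    rw [h1]
    refine Differentiable.fun_sum fun k _ => ?_
    exact (hM.diff a k).fun_mul ((hN.diff k b).comp (lm_diff_yt w⁻¹))
  zero := by
    rw [hM.zero, D.yt_zero, hN.zero, one_mul]
  det y := by
    rw [Matrix.det_mul, hM.det, hN.det, one_mul]
  homog x y a b := by
    rw [Matrix.mul_apply, Matrix.mul_apply, Finset.mul_sum, Finset.mul_sum]
    refine Finset.sum_congr rfl fun k _ => ?_
    have h1 : D.yt w⁻¹ (fun i => x * y i) = fun i => x * D.yt w⁻¹ y i := by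
      exact D.yt_smul w⁻¹ x y
    rw [h1]
    have h2 := hM.homog x y a k
    have h3 := hN.homog x (D.yt w⁻¹ y) k b
    calc x ^ D.len a * (M (fun i => x * y i) a k * N (fun i => x * D.yt w⁻¹ y i) k b)
        = (x ^ D.len a * M (fun i => x * y i) a k) * N (fun i => x * D.yt w⁻¹ y i) k b := by
          ring
      _ = M y a k * (x ^ D.len k * N (fun i => x * D.yt w⁻¹ y i) k b) := by
          rw [h2]
          ring
      _ = _ := by
          rw [h3]
          ring
  one y a := by
    rw [Matrix.mul_apply, ← hM.one y a]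
    rw [Finset.sum_eq_single 1]
    · rw [hN.one, if_pos rfl, mul_one]
    · intro k _ hk
      rw [hN.one, if_neg hk, mul_zero]
    · intro h
      exact absurd (Finset.mem_univ _) h
  comm0 h y := by
    rw [← mul_assoc, hM.comm0 h, mul_assoc, hN.comm0 h, mul_inv_rev, D.yt_mul, mul_assoc]
  commq c t k y := by
    rw [← mul_assoc, hM.commq c t, mul_assoc, hN.commq c t, mul_assoc]

private theorem lm_smul (c : ℂ) (i : Fin r) (u v : D.W) :
    (1 - c • D.A i) u v = (1 : Matrix D.W D.W ℂ) u v - c * D.A i u v := by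
  rw [Matrix.sub_apply, Matrix.smul_apply, smul_eq_mul]

private theorem lm_det (c : ℂ) (i : Fin r) : (1 - c • D.A i).det = 1 := by
  have hA : ∀ u v : D.W, ¬ D.len u < D.len v → D.A i u v = 0 := by
    intro u v h
    rw [lm_A, if_neg fun h' => h h'.2]
  have hT : Matrix.BlockTriangular (1 - c • D.A i) fun u : D.W => D.len u := by
    intro u v h
    rw [lm_smul, hA u v (by exact Nat.lt_asymm h), Matrix.one_apply_ne, mul_zero, sub_zero]
    rintro rfl
    exact absurd h (lt_irrefl _)
  rw [hT.det]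
  refine Finset.prod_eq_one fun k _ => ?_
  have h1 : Matrix.toSquareBlock (1 - c • D.A i) (fun u : D.W => D.len u) k = 1 := by
    ext u v
    rw [Matrix.toSquareBlock_def, Matrix.of_apply, lm_smul,
      hA u.1 v.1 (by rw [u.2, v.2]; exact lt_irrefl _), mul_zero, sub_zero, Matrix.one_apply,
      Matrix.one_apply]
    by_cases h : u = v
    · rw [if_pos h, if_pos (congrArg Subtype.val h)]
    · rw [if_neg h, if_neg fun h' => h (Subtype.ext h')]
  rw [h1, Matrix.det_one]

theorem IsLeft.simple (i : Fin r) : D.IsLeft (D.s i) fun y => 1 - pr (al i) y • D.A i where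
  diff u v := by
    have h1 : (fun y => (1 - pr (al i) y • D.A i) u v) =
        fun y => (1 : Matrix D.W D.W ℂ) u v - pr (al i) y * D.A i u v := by
      funext y
      exact lm_smul _ i u v
    rw [h1]
    exact (differentiable_const _).fun_sub ((lm_diff _).mul_const _)
  zero := by
    rw [pr_zero_right, zero_smul, sub_zero]
  det y := lm_det _ i
  homog x y u v := by
    have h0 : pr (al i) (fun j => x * y j) = x * pr (al i) y := pr_smul (al i) x y
    rw [lm_smul, lm_smul, h0, mul_sub, mul_sub]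
    congr 1
    · rw [Matrix.one_apply]
      by_cases h : u = v
      · rw [h]
      · rw [if_neg h, mul_zero, mul_zero]
    · by_cases h : D.A i u v = 0
      · rw [h]
        ring
      · rw [(lm_Alen h).2, pow_succ]
        ring
  one y u := by
    rw [lm_smul, lm_A, if_neg, mul_zero, sub_zero, Matrix.one_apply]
    rintro ⟨-, h⟩
    rw [len_one] at h
    exact absurd h (Nat.not_lt_zero _)
  comm0 h y := by
    have h1 := E0_A (ch_neg (D := D) h) i
    have h2 : (Matrix.diagonal fun u : D.W => D.hv h u (D.yt (D.s i)⁻¹ y)) =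
        (Matrix.diagonal fun u : D.W => D.hv h u y) -
          pr (al i) y • Matrix.diagonal fun u : D.W => D.ch h (D.rt u⁻¹ (al i)) := by
      rw [← Matrix.diagonal_smul, Matrix.diagonal_sub]
      congr 1
      funext u
      rw [← hv_mul]
      exact hv_refl h u (D.al_mem i) y
    have h3 : (Matrix.diagonal fun u : D.W => D.hv h u y) * D.A i =
        D.A i * Matrix.diagonal fun u : D.W => D.hv h u (D.yt (D.s i)⁻¹ y) := by
      ext u v
      rw [Matrix.diagonal_mul, Matrix.mul_diagonal]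
      by_cases h0 : D.A i u v = 0
      · rw [h0]
        ring
      · have h4 : D.hv h u y = D.hv h v (D.yt (D.s i)⁻¹ y) := by
          rw [(lm_Alen h0).1, ← hv_mul]
        rw [h4]
        ring
    unfold C0
    rw [sub_mul, mul_sub, mul_sub, sub_mul (1 : Matrix D.W D.W ℂ), mul_one, mul_one, one_mul,
      mul_smul_comm, mul_smul_comm, smul_mul_assoc, mul_sub, ← h3, smul_sub]
    rw [h2]
    have h5 : D.E0 (D.ch h) * D.A i = D.A i * D.E0 (D.ch h) -
        Matrix.diagonal fun w : D.W => D.ch h (D.rt w⁻¹ (al i)) := by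
      rw [sub_eq_iff_eq_add] at h1
      rw [h1]
      abel
    rw [h5, smul_sub]
    abel
  commq c t k y := by
    rw [mul_sub, sub_mul, mul_one, one_mul, mul_smul_comm, smul_mul_assoc, Eq_A]

theorem exists_left (w : D.W) : ∃ M, D.IsLeft w M := by
  refine generation_fin (fun w => ∃ M, D.IsLeft w M) ⟨_, IsLeft.one'⟩ ?_
    (fun i => ⟨_, IsLeft.simple i⟩) w
  rintro w u ⟨M, hM⟩ ⟨N, hN⟩
  exact ⟨_, hM.mul hN⟩

/-- the left action of `w` -/
noncomputable def Lw (w : D.W) : (Fin r → ℂ) → Matrix D.W D.W ℂ := (exists_left w).choose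

theorem isLeft_Lw (w : D.W) : D.IsLeft w (Lw w) := (exists_left w).choose_spec

private theorem lm_KK {a : Fin r → ℤ} (ha : a ∈ D.Pos) :
    (D.L a).toNat ∈ Finset.Icc 1 D.KK ∧ ((D.L a).toNat : ℤ) = D.L a := by
  have h1 := two_le_L ha
  rw [Finset.mem_Icc]
  refine ⟨⟨by omega, ?_⟩, Int.toNat_of_nonneg (by omega)⟩
  unfold KK
  exact Finset.single_le_sum (f := fun a => (D.L a).toNat) (fun _ _ => Nat.zero_le _) ha

/-- `E = E0 + ∑ Eq` -/
private theorem lm_E_eq (c : (Fin r → ℤ) → ℂ) (t : Fin r → ℂ) :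
    D.E c t = D.E0 c + ∑ k ∈ Finset.Icc 1 D.KK, D.Eq c t k := by
  ext u w
  rw [Matrix.add_apply, Matrix.sum_apply]
  unfold E E0 Eq
  simp only [Matrix.of_apply]
  rw [Finset.sum_comm, ← Finset.sum_add_distrib]
  refine Finset.sum_congr rfl fun a ha => ?_
  obtain ⟨h1, h2⟩ := lm_KK ha
  rw [Finset.sum_eq_single (D.L a).toNat]
  · rw [h2]
    by_cases hu : u = w * D.refl a
    · by_cases h3 : D.len u = D.len w + 1
      · by_cases h4 : (D.len u : ℤ) + D.L a = D.len w + 1
        · rw [if_pos hu, if_pos h3, if_pos h4, if_pos ⟨hu, h3⟩, if_pos ⟨hu, h4, rfl⟩]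
          ring
        · rw [if_pos hu, if_pos h3, if_neg h4, if_pos ⟨hu, h3⟩, if_neg fun h => h4 h.2.1]
          ring
      · by_cases h4 : (D.len u : ℤ) + D.L a = D.len w + 1
        · rw [if_pos hu, if_neg h3, if_pos h4, if_neg fun h => h3 h.2, if_pos ⟨hu, h4, rfl⟩]
          ring
        · rw [if_pos hu, if_neg h3, if_neg h4, if_neg fun h => h3 h.2, if_neg fun h => h4 h.2.1]
          ring
    · rw [if_neg hu, if_neg fun h => hu h.1, if_neg fun h => hu h.1, add_zero]
  · intro k _ hk
    rw [if_neg]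
    rintro ⟨-, -, h⟩
    apply hk
    omega
  · intro h
    exact absurd h1 h

/-- the full quantum product commutes with the left action -/
theorem IsLeft.comm {w : D.W} {M : (Fin r → ℂ) → Matrix D.W D.W ℂ} (hM : D.IsLeft w M)
    (h t y : Fin r → ℂ) : D.Cq h t y * M y = M y * D.Cq h t (D.yt w⁻¹ y) := by
  have h1 : ∀ x, D.Cq h t x = D.C0 h x + ∑ k ∈ Finset.Icc 1 D.KK, D.Eq (D.ch h) t k := by
    intro x
    unfold Cq C0
    rw [lm_E_eq]
    abel
  rw [h1, h1, add_mul, mul_add, hM.comm0 h, Finset.sum_mul, Finset.mul_sum]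
  congr 1
  exact Finset.sum_congr rfl fun k _ => hM.commq _ t _ y

end Pool.Agent.FLG.RS
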