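import Pool.Agent.FLG.Rmat

/-!
# FLG-Rleft: the restriction matrix and the left action, GKM relations

PLAN. `Rm_row_unique`: at a regular `y` the rows `Rm y p`, `p : W`, are eigenvectors of
`C0 ctr y` (acting on rows) with the pairwise different eigenvalues `-pr (rt p tr) y` (`hv_ctr`, `tr_regular`), none is zero (`Rm_one`), so they are a basis
(`Module.End.eigenvectors_linearIndependent` or: the matrix `Rm y` has nonzero determinant), and an eigenvector `ρ` for the eigenvalue of `p` is a multiple of `Rm y p`: write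
`ρ = ∑ c_q Rm y q`, compare. `Rm_left`: both sides are differentiable, hence continuous in `y`; at regular `y` use `Rm_row_unique`: the row `(Rm y * M y) p` is an eigenvector of `C0 ctr (w⁻¹ y)` (`comm0`) with the
eigenvalue `-pr (rt p tr) y = -pr (rt (w⁻¹ p) tr) (w⁻¹ y)`, and its entry at `1` is `Rm y p 1 = 1`. (`w⁻¹ y` is regular iff `y` is.)
`Rm_gkm`: for `b = rt x (al i)` (`exists_al`): `refl b = x s_i x⁻¹`; `Rm_left` for `x` reduces to `b = al i`: there `Rm y * (1 - 0) = Rm y` and `s_i y = y`.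
-/

set_option autoImplicit false

open scoped BigOperators
open Pool.Agent.DST.TE

namespace Pool.Agent.FLG.RS

variable {r : ℕ} {D : RS r}

private theorem rl_reg (w : D.W) {y : Fin r → ℂ} (hy : y ∈ D.Reg) : D.yt w⁻¹ y ∈ D.Reg := by
  refine ⟨fun a ha => ?_, fun p q hpq => ?_⟩
  · rw [← D.pr_rt]
    exact hy.1 _ (D.rt_mem.2 ha)
  · rw [← D.pr_rt, ← D.pr_rt, ← D.rt_mul, ← D.rt_mul]
    exact hy.2 _ _ fun h => hpq (mul_left_cancel h)

/-- a row eigenvector with value `1` at `1` is a row of `Rm` -/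
private theorem rl_unique {y : Fin r → ℂ} (hy : y ∈ D.Reg) (p : D.W) (ρ : D.W → ℂ)
    (h1 : Matrix.vecMul ρ (D.C0 D.ctr y) = (-D.hv D.ctr p y) • ρ) (h2 : ρ 1 = 1) :
    ρ = D.Rm y p := by
  have hinj : ∀ p q : D.W, p ≠ q → -D.hv D.ctr p y ≠ -D.hv D.ctr q y := by
    intro p q hpq h
    rw [neg_inj, hv_ctr, hv_ctr] at h
    exact hy.2 p q hpq h
  have hrow : ∀ p : D.W, Matrix.vecMul (D.Rm y p) (D.C0 D.ctr y) = (-D.hv D.ctr p y) • D.Rm y p := by
    intro p
    funext v
    have h := congrFun (congrFun (Rm_C0 (D := D) D.ctr y) p) v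
    rw [Matrix.diagonal_mul] at h
    exact h
  have hne : ∀ p : D.W, D.Rm y p ≠ 0 := by
    intro p h
    have h3 := congrFun h 1
    rw [Rm_one] at h3
    exact one_ne_zero h3
  have hli : LinearIndependent ℂ fun p => D.Rm y p := by
    refine Module.End.eigenvectors_linearIndependent' (Matrix.vecMulLinear (D.C0 D.ctr y))
      (fun p => -D.hv D.ctr p y) ?_ _ ?_
    · intro p q h
      by_contra hpq
      exact hinj p q hpq h
    · intro p
      refine ⟨?_, hne p⟩
      rw [Module.End.mem_eigenspace_iff]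
      exact hrow p
  have hcard : Fintype.card D.W = Module.finrank ℂ (D.W → ℂ) := (Module.finrank_fintype_fun_eq_card ℂ).symm
  have hspan := hli.span_eq_top_of_card_eq_finrank hcard
  have hmem : ρ ∈ Submodule.span ℂ (Set.range fun p => D.Rm y p) := by
    rw [hspan]
    exact Submodule.mem_top
  obtain ⟨c, hc⟩ := (Submodule.mem_span_range_iff_exists_fun ℂ).1 hmem
  have h3 : ∑ q, (c q * (-D.hv D.ctr q y - -D.hv D.ctr p y)) • D.Rm y q = 0 := by
    have h4 : Matrix.vecMul (∑ q, c q • D.Rm y q) (D.C0 D.ctr y) =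
        (-D.hv D.ctr p y) • ∑ q, c q • D.Rm y q := by
      rw [hc]
      exact h1
    have h5 : Matrix.vecMul (∑ q, c q • D.Rm y q) (D.C0 D.ctr y) =
        ∑ q, c q • ((-D.hv D.ctr q y) • D.Rm y q) := by
      have h6 := map_sum (Matrix.vecMulLinear (D.C0 D.ctr y)) (fun q => c q • D.Rm y q) Finset.univ
      refine h6.trans (Finset.sum_congr rfl fun q _ => ?_)
      rw [map_smul]
      congr 1
      exact hrow q
    rw [h5, Finset.smul_sum] at h4
    rw [← sub_eq_zero, ← Finset.sum_sub_distrib] at h4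
    rw [← h4]
    refine Finset.sum_congr rfl fun q _ => ?_
    rw [smul_smul, smul_smul, ← sub_smul]
    congr 1
    ring
  have h7 := Fintype.linearIndependent_iff.1 hli _ h3
  have h8 : ∀ q, q ≠ p → c q = 0 := by
    intro q hq
    rcases mul_eq_zero.1 (h7 q) with h | h
    · exact h
    · exact absurd (sub_eq_zero.1 h) (hinj q p hq)
  have h9 : ρ = c p • D.Rm y p := by
    rw [← hc]
    exact Finset.sum_eq_single p (fun q _ hq => by rw [h8 q hq, zero_smul])
      (fun h => absurd (Finset.mem_univ p) h)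
  have h10 : c p = 1 := by
    have h11 := congrFun h9 1
    rw [h2, Pi.smul_apply, Rm_one, smul_eq_mul, mul_one] at h11
    exact h11.symm
  rw [h9, h10, one_smul]

private theorem rl_cont (w : D.W) : Continuous fun y : Fin r → ℂ => D.yt w⁻¹ y := by
  unfold yt
  fun_prop

theorem Rm_left {w : D.W} {M : (Fin r → ℂ) → Matrix D.W D.W ℂ} (hM : D.IsLeft w M)
    (y : Fin r → ℂ) (p v : D.W) : (D.Rm y * M y) p v = D.Rm (D.yt w⁻¹ y) (w⁻¹ * p) v := by
  have h1 : Continuous fun y => (D.Rm y * M y) p v := by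
    simp only [Matrix.mul_apply]
    refine continuous_finset_sum _ fun u _ => ?_
    exact (Rm_diff p u).continuous.mul (hM.diff u v).continuous
  have h2 : Continuous fun y => D.Rm (D.yt w⁻¹ y) (w⁻¹ * p) v :=
    (Rm_diff (w⁻¹ * p) v).continuous.comp (rl_cont w)
  refine congrFun (Continuous.ext_on (dense_reg D) h1 h2 ?_) y
  intro y hy
  have h3 := rl_unique (rl_reg w hy) (w⁻¹ * p) (fun v => (D.Rm y * M y) p v) ?_ ?_
  · exact congrFun h3 v
  · funext v
    have h4 : D.Rm y * M y * D.C0 D.ctr (D.yt w⁻¹ y) =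
        Matrix.diagonal (fun p => -D.hv D.ctr p y) * (D.Rm y * M y) := by
      rw [Matrix.mul_assoc, ← hM.comm0, ← Matrix.mul_assoc, Rm_C0, Matrix.mul_assoc]
    have h5 := congrFun (congrFun h4 p) v
    rw [Matrix.diagonal_mul] at h5
    rw [Pi.smul_apply, smul_eq_mul]
    have h6 : D.hv D.ctr (w⁻¹ * p) (D.yt w⁻¹ y) = D.hv D.ctr p y := by
      rw [← hv_mul, mul_inv_cancel_left]
    rw [h6]
    exact h5
  · simp only [Matrix.mul_apply, hM.one]
    rw [Finset.sum_eq_single (1 : D.W)]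
    · rw [if_pos rfl, mul_one, Rm_one]
    · intro u _ hu
      rw [if_neg hu, mul_zero]
    · intro h
      exact absurd (Finset.mem_univ _) h

theorem Rm_gkm {b : Fin r → ℤ} (hb : b ∈ D.Φ) {y : Fin r → ℂ} (hy : pr b y = 0) (p v : D.W) :
    D.Rm y (D.refl b * p) v = D.Rm y p v := by
  obtain ⟨x, i, hx⟩ := exists_al hb
  have hy' : pr (al i) (D.yt x⁻¹ y) = 0 := by
    rw [← D.pr_rt, hx]
    exact hy
  have h1 : ∀ q v : D.W, D.Rm (D.yt x⁻¹ y) (D.s i * q) v = D.Rm (D.yt x⁻¹ y) q v := by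
    intro q v
    have h2 := Rm_left (IsLeft.simple (D := D) i) (D.yt x⁻¹ y) (D.s i * (D.s i * q)) v
    have h3 : D.yt (D.s i)⁻¹ (D.yt x⁻¹ y) = D.yt x⁻¹ y := by
      rw [s_inv]
      have h4 := yt_refl (D := D) (D.al_mem i) (D.yt x⁻¹ y)
      rw [hy', zero_smul, sub_zero] at h4
      exact h4
    simp only [hy', zero_smul, sub_zero, Matrix.mul_one] at h2
    rw [h3, inv_mul_cancel_left, ← mul_assoc, s_mul_self, one_mul] at h2
    exact h2.symm
  have h5 : ∀ v : D.W, (D.Rm y * Lw x y) (D.refl b * p) v = (D.Rm y * Lw x y) p v := by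
    intro v
    rw [Rm_left (isLeft_Lw x), Rm_left (isLeft_Lw x), ← hx, refl_rt x (D.al_mem i)]
    have h6 : x⁻¹ * (x * D.refl (al i) * x⁻¹ * p) = D.s i * (x⁻¹ * p) := by
      unfold s
      group
    rw [h6, h1]
  have hdet : IsUnit (Lw x y).det := by
    rw [(isLeft_Lw x).det]
    exact isUnit_one
  have h7 : ∀ q v : D.W, D.Rm y q v = Matrix.vecMul (fun u => (D.Rm y * Lw x y) q u) (Lw x y)⁻¹ v := by
    intro q v
    have h8 : D.Rm y = D.Rm y * Lw x y * (Lw x y)⁻¹ := by
      rw [Matrix.mul_assoc, Matrix.mul_nonsing_inv _ hdet, Matrix.mul_one]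
    exact congrFun (congrFun h8 q) v
  rw [h7, h7]
  simp only [h5]

end Pool.Agent.FLG.RS
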