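import Pool.Agent.FLG.Tau

/-!
# FLG-CommM: the quantum Chevalley operator commutes with the operators of the elements of length zero

PLAN. `(E Mτ)_{v,u} = E_{v, x u} q^{(x u)⁻¹ ν}`, `(Mτ E)_{v,u} = q^{v⁻¹ ν} E_{x⁻¹ v, u}`. Both are sums over `a ∈ Pos` with `v = x u s_a`. Put
`c = dotProduct ν (rt (x * u) a)`: `yt v⁻¹ ν = yt s_a (yt (x u)⁻¹ ν) = yt (x u)⁻¹ ν - c • co a` (`yt` of a reflection on integral vectors, as in `yt_refl`).
Lengths by `IsTau.len`: `len (x u s_a) - len (x u) = len (u s_a) - len u + c * L a` (`rt (refl a) tr = tr - L a • a`). A nonzero term of `E` is an edge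
`(v, a, m)`: `len (v s_a) - len v + m L a = 1`, weight `L a q^{m co a}`; edges for arbitrary integers `m` have `m ∈ {0, 1}` by `len_diff_le`. `(x u, a, m)` is an edge iff
`(u, a, m + c)` is (length equation), and `yt (x u)⁻¹ ν + m • co a = yt v⁻¹ ν + (m + c) • co a`, so the weights agree.
-/

set_option autoImplicit false

open scoped BigOperators

namespace Pool.Agent.FLG.RS

variable {r : ℕ} {D : RS r}

private theorem yt_refl_int {a : Fin r → ℤ} (ha : a ∈ D.Φ) (ν : Fin r → ℤ) :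
    D.yt (D.refl a) ν = ν - dotProduct ν a • D.co a := by
  funext j
  rw [← dot_al (D.yt (D.refl a) ν) j, D.dot_yt, refl_inv ha, rt_refl ha, dot_al, dotProduct_sub,
    dotProduct_smul, dot_al, Pi.sub_apply, Pi.smul_apply, smul_eq_mul, smul_eq_mul]
  ring

private theorem scal (p q p' q' : ℕ) (L n : ℤ) (z Q : ℂ) (hz : z ≠ 0) (h1 : |(p : ℤ) - q| + 1 ≤ L)
    (h2 : |(p' : ℤ) - q'| + 1 ≤ L) (h3 : (p : ℤ) - q = p' - q' + L * n) :
    ((if p = q + 1 then (1 : ℂ) else 0) + (if (p : ℤ) + L = q + 1 then z else 0)) * Q =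
      Q * z ^ (-n) * ((if p' = q' + 1 then (1 : ℂ) else 0) +
        (if (p' : ℤ) + L = q' + 1 then z else 0)) := by
  have hL : 1 ≤ L := by linarith [abs_nonneg ((p : ℤ) - q)]
  have a1 := abs_le.1 (show |(p : ℤ) - q| ≤ L - 1 by linarith)
  have a2 := abs_le.1 (show |(p' : ℤ) - q'| ≤ L - 1 by linarith)
  have n1 : n < 2 := by
    refine lt_of_mul_lt_mul_left (a := L) ?_ (by linarith)
    linarith [a1.2, a2.1]
  have n2 : -2 < n := by
    refine lt_of_mul_lt_mul_left (a := L) ?_ (by linarith)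
    linarith [a1.1, a2.2]
  obtain ⟨a1l, a1r⟩ := a1
  obtain ⟨a2l, a2r⟩ := a2
  have hn : n = 0 ∨ n = 1 ∨ n = -1 := by omega
  rcases hn with rfl | rfl | rfl
  · rw [neg_zero, zpow_zero]
    rw [mul_zero] at h3
    split_ifs <;> first | (exfalso; omega) | ring
  · rw [zpow_neg, zpow_one]
    rw [mul_one] at h3
    split_ifs <;> first | (exfalso; omega) | (field_simp; ring)
  · rw [neg_neg, zpow_one]
    rw [mul_neg, mul_one] at h3
    split_ifs <;> first | (exfalso; omega) | ring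

theorem E_Mτ (c : (Fin r → ℤ) → ℂ) {x : D.W} {ν : Fin r → ℤ} (h : D.IsTau x ν)
    (t : Fin r → ℂ) : D.E c t * D.Mτ x ν t = D.Mτ x ν t * D.E c t := by
  ext v u
  rw [Matrix.mul_apply, Matrix.mul_apply]
  have hl : ∑ w, D.E c t v w * D.Mτ x ν t w u = D.E c t v (x * u) * qq t (D.yt (x * u)⁻¹ ν) := by
    rw [Finset.sum_eq_single (x * u)]
    · rw [Mτ, Matrix.of_apply, if_pos rfl]
    · intro w _ hw
      rw [Mτ, Matrix.of_apply, if_neg hw, mul_zero]
    · exact fun h => absurd (Finset.mem_univ _) h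
  have hr : ∑ w, D.Mτ x ν t v w * D.E c t w u = qq t (D.yt v⁻¹ ν) * D.E c t (x⁻¹ * v) u := by
    rw [Finset.sum_eq_single (x⁻¹ * v)]
    · rw [Mτ, Matrix.of_apply, if_pos (mul_inv_cancel_left x v).symm]
    · intro w _ hw
      rw [Mτ, Matrix.of_apply, if_neg, zero_mul]
      rintro rfl
      exact hw (inv_mul_cancel_left x w).symm
    · exact fun h => absurd (Finset.mem_univ _) h
  rw [hl, hr, E, Matrix.of_apply, Matrix.of_apply, Finset.sum_mul, Finset.mul_sum]
  refine Finset.sum_congr rfl fun a ha => ?_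
  by_cases hv : v = x * u * D.refl a
  · have hv' : x⁻¹ * v = u * D.refl a := by rw [hv, mul_assoc, inv_mul_cancel_left]
    rw [if_pos hv, if_pos hv']
    have haΦ := mem_of_pos ha
    have h1 := len_diff_le (x * u) ha
    have h2 := len_diff_le u ha
    rw [← hv] at h1
    rw [← hv'] at h2
    have h3 : (D.len v : ℤ) - D.len (x * u) =
        D.len (x⁻¹ * v) - D.len u + D.L a * dotProduct ν (D.rt (x * u) a) := by
      have e1 := h.len u
      have e2 := h.len (x⁻¹ * v)
      rw [mul_inv_cancel_left] at e2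
      have e3 : D.rt v D.tr = D.rt (x * u) D.tr - D.L a • D.rt (x * u) a := by
        rw [hv, D.rt_mul, rt_refl haΦ, D.rt_sub, D.rt_smul]
        rfl
      rw [e3, dotProduct_sub, dotProduct_smul, smul_eq_mul] at e2
      linarith
    have h4 : qq t (D.yt v⁻¹ ν) = qq t (D.yt (x * u)⁻¹ ν) *
        qq t (D.co a) ^ (-dotProduct ν (D.rt (x * u) a)) := by
      have e1 : D.yt v⁻¹ ν = D.yt (x * u)⁻¹ ν + (-dotProduct ν (D.rt (x * u) a)) • D.co a := by
        rw [hv, mul_inv_rev, refl_inv haΦ, D.yt_mul, yt_refl_int haΦ, D.dot_yt, inv_inv, neg_smul,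
          sub_eq_add_neg]
      rw [e1, qq_add, qq_smul]
    have h5 := scal (D.len v) (D.len (x * u)) (D.len (x⁻¹ * v)) (D.len u) (D.L a)
      (dotProduct ν (D.rt (x * u) a)) (qq t (D.co a)) (qq t (D.yt (x * u)⁻¹ ν)) (qq_ne_zero _ _) h1 h2 h3
    rw [h4, mul_assoc, h5]
    ring
  · rw [if_neg hv, if_neg, zero_mul, mul_zero]
    intro hv'
    apply hv
    rw [mul_assoc, ← hv', mul_inv_cancel_left]

end Pool.Agent.FLG.RS
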