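import Pool.Agent.FLG.Theta

/-!
# FLG-CommT: the commutator of the quantum Chevalley operator and the affine divided difference operators

Put `s = refl b`, `c = co b ⬝ᵥ rt w a` for `a ∈ Pos`. The entries of `E Aθ` and of `Aθ E` at `(u, w)` are sums over the `a ∈ Pos` with
`u = s w s_a`; the terms cancel unless `a = ± w⁻¹ b`, and these terms give the diagonal entry.
-/

set_option autoImplicit false

open scoped BigOperators

namespace Pool.Agent.FLG.RS

variable {r : ℕ} {D : RS r}

/-- the term of a positive root in the quantum Chevalley operator -/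
private noncomputable def Tm (D : RS r) (c : (Fin r → ℤ) → ℂ) (t : Fin r → ℂ) (v : D.W)
    (a : Fin r → ℤ) : ℂ :=
  c a * ((if D.len (v * D.refl a) = D.len v + 1 then 1 else 0) +
      (if (D.len (v * D.refl a) : ℤ) + D.L a = D.len v + 1 then qq t (D.co a) else 0))

private theorem E_apply (c : (Fin r → ℤ) → ℂ) (t : Fin r → ℂ) (u w : D.W) :
    D.E c t u w = ∑ a ∈ D.Pos, if u = w * D.refl a then Tm D c t w a else 0 := by
  unfold E
  rw [Matrix.of_apply]
  refine Finset.sum_congr rfl fun a _ => ?_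
  by_cases h : u = w * D.refl a
  · rw [if_pos h, if_pos h, h]
    rfl
  · rw [if_neg h, if_neg h]

private theorem two_le_L' {a : Fin r → ℤ} (ha : a ∈ D.Pos) : 2 ≤ D.L a := two_le_L ha

private theorem rt_mul_refl_tr (w : D.W) {a : Fin r → ℤ} (ha : a ∈ D.Pos) :
    D.rt (w * D.refl a) D.tr = D.rt w D.tr - D.L a • D.rt w a := by
  rw [D.rt_mul, rt_refl (mem_of_pos ha), D.rt_sub, D.rt_smul]
  rfl

/-- the change of the lengths -/
private theorem len_s {b : Fin r → ℤ} (h : D.IsMax b) (w : D.W) {a : Fin r → ℤ}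
    (ha : a ∈ D.Pos) :
    (D.len (D.refl b * w * D.refl a) : ℤ) - D.len (D.refl b * w) =
      D.len (w * D.refl a) - D.len w - dotProduct (D.co b) (D.rt w a) * D.L a
      - (if D.rt (w * D.refl a)⁻¹ b ∈ D.Pos then 1 else -1)
      + (if D.rt w⁻¹ b ∈ D.Pos then 1 else -1) := by
  rw [mul_assoc, h.len w, h.len (w * D.refl a), rt_mul_refl_tr w ha, dotProduct_sub,
    dotProduct_smul, smul_eq_mul]
  ring

private theorem co_mul_refl {b : Fin r → ℤ} (hb : b ∈ D.Φ) (w : D.W) {a : Fin r → ℤ}
    (ha : a ∈ D.Φ) :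
    D.co (D.rt (w * D.refl a)⁻¹ b) =
      D.co (D.rt w⁻¹ b) - dotProduct (D.co b) (D.rt w a) • D.co a := by
  funext j
  rw [← dot_al (D.co (D.rt (w * D.refl a)⁻¹ b)) j, co_rt _ hb, inv_inv, D.rt_mul, rt_refl ha,
    D.rt_sub, D.rt_smul, dotProduct_sub, dotProduct_smul, dot_al, Pi.sub_apply, Pi.smul_apply,
    ← dot_al (D.co (D.rt w⁻¹ b)) j, co_rt _ hb, inv_inv, smul_eq_mul, smul_eq_mul]
  ring

private theorem qq_mul_refl {b : Fin r → ℤ} (hb : b ∈ D.Φ) (t : Fin r → ℂ) (w : D.W)
    {a : Fin r → ℤ} (ha : a ∈ D.Φ) :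
    qq t (-D.co (D.rt (w * D.refl a)⁻¹ b)) =
      qq t (-D.co (D.rt w⁻¹ b)) * qq t (D.co a) ^ dotProduct (D.co b) (D.rt w a) := by
  rw [co_mul_refl hb w ha, neg_sub', sub_neg_eq_add, qq_add, qq_smul]

/-- the elementary identity behind the cancellation -/
private theorem cancel_aux (d d' c l : ℤ) (Q : ℂ) (hQ : Q ≠ 0) (h : d' = d - c * l)
    (hd : |d| + 1 ≤ l) (hd' : |d'| + 1 ≤ l) :
    ((if d' = 1 then 1 else 0) + (if d' + l = 1 then Q else 0) : ℂ) =
      Q ^ c * ((if d = 1 then 1 else 0) + (if d + l = 1 then Q else 0)) := by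
  have h1 := abs_le.1 (show |d| ≤ l - 1 by linarith)
  have h2 := abs_le.1 (show |d'| ≤ l - 1 by linarith)
  have hl : 1 ≤ l := by have := abs_nonneg d; linarith
  have hc1 : c ≤ 1 := by
    by_contra hc
    have : 2 ≤ c := by omega
    nlinarith
  have hc2 : -1 ≤ c := by
    by_contra hc
    have : c ≤ -2 := by omega
    nlinarith
  have h3 : c = -1 ∨ c = 0 ∨ c = 1 := by omega
  rcases h3 with rfl | rfl | rfl
  · have h4 : d' = d + l := by rw [h]; ring
    have h5 : ¬ d = 1 := by omega
    have h6 : ¬ d' + l = 1 := by omega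
    rw [if_neg h5, if_neg h6]
    by_cases h7 : d' = 1
    · rw [if_pos h7, if_pos (by omega), zpow_neg_one, add_zero, zero_add,
        inv_mul_cancel₀ hQ]
    · rw [if_neg h7, if_neg (by omega), add_zero, mul_zero]
  · have h4 : d' = d := by rw [h]; ring
    rw [h4, zpow_zero, one_mul]
  · have h4 : d' = d - l := by rw [h]; ring
    have h5 : ¬ d' = 1 := by omega
    have h6 : ¬ d + l = 1 := by omega
    rw [if_neg h5, if_neg h6, zpow_one, add_zero, zero_add]
    by_cases h7 : d = 1
    · rw [if_pos h7, if_pos (by omega), mul_one]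
    · rw [if_neg h7, if_neg (by omega), mul_zero]

private theorem Tm_eq (c : (Fin r → ℤ) → ℂ) (t : Fin r → ℂ) (v : D.W) (a : Fin r → ℤ) :
    Tm D c t v a = c a *
      ((if (D.len (v * D.refl a) : ℤ) - D.len v = 1 then 1 else 0) +
      (if ((D.len (v * D.refl a) : ℤ) - D.len v) + D.L a = 1 then qq t (D.co a) else 0)) := by
  unfold Tm
  congr 2
  · congr 1
    exact propext (by omega)
  · congr 1
    exact propext (by omega)

/-- both roots positive: the terms cancel -/
private theorem Tm_cancel (f : (Fin r → ℤ) → ℂ) {b : Fin r → ℤ} (h : D.IsMax b)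
    (t : Fin r → ℂ) (w : D.W) {a : Fin r → ℤ} (ha : a ∈ D.Pos) (h1 : D.rt w⁻¹ b ∈ D.Pos)
    (h2 : D.rt (w * D.refl a)⁻¹ b ∈ D.Pos) :
    Tm D f t (D.refl b * w) a =
      qq t (D.co a) ^ dotProduct (D.co b) (D.rt w a) * Tm D f t w a := by
  have h3 := len_s h w ha
  rw [if_pos h1, if_pos h2] at h3
  rw [Tm_eq, Tm_eq, cancel_aux ((D.len (w * D.refl a) : ℤ) - D.len w)
    ((D.len (D.refl b * w * D.refl a) : ℤ) - D.len (D.refl b * w))
    (dotProduct (D.co b) (D.rt w a)) (D.L a) (qq t (D.co a)) (qq_ne_zero t _)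
    (by linarith) (len_diff_le w ha) (len_diff_le _ ha)]
  ring

/-- opposite signs: only the root `w⁻¹ b` contributes -/
private theorem Tm_core (f : (Fin r → ℤ) → ℂ) {b : Fin r → ℤ} (h : D.IsMax b)
    (t : Fin r → ℂ) (w : D.W) {a : Fin r → ℤ} (ha : a ∈ D.Pos) (h1 : D.rt w⁻¹ b ∈ D.Pos)
    (h2 : D.rt (w * D.refl a)⁻¹ b ∉ D.Pos) :
    Tm D f t (D.refl b * w) a = if a = D.rt w⁻¹ b then f a * qq t (D.co a) else 0 := by
  have haΦ := mem_of_pos ha
  have hb := h.mem
  have hL := two_le_L ha
  have h3 := len_s h w ha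
  rw [if_pos h1, if_neg h2] at h3
  have h4 := len_diff_le w ha
  have h5 := abs_le.1 (show |(D.len (w * D.refl a) : ℤ) - D.len w| ≤ D.L a - 1 by linarith)
  have hv : D.rt (D.refl b * w) a = D.rt w a - dotProduct (D.co b) (D.rt w a) • b := by
    rw [D.rt_mul, rt_refl hb]
  split_ifs with hab
  · have hwa : D.rt w a = b := by rw [hab, D.rt_rt_inv]
    have hc : dotProduct (D.co b) (D.rt w a) = 2 := by rw [hwa, D.co_self b hb]
    have hws : w * D.refl a = D.refl b * w := by
      have := refl_rt w haΦ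
      rw [hwa] at this
      rw [this, inv_mul_cancel_right]
    have h6 : (D.len (D.refl b * w * D.refl a) : ℤ) - D.len (D.refl b * w) = 1 - D.L a := by
      have h7 := h.len w
      rw [if_pos h1] at h7
      have h8 : dotProduct (D.co b) (D.rt w D.tr) = D.L a := by
        unfold L
        rw [hab, co_rt _ hb, inv_inv]
      have h9 : D.refl b * w * D.refl a = w := by
        rw [← hws, mul_assoc, refl_mul_self haΦ, mul_one]
      rw [h9, h7, h8]
      ring
    rw [Tm_eq, h6, if_neg (by omega), if_pos (by ring), zero_add]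
  · rw [Tm_eq]
    have key : ∀ m : ℤ, m = 0 ∨ m = 1 →
        (D.len (D.refl b * w * D.refl a) : ℤ) - D.len (D.refl b * w) + m * D.L a = 1 → False := by
      intro m hm h6
      set c := dotProduct (D.co b) (D.rt w a) with hc
      set d := (D.len (w * D.refl a) : ℤ) - D.len w with hd
      have h7 : d = (c - m) * D.L a - 1 := by linarith
      have h8 : 0 ≤ c - m := by
        by_contra hcm
        have : c - m ≤ -1 := by omega
        nlinarith
      have h9 : c - m ≤ 1 := by
        by_contra hcm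
        have : 2 ≤ c - m := by omega
        nlinarith
      have hneg : c = m → D.rt w a ∉ D.Pos := by
        intro hcm hp
        have h10 := len_lt_of_pos w ha hp
        rw [hcm, sub_self, zero_mul] at h7
        omega
      rcases hm with rfl | rfl
      · have hη : D.rt (D.refl b * w) a ∈ D.Pos := by
          by_contra hn
          have := len_lt_of_neg _ ha hn
          omega
        rw [hv] at hη
        have hc' : c = 0 ∨ c = 1 := by omega
        rcases hc' with hc' | hc'
        · apply hneg hc'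
          rw [hc', zero_smul, sub_zero] at hη
          exact hη
        · rw [hc', one_smul] at hη
          apply neg_not_pos hη
          apply h.pos_of_pos (neg_mem (mem_of_pos hη))
          rw [dotProduct_neg, dotProduct_sub, ← hc, D.co_self b hb]
          omega
      · have hc' : c = 1 ∨ c = 2 := by omega
        rcases hc' with hc' | hc'
        · apply hneg hc'
          exact h.pos_of_pos (D.rt_mem.2 haΦ) (by rw [← hc]; omega)
        · by_cases hb1 : D.rt w a = b
          · exact hab (by rw [← hb1, D.rt_inv_rt])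
          · by_cases hb2 : D.rt w a = -b
            · rw [hc, hb2, dotProduct_neg, D.co_self b hb] at hc'
              omega
            · have := (h.le_one (D.rt_mem.2 haΦ) hb1 hb2).1
              rw [← hc] at this
              omega
    have k0 := key 0 (Or.inl rfl)
    have k1 := key 1 (Or.inr rfl)
    rw [zero_mul, add_zero] at k0
    rw [one_mul] at k1
    rw [if_neg k0, if_neg k1, add_zero, mul_zero]

private theorem rt_s_inv {b : Fin r → ℤ} (hb : b ∈ D.Φ) (w : D.W) :
    D.rt (D.refl b * w)⁻¹ b = -D.rt w⁻¹ b := by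
  rw [mul_inv_rev, D.rt_mul, refl_inv hb, rt_refl_self hb, D.rt_neg]

private theorem term_eq (f : (Fin r → ℤ) → ℂ) {b : Fin r → ℤ} (h : D.IsMax b)
    (t : Fin r → ℂ) (w : D.W) {a : Fin r → ℤ} (ha : a ∈ D.Pos) :
    Tm D f t (D.refl b * w) a * (if D.rt w⁻¹ b ∈ D.Pos then qq t (-D.co (D.rt w⁻¹ b)) else 0)
      - (if D.rt (w * D.refl a)⁻¹ b ∈ D.Pos then qq t (-D.co (D.rt (w * D.refl a)⁻¹ b)) else 0) *
        Tm D f t w a =
      if a = D.rt w⁻¹ b then f a else if a = -D.rt w⁻¹ b then -f a else 0 := by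
  have haΦ := mem_of_pos ha
  have hb := h.mem
  have hwb : D.rt w⁻¹ b ∈ D.Φ := D.rt_mem.2 hb
  have hmul : D.rt (w * D.refl a)⁻¹ b = D.rt (D.refl a) (D.rt w⁻¹ b) := by
    rw [mul_inv_rev, D.rt_mul, refl_inv haΦ]
  by_cases h1 : D.rt w⁻¹ b ∈ D.Pos
  · have hne : ¬ a = -D.rt w⁻¹ b := by
      intro hab
      rw [hab] at ha
      exact neg_not_pos h1 ha
    rw [if_pos h1]
    by_cases h2 : D.rt (w * D.refl a)⁻¹ b ∈ D.Pos
    · have hne2 : ¬ a = D.rt w⁻¹ b := by
        intro hab
        rw [hmul, ← hab, rt_refl_self haΦ] at h2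
        exact neg_not_pos ha h2
      rw [if_pos h2, if_neg hne, if_neg hne2, Tm_cancel f h t w ha h1 h2, qq_mul_refl hb t w haΦ]
      ring
    · rw [if_neg h2, Tm_core f h t w ha h1 h2, zero_mul, sub_zero]
      by_cases hab : a = D.rt w⁻¹ b
      · rw [if_pos hab, if_pos hab, ← hab, mul_assoc, ← qq_add, add_neg_cancel, qq_zero, mul_one]
      · rw [if_neg hab, if_neg hab, if_neg hne, zero_mul]
  · rw [if_neg h1, mul_zero, zero_sub]
    have h1' : -D.rt w⁻¹ b ∈ D.Pos := (not_pos_iff hwb).1 h1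
    have hne : ¬ a = D.rt w⁻¹ b := by
      intro hab
      rw [hab] at ha
      exact h1 ha
    rw [if_neg hne]
    by_cases h2 : D.rt (w * D.refl a)⁻¹ b ∈ D.Pos
    · rw [if_pos h2]
      have h3 : D.rt (D.refl b * w)⁻¹ b ∈ D.Pos := by
        rw [rt_s_inv hb]
        exact h1'
      have h4 : D.rt (D.refl b * w * D.refl a)⁻¹ b ∉ D.Pos := by
        rw [mul_assoc, rt_s_inv hb]
        exact neg_not_pos h2
      have h5 := Tm_core f h t (D.refl b * w) ha h3 h4
      rw [← mul_assoc, refl_mul_self hb, one_mul, rt_s_inv hb] at h5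
      rw [h5]
      by_cases hab : a = -D.rt w⁻¹ b
      · rw [if_pos hab, if_pos hab]
        have h6 : D.rt (w * D.refl a)⁻¹ b = a := by
          rw [hmul]
          have : D.rt w⁻¹ b = -a := by rw [hab, neg_neg]
          rw [this, D.rt_neg, rt_refl_self haΦ, neg_neg]
        rw [h6, mul_left_comm, ← qq_add, neg_add_cancel, qq_zero, mul_one]
      · rw [if_neg hab, if_neg hab, mul_zero, neg_zero]
    · have hne2 : ¬ a = -D.rt w⁻¹ b := by
        intro hab
        apply h2
        rw [hmul]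
        have : D.rt w⁻¹ b = -a := by rw [hab, neg_neg]
        rw [this, D.rt_neg, rt_refl_self haΦ, neg_neg]
        exact ha
      rw [if_neg h2, if_neg hne2, zero_mul, neg_zero]

private theorem EA_apply (f : (Fin r → ℤ) → ℂ) {b : Fin r → ℤ} (t : Fin r → ℂ) (u w : D.W) :
    (D.E f t * D.Aθ b t) u w = D.E f t u (D.refl b * w) *
      (if D.rt w⁻¹ b ∈ D.Pos then qq t (-D.co (D.rt w⁻¹ b)) else 0) := by
  rw [Matrix.mul_apply, Finset.sum_eq_single (D.refl b * w)]
  · congr 1
    unfold Aθ
    rw [Matrix.of_apply]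
    simp
  · intro v _ hv
    unfold Aθ
    rw [Matrix.of_apply, if_neg (fun hh => hv hh.1), mul_zero]
  · intro hn
    exact absurd (Finset.mem_univ _) hn

private theorem AE_apply (f : (Fin r → ℤ) → ℂ) {b : Fin r → ℤ} (hb : b ∈ D.Φ)
    (t : Fin r → ℂ) (u w : D.W) :
    (D.Aθ b t * D.E f t) u w =
      (if D.rt (D.refl b * u)⁻¹ b ∈ D.Pos then qq t (-D.co (D.rt (D.refl b * u)⁻¹ b)) else 0) *
        D.E f t (D.refl b * u) w := by
  have hu : u = D.refl b * (D.refl b * u) := by
    rw [← mul_assoc, refl_mul_self hb, one_mul]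
  rw [Matrix.mul_apply, Finset.sum_eq_single (D.refl b * u)]
  · congr 1
    unfold Aθ
    rw [Matrix.of_apply]
    by_cases h1 : D.rt (D.refl b * u)⁻¹ b ∈ D.Pos
    · rw [if_pos h1, if_pos ⟨hu, h1⟩]
    · rw [if_neg h1, if_neg fun hh => h1 hh.2]
  · intro v _ hv
    unfold Aθ
    rw [Matrix.of_apply, if_neg, zero_mul]
    intro hh
    apply hv
    rw [hh.1, ← mul_assoc, refl_mul_self hb, one_mul]
  · intro hn
    exact absurd (Finset.mem_univ _) hn

theorem E_Aθ {c : (Fin r → ℤ) → ℂ} (hc : ∀ a ∈ D.Φ, c (-a) = -c a) {b : Fin r → ℤ}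
    (h : D.IsMax b) (t : Fin r → ℂ) :
    D.E c t * D.Aθ b t - D.Aθ b t * D.E c t = Matrix.diagonal fun w => c (D.rt w⁻¹ b) := by
  have hb := h.mem
  ext u w
  have hwb : D.rt w⁻¹ b ∈ D.Φ := D.rt_mem.2 hb
  rw [Matrix.sub_apply, EA_apply, AE_apply c hb, E_apply, E_apply, Finset.sum_mul, Finset.mul_sum,
    ← Finset.sum_sub_distrib]
  have step : ∀ a ∈ D.Pos,
      ((if u = D.refl b * w * D.refl a then Tm D c t (D.refl b * w) a else 0) *
          (if D.rt w⁻¹ b ∈ D.Pos then qq t (-D.co (D.rt w⁻¹ b)) else 0) -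
        (if D.rt (D.refl b * u)⁻¹ b ∈ D.Pos then
            qq t (-D.co (D.rt (D.refl b * u)⁻¹ b)) else 0) *
          (if D.refl b * u = w * D.refl a then Tm D c t w a else 0)) =
      if u = D.refl b * w * D.refl a then
        (if a = D.rt w⁻¹ b then c a else if a = -D.rt w⁻¹ b then -c a else 0)
      else 0 := by
    intro a ha
    by_cases hu : u = D.refl b * w * D.refl a
    · have hu2 : D.refl b * u = w * D.refl a := by
        rw [hu, ← mul_assoc, ← mul_assoc, refl_mul_self hb, one_mul]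
      rw [if_pos hu, if_pos hu, if_pos hu2, hu2]
      exact term_eq c h t w ha
    · have hu2 : ¬ D.refl b * u = w * D.refl a := by
        intro h2
        apply hu
        rw [mul_assoc, ← h2, ← mul_assoc, refl_mul_self hb, one_mul]
      rw [if_neg hu, if_neg hu, if_neg hu2, zero_mul, mul_zero, sub_zero]
  rw [Finset.sum_congr rfl step]
  have hrefl : D.refl b * w * D.refl (D.rt w⁻¹ b) = w := by
    have h1 := refl_rt w⁻¹ hb
    rw [h1, inv_inv]
    calc D.refl b * w * (w⁻¹ * D.refl b * w) = D.refl b * (w * w⁻¹) * D.refl b * w := by group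
      _ = w := by rw [mul_inv_cancel, mul_one, refl_mul_self hb, one_mul]
  rw [Matrix.diagonal_apply]
  rcases pos_or_neg hwb with h1 | h1
  · rw [Finset.sum_eq_single (D.rt w⁻¹ b)]
    · rw [hrefl, if_pos rfl]
      by_cases huw : u = w
      · rw [if_pos huw, if_pos huw, huw]
      · rw [if_neg huw, if_neg huw]
    · intro a ha hne
      have hne2 : ¬ a = -D.rt w⁻¹ b := by
        intro hab
        rw [hab] at ha
        exact neg_not_pos h1 ha
      rw [if_neg hne, if_neg hne2, ite_self]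
    · intro hn
      exact absurd h1 hn
  · have hne0 : ¬ -D.rt w⁻¹ b = D.rt w⁻¹ b := by
      intro hh
      have h2 := neg_not_pos h1
      rw [neg_neg] at h2
      exact h2 (hh ▸ h1)
    rw [Finset.sum_eq_single (-D.rt w⁻¹ b)]
    · rw [refl_neg hwb, hrefl, if_neg hne0, if_pos rfl, hc _ hwb]
      by_cases huw : u = w
      · rw [if_pos huw, if_pos huw, huw, neg_neg]
      · rw [if_neg huw, if_neg huw]
    · intro a ha hne
      have hne2 : ¬ a = D.rt w⁻¹ b := by
        intro hab
        rw [hab] at ha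
        have h2 := neg_not_pos h1
        rw [neg_neg] at h2
        exact h2 ha
      rw [if_neg hne2, if_neg hne, ite_self]
    · intro hn
      exact absurd h1 hn

end Pool.Agent.FLG.RS
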