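import Pool.Agent.FLG.LenS

/-!
# FLG-Theta: the maximal elements of the root poset
-/

set_option autoImplicit false

open scoped BigOperators

namespace Pool.Agent.FLG.RS

variable {r : ℕ} {D : RS r}

theorem add_mem {a b : Fin r → ℤ} (ha : a ∈ D.Φ) (hb : b ∈ D.Φ) (hab : a ≠ -b)
    (h : dotProduct (D.co a) b < 0) : a + b ∈ D.Φ := by
  have hne : a ≠ b := by
    rintro rfl
    rw [D.co_self a ha] at h
    omega
  rcases D.rank2 a ha b hb hne hab with h1 | h1 | h1
  · omega
  · omega
  · rcases h1.2.2 with h2 | h2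
    · have h3 := D.act_mem (D.refl a) b hb
      rw [D.act_refl a ha, h2, neg_smul, one_smul, sub_neg_eq_add] at h3
      rwa [add_comm] at h3
    · have h3 := D.act_mem (D.refl b) a ha
      rwa [D.act_refl b hb, h2, neg_smul, one_smul, sub_neg_eq_add] at h3

private theorem eq_of_le_sum {b c : Fin r → ℤ} (h1 : ∀ i, b i ≤ c i) (h2 : ∑ i, c i ≤ ∑ i, b i) :
    c = b := by
  have h3 : ∑ i, b i = ∑ i, c i := le_antisymm (Finset.sum_le_sum fun i _ => h1 i) h2
  have h4 := (Finset.sum_eq_sum_iff_of_le fun i _ => h1 i).1 h3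
  funext i
  exact (h4 i (Finset.mem_univ i)).symm

private theorem exists_max_aux {a : Fin r → ℤ} (ha : a ∈ D.Pos) :
    ∃ th, D.IsMax th ∧ ∀ i, a i ≤ th i := by
  obtain ⟨th, hth, hmax⟩ := Finset.exists_max_image (D.Φ.filter fun b => ∀ i, a i ≤ b i)
    (fun b => ∑ i, b i) ⟨a, Finset.mem_filter.2 ⟨mem_of_pos ha, fun i => le_rfl⟩⟩
  rw [Finset.mem_filter] at hth
  refine ⟨th, ⟨mem_Pos.2 ⟨hth.1, fun i => ((mem_Pos.1 ha).2 i).trans (hth.2 i)⟩, ?_⟩, hth.2⟩
  intro b hb hle
  exact eq_of_le_sum hle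
    (hmax b (Finset.mem_filter.2 ⟨hb, fun i => (hth.2 i).trans (hle i)⟩))

theorem exists_max {a : Fin r → ℤ} (ha : a ∈ D.Φ) : ∃ th, D.IsMax th ∧ ∀ i, a i ≤ th i := by
  rcases pos_or_neg ha with h | h
  · exact exists_max_aux h
  · obtain ⟨th, h1, h2⟩ := exists_max_aux h
    refine ⟨th, h1, fun i => ?_⟩
    have h3 := h2 i
    have h4 := (mem_Pos.1 h).2 i
    rw [Pi.neg_apply] at h3 h4
    omega

theorem IsMax.mem {th : Fin r → ℤ} (h : D.IsMax th) : th ∈ D.Φ := mem_of_pos h.1

private theorem max_ne_neg_al {th : Fin r → ℤ} (h : D.IsMax th) (i : Fin r) : al i ≠ -th := by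
  intro h1
  apply neg_not_pos (al_pos D i)
  rw [h1, neg_neg]
  exact h.1

theorem IsMax.dom {th : Fin r → ℤ} (h : D.IsMax th) (i : Fin r) :
    0 ≤ dotProduct (D.co (al i)) th := by
  by_contra hlt
  rw [not_le] at hlt
  have h1 := add_mem (D.al_mem i) h.mem (max_ne_neg_al h i) hlt
  have h2 := h.2 _ h1 (fun j => by
    have := (mem_Pos.1 (al_pos D i)).2 j
    rw [Pi.add_apply]
    omega)
  exact ne_zero (D.al_mem i) (by simpa using h2)

theorem IsMax.co_nonneg {th : Fin r → ℤ} (h : D.IsMax th) (i : Fin r) : 0 ≤ D.co th i := by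
  rw [← dot_al (D.co th) i]
  have hdom := h.dom i
  by_cases h1 : th = al i
  · rw [← h1, D.co_self th h.mem]
    norm_num
  · have h2 : th ≠ -al i := by
      intro e
      apply max_ne_neg_al h i
      rw [e, neg_neg]
    rcases D.rank2 th h.mem (al i) (D.al_mem i) h1 h2 with h3 | h3 | h3
    · omega
    · omega
    · omega

theorem IsMax.pos_of_pos {th b : Fin r → ℤ} (h : D.IsMax th) (hb : b ∈ D.Φ)
    (hp : 0 < dotProduct (D.co th) b) : b ∈ D.Pos := by
  by_contra hn
  have h1 := (not_pos_iff hb).1 hn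
  have h2 : dotProduct (D.co th) b ≤ 0 := by
    unfold dotProduct
    refine Finset.sum_nonpos fun i _ => ?_
    have h3 := (mem_Pos.1 h1).2 i
    rw [Pi.neg_apply] at h3
    have h4 := h.co_nonneg i
    nlinarith
  omega

private theorem le_one_aux {th b : Fin r → ℤ} (h : D.IsMax th) (hb : b ∈ D.Φ) (h1 : b ≠ th)
    (h2 : b ≠ -th) : dotProduct (D.co th) b ≤ 1 := by
  by_contra hc
  rw [not_le] at hc
  have hne : th ≠ b := fun e => h1 e.symm
  have hne2 : th ≠ -b := fun e => h2 (by rw [e, neg_neg])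
  have hcb : dotProduct (D.co b) th = 1 := by
    rcases D.rank2 th h.mem b hb hne hne2 with h3 | h3 | h3
    · omega
    · rcases h3.2.2 with h4 | h4
      · omega
      · exact h4
    · omega
  have hd : th - b ∈ D.Φ := by
    have h3 := D.act_mem (D.refl b) th h.mem
    rwa [D.act_refl b hb, hcb, one_smul] at h3
  have hpos : ∀ i, 0 ≤ (th - b) i := by
    rcases D.sign _ hd with h3 | h3
    · exact h3
    · exfalso
      apply h1
      refine h.2 b hb fun i => ?_
      have := h3 i
      rw [Pi.sub_apply] at this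
      omega
  have he : dotProduct (D.co th) b • th - b ∈ D.Φ := by
    have h3 := neg_mem (D.act_mem (D.refl th) b hb)
    rw [D.act_refl th h.mem] at h3
    rwa [neg_sub] at h3
  have hthp := (mem_Pos.1 h.1).2
  have h5 := h.2 _ he (fun i => by
    have e1 := hpos i
    have e2 := hthp i
    rw [Pi.sub_apply] at e1
    rw [Pi.sub_apply, Pi.smul_apply, smul_eq_mul]
    nlinarith)
  apply h1
  funext i
  have e0 := congrFun h5 i
  have e1 := hpos i
  have e2 := hthp i
  rw [Pi.sub_apply] at e1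
  rw [Pi.sub_apply, Pi.smul_apply, smul_eq_mul] at e0
  nlinarith

theorem IsMax.le_one {th b : Fin r → ℤ} (h : D.IsMax th) (hb : b ∈ D.Φ) (h1 : b ≠ th)
    (h2 : b ≠ -th) : dotProduct (D.co th) b ≤ 1 ∧ -1 ≤ dotProduct (D.co th) b := by
  refine ⟨le_one_aux h hb h1 h2, ?_⟩
  have h3 := le_one_aux h (neg_mem hb) (fun e => h2 (by rw [← e, neg_neg]))
    (fun e => h1 (neg_injective e))
  rw [dotProduct_neg] at h3
  omega

private theorem step_eq {th : Fin r → ℤ} (h : D.IsMax th) {η : Fin r → ℤ} (hη : η ∈ D.Φ) :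
    (if D.rt (D.refl th) η ∉ D.Pos then (1 : ℤ) else 0) =
      (if η ∉ D.Pos then 1 else 0) + dotProduct (D.co th) η -
        (if η = th then 1 else if η = -th then -1 else 0) := by
  have hth := h.mem
  by_cases h1 : η = th
  · subst h1
    rw [rt_refl_self hth, if_pos (neg_not_pos h.1), if_neg (not_not.2 h.1), if_pos rfl,
      D.co_self _ hth]
    norm_num
  · by_cases h2 : η = -th
    · subst h2
      have h3 : (-th) ∉ D.Pos := neg_not_pos h.1
      rw [D.rt_neg, rt_refl_self hth, neg_neg, if_neg (not_not.2 h.1), if_pos h3, if_neg h1,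
        if_pos rfl, dotProduct_neg, D.co_self _ hth]
      norm_num
    · rw [if_neg h1, if_neg h2, sub_zero]
      obtain ⟨h3, h4⟩ := h.le_one hη h1 h2
      have hr : D.rt (D.refl th) η = η - dotProduct (D.co th) η • th := rt_refl hth η
      rcases lt_trichotomy (dotProduct (D.co th) η) 0 with h5 | h5 | h5
      · have h6 : dotProduct (D.co th) η = -1 := by omega
        rw [h6] at hr ⊢
        have h7 : -η ∈ D.Pos := by
          apply h.pos_of_pos (neg_mem hη)
          rw [dotProduct_neg, h6]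
          norm_num
        have h8 : η ∉ D.Pos := (not_pos_iff hη).2 h7
        have h9 : D.rt (D.refl th) η ∈ D.Pos := by
          apply h.pos_of_pos (D.rt_mem.2 hη)
          rw [hr, dotProduct_sub, dotProduct_smul, h6, D.co_self _ hth]
          norm_num
        rw [if_neg (not_not.2 h9), if_pos h8]
        norm_num
      · rw [h5] at hr ⊢
        rw [zero_smul, sub_zero] at hr
        rw [hr, add_zero]
      · have h6 : dotProduct (D.co th) η = 1 := by omega
        rw [h6] at hr ⊢
        have h7 : η ∈ D.Pos := h.pos_of_pos hη h5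
        have h9 : -(D.rt (D.refl th) η) ∈ D.Pos := by
          apply h.pos_of_pos (neg_mem (D.rt_mem.2 hη))
          rw [hr, dotProduct_neg, dotProduct_sub, dotProduct_smul, h6, D.co_self _ hth]
          norm_num
        have h10 : D.rt (D.refl th) η ∉ D.Pos := (not_pos_iff (D.rt_mem.2 hη)).2 h9
        rw [if_pos h10, if_neg (not_not.2 h7)]
        norm_num

theorem IsMax.len {th : Fin r → ℤ} (h : D.IsMax th) (u : D.W) :
    (D.len (D.refl th * u) : ℤ) = D.len u + dotProduct (D.co th) (D.rt u D.tr) -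
      (if D.rt u⁻¹ th ∈ D.Pos then 1 else -1) := by
  have hlen : ∀ w : D.W, (D.len w : ℤ) = ∑ a ∈ D.Pos, if D.rt w a ∉ D.Pos then (1 : ℤ) else 0 := by
    intro w
    unfold RS.len
    rw [Finset.card_filter]
    push_cast
    rfl
  rw [hlen, hlen]
  have h1 : ∀ a ∈ D.Pos, (if D.rt (D.refl th * u) a ∉ D.Pos then (1 : ℤ) else 0) =
      (if D.rt u a ∉ D.Pos then 1 else 0) + dotProduct (D.co th) (D.rt u a) -
        (if D.rt u a = th then 1 else if D.rt u a = -th then -1 else 0) := by
    intro a ha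
    rw [D.rt_mul]
    exact step_eq h (D.rt_mem.2 (mem_of_pos ha))
  rw [Finset.sum_congr rfl h1, Finset.sum_sub_distrib, Finset.sum_add_distrib]
  have h2 : ∑ a ∈ D.Pos, dotProduct (D.co th) (D.rt u a) = dotProduct (D.co th) (D.rt u D.tr) := by
    unfold RS.tr
    rw [D.rt_sum, dotProduct_sum]
  rw [h2]
  congr 1
  set z := D.rt u⁻¹ th with hz
  have hzΦ : z ∈ D.Φ := D.rt_mem.2 h.mem
  have h3 : ∀ a, D.rt u a = th ↔ a = z := by
    intro a
    constructor
    · intro e
      rw [hz, ← e, D.rt_inv_rt]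
    · intro e
      rw [e, hz, D.rt_rt_inv]
  have h4 : ∀ a, D.rt u a = -th ↔ a = -z := by
    intro a
    constructor
    · intro e
      rw [hz, ← D.rt_neg, ← e, D.rt_inv_rt]
    · intro e
      rw [e, hz, D.rt_neg, D.rt_rt_inv]
  simp only [h3, h4]
  by_cases hp : z ∈ D.Pos
  · rw [if_pos hp, Finset.sum_eq_single z]
    · rw [if_pos rfl]
    · intro a ha hne
      rw [if_neg hne, if_neg]
      rintro rfl
      exact neg_not_pos hp ha
    · intro hn
      exact absurd hp hn
  · have hp' := (not_pos_iff hzΦ).1 hp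
    have hne : -z ≠ z := fun e => hp (e ▸ hp')
    rw [if_neg hp, Finset.sum_eq_single (-z)]
    · rw [if_neg hne, if_pos rfl]
    · intro a ha hne
      rw [if_neg, if_neg hne]
      rintro rfl
      exact hp ha
    · intro hn
      exact absurd hp' hn

end Pool.Agent.FLG.RS
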