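import Pool.Agent.FLG.BDefs
import Pool.Agent.FLG.Theta
import Pool.Agent.FLG.Tau
import Pool.Agent.FLG.Lmat

/-!
# FLG-Scale: the grading

Every operator of the quantum Chevalley formula is homogeneous: the quantum part splits by the degree
`L a` of the curve classes, and translations of `t` along `2ρ` rescale the entries by powers of the
exponential which are read off from the lengths.
-/

set_option autoImplicit false

open scoped BigOperators
open Pool.Agent.DST.TE

namespace Pool.Agent.FLG.RS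

variable {r : ℕ} {D : RS r}

private theorem L_le_KK {a : Fin r → ℤ} (ha : a ∈ D.Pos) : D.L a ≤ (D.KK : ℤ) := by
  have h1 : (D.L a).toNat ≤ D.KK := by
    unfold KK
    exact Finset.single_le_sum (f := fun a => (D.L a).toNat) (fun _ _ => Nat.zero_le _) ha
  have h2 := two_le_L ha
  omega

theorem E_eq (c : (Fin r → ℤ) → ℂ) (t : Fin r → ℂ) :
    D.E c t = D.E0 c + ∑ k ∈ Finset.Icc 1 D.KK, D.Eq c t k := by
  ext u v
  rw [Matrix.add_apply, Matrix.sum_apply]
  simp only [E, E0, Eq, Matrix.of_apply]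
  rw [Finset.sum_comm, ← Finset.sum_add_distrib]
  refine Finset.sum_congr rfl fun a ha => ?_
  have h2 := two_le_L ha
  have h3 := L_le_KK ha
  by_cases hu : u = v * D.refl a
  · rw [if_pos hu, mul_add]
    congr 1
    · by_cases h4 : D.len u = D.len v + 1
      · rw [if_pos h4, if_pos ⟨hu, h4⟩, mul_one]
      · rw [if_neg h4, if_neg (fun h => h4 h.2), mul_zero]
    · by_cases h4 : (D.len u : ℤ) + D.L a = D.len v + 1
      · rw [if_pos h4]
        rw [Finset.sum_eq_single (D.L a).toNat]
        · rw [if_pos ⟨hu, h4, by omega⟩]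
        · intro k _ hk
          rw [if_neg]
          rintro ⟨_, _, h5⟩
          omega
        · intro h5
          exfalso
          apply h5
          rw [Finset.mem_Icc]
          omega
      · rw [if_neg h4, mul_zero]
        symm
        refine Finset.sum_eq_zero fun k _ => ?_
        rw [if_neg]
        rintro ⟨_, h5, _⟩
        exact h4 h5
  · rw [if_neg hu, if_neg (fun h => hu h.1), zero_add]
    symm
    refine Finset.sum_eq_zero fun k _ => ?_
    rw [if_neg]
    rintro ⟨h5, _⟩
    exact hu h5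

theorem E0_ne {c : (Fin r → ℤ) → ℂ} {u v : D.W} (h : D.E0 c u v ≠ 0) :
    D.len u = D.len v + 1 := by
  simp only [E0, Matrix.of_apply] at h
  obtain ⟨a, _, ha⟩ := Finset.exists_ne_zero_of_sum_ne_zero h
  by_contra hne
  apply ha
  rw [if_neg (fun h => hne h.2)]

theorem Eq_ne {c : (Fin r → ℤ) → ℂ} {t : Fin r → ℂ} {k : ℤ} {u v : D.W}
    (h : D.Eq c t k u v ≠ 0) : (D.len u : ℤ) + k = D.len v + 1 := by
  simp only [Eq, Matrix.of_apply] at h
  obtain ⟨a, _, ha⟩ := Finset.exists_ne_zero_of_sum_ne_zero h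
  by_contra hne
  apply ha
  rw [if_neg]
  rintro ⟨_, h1, h2⟩
  apply hne
  rw [← h2]
  exact h1

theorem Eq_big {c : (Fin r → ℤ) → ℂ} {t : Fin r → ℂ} {k : ℤ} (h : (D.KK : ℤ) < k) :
    D.Eq c t k = 0 := by
  ext u v
  simp only [Eq, Matrix.of_apply, Matrix.zero_apply]
  refine Finset.sum_eq_zero fun a ha => ?_
  rw [if_neg]
  rintro ⟨_, _, h2⟩
  have := L_le_KK ha
  omega

private theorem qq_scale (t : Fin r → ℂ) (s : ℂ) (μ : Fin r → ℤ) :
    qq (fun j => t j + s * D.ctr j) μ =
      Complex.exp (s * ((dotProduct μ D.tr : ℤ) : ℂ)) * qq t μ := by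
  unfold qq
  rw [← Complex.exp_add]
  congr 1
  simp only [ctr, dotProduct]
  push_cast
  rw [Finset.mul_sum, ← Finset.sum_add_distrib]
  refine Finset.sum_congr rfl fun i _ => ?_
  ring

theorem E_scale (c : (Fin r → ℤ) → ℂ) (t : Fin r → ℂ) (s : ℂ) (u v : D.W) :
    D.E c (fun j => t j + s * D.ctr j) u v =
      Complex.exp (s * ((D.len v : ℂ) + 1 - D.len u)) * D.E c t u v := by
  simp only [E, Matrix.of_apply]
  rw [Finset.mul_sum]
  refine Finset.sum_congr rfl fun a _ => ?_
  by_cases hu : u = v * D.refl a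
  · rw [if_pos hu, if_pos hu, ← mul_assoc, mul_comm (Complex.exp _) (c a), mul_assoc]
    congr 1
    rw [mul_add]
    congr 1
    · by_cases h4 : D.len u = D.len v + 1
      · have h5 : (D.len v : ℂ) + 1 - D.len u = 0 := by
          rw [h4]
          push_cast
          ring
        rw [h5, mul_zero, Complex.exp_zero, one_mul]
      · rw [if_neg h4, mul_zero]
    · by_cases h4 : (D.len u : ℤ) + D.L a = D.len v + 1
      · rw [if_pos h4, if_pos h4, qq_scale]
        have h5 : ((D.len u : ℤ) : ℂ) + (D.L a : ℂ) = ((D.len v : ℤ) : ℂ) + 1 := by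
          exact_mod_cast h4
        have h6 : (D.len v : ℂ) + 1 - D.len u = ((dotProduct (D.co a) D.tr : ℤ) : ℂ) := by
          have h7 : (D.L a : ℂ) = ((dotProduct (D.co a) D.tr : ℤ) : ℂ) := rfl
          rw [← h7]
          push_cast at h5
          linear_combination -h5
        rw [h6]
      · rw [if_neg h4, if_neg h4, mul_zero]
  · rw [if_neg hu, if_neg hu, mul_zero]

theorem Aθ_scale {b : Fin r → ℤ} (hb : D.IsMax b) (t : Fin r → ℂ) (s : ℂ) (u v : D.W) :
    D.Aθ b (fun j => t j + s * D.ctr j) u v =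
      Complex.exp (s * ((D.len v : ℂ) - 1 - D.len u)) * D.Aθ b t u v := by
  simp only [Aθ, Matrix.of_apply]
  by_cases h : u = D.refl b * v ∧ D.rt v⁻¹ b ∈ D.Pos
  · rw [if_pos h, if_pos h, qq_scale]
    congr 2
    have h1 := hb.len v
    rw [← h.1, if_pos h.2] at h1
    have h2 : dotProduct (-D.co (D.rt v⁻¹ b)) D.tr = (D.len v : ℤ) - 1 - D.len u := by
      rw [neg_dotProduct, co_rt _ hb.mem, inv_inv]
      linarith
    rw [h2]
    push_cast
    ring
  · rw [if_neg h, if_neg h, mul_zero]

theorem Mτ_scale {x : D.W} {ν : Fin r → ℤ} (h : D.IsTau x ν) (t : Fin r → ℂ) (s : ℂ) (u v : D.W) :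
    D.Mτ x ν (fun j => t j + s * D.ctr j) u v =
      Complex.exp (s * ((D.len v : ℂ) - D.len u)) * D.Mτ x ν t u v := by
  simp only [Mτ, Matrix.of_apply]
  by_cases hu : u = x * v
  · rw [if_pos hu, if_pos hu, qq_scale]
    congr 2
    have h1 := h.len v
    rw [← hu] at h1
    have h2 : dotProduct (D.yt u⁻¹ ν) D.tr = (D.len v : ℤ) - D.len u := by
      rw [← D.dot_rt]
      linarith
    rw [h2]
    push_cast
    ring
  · rw [if_neg hu, if_neg hu, mul_zero]

private theorem th_sub (u v : D.W) : D.th u - D.th v = (D.len v : ℂ) - D.len u := by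
  unfold th
  ring

private theorem hv_smul (h : Fin r → ℂ) (u : D.W) (y : Fin r → ℂ) (e : ℂ) :
    D.hv h u (fun i => y i * e) = D.hv h u y * e := by
  have h1 : (fun i => y i * e) = e • y := by
    funext i
    rw [Pi.smul_apply, smul_eq_mul, mul_comm]
  rw [h1]
  unfold hv
  rw [D.yt_smul, Finset.sum_mul]
  refine Finset.sum_congr rfl fun j _ => ?_
  rw [Pi.smul_apply, smul_eq_mul]
  ring

theorem C_graded (t y : Fin r → ℂ) (s : ℂ) (u v : D.W) :
    Complex.exp (-s) * D.Cq D.ctr t (fun i => y i * Complex.exp s) u v =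
      ∑ k ∈ Finset.range (D.KK + 1), Complex.exp (-(k * s)) *
        Complex.exp (s * (D.th u - D.th v)) * D.Cg t k y u v := by
  have h0 : Finset.range (D.KK + 1) = insert 0 (Finset.Icc 1 D.KK) := by
    ext k
    rw [Finset.mem_range, Finset.mem_insert, Finset.mem_Icc]
    omega
  rw [h0, Finset.sum_insert (by simp)]
  have h1 : D.Cq D.ctr t (fun i => y i * Complex.exp s) u v =
      D.C0 D.ctr (fun i => y i * Complex.exp s) u v +
        ∑ k ∈ Finset.Icc 1 D.KK, D.Eq (D.ch D.ctr) t k u v := by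
    unfold Cq C0
    rw [E_eq, Matrix.sub_apply, Matrix.sub_apply, Matrix.add_apply, Matrix.sum_apply]
    ring
  rw [h1, mul_add]
  congr 1
  · have h2 : D.Cg t 0 y = D.C0 D.ctr y := by
      unfold Cg
      rw [if_pos rfl]
    rw [h2]
    unfold C0
    rw [Matrix.sub_apply, Matrix.sub_apply, Nat.cast_zero, zero_mul, neg_zero, Complex.exp_zero,
      one_mul, mul_sub, mul_sub]
    congr 1
    · by_cases h3 : D.E0 (D.ch D.ctr) u v = 0
      · rw [h3, mul_zero, mul_zero]
      · have h4 := E0_ne h3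
        rw [th_sub, h4]
        congr 2
        push_cast
        ring
    · by_cases h3 : u = v
      · subst h3
        rw [Matrix.diagonal_apply_eq, Matrix.diagonal_apply_eq, hv_smul, sub_self, mul_zero,
          Complex.exp_zero, one_mul, mul_comm, mul_assoc, ← Complex.exp_add, add_neg_cancel,
          Complex.exp_zero, mul_one]
      · rw [Matrix.diagonal_apply_ne _ h3, Matrix.diagonal_apply_ne _ h3, mul_zero, mul_zero]
  · rw [Finset.mul_sum]
    refine Finset.sum_congr rfl fun k hk => ?_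
    rw [Finset.mem_Icc] at hk
    have h2 : D.Cg t k y = D.Eq (D.ch D.ctr) t k := by
      unfold Cg
      rw [if_neg (by omega)]
    rw [h2]
    by_cases h3 : D.Eq (D.ch D.ctr) t k u v = 0
    · rw [h3, mul_zero, mul_zero]
    · have h4 := Eq_ne h3
      have h5 : (D.len u : ℂ) + (k : ℂ) = (D.len v : ℂ) + 1 := by
        exact_mod_cast h4
      rw [← Complex.exp_add, th_sub]
      congr 2
      linear_combination s * h5

end Pool.Agent.FLG.RS
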