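import Pool.Agent.FLG.Basic

/-!
# FLG-BDefs: definitions for block B (matrices)

Divisor classes are `h : Fin r → ℂ` (`h = ∑ h_j α_j`); `hv h u y = (u h)(y)`. The classical and the quantum
product with the equivariant class `h` are `C0 h y` and `Cq h t y`; `c_1 = 2ρ` is `h = ctr`.
-/

set_option autoImplicit false

open scoped BigOperators
open Pool.Agent.DST.TE

namespace Pool.Agent.FLG.RS

variable {r : ℕ} (D : RS r)

/-- `2ρ` as a divisor class -/
def ctr : Fin r → ℂ := fun j => (D.tr j : ℂ)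

/-- `(u h)(y)` -/
noncomputable def hv (h : Fin r → ℂ) (u : D.W) (y : Fin r → ℂ) : ℂ := ∑ j, h j * D.yt u⁻¹ y j

/-- The classical product with the equivariant class `h`. -/
noncomputable def C0 (h y : Fin r → ℂ) : Matrix D.W D.W ℂ :=
  D.E0 (D.ch h) - Matrix.diagonal fun u => D.hv h u y

/-- The quantum product with the equivariant class `h`. -/
noncomputable def Cq (h t y : Fin r → ℂ) : Matrix D.W D.W ℂ :=
  D.E (D.ch h) t - Matrix.diagonal fun u => D.hv h u y

/-- The eigenvalues of `θ`. -/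
noncomputable def th (u : D.W) : ℂ := (D.dm : ℂ) / 2 - D.len u

/-- bound of the degrees of the quantum terms -/
def KK : ℕ := ∑ a ∈ D.Pos, (D.L a).toNat

/-- the graded pieces of the product with `c_1` -/
noncomputable def Cg (t : Fin r → ℂ) (k : ℕ) (y : Fin r → ℂ) : Matrix D.W D.W ℂ :=
  if k = 0 then D.C0 D.ctr y else D.Eq (D.ch D.ctr) t k

/-- `M` is the matrix of the left action of `w` on `H_T(G/B)`. -/
structure IsLeft (w : D.W) (M : (Fin r → ℂ) → Matrix D.W D.W ℂ) : Prop where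
  diff : ∀ u v, Differentiable ℂ fun y => M y u v
  zero : M 0 = 1
  det : ∀ y, (M y).det = 1
  homog : ∀ (x : ℂ) (y : Fin r → ℂ) u v,
    x ^ D.len u * M (fun i => x * y i) u v = x ^ D.len v * M y u v
  one : ∀ y u, M y u 1 = if u = 1 then 1 else 0
  comm0 : ∀ h y, D.C0 h y * M y = M y * D.C0 h (D.yt w⁻¹ y)
  commq : ∀ c t k y, D.Eq c t k * M y = M y * D.Eq c t k

/-- `u ≤ w` in the Bruhat order -/
def Bru (u w : D.W) : Prop :=
  Relation.ReflTransGen (fun x y => ∃ a ∈ D.Pos, y = x * D.refl a ∧ D.len x < D.len y) u w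

/-- no integral root and no resonance at `y` -/
def SG (y : Fin r → ℂ) : Prop := (∀ a ∈ D.Φ, ∀ n : ℤ, pr a y ≠ n) ∧
  ∀ p q : D.W, p ≠ q → ∀ n : ℤ, pr (D.rt p D.tr) y - pr (D.rt q D.tr) y ≠ n

/-- The inverse of the action of `t_ν w` on points at `z = 1`. -/
noncomputable def xi (w : D.W) (ν : Fin r → ℤ) (y : Fin r → ℂ) : Fin r → ℂ :=
  D.yt w⁻¹ (y + cc ν)

/-- The Gamma factor at the fixed point `v` and the value of `t`. -/
noncomputable def gam (t : Fin r → ℂ) (v : D.W) (y : Fin r → ℂ) : ℂ :=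
  Complex.exp (-D.hv t v y) * ∏ a ∈ D.Pos, Complex.Gamma (1 + pr (D.rt v a) y)

/-- The family of matrices `M(λ, z)` intertwines the quantum differential equations at `x⁻¹ y` and at
`y`, `x = t_ν w`, `λ = y z`, `z = e^s`. -/
def Inter (t : Fin r → ℂ) (w : D.W) (ν : Fin r → ℤ) (M : (Fin r → ℂ) → ℂ → Matrix D.W D.W ℂ) :
    Prop := ∀ (y : Fin r → ℂ) (s : ℂ) (u v : D.W),
  HasDerivAt (fun s => M (fun i => y i * Complex.exp s) (Complex.exp s) u v)
    (((Matrix.diagonal D.th - Complex.exp (-s) • D.Cq D.ctr t (fun i => y i * Complex.exp s)) *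
        M (fun i => y i * Complex.exp s) (Complex.exp s) -
      M (fun i => y i * Complex.exp s) (Complex.exp s) *
        (Matrix.diagonal D.th - Complex.exp (-s) •
          D.Cq D.ctr t (fun i => D.xi w ν y i * Complex.exp s))) u v) s

/-- the matrices of the elementary elements -/
noncomputable def Ms (i : Fin r) (y : Fin r → ℂ) (_z : ℂ) : Matrix D.W D.W ℂ :=
  1 - pr (al i) y • D.A i

noncomputable def Mθ (t : Fin r → ℂ) (b : Fin r → ℤ) (y : Fin r → ℂ) (z : ℂ) :
    Matrix D.W D.W ℂ := 1 + (z + pr b y) • D.Aθ b t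

end Pool.Agent.FLG.RS
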