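import Pool.Agent.FLG.Basic

/-!
# FLG-LenA: the length of `u s_a` for a positive root `a`

PLAN. `Sa a = {b > 0 : s_a b < 0}`. On `Pos \ Sa` the map `b ↦ s_a b` is an involution and `[u s_a b < 0]` is carried to
`[u b < 0]`, so these parts of `len (u s_a)` and `len u` agree. On `Sa` the map `b ↦ b' = -s_a b` is an involution, and
`u s_a b = -u b'`, so `[u s_a b < 0] = 1 - [u b' < 0]`; hence `len (u s_a) = len u + |Sa| - 2 |{b ∈ Sa : u b < 0}|`.
`len_lt_of_pos`: for `b ∈ Sa`, `b + b' = (co a ⬝ᵥ b) • a` with `co a ⬝ᵥ b > 0` (as `s_a b = b - c a < 0`, `b > 0`), so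
`u b + u b'` is a positive multiple of `u a > 0` and `u b, u b'` are not both negative; `b = a` is a fixed point with
`u a > 0`; so `2 |{b ∈ Sa : u b < 0}| < |Sa|` (the injection `b ↦ b'` from the negative ones to the non-negative ones
misses `a`). `len_lt_of_neg`: apply it to `u * refl a` (`refl_mul_self`, `rt_refl_self`).
`card_Sa_le`: `L a = ∑ b ∈ Pos, co a ⬝ᵥ b = ∑ b ∈ Sa, co a ⬝ᵥ b` (on `Pos \ Sa` the involution changes the sign), every term
is `≥ 1` and the term `b = a` is `2`. `len_diff_le`: `0 ≤ |{..}| ≤ |Sa|`. `len_parity`: the fixed point of `b ↦ b'` on `Sa` is only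
`a` (`2 b = c a`, `reduced`), so `|Sa|` is odd (`Finset.card_involution`-like lemma, or `Finset.sum_involution` in `ZMod 2`).
-/

set_option autoImplicit false

open scoped BigOperators

namespace Pool.Agent.FLG.RS

variable {r : ℕ} {D : RS r}

/-- `{b > 0 : s_a b < 0}` -/
def Sa (D : RS r) (a : Fin r → ℤ) : Finset (Fin r → ℤ) :=
  D.Pos.filter fun b => D.rt (D.refl a) b ∉ D.Pos

private theorem mem_Sa {a b : Fin r → ℤ} :
    b ∈ D.Sa a ↔ b ∈ D.Pos ∧ D.rt (D.refl a) b ∉ D.Pos := by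
  unfold Sa
  rw [Finset.mem_filter]

private theorem rr {a : Fin r → ℤ} (ha : a ∈ D.Φ) (b : Fin r → ℤ) :
    D.rt (D.refl a) (D.rt (D.refl a) b) = b := by
  rw [← D.rt_mul, refl_mul_self ha, D.rt_one]

private theorem neg_mem_pos {x : Fin r → ℤ} (hx : x ∈ D.Φ) : -x ∉ D.Pos ↔ x ∈ D.Pos := by
  rw [not_pos_iff (neg_mem hx), neg_neg]

private theorem prime_mem {a b : Fin r → ℤ} (ha : a ∈ D.Φ) (hb : b ∈ D.Sa a) :
    -D.rt (D.refl a) b ∈ D.Sa a := by
  obtain ⟨h1, h2⟩ := mem_Sa.1 hb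
  rw [mem_Sa]
  refine ⟨(not_pos_iff (D.act_mem _ _ (mem_of_pos h1))).1 h2, ?_⟩
  rw [D.rt_neg, rr ha]
  exact neg_not_pos h1

private theorem prime_prime {a : Fin r → ℤ} (ha : a ∈ D.Φ) (b : Fin r → ℤ) :
    -D.rt (D.refl a) (-D.rt (D.refl a) b) = b := by
  rw [D.rt_neg, rr ha, neg_neg]

private theorem self_mem_Sa {a : Fin r → ℤ} (ha : a ∈ D.Pos) : a ∈ D.Sa a := by
  rw [mem_Sa, rt_refl_self (mem_of_pos ha)]
  exact ⟨ha, neg_not_pos ha⟩

private theorem c_pos {a b : Fin r → ℤ} (ha : a ∈ D.Pos) (hb : b ∈ D.Sa a) :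
    0 < dotProduct (D.co a) b := by
  obtain ⟨h1, h2⟩ := mem_Sa.1 hb
  by_contra hcon
  push Not at hcon
  apply h2
  rw [mem_Pos]
  refine ⟨D.act_mem _ _ (mem_of_pos h1), fun i => ?_⟩
  rw [rt_refl (mem_of_pos ha), Pi.sub_apply, Pi.smul_apply, smul_eq_mul]
  have e1 := (mem_Pos.1 h1).2 i
  have e2 := (mem_Pos.1 ha).2 i
  have e3 : dotProduct (D.co a) b * a i ≤ 0 := mul_nonpos_of_nonpos_of_nonneg hcon e2
  omega

theorem len_mul_refl (u : D.W) {a : Fin r → ℤ} (ha : a ∈ D.Pos) :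
    (D.len (u * D.refl a) : ℤ) = D.len u + (D.Sa a).card -
      2 * ((D.Sa a).filter fun b => D.rt u b ∉ D.Pos).card := by
  have haΦ := mem_of_pos ha
  obtain ⟨P1, hP1⟩ : ∃ P1, P1 = D.Pos.filter fun b => D.rt (D.refl a) b ∈ D.Pos := ⟨_, rfl⟩
  have memP1 : ∀ b, b ∈ P1 ↔ b ∈ D.Pos ∧ D.rt (D.refl a) b ∈ D.Pos := by
    intro b; rw [hP1, Finset.mem_filter]
  have hsplit : ∀ p : (Fin r → ℤ) → Prop, ∀ [DecidablePred p],
      (D.Pos.filter p).card = (P1.filter p).card + ((D.Sa a).filter p).card := by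
    intro p _
    rw [← Finset.card_union_of_disjoint]
    · congr 1
      ext b
      rw [Finset.mem_union, Finset.mem_filter, Finset.mem_filter, Finset.mem_filter, memP1, mem_Sa]
      tauto
    · rw [Finset.disjoint_left]
      intro b h1 h2
      rw [Finset.mem_filter, memP1] at h1
      rw [Finset.mem_filter, mem_Sa] at h2
      exact h2.1.2 h1.1.2
  have h1 : D.len (u * D.refl a) =
      (P1.filter fun b => D.rt (u * D.refl a) b ∉ D.Pos).card +
      ((D.Sa a).filter fun b => D.rt (u * D.refl a) b ∉ D.Pos).card := by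
    unfold len
    exact hsplit _
  have h2 : D.len u = (P1.filter fun b => D.rt u b ∉ D.Pos).card +
      ((D.Sa a).filter fun b => D.rt u b ∉ D.Pos).card := by
    unfold len
    exact hsplit _
  have h3 : (P1.filter fun b => D.rt (u * D.refl a) b ∉ D.Pos).card =
      (P1.filter fun b => D.rt u b ∉ D.Pos).card := by
    refine Finset.card_bij' (fun b _ => D.rt (D.refl a) b) (fun b _ => D.rt (D.refl a) b)
      ?_ ?_ ?_ ?_
    · intro b hb
      rw [Finset.mem_filter, memP1] at hb ⊢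
      rw [D.rt_mul] at hb
      rw [rr haΦ]
      exact ⟨⟨hb.1.2, hb.1.1⟩, hb.2⟩
    · intro b hb
      rw [Finset.mem_filter, memP1] at hb ⊢
      rw [D.rt_mul, rr haΦ]
      exact ⟨⟨hb.1.2, hb.1.1⟩, hb.2⟩
    · intro b _
      exact rr haΦ b
    · intro b _
      exact rr haΦ b
  have h4 : ((D.Sa a).filter fun b => D.rt (u * D.refl a) b ∉ D.Pos).card =
      ((D.Sa a).filter fun b => ¬ D.rt u b ∉ D.Pos).card := by
    refine Finset.card_bij' (fun b _ => -D.rt (D.refl a) b) (fun b _ => -D.rt (D.refl a) b)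
      ?_ ?_ ?_ ?_
    · intro b hb
      rw [Finset.mem_filter] at hb ⊢
      obtain ⟨hb1, hb2⟩ := hb
      refine ⟨prime_mem haΦ hb1, ?_⟩
      rw [not_not, D.rt_neg]
      rw [D.rt_mul] at hb2
      exact (not_pos_iff (D.act_mem _ _ (D.act_mem _ _ (mem_of_pos (mem_Sa.1 hb1).1)))).1 hb2
    · intro b hb
      rw [Finset.mem_filter] at hb ⊢
      obtain ⟨hb1, hb2⟩ := hb
      refine ⟨prime_mem haΦ hb1, ?_⟩
      rw [not_not] at hb2
      rw [D.rt_mul, D.rt_neg, rr haΦ, D.rt_neg]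
      exact neg_not_pos hb2
    · intro b _
      exact prime_prime haΦ b
    · intro b _
      exact prime_prime haΦ b
  have h5 := Finset.card_filter_add_card_filter_not (s := D.Sa a) (fun b => D.rt u b ∉ D.Pos)
  rw [h3, h4] at h1
  omega

theorem len_lt_of_pos (u : D.W) {a : Fin r → ℤ} (ha : a ∈ D.Pos) (h : D.rt u a ∈ D.Pos) :
    D.len u < D.len (u * D.refl a) := by
  have haΦ := mem_of_pos ha
  have h1 := len_mul_refl u ha
  have h2 : ((D.Sa a).filter fun b => D.rt u b ∉ D.Pos).card ≤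
      (((D.Sa a).filter fun b => ¬ D.rt u b ∉ D.Pos).erase a).card := by
    apply Finset.card_le_card_of_injOn (fun b => -D.rt (D.refl a) b)
    · intro b hb
      obtain ⟨hb1, hb2⟩ := Finset.mem_filter.1 (Finset.mem_coe.1 hb)
      refine Finset.mem_coe.2 (Finset.mem_erase.2 ⟨?_, Finset.mem_filter.2
        ⟨prime_mem haΦ hb1, ?_⟩⟩)
      · intro hcon
        apply hb2
        have hcon' : -D.rt (D.refl a) b = a := hcon
        have : b = a := by
          rw [← prime_prime haΦ b, hcon', rt_refl_self haΦ, neg_neg]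
        rw [this]; exact h
      · rw [not_not]
        by_contra hneg
        have hc := c_pos ha hb1
        have hbΦ := mem_of_pos (mem_Sa.1 hb1).1
        have hpΦ := mem_of_pos (mem_Sa.1 (prime_mem haΦ hb1)).1
        have n1 := (not_pos_iff (D.act_mem u _ hbΦ)).1 hb2
        have n2 := (not_pos_iff (D.act_mem u _ hpΦ)).1 hneg
        have hsum : D.rt u b + D.rt u (-D.rt (D.refl a) b) =
            dotProduct (D.co a) b • D.rt u a := by
          rw [← D.rt_add, ← D.rt_smul, rt_refl haΦ]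
          congr 1
          abel
        apply ne_zero (D.act_mem u a haΦ)
        funext i
        have e1 := (mem_Pos.1 n1).2 i
        have e2 := (mem_Pos.1 n2).2 i
        have e3 := (mem_Pos.1 h).2 i
        have e4 := congrFun hsum i
        rw [Pi.add_apply, Pi.smul_apply, smul_eq_mul] at e4
        rw [Pi.neg_apply] at e1 e2
        have e1' : D.rt u b i ≤ 0 := by
          have : (0 : ℤ) ≤ -(D.rt u b i) := e1
          omega
        have e2' : D.rt u (-D.rt (D.refl a) b) i ≤ 0 := by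
          have : (0 : ℤ) ≤ -(D.rt u (-D.rt (D.refl a) b) i) := e2
          omega
        have e5 : dotProduct (D.co a) b * D.rt u a i ≤ 0 := by rw [← e4]; omega
        have e6 : D.rt u a i ≤ 0 := by
          by_contra hcon
          push Not at hcon
          have := mul_pos hc hcon
          omega
        show D.rt u a i = 0
        omega
    · intro b _ c _ hbc
      have hbc' : -D.rt (D.refl a) b = -D.rt (D.refl a) c := hbc
      rw [← prime_prime haΦ b, hbc', prime_prime haΦ]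
  have h3 : a ∈ (D.Sa a).filter fun b => ¬ D.rt u b ∉ D.Pos := by
    rw [Finset.mem_filter, not_not]
    exact ⟨self_mem_Sa ha, h⟩
  rw [Finset.card_erase_of_mem h3] at h2
  have h4 : 0 < ((D.Sa a).filter fun b => ¬ D.rt u b ∉ D.Pos).card := Finset.card_pos.2 ⟨a, h3⟩
  have h5 := Finset.card_filter_add_card_filter_not (s := D.Sa a) (fun b => D.rt u b ∉ D.Pos)
  omega

theorem len_lt_of_neg (u : D.W) {a : Fin r → ℤ} (ha : a ∈ D.Pos) (h : D.rt u a ∉ D.Pos) :
    D.len (u * D.refl a) < D.len u := by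
  have haΦ := mem_of_pos ha
  have h1 := len_lt_of_pos (u * D.refl a) ha (by
    rw [D.rt_mul, rt_refl_self haΦ, D.rt_neg]
    exact (not_pos_iff (D.act_mem _ _ haΦ)).1 h)
  rwa [mul_assoc, refl_mul_self haΦ, mul_one] at h1

theorem card_Sa_le {a : Fin r → ℤ} (ha : a ∈ D.Pos) : ((D.Sa a).card : ℤ) + 1 ≤ D.L a := by
  have haΦ := mem_of_pos ha
  have h0 : D.L a = ∑ b ∈ D.Pos, dotProduct (D.co a) b := by
    unfold L tr
    rw [dotProduct_sum]
  have h1 : ∑ b ∈ D.Pos, dotProduct (D.co a) b =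
      ∑ b ∈ D.Sa a, dotProduct (D.co a) b +
        ∑ b ∈ D.Pos.filter (fun b => ¬ D.rt (D.refl a) b ∉ D.Pos), dotProduct (D.co a) b := by
    unfold Sa
    rw [Finset.sum_filter_add_sum_filter_not]
  have h2 : ∑ b ∈ D.Pos.filter (fun b => ¬ D.rt (D.refl a) b ∉ D.Pos),
      dotProduct (D.co a) b = 0 := by
    have h3 : ∑ b ∈ D.Pos.filter (fun b => ¬ D.rt (D.refl a) b ∉ D.Pos),
        dotProduct (D.co a) b =
        ∑ b ∈ D.Pos.filter (fun b => ¬ D.rt (D.refl a) b ∉ D.Pos),
          -dotProduct (D.co a) b := by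
      refine Finset.sum_bij' (fun b _ => D.rt (D.refl a) b) (fun b _ => D.rt (D.refl a) b)
        ?_ ?_ ?_ ?_ ?_
      · intro b hb
        rw [Finset.mem_filter, not_not] at hb ⊢
        rw [rr haΦ]
        exact ⟨hb.2, hb.1⟩
      · intro b hb
        rw [Finset.mem_filter, not_not] at hb ⊢
        rw [rr haΦ]
        exact ⟨hb.2, hb.1⟩
      · intro b _
        exact rr haΦ b
      · intro b _
        exact rr haΦ b
      · intro b _
        rw [rt_refl haΦ, dotProduct_sub, dotProduct_smul, D.co_self a haΦ, smul_eq_mul]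
        ring
    rw [Finset.sum_neg_distrib] at h3
    omega
  have h4 : ((D.Sa a).card : ℤ) + 1 ≤ ∑ b ∈ D.Sa a, dotProduct (D.co a) b := by
    rw [← Finset.add_sum_erase _ _ (self_mem_Sa ha), D.co_self a haΦ]
    have h5 : ((D.Sa a).erase a).card • (1 : ℤ) ≤
        ∑ b ∈ (D.Sa a).erase a, dotProduct (D.co a) b :=
      Finset.card_nsmul_le_sum _ _ _ fun b hb => c_pos ha (Finset.mem_of_mem_erase hb)
    rw [Finset.card_erase_of_mem (self_mem_Sa ha), nsmul_eq_mul, mul_one] at h5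
    have h6 : 0 < (D.Sa a).card := Finset.card_pos.2 ⟨a, self_mem_Sa ha⟩
    omega
  rw [h0, h1, h2, add_zero]
  exact h4

theorem len_diff_le (u : D.W) {a : Fin r → ℤ} (ha : a ∈ D.Pos) :
    |(D.len (u * D.refl a) : ℤ) - D.len u| + 1 ≤ D.L a := by
  have h1 := len_mul_refl u ha
  have h2 := card_Sa_le ha
  have h3 : ((D.Sa a).filter fun b => D.rt u b ∉ D.Pos).card ≤ (D.Sa a).card :=
    Finset.card_filter_le _ _
  have h4 : |(D.len (u * D.refl a) : ℤ) - D.len u| ≤ (D.Sa a).card := by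
    rw [abs_le]
    constructor <;> omega
  omega

theorem two_le_L {a : Fin r → ℤ} (ha : a ∈ D.Pos) : 2 ≤ D.L a := by
  have h2 := card_Sa_le ha
  have h6 : 0 < (D.Sa a).card := Finset.card_pos.2 ⟨a, self_mem_Sa ha⟩
  omega

private theorem odd_Sa {a : Fin r → ℤ} (ha : a ∈ D.Pos) : Odd (D.Sa a).card := by
  have haΦ := mem_of_pos ha
  have h1 : ∑ _b ∈ (D.Sa a).erase a, (1 : ZMod 2) = 0 := by
    refine Finset.sum_involution (fun b _ => -D.rt (D.refl a) b) ?_ ?_ ?_ ?_
    · intro b _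
      decide
    · intro b hb _ hcon
      obtain ⟨hne, hbS⟩ := Finset.mem_erase.1 hb
      have hbP := (mem_Sa.1 hbS).1
      have h2 : (2 : ℤ) • b = dotProduct (D.co a) b • a := by
        rw [rt_refl haΦ] at hcon
        rw [two_smul]
        calc b + b = b + -(b - dotProduct (D.co a) b • a) := by rw [hcon]
          _ = _ := by abel
      rcases D.reduced b (mem_of_pos hbP) a haΦ 2 _ (by norm_num) h2 with h3 | h3
      · exact hne h3
      · rw [h3] at hbP
        exact neg_not_pos ha hbP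
    · intro b hb
      obtain ⟨hne, hbS⟩ := Finset.mem_erase.1 hb
      refine Finset.mem_erase.2 ⟨?_, prime_mem haΦ hbS⟩
      intro hcon
      apply hne
      rw [← prime_prime haΦ b, hcon, rt_refl_self haΦ, neg_neg]
    · intro b _
      exact prime_prime haΦ b
  rw [Finset.sum_const, nsmul_eq_mul, mul_one, ZMod.natCast_eq_zero_iff_even,
    Finset.card_erase_of_mem (self_mem_Sa ha)] at h1
  have h6 : 0 < (D.Sa a).card := Finset.card_pos.2 ⟨a, self_mem_Sa ha⟩
  obtain ⟨k, hk⟩ := h1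
  exact ⟨k, by omega⟩

private theorem parity_pos (u : D.W) {a : Fin r → ℤ} (ha : a ∈ D.Pos) :
    (-1 : ℤ) ^ D.len (u * D.refl a) = -(-1) ^ D.len u := by
  obtain ⟨k, hk⟩ := odd_Sa ha
  have h1 := len_mul_refl u ha
  obtain ⟨N, hN⟩ : ∃ N, N = ((D.Sa a).filter fun b => D.rt u b ∉ D.Pos).card := ⟨_, rfl⟩
  rw [← hN, hk] at h1
  have h2 : D.len (u * D.refl a) + 2 * N = D.len u + 2 * k + 1 := by
    push_cast at h1
    omega
  have h3 : (-1 : ℤ) ^ (D.len (u * D.refl a) + 2 * N) = (-1) ^ (D.len u + 2 * k + 1) := by rw [h2]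
  rw [pow_add, pow_mul, pow_add, pow_add, pow_mul] at h3
  simpa using h3

theorem len_parity (u : D.W) {a : Fin r → ℤ} (ha : a ∈ D.Φ) :
    (-1 : ℤ) ^ D.len (u * D.refl a) = -(-1) ^ D.len u := by
  rcases pos_or_neg ha with h | h
  · exact parity_pos u h
  · rw [← refl_neg ha]
    exact parity_pos u h

end Pool.Agent.FLG.RS
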