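import Pool.Agent.FLG.Simple
import Pool.Agent.FLG.LenA

/-!
# FLG-LenS: multiplication by simple reflections on the left, the longest element

The exchange condition for words in the simple reflections, and its consequences.
-/

set_option autoImplicit false

open scoped BigOperators

namespace Pool.Agent.FLG.RS

variable {r : ℕ} {D : RS r}

/-- the product of a word in the simple reflections -/
private def wd (D : RS r) (l : List (Fin r)) : D.W := (l.map D.s).prod

private theorem wd_nil (D : RS r) : wd D [] = 1 := by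
  simp [wd]

private theorem wd_cons (D : RS r) (j : Fin r) (l : List (Fin r)) :
    wd D (j :: l) = D.s j * wd D l := by
  simp [wd]

private theorem wd_concat (D : RS r) (j : Fin r) (l : List (Fin r)) :
    wd D (l ++ [j]) = wd D l * D.s j := by
  simp [wd]

private theorem exists_wd (w : D.W) : ∃ l, wd D l = w := by
  have hw : w ∈ Subgroup.closure (Set.range fun i => D.refl (Pi.single i 1)) := by
    rw [D.gen]
    exact Subgroup.mem_top w
  induction hw using Subgroup.closure_induction with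
  | mem x hx =>
    obtain ⟨i, hi⟩ := hx
    refine ⟨[i], ?_⟩
    rw [wd_cons, wd_nil, mul_one]
    exact hi
  | one => exact ⟨[], wd_nil D⟩
  | mul x y _ _ hx hy =>
    obtain ⟨l, hl⟩ := hx
    obtain ⟨m, hm⟩ := hy
    refine ⟨l ++ m, ?_⟩
    rw [← hl, ← hm]
    simp [wd]
  | inv x _ hx =>
    obtain ⟨l, hl⟩ := hx
    refine ⟨l.reverse, ?_⟩
    rw [← hl]
    clear hl
    induction l with
    | nil => simp [wd]
    | cons j l ih =>
      rw [List.reverse_cons, wd_concat, ih, wd_cons, mul_inv_rev, s_inv]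

private theorem exch (l : List (Fin r)) (i : Fin r) (h : D.rt (wd D l) (al i) ∉ D.Pos) :
    ∃ l', l'.length + 1 = l.length ∧ wd D l' = wd D l * D.s i := by
  induction l with
  | nil =>
    rw [wd_nil, D.rt_one] at h
    exact absurd (D.al_pos i) h
  | cons j l ih =>
    by_cases h1 : D.rt (wd D l) (al i) ∈ D.Pos
    · refine ⟨l, rfl, ?_⟩
      have h2 : D.rt (wd D l) (al i) = al j := by
        by_contra h3
        apply h
        rw [wd_cons, D.rt_mul]
        exact (s_perm j h1 h3).1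
      have h4 : D.s j = wd D l * D.s i * (wd D l)⁻¹ := by
        unfold s
        rw [← h2]
        exact refl_rt _ (D.al_mem i)
      rw [wd_cons, h4, inv_mul_cancel_right, mul_assoc, s_mul_self, mul_one]
    · obtain ⟨l', hl', hw⟩ := ih h1
      refine ⟨j :: l', ?_, ?_⟩
      · rw [List.length_cons, List.length_cons, hl']
      · rw [wd_cons, wd_cons, hw, mul_assoc]

private theorem neg_of_wd (n : ℕ) : ∀ l : List (Fin r), l.length = n → wd D l ≠ 1 →
    ∃ i, D.rt (wd D l) (al i) ∉ D.Pos := by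
  induction n using Nat.strong_induction_on with
  | _ n ih =>
    intro l hl hw
    rcases List.eq_nil_or_concat l with h | ⟨l0, i, h⟩
    · rw [h, wd_nil] at hw
      exact absurd rfl hw
    · by_cases h1 : D.rt (wd D l) (al i) ∉ D.Pos
      · exact ⟨i, h1⟩
      · rw [not_not] at h1
        rw [List.concat_eq_append] at h
        have hwl : wd D l = wd D l0 * D.s i := by rw [h, wd_concat]
        have h2 : D.rt (wd D l0) (al i) ∉ D.Pos := by
          intro h3
          rw [hwl, D.rt_mul, rt_s_al, D.rt_neg] at h1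
          exact neg_not_pos h3 h1
        obtain ⟨l', hl', hw'⟩ := exch l0 i h2
        rw [← hwl] at hw'
        rw [← hw'] at hw ⊢
        refine ih l'.length ?_ l' rfl hw
        rw [← hl, h, List.length_append, List.length_singleton]
        omega

private theorem neg_of_ne_one {w : D.W} (h : w ≠ 1) : ∃ i, D.rt w (al i) ∉ D.Pos := by
  obtain ⟨l, hl⟩ := exists_wd w
  rw [← hl] at h ⊢
  exact neg_of_wd l.length l rfl h

private theorem Sa_al (D : RS r) (i : Fin r) : D.Sa (al i) = {al i} := by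
  ext b
  unfold Sa
  rw [Finset.mem_filter, Finset.mem_singleton]
  constructor
  · rintro ⟨h1, h2⟩
    by_contra h3
    exact h2 (s_perm i h1 h3).1
  · intro h
    rw [h]
    refine ⟨D.al_pos i, ?_⟩
    rw [rt_refl_self (D.al_mem i)]
    exact neg_not_pos (D.al_pos i)

private theorem pos_of_neg_not {a : Fin r → ℤ} (ha : a ∈ D.Φ) (h : -a ∉ D.Pos) : a ∈ D.Pos :=
  (pos_or_neg ha).resolve_right h

theorem len_one : D.len 1 = 0 := by
  unfold len
  rw [Finset.card_eq_zero, Finset.filter_eq_empty_iff]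
  intro a ha h
  rw [D.rt_one] at h
  exact h ha

theorem len_inv (w : D.W) : D.len w⁻¹ = D.len w := by
  unfold len
  refine Finset.card_nbij' (fun b => -D.rt w⁻¹ b) (fun c => -D.rt w c) ?_ ?_ ?_ ?_
  · intro b hb
    rw [Finset.mem_coe, Finset.mem_filter] at hb ⊢
    refine ⟨(not_pos_iff (D.rt_mem.2 (mem_of_pos hb.1))).1 hb.2, ?_⟩
    simp only [D.rt_neg, D.rt_rt_inv]
    exact neg_not_pos hb.1
  · intro c hc
    rw [Finset.mem_coe, Finset.mem_filter] at hc ⊢
    refine ⟨(not_pos_iff (D.rt_mem.2 (mem_of_pos hc.1))).1 hc.2, ?_⟩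
    simp only [D.rt_neg, D.rt_inv_rt]
    exact neg_not_pos hc.1
  · intro b _
    simp only [D.rt_neg, D.rt_rt_inv, neg_neg]
  · intro c _
    simp only [D.rt_neg, D.rt_inv_rt, neg_neg]

theorem len_mul_s_of_pos (i : Fin r) (w : D.W) (h : D.rt w (al i) ∈ D.Pos) :
    D.len (w * D.s i) = D.len w + 1 := by
  have h1 := len_mul_refl w (D.al_pos i)
  rw [Sa_al, Finset.card_singleton, Finset.filter_singleton, if_neg (not_not.2 h),
    Finset.card_empty] at h1
  have h2 : D.len (w * D.s i) = D.len (w * D.refl (al i)) := rfl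
  omega

theorem len_mul_s_of_neg (i : Fin r) (w : D.W) (h : D.rt w (al i) ∉ D.Pos) :
    D.len (w * D.s i) + 1 = D.len w := by
  have h1 := len_mul_refl w (D.al_pos i)
  rw [Sa_al, Finset.card_singleton, Finset.filter_singleton, if_pos h,
    Finset.card_singleton] at h1
  have h2 : D.len (w * D.s i) = D.len (w * D.refl (al i)) := rfl
  omega

theorem len_s_mul_of_pos (i : Fin r) (w : D.W) (h : D.rt w⁻¹ (al i) ∈ D.Pos) :
    D.len (D.s i * w) = D.len w + 1 := by
  have h1 := len_mul_s_of_pos i w⁻¹ h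
  rw [len_inv w] at h1
  rw [← h1, ← len_inv (D.s i * w), mul_inv_rev, s_inv]

theorem len_s_mul_of_neg (i : Fin r) (w : D.W) (h : D.rt w⁻¹ (al i) ∉ D.Pos) :
    D.len (D.s i * w) + 1 = D.len w := by
  have h1 := len_mul_s_of_neg i w⁻¹ h
  rw [len_inv w] at h1
  rw [← h1, ← len_inv (D.s i * w), mul_inv_rev, s_inv]

theorem eq_one_of_len {w : D.W} (h : D.len w = 0) : w = 1 := by
  by_contra h1
  obtain ⟨i, hi⟩ := neg_of_ne_one h1
  unfold len at h
  rw [Finset.card_eq_zero, Finset.filter_eq_empty_iff] at h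
  exact h (D.al_pos i) hi

theorem exists_descent {w : D.W} (h : w ≠ 1) : ∃ i, D.len (D.s i * w) + 1 = D.len w := by
  have h1 : w⁻¹ ≠ 1 := fun h2 => h (inv_eq_one.1 h2)
  obtain ⟨i, hi⟩ := neg_of_ne_one h1
  exact ⟨i, len_s_mul_of_neg i w hi⟩

theorem rt_tr (w : D.W) : D.rt w D.tr =
    D.tr - (2 : ℤ) • ∑ b ∈ D.Pos.filter (fun b => D.rt w⁻¹ b ∉ D.Pos), b := by
  unfold tr
  rw [D.rt_sum, ← Finset.sum_filter_add_sum_filter_not D.Pos (fun a => D.rt w a ∈ D.Pos)
    (fun a => D.rt w a), ← Finset.sum_filter_add_sum_filter_not D.Pos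
    (fun b => D.rt w⁻¹ b ∈ D.Pos) (fun b => b)]
  have h1 : ∑ a ∈ D.Pos.filter (fun a => D.rt w a ∈ D.Pos), D.rt w a =
      ∑ b ∈ D.Pos.filter (fun b => D.rt w⁻¹ b ∈ D.Pos), b := by
    refine Finset.sum_nbij' (fun a => D.rt w a) (fun b => D.rt w⁻¹ b) ?_ ?_ ?_ ?_ ?_
    · intro a ha
      rw [Finset.mem_filter] at ha ⊢
      refine ⟨ha.2, ?_⟩
      rw [D.rt_inv_rt]
      exact ha.1
    · intro b hb
      rw [Finset.mem_filter] at hb ⊢
      refine ⟨hb.2, ?_⟩
      rw [D.rt_rt_inv]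
      exact hb.1
    · intro a _
      exact D.rt_inv_rt w a
    · intro b _
      exact D.rt_rt_inv w b
    · intro a _
      rfl
  have h2 : ∑ a ∈ D.Pos.filter (fun a => D.rt w a ∉ D.Pos), D.rt w a =
      -∑ b ∈ D.Pos.filter (fun b => D.rt w⁻¹ b ∉ D.Pos), b := by
    rw [← Finset.sum_neg_distrib]
    refine Finset.sum_nbij' (fun a => -D.rt w a) (fun b => -D.rt w⁻¹ b) ?_ ?_ ?_ ?_ ?_
    · intro a ha
      rw [Finset.mem_filter] at ha ⊢
      refine ⟨(not_pos_iff (D.rt_mem.2 (mem_of_pos ha.1))).1 ha.2, ?_⟩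
      rw [D.rt_neg, D.rt_inv_rt]
      exact neg_not_pos ha.1
    · intro b hb
      rw [Finset.mem_filter] at hb ⊢
      refine ⟨(not_pos_iff (D.rt_mem.2 (mem_of_pos hb.1))).1 hb.2, ?_⟩
      rw [D.rt_neg, D.rt_rt_inv]
      exact neg_not_pos hb.1
    · intro a _
      simp only [D.rt_neg, D.rt_inv_rt, neg_neg]
    · intro b _
      simp only [D.rt_neg, D.rt_rt_inv, neg_neg]
    · intro a _
      rw [neg_neg]
  rw [h1, h2, two_smul]
  abel

theorem tr_regular {w : D.W} (h : D.rt w D.tr = D.tr) : w = 1 := by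
  have h1 := rt_tr w
  rw [h, eq_comm, sub_eq_self] at h1
  have h2 : ∑ b ∈ D.Pos.filter (fun b => D.rt w⁻¹ b ∉ D.Pos), b = 0 := by
    funext j
    have h3 := congrFun h1 j
    rw [Pi.smul_apply, smul_eq_mul, Pi.zero_apply] at h3
    rw [Pi.zero_apply]
    omega
  have h4 : D.Pos.filter (fun b => D.rt w⁻¹ b ∉ D.Pos) = ∅ := by
    by_contra h5
    obtain ⟨b, hb⟩ := Finset.nonempty_iff_ne_empty.2 h5
    have hb1 := (Finset.mem_filter.1 hb).1
    apply ne_zero (mem_of_pos hb1)
    funext j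
    have h6 := congrFun h2 j
    rw [Finset.sum_apply, Pi.zero_apply] at h6
    have h7 := (Finset.sum_eq_zero_iff_of_nonneg (fun c hc =>
      (mem_Pos.1 (Finset.mem_filter.1 hc).1).2 j)).1 h6
    exact h7 b hb
  have h8 : D.len w⁻¹ = 0 := by
    unfold len
    rw [h4, Finset.card_empty]
  exact inv_eq_one.1 (eq_one_of_len h8)

theorem exists_w0 (D : RS r) : ∃ w : D.W, ∀ a ∈ D.Pos, D.rt w a ∉ D.Pos := by
  obtain ⟨w, hw⟩ := Finite.exists_max D.len
  have h1 : ∀ i j, D.rt w (al i) j ≤ 0 := by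
    intro i j
    have h2 : D.rt w (al i) ∉ D.Pos := by
      intro h3
      have h4 := len_mul_s_of_pos i w h3
      have h5 := hw (w * D.s i)
      omega
    have h6 := (not_pos_iff (D.rt_mem.2 (D.al_mem i))).1 h2
    have h7 := (mem_Pos.1 h6).2 j
    rw [Pi.neg_apply] at h7
    omega
  refine ⟨w, fun a ha h => ?_⟩
  apply ne_zero (D.rt_mem.2 (mem_of_pos ha) : D.rt w a ∈ D.Φ)
  funext j
  refine le_antisymm ?_ ((mem_Pos.1 h).2 j)
  have h8 : D.rt w a = ∑ i, a i • D.rt w (al i) := by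
    conv_lhs => rw [eq_sum_al a]
    rw [D.rt_sum]
    exact Finset.sum_congr rfl fun i _ => D.rt_smul w (a i) (al i)
  rw [h8, Finset.sum_apply, Pi.zero_apply]
  refine Finset.sum_nonpos fun i _ => ?_
  rw [Pi.smul_apply, smul_eq_mul]
  exact mul_nonpos_of_nonneg_of_nonpos ((mem_Pos.1 ha).2 i) (h1 i j)

/-- the longest element -/
noncomputable def w0 (D : RS r) : D.W := (exists_w0 D).choose

theorem w0_pos {a : Fin r → ℤ} (ha : a ∈ D.Pos) : D.rt D.w0 a ∉ D.Pos :=
  (exists_w0 D).choose_spec a ha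

theorem w0_mul_self : D.w0 * D.w0 = 1 := by
  apply eq_one_of_len
  unfold len
  rw [Finset.card_eq_zero, Finset.filter_eq_empty_iff]
  intro a ha h
  apply h
  have h1 := (not_pos_iff (D.rt_mem.2 (mem_of_pos ha))).1 (w0_pos ha)
  have h2 := w0_pos h1
  rw [D.rt_neg] at h2
  rw [D.rt_mul]
  exact pos_of_neg_not (D.rt_mem.2 (D.rt_mem.2 (mem_of_pos ha))) h2

theorem len_w0_mul (w : D.W) : D.len (D.w0 * w) + D.len w = D.dm := by
  unfold len dm
  have h1 : D.Pos.filter (fun a => D.rt (D.w0 * w) a ∉ D.Pos) =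
      D.Pos.filter (fun a => D.rt w a ∈ D.Pos) := by
    refine Finset.filter_congr fun a ha => ?_
    rw [D.rt_mul]
    constructor
    · intro h
      by_contra h2
      have h3 := (not_pos_iff (D.rt_mem.2 (mem_of_pos ha))).1 h2
      have h4 := w0_pos h3
      rw [D.rt_neg] at h4
      exact h (pos_of_neg_not (D.rt_mem.2 (D.rt_mem.2 (mem_of_pos ha))) h4)
    · exact w0_pos
  rw [h1]
  exact Finset.card_filter_add_card_filter_not _

theorem len_le_dm (w : D.W) : D.len w ≤ D.dm := by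
  unfold len dm
  exact Finset.card_filter_le _ _

theorem rt_w0_tr : D.rt D.w0 D.tr = -D.tr := by
  have h1 : (D.w0)⁻¹ = D.w0 := inv_eq_of_mul_eq_one_right w0_mul_self
  have h2 : D.Pos.filter (fun b => D.rt (D.w0)⁻¹ b ∉ D.Pos) = D.Pos := by
    rw [h1, Finset.filter_eq_self]
    exact fun a ha => w0_pos ha
  rw [rt_tr, h2, two_smul]
  unfold tr
  abel

end Pool.Agent.FLG.RS
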