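import Pool.Agent.FLG.RS

/-!
# FLG-Model (A0): every reduced crystallographic root system of Mathlib with a base has a model `RS`
-/

set_option autoImplicit false

open scoped BigOperators

namespace Pool.Agent.FLG

/-- `D` is a model in coordinates of the root system `P` with base `b`. -/
structure IsModel {ι M N : Type} [AddCommGroup M] [Module ℂ M] [AddCommGroup N] [Module ℂ N]
    (P : RootPairing ι ℂ M N) [P.IsCrystallographic] (b : P.Base) {r : ℕ} (D : RS r) where
  e : Fin r ≃ b.support
  v : ι → Fin r → ℤ
  f : P.weylGroup ≃* D.W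
  v_inj : Function.Injective v
  range_v : ∀ a, a ∈ D.Φ ↔ ∃ i, v i = a
  root : ∀ i, P.root i = ∑ k, v i k • P.root (e k)
  v_e : ∀ k, v (e k) = RS.al k
  co : ∀ i k, D.co (v i) k = P.pairingIn ℤ (e k) i
  cof : ∀ i, P.coroot i = ∑ k, D.cof (v i) k • P.coroot (e k)
  f_root : ∀ w i, D.rt (f w) (v i) = v (P.weylGroupToPerm w i)
  f_refl : ∀ i, f (RootPairing.weylGroup.ofIdx P i) = D.refl (v i)

section Mdl

variable {ι M N : Type} [AddCommGroup M] [Module ℂ M] [AddCommGroup N] [Module ℂ N]
  {P : RootPairing ι ℂ M N} (b : P.Base)

/-- enumeration of the base -/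
private noncomputable def me : Fin b.support.card ≃ b.support := b.support.equivFin.symm

/-- the vector with given coordinates -/
private noncomputable def mT : (Fin b.support.card → ℤ) →+ M where
  toFun a := ∑ k, a k • P.root (me b k)
  map_zero' := by simp
  map_add' a c := by
    rw [← Finset.sum_add_distrib]
    exact Finset.sum_congr rfl fun k _ => by rw [Pi.add_apply, add_smul]

private theorem mT_apply (a : Fin b.support.card → ℤ) : mT b a = ∑ k, a k • P.root (me b k) := rfl

private theorem mT_inj : Function.Injective (mT b) := by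
  rw [injective_iff_map_eq_zero]
  intro a ha
  have h1 : LinearIndependent ℤ (fun i : b.support => P.root i) :=
    b.linearIndepOn_root.restrict_scalars' ℤ
  rw [Fintype.linearIndependent_iff] at h1
  have h2 := h1 (fun i => a ((me b).symm i)) (by
    rw [← ha, mT_apply, ← Equiv.sum_comp (me b)]
    exact Finset.sum_congr rfl fun k _ => by rw [Equiv.symm_apply_apply])
  funext k
  have h3 := h2 (me b k)
  rw [Equiv.symm_apply_apply] at h3
  exact h3

/-- the coordinates of the roots -/
private noncomputable def mv (i : ι) : Fin b.support.card → ℤ := fun k =>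
  (b.exists_root_eq_sum_int i).choose (me b k)

private theorem mT_mv (i : ι) : mT b (mv b i) = P.root i := by
  have h1 := (b.exists_root_eq_sum_int i).choose_spec.2.2
  rw [mT_apply]
  have h2 : ∑ k, mv b i k • P.root (me b k) =
      ∑ j : b.support, (b.exists_root_eq_sum_int i).choose j • P.root j :=
    Equiv.sum_comp (me b) (fun j : b.support => (b.exists_root_eq_sum_int i).choose j • P.root j)
  rw [h2, Finset.sum_coe_sort b.support (fun j => (b.exists_root_eq_sum_int i).choose j • P.root j),
    ← h1]

private theorem mv_inj : Function.Injective (mv b) := by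
  intro i j h
  apply P.root.injective
  rw [← mT_mv b i, ← mT_mv b j, h]

private theorem mv_me (k : Fin b.support.card) : mv b (me b k) = Pi.single k 1 := by
  apply mT_inj b
  rw [mT_mv, mT_apply, Finset.sum_eq_single k]
  · rw [Pi.single_eq_same, one_smul]
  · intro j _ hj
    rw [Pi.single_eq_of_ne hj, zero_smul]
  · intro h
    exact absurd (Finset.mem_univ k) h

/-- the coordinates of the coroots -/
private noncomputable def mc (i : ι) : Fin b.support.card → ℤ := fun k =>
  (b.flip.exists_root_eq_sum_int i).choose (me b k)

private theorem mc_spec (i : ι) : P.coroot i = ∑ k, mc b i k • P.coroot (me b k) := by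
  have h1 := (b.flip.exists_root_eq_sum_int i).choose_spec.2.2
  have h2 : ∑ k, mc b i k • P.coroot (me b k) =
      ∑ j : b.support, (b.flip.exists_root_eq_sum_int i).choose j • P.coroot j :=
    Equiv.sum_comp (me b)
      (fun j : b.support => (b.flip.exists_root_eq_sum_int i).choose j • P.coroot j)
  rw [h2, Finset.sum_coe_sort b.support
    (fun j => (b.flip.exists_root_eq_sum_int i).choose j • P.coroot j)]
  exact h1

private theorem mpair (w : P.weylGroup) (i j : ι) :
    P.pairing (P.weylGroupToPerm w i) (P.weylGroupToPerm w j) = P.pairing i j := by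
  obtain ⟨g, hg⟩ := w
  induction hg using RootPairing.weylGroup.induction generalizing i j with
  | mem k =>
    show P.pairing (P.reflectionPerm k i) (P.reflectionPerm k j) = P.pairing i j
    rw [P.pairing_reflectionPerm, P.reflectionPerm_self]
  | one => rfl
  | mul x y hx hy h1 h2 =>
    have h3 : (⟨x * y, mul_mem hx hy⟩ : P.weylGroup) = ⟨x, hx⟩ * ⟨y, hy⟩ := rfl
    rw [h3, map_mul]
    show P.pairing (P.weylGroupToPerm ⟨x, hx⟩ (P.weylGroupToPerm ⟨y, hy⟩ i))
      (P.weylGroupToPerm ⟨x, hx⟩ (P.weylGroupToPerm ⟨y, hy⟩ j)) = _
    rw [h1, h2]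

private theorem msmul (w : P.weylGroup) (a : Fin b.support.card → ℤ) :
    w • mT b a = ∑ k, a k • P.root (P.weylGroupToPerm w (me b k)) := by
  have h1 : ∀ x : M, w • x = DistribSMul.toAddMonoidHom M w x := fun _ => rfl
  rw [mT_apply, h1, map_sum]
  refine Finset.sum_congr rfl fun k _ => ?_
  rw [map_zsmul, ← h1, P.weylGroup_apply_root]

/-- the action on the root lattice -/
private noncomputable def mact (w : P.weylGroup) :
    Matrix (Fin b.support.card) (Fin b.support.card) ℤ :=
  Matrix.of fun j k => mv b (P.weylGroupToPerm w (me b k)) j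

private theorem mact_mulVec (w : P.weylGroup) (a : Fin b.support.card → ℤ) :
    mT b ((mact b w).mulVec a) = w • mT b a := by
  have h1 : (mact b w).mulVec a = ∑ k, a k • mv b (P.weylGroupToPerm w (me b k)) := by
    funext j
    rw [Finset.sum_apply]
    show ∑ k, mv b (P.weylGroupToPerm w (me b k)) j * a k = _
    refine Finset.sum_congr rfl fun k _ => ?_
    rw [Pi.smul_apply, smul_eq_mul, mul_comm]
  rw [h1, map_sum, msmul]
  refine Finset.sum_congr rfl fun k _ => ?_
  rw [map_zsmul, mT_mv]

private theorem mact_mv (w : P.weylGroup) (i : ι) :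
    (mact b w).mulVec (mv b i) = mv b (P.weylGroupToPerm w i) := by
  apply mT_inj b
  rw [mact_mulVec, mT_mv, mT_mv, P.weylGroup_apply_root]

/-- the action as a homomorphism -/
private noncomputable def macth :
    P.weylGroup →* Matrix (Fin b.support.card) (Fin b.support.card) ℤ where
  toFun := mact b
  map_one' := by
    refine Matrix.ext_of_mulVec_single fun k => ?_
    apply mT_inj b
    rw [mact_mulVec, one_smul, Matrix.one_mulVec]
  map_mul' w w' := by
    refine Matrix.ext_of_mulVec_single fun k => ?_
    apply mT_inj b
    rw [mact_mulVec, ← Matrix.mulVec_mulVec, mact_mulVec, mact_mulVec, mul_smul]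

open Classical in
/-- functions of the index as functions of the coordinates -/
private noncomputable def msel {β : Type} (f : ι → β) (d : β) (a : Fin b.support.card → ℤ) : β :=
  if h : ∃ i, mv b i = a then f h.choose else d

private theorem msel_mv {β : Type} (f : ι → β) (d : β) (i : ι) : msel b f d (mv b i) = f i := by
  have h : ∃ j, mv b j = mv b i := ⟨i, rfl⟩
  unfold msel
  rw [dif_pos h, mv_inj b h.choose_spec]

section Root

variable [P.IsRootSystem]

private theorem mfaith {w w' : P.weylGroup}
    (h : ∀ i, P.weylGroupToPerm w i = P.weylGroupToPerm w' i) : w = w' := by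
  apply Subtype.ext
  apply RootPairing.Equiv.weightHom_injective P
  apply LinearEquiv.toLinearMap_injective
  refine LinearMap.ext_on_range (v := P.root) RootPairing.IsRootSystem.span_root_eq_top fun i => ?_
  show w • P.root i = w' • P.root i
  rw [P.weylGroup_apply_root, P.weylGroup_apply_root, h]

private theorem mact_inj : Function.Injective (mact b) := by
  intro w w' h
  refine mfaith fun i => ?_
  apply mv_inj b
  rw [← mact_mv, ← mact_mv, h]

private theorem mfin [Finite ι] : Finite P.weylGroup :=
  Finite.of_injective (P.weylGroupToPerm : P.weylGroup → (ι ≃ ι)) fun w w' h =>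
    mfaith fun i => by rw [h]

private theorem mrefl_perm (i j : ι) :
    RootPairing.weylGroup.ofIdx P (P.reflectionPerm j i) =
      RootPairing.weylGroup.ofIdx P j * RootPairing.weylGroup.ofIdx P i *
        RootPairing.weylGroup.ofIdx P j := by
  apply Subtype.ext
  apply RootPairing.Equiv.weightHom_injective P
  show RootPairing.Equiv.weightHom P (RootPairing.Equiv.reflection P (P.reflectionPerm j i)) =
    RootPairing.Equiv.weightHom P (RootPairing.Equiv.reflection P j *
      RootPairing.Equiv.reflection P i * RootPairing.Equiv.reflection P j)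
  rw [map_mul, map_mul]
  have h1 : ∀ k, RootPairing.Equiv.weightHom P (RootPairing.Equiv.reflection P k) =
      P.reflection k := fun k => RootPairing.Equiv.reflection_weightEquiv P k
  rw [h1, h1, h1, P.reflection_reflectionPerm]

private theorem mgen [Finite ι] [P.IsCrystallographic] [P.IsReduced] :
    Subgroup.closure (Set.range fun k => RootPairing.weylGroup.ofIdx P (me b k)) = ⊤ := by
  rw [Subgroup.eq_top_iff']
  have h1 : ∀ i, RootPairing.weylGroup.ofIdx P i ∈
      Subgroup.closure (Set.range fun k => RootPairing.weylGroup.ofIdx P (me b k)) := by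
    intro i
    refine b.induction_reflect i (p := fun i => RootPairing.weylGroup.ofIdx P i ∈
      Subgroup.closure (Set.range fun k => RootPairing.weylGroup.ofIdx P (me b k))) ?_ ?_ ?_
    · intro j hj
      rw [mrefl_perm]
      exact mul_mem (mul_mem hj hj) hj
    · intro j hj
      refine Subgroup.subset_closure ⟨(me b).symm ⟨j, hj⟩, ?_⟩
      show RootPairing.weylGroup.ofIdx P (me b ((me b).symm ⟨j, hj⟩)) = _
      rw [Equiv.apply_symm_apply]
    · intro j l hj hl
      have h2 : RootPairing.weylGroup.ofIdx P l ∈
          Subgroup.closure (Set.range fun k => RootPairing.weylGroup.ofIdx P (me b k)) := by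
        refine Subgroup.subset_closure ⟨(me b).symm ⟨l, hl⟩, ?_⟩
        show RootPairing.weylGroup.ofIdx P (me b ((me b).symm ⟨l, hl⟩)) = _
        rw [Equiv.apply_symm_apply]
      rw [mrefl_perm]
      exact mul_mem (mul_mem h2 hj) h2
  rintro ⟨g, hg⟩
  induction hg using RootPairing.weylGroup.induction with
  | mem k => exact h1 k
  | one => exact one_mem _
  | mul x y hx hy h2 h3 => exact mul_mem h2 h3

end Root

variable [P.IsCrystallographic]

/-- the pairings with the simple roots -/
private noncomputable def mco (i : ι) : Fin b.support.card → ℤ := fun k =>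
  P.pairingIn ℤ (me b k) i

private theorem mpin (i j : ι) : ((P.pairingIn ℤ i j : ℤ) : ℂ) = P.pairing i j := by
  rw [← P.algebraMap_pairingIn ℤ i j]
  rfl

private theorem mdot (i : ι) (a : Fin b.support.card → ℤ) :
    ((dotProduct (mco b i) a : ℤ) : ℂ) = P.coroot' i (mT b a) := by
  rw [mT_apply, map_sum]
  show (((∑ k, mco b i k * a k : ℤ)) : ℂ) = _
  rw [Int.cast_sum]
  refine Finset.sum_congr rfl fun k _ => ?_
  rw [map_zsmul, P.root_coroot'_eq_pairing, Int.cast_mul, zsmul_eq_mul, mul_comm]
  congr 1
  exact mpin _ _

private theorem mdot_mv (i j : ι) : dotProduct (mco b i) (mv b j) = P.pairingIn ℤ j i := by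
  apply Int.cast_injective (α := ℂ)
  rw [mdot, mT_mv, P.root_coroot'_eq_pairing, mpin]

private theorem mdot_act (w : P.weylGroup) (i : ι) (a : Fin b.support.card → ℤ) :
    dotProduct (mco b (P.weylGroupToPerm w i)) ((mact b w).mulVec a) =
      dotProduct (mco b i) a := by
  apply Int.cast_injective (α := ℂ)
  rw [mdot, mdot, mact_mulVec, msmul, mT_apply, map_sum, map_sum]
  refine Finset.sum_congr rfl fun k _ => ?_
  rw [map_zsmul, map_zsmul, P.root_coroot'_eq_pairing, P.root_coroot'_eq_pairing, mpair]

private theorem mco_cof (i : ι) : mco b i = ∑ k, mc b i k • mco b (me b k) := by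
  funext l
  apply Int.cast_injective (α := ℂ)
  rw [Finset.sum_apply, Int.cast_sum]
  have h1 : ((mco b i l : ℤ) : ℂ) = P.toLinearMap (P.root (me b l)) (P.coroot i) := mpin _ _
  rw [h1, mc_spec b i, map_sum]
  refine Finset.sum_congr rfl fun k _ => ?_
  rw [map_zsmul, Pi.smul_apply, smul_eq_mul, Int.cast_mul, zsmul_eq_mul]
  congr 1
  exact (mpin _ _).symm

private theorem mact_refl (i : ι) (a : Fin b.support.card → ℤ) :
    (mact b (RootPairing.weylGroup.ofIdx P i)).mulVec a = a - dotProduct (mco b i) a • mv b i := by
  apply mT_inj b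
  rw [mact_mulVec, map_sub, map_zsmul, mT_mv]
  show P.reflection i (mT b a) = _
  rw [P.reflection_apply, ← mdot b i a, Int.cast_smul_eq_zsmul]

end Mdl

theorem exists_model {ι M N : Type} [Finite ι] [AddCommGroup M] [Module ℂ M] [AddCommGroup N]
    [Module ℂ N] (P : RootPairing ι ℂ M N) [P.IsRootSystem] [P.IsCrystallographic] [P.IsReduced]
    (b : P.Base) : ∃ D : RS b.support.card, Nonempty (IsModel P b D) := by
  classical
  have hfin : Finite P.weylGroup := mfin
  have hmem : ∀ a, a ∈ (Set.finite_range (mv b)).toFinset ↔ ∃ i, mv b i = a := fun a => by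
    rw [Set.Finite.mem_toFinset, Set.mem_range]
  have hlin : ∀ i j, mv b i ≠ mv b j → mv b i ≠ -mv b j →
      P.root i ≠ P.root j ∧ P.root i ≠ -P.root j := by
    intro i j h1 h2
    refine ⟨fun h => h1 (by rw [P.root.injective h]), fun h => h2 ?_⟩
    apply mT_inj b
    rw [map_neg, mT_mv, mT_mv, h]
  let D : RS b.support.card :=
    { W := P.weylGroup
      fin := Fintype.ofFinite _
      dec := Classical.decEq _
      Φ := (Set.finite_range (mv b)).toFinset
      co := msel b (mco b) 0
      cof := msel b (mc b) 0
      act := macth b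
      act_inj := mact_inj b
      act_mem := by
        intro w a ha
        obtain ⟨i, rfl⟩ := (hmem a).1 ha
        exact (hmem _).2 ⟨_, (mact_mv b w i).symm⟩
      refl := msel b (RootPairing.weylGroup.ofIdx P) 1
      act_refl := by
        intro a ha c
        obtain ⟨i, rfl⟩ := (hmem a).1 ha
        rw [msel_mv, msel_mv]
        exact mact_refl b i c
      co_self := by
        intro a ha
        obtain ⟨i, rfl⟩ := (hmem a).1 ha
        rw [msel_mv, mdot_mv]
        exact P.pairingIn_same ℤ i
      co_act := by
        intro w a ha c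
        obtain ⟨i, rfl⟩ := (hmem a).1 ha
        show dotProduct (msel b (mco b) 0 ((mact b w).mulVec (mv b i))) ((mact b w).mulVec c) = _
        rw [mact_mv, msel_mv, msel_mv]
        exact mdot_act b w i c
      co_cof := by
        intro a ha
        obtain ⟨i, rfl⟩ := (hmem a).1 ha
        rw [msel_mv, msel_mv, mco_cof b i]
        refine Finset.sum_congr rfl fun k _ => ?_
        rw [← mv_me b k, msel_mv]
      simple := fun k => (hmem _).2 ⟨_, mv_me b k⟩
      gen := by
        rw [← mgen b]
        congr 1
        congr 1
        funext k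
        rw [← mv_me b k, msel_mv]
      sign := by
        intro a ha
        obtain ⟨i, rfl⟩ := (hmem a).1 ha
        rcases (b.exists_root_eq_sum_int i).choose_spec.2.1 with h | h
        · exact Or.inl fun k => h.le _
        · exact Or.inr fun k => h.le _
      reduced := by
        intro a ha c hc m n hm h
        obtain ⟨i, rfl⟩ := (hmem a).1 ha
        obtain ⟨j, rfl⟩ := (hmem c).1 hc
        have h1 : ¬ LinearIndependent ℂ ![P.root i, P.root j] := by
          rw [LinearIndependent.pair_iff]
          intro h2
          have h3 := congrArg (mT b) h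
          rw [map_zsmul, map_zsmul, mT_mv, mT_mv] at h3
          have h4 := h2 (m : ℂ) (-(n : ℂ)) (by
            rw [neg_smul, Int.cast_smul_eq_zsmul, Int.cast_smul_eq_zsmul, h3, add_neg_cancel])
          exact hm (by exact_mod_cast h4.1)
        rcases RootPairing.IsReduced.eq_or_eq_neg i j h1 with h2 | h2
        · left
          rw [P.root.injective h2]
        · right
          apply mT_inj b
          rw [map_neg, mT_mv, mT_mv, h2]
      rank2 := by
        intro a ha c hc h1 h2
        obtain ⟨i, rfl⟩ := (hmem a).1 ha
        obtain ⟨j, rfl⟩ := (hmem c).1 hc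
        obtain ⟨h3, h4⟩ := hlin i j h1 h2
        have h5 := P.pairingIn_pairingIn_mem_set_of_isCrystal_of_isRed' i j h3 h4
        rw [msel_mv, msel_mv, mdot_mv, mdot_mv]
        simp only [Set.mem_insert_iff, Set.mem_singleton_iff, Prod.mk.injEq] at h5
        omega }
  refine ⟨D, ⟨?_⟩⟩
  exact
    { e := me b
      v := mv b
      f := MulEquiv.refl _
      v_inj := mv_inj b
      range_v := hmem
      root := fun i => (mT_mv b i).symm
      v_e := fun k => mv_me b k
      co := fun i k => by
        show msel b (mco b) 0 (mv b i) k = _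
        rw [msel_mv]
        rfl
      cof := fun i => by
        show P.coroot i = ∑ k, msel b (mc b) 0 (mv b i) k • P.coroot (me b k)
        rw [msel_mv]
        exact mc_spec b i
      f_root := fun w i => mact_mv b w i
      f_refl := fun i => (msel_mv b (RootPairing.weylGroup.ofIdx P) 1 i).symm }

end Pool.Agent.FLG
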