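import Pool.Agent.FLG.RS
import Pool.Agent.DST.TE2

/-!
# FLG-Basic: elementary facts
-/

set_option autoImplicit false

open scoped BigOperators
open Pool.Agent.DST.TE

namespace Pool.Agent.FLG

namespace RS

variable {r : ℕ} (D : RS r)

theorem qq_zero (t : Fin r → ℂ) : qq t 0 = 1 := by
  simp [qq]

theorem qq_add (t : Fin r → ℂ) (μ ν : Fin r → ℤ) : qq t (μ + ν) = qq t μ * qq t ν := by
  unfold qq
  rw [← Complex.exp_add, ← Finset.sum_add_distrib]
  congr 1
  exact Finset.sum_congr rfl fun i _ => by push_cast [Pi.add_apply]; ring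

theorem qq_ne_zero (t : Fin r → ℂ) (μ : Fin r → ℤ) : qq t μ ≠ 0 := Complex.exp_ne_zero _

theorem qq_neg (t : Fin r → ℂ) (μ : Fin r → ℤ) : qq t (-μ) = (qq t μ)⁻¹ := by
  exact eq_inv_of_mul_eq_one_left (by rw [← qq_add, neg_add_cancel, qq_zero])

theorem qq_smul (t : Fin r → ℂ) (n : ℤ) (μ : Fin r → ℤ) : qq t (n • μ) = qq t μ ^ n := by
  unfold qq
  rw [← Complex.exp_int_mul, Finset.mul_sum]
  congr 1
  exact Finset.sum_congr rfl fun i _ => by
    rw [Pi.smul_apply, smul_eq_mul]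
    push_cast
    ring

theorem rt_mul (u w : D.W) (a : Fin r → ℤ) : D.rt (u * w) a = D.rt u (D.rt w a) := by
  unfold rt
  rw [map_mul, Matrix.mulVec_mulVec]

theorem rt_one (a : Fin r → ℤ) : D.rt 1 a = a := by
  unfold rt
  rw [map_one, Matrix.one_mulVec]

theorem rt_add (w : D.W) (a b : Fin r → ℤ) : D.rt w (a + b) = D.rt w a + D.rt w b :=
  Matrix.mulVec_add _ _ _

theorem rt_sub (w : D.W) (a b : Fin r → ℤ) : D.rt w (a - b) = D.rt w a - D.rt w b :=
  Matrix.mulVec_sub _ _ _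

theorem rt_neg (w : D.W) (a : Fin r → ℤ) : D.rt w (-a) = -D.rt w a := Matrix.mulVec_neg _ _

theorem rt_zero (w : D.W) : D.rt w 0 = 0 := Matrix.mulVec_zero _

theorem rt_smul (w : D.W) (n : ℤ) (a : Fin r → ℤ) : D.rt w (n • a) = n • D.rt w a :=
  Matrix.mulVec_smul _ _ _

theorem rt_sum (w : D.W) {ι : Type*} (s : Finset ι) (f : ι → Fin r → ℤ) :
    D.rt w (∑ k ∈ s, f k) = ∑ k ∈ s, D.rt w (f k) := by
  unfold rt
  exact Matrix.mulVec_sum _ _ _

theorem rt_inv_rt (w : D.W) (a : Fin r → ℤ) : D.rt w⁻¹ (D.rt w a) = a := by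
  rw [← rt_mul, inv_mul_cancel, rt_one]

theorem rt_rt_inv (w : D.W) (a : Fin r → ℤ) : D.rt w (D.rt w⁻¹ a) = a := by
  rw [← rt_mul, mul_inv_cancel, rt_one]

theorem rt_inj (w : D.W) : Function.Injective (D.rt w) := fun a b h => by
  rw [← D.rt_inv_rt w a, h, D.rt_inv_rt]

theorem rt_mem {w : D.W} {a : Fin r → ℤ} : D.rt w a ∈ D.Φ ↔ a ∈ D.Φ :=
  ⟨fun h => by
    rw [← D.rt_inv_rt w a]
    exact D.act_mem _ _ h, fun h => D.act_mem _ _ h⟩

theorem eq_sum_al (a : Fin r → ℤ) : a = ∑ i, a i • al i := by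
  funext j
  rw [Finset.sum_apply]
  simp [al, Pi.single_apply]

theorem dot_al (μ : Fin r → ℤ) (i : Fin r) : dotProduct μ (al i) = μ i := by
  simp [al]

theorem ext_rt {u w : D.W} (h : ∀ i, D.rt u (al i) = D.rt w (al i)) : u = w := by
  apply D.act_inj
  ext j i
  have h1 := congrFun (h i) j
  simpa [rt, al, Matrix.mulVec_single] using h1

theorem al_mem (i : Fin r) : al i ∈ D.Φ := D.simple i

variable {D}

theorem rt_refl {a : Fin r → ℤ} (ha : a ∈ D.Φ) (b : Fin r → ℤ) :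
    D.rt (D.refl a) b = b - dotProduct (D.co a) b • a := D.act_refl a ha b

theorem rt_refl_self {a : Fin r → ℤ} (ha : a ∈ D.Φ) : D.rt (D.refl a) a = -a := by
  rw [rt_refl ha, D.co_self a ha, two_smul]
  abel

theorem neg_mem {a : Fin r → ℤ} (ha : a ∈ D.Φ) : -a ∈ D.Φ := by
  rw [← rt_refl_self ha]
  exact D.act_mem _ _ ha

theorem ne_zero {a : Fin r → ℤ} (ha : a ∈ D.Φ) : a ≠ 0 := by
  rintro rfl
  have := D.co_self 0 ha
  simp at this

theorem co_rt (w : D.W) {a : Fin r → ℤ} (ha : a ∈ D.Φ) (b : Fin r → ℤ) :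
    dotProduct (D.co (D.rt w a)) b = dotProduct (D.co a) (D.rt w⁻¹ b) := by
  have h := D.co_act w a ha (D.rt w⁻¹ b)
  rw [← h]
  congr 1
  exact (D.rt_rt_inv w b).symm

theorem co_neg {a : Fin r → ℤ} (ha : a ∈ D.Φ) : D.co (-a) = -D.co a := by
  funext j
  rw [← dot_al (D.co (-a)) j, ← rt_refl_self ha, co_rt _ ha]
  have h1 : D.rt (D.refl a)⁻¹ (al j) = al j - dotProduct (D.co a) (al j) • a := by
    apply D.rt_inj (D.refl a)
    rw [D.rt_rt_inv, D.rt_sub, D.rt_smul, rt_refl_self ha, rt_refl ha]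
    rw [smul_neg, sub_neg_eq_add, sub_add_cancel]
  rw [h1, dotProduct_sub, dotProduct_smul, D.co_self a ha, dot_al, smul_eq_mul, Pi.neg_apply]
  ring

theorem refl_mul_self {a : Fin r → ℤ} (ha : a ∈ D.Φ) : D.refl a * D.refl a = 1 := by
  apply D.ext_rt
  intro i
  rw [D.rt_mul, D.rt_one, rt_refl ha (al i), D.rt_sub, D.rt_smul, rt_refl_self ha, rt_refl ha]
  rw [smul_neg, sub_neg_eq_add, sub_add_cancel]

theorem refl_inv {a : Fin r → ℤ} (ha : a ∈ D.Φ) : (D.refl a)⁻¹ = D.refl a :=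
  inv_eq_of_mul_eq_one_right (refl_mul_self ha)

theorem refl_neg {a : Fin r → ℤ} (ha : a ∈ D.Φ) : D.refl (-a) = D.refl a := by
  apply D.ext_rt
  intro i
  rw [rt_refl (neg_mem ha), rt_refl ha, co_neg ha, neg_dotProduct, neg_smul, smul_neg, neg_neg]

theorem refl_rt (w : D.W) {a : Fin r → ℤ} (ha : a ∈ D.Φ) :
    D.refl (D.rt w a) = w * D.refl a * w⁻¹ := by
  apply D.ext_rt
  intro i
  rw [D.rt_mul, D.rt_mul, rt_refl ha, rt_refl (D.rt_mem.2 ha), D.rt_sub, D.rt_rt_inv, D.rt_smul,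
    co_rt w ha]

theorem refl_inj {a b : Fin r → ℤ} (ha : a ∈ D.Φ) (hb : b ∈ D.Φ) (h : D.refl a = D.refl b) :
    a = b ∨ a = -b := by
  have h1 : D.rt (D.refl b) a = -a := by rw [← h, rt_refl_self ha]
  rw [rt_refl hb] at h1
  have h2 : (2 : ℤ) • a = dotProduct (D.co b) a • b := by
    rw [two_smul]
    have : a - dotProduct (D.co b) a • b + (a + dotProduct (D.co b) a • b) =
      -a + (a + dotProduct (D.co b) a • b) := by rw [h1]
    calc a + a = a - dotProduct (D.co b) a • b + (a + dotProduct (D.co b) a • b) := by abel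
      _ = -a + (a + dotProduct (D.co b) a • b) := this
      _ = _ := by abel
  exact D.reduced a ha b hb 2 _ (by norm_num) h2

variable (D)

theorem yt_mul {R : Type*} [CommRing R] (u w : D.W) (y : Fin r → R) :
    D.yt (u * w) y = D.yt u (D.yt w y) := by
  funext j
  unfold yt
  rw [mul_inv_rev, map_mul]
  simp only [Matrix.mul_apply, Int.cast_sum, Int.cast_mul, Finset.sum_mul, Finset.mul_sum]
  rw [Finset.sum_comm]
  refine Finset.sum_congr rfl fun i _ => Finset.sum_congr rfl fun k _ => ?_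
  ring

theorem yt_one {R : Type*} [CommRing R] (y : Fin r → R) : D.yt 1 y = y := by
  funext j
  unfold yt
  rw [inv_one, map_one]
  simp [Matrix.one_apply]

theorem yt_add {R : Type*} [CommRing R] (w : D.W) (x y : Fin r → R) :
    D.yt w (x + y) = D.yt w x + D.yt w y := by
  funext j
  simp only [yt, Pi.add_apply, mul_add, Finset.sum_add_distrib]

theorem yt_sub {R : Type*} [CommRing R] (w : D.W) (x y : Fin r → R) :
    D.yt w (x - y) = D.yt w x - D.yt w y := by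
  funext j
  simp only [yt, Pi.sub_apply, mul_sub, Finset.sum_sub_distrib]

theorem yt_neg {R : Type*} [CommRing R] (w : D.W) (y : Fin r → R) :
    D.yt w (-y) = -D.yt w y := by
  funext j
  simp only [yt, Pi.neg_apply, mul_neg, Finset.sum_neg_distrib]

theorem yt_smul {R : Type*} [CommRing R] (w : D.W) (c : R) (y : Fin r → R) :
    D.yt w (c • y) = c • D.yt w y := by
  funext j
  simp only [yt, Pi.smul_apply, smul_eq_mul, Finset.mul_sum]
  exact Finset.sum_congr rfl fun i _ => by ring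

theorem yt_zero {R : Type*} [CommRing R] (w : D.W) : D.yt w (0 : Fin r → R) = 0 := by
  funext j
  simp [yt]

theorem yt_inv_yt {R : Type*} [CommRing R] (w : D.W) (y : Fin r → R) :
    D.yt w⁻¹ (D.yt w y) = y := by
  rw [← yt_mul, inv_mul_cancel, yt_one]

theorem yt_yt_inv {R : Type*} [CommRing R] (w : D.W) (y : Fin r → R) :
    D.yt w (D.yt w⁻¹ y) = y := by
  rw [← yt_mul, mul_inv_cancel, yt_one]

theorem yt_cc (w : D.W) (μ : Fin r → ℤ) : D.yt w (cc μ) = cc (D.yt w μ) := by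
  funext j
  simp [yt, cc]

/-- `⟨wa, y⟩ = ⟨a, w⁻¹y⟩` -/
theorem sum_rt {R : Type*} [CommRing R] (w : D.W) (a : Fin r → ℤ) (y : Fin r → R) :
    ∑ i, ((D.rt w a i : ℤ) : R) * y i = ∑ i, ((a i : ℤ) : R) * D.yt w⁻¹ y i := by
  simp only [rt, yt, inv_inv, Matrix.mulVec, dotProduct, Int.cast_sum, Int.cast_mul,
    Finset.sum_mul, Finset.mul_sum]
  rw [Finset.sum_comm]
  refine Finset.sum_congr rfl fun i _ => Finset.sum_congr rfl fun k _ => ?_
  ring

theorem pr_rt (w : D.W) (a : Fin r → ℤ) (y : Fin r → ℂ) :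
    pr (D.rt w a) y = pr a (D.yt w⁻¹ y) := D.sum_rt w a y

theorem pr_yt (w : D.W) (a : Fin r → ℤ) (y : Fin r → ℂ) :
    pr a (D.yt w y) = pr (D.rt w⁻¹ a) y := by
  rw [pr_rt, inv_inv]

theorem dot_rt (w : D.W) (μ a : Fin r → ℤ) :
    dotProduct μ (D.rt w a) = dotProduct (D.yt w⁻¹ μ) a := by
  have h := D.sum_rt (R := ℤ) w a μ
  simp only [Int.cast_id] at h
  rw [dotProduct_comm, dotProduct_comm _ a]
  exact h

theorem dot_yt (w : D.W) (μ a : Fin r → ℤ) :
    dotProduct (D.yt w μ) a = dotProduct μ (D.rt w⁻¹ a) := by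
  rw [dot_rt, inv_inv]

variable {D}

theorem co_rt_eq (w : D.W) {a : Fin r → ℤ} (ha : a ∈ D.Φ) : D.co (D.rt w a) = D.yt w (D.co a) := by
  funext j
  rw [← dot_al (D.co (D.rt w a)) j, co_rt w ha, ← D.dot_yt, dot_al]

theorem yt_refl {a : Fin r → ℤ} (ha : a ∈ D.Φ) (y : Fin r → ℂ) :
    D.yt (D.refl a) y = y - pr a y • cc (D.co a) := by
  funext j
  have h1 : D.yt (D.refl a) y j = pr (al j) (D.yt (D.refl a) y) := by
    simp [pr, al, Pi.single_apply]
  have h2 : pr (al j) y = y j := by simp [pr, al, Pi.single_apply]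
  rw [h1, D.pr_yt, refl_inv ha, rt_refl ha, dot_al]
  have h3 : pr (al j - D.co a j • a) y = pr (al j) y - D.co a j * pr a y := by
    simp only [pr, Pi.sub_apply, Pi.smul_apply, smul_eq_mul, Int.cast_sub, Int.cast_mul, sub_mul,
      Finset.sum_sub_distrib, Finset.mul_sum]
    congr 1
    exact Finset.sum_congr rfl fun i _ => by ring
  rw [h3, h2, Pi.sub_apply, Pi.smul_apply, smul_eq_mul, cc]
  ring

theorem mem_Pos {a : Fin r → ℤ} : a ∈ D.Pos ↔ a ∈ D.Φ ∧ ∀ i, 0 ≤ a i := by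
  unfold Pos
  rw [Finset.mem_filter]

theorem mem_of_pos {a : Fin r → ℤ} (ha : a ∈ D.Pos) : a ∈ D.Φ := (mem_Pos.1 ha).1

theorem neg_not_pos {a : Fin r → ℤ} (ha : a ∈ D.Pos) : -a ∉ D.Pos := by
  intro h
  apply ne_zero (mem_of_pos ha)
  funext i
  have h1 := (mem_Pos.1 ha).2 i
  have h2 := (mem_Pos.1 h).2 i
  rw [Pi.neg_apply] at h2
  exact le_antisymm (show a i ≤ 0 by omega) h1

theorem pos_or_neg {a : Fin r → ℤ} (ha : a ∈ D.Φ) : a ∈ D.Pos ∨ -a ∈ D.Pos := by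
  rcases D.sign a ha with h | h
  · exact Or.inl (mem_Pos.2 ⟨ha, h⟩)
  · refine Or.inr (mem_Pos.2 ⟨neg_mem ha, fun i => ?_⟩)
    rw [Pi.neg_apply]
    have := h i
    omega

theorem not_pos_iff {a : Fin r → ℤ} (ha : a ∈ D.Φ) : a ∉ D.Pos ↔ -a ∈ D.Pos := by
  constructor
  · intro h
    exact (pos_or_neg ha).resolve_left h
  · intro h h'
    exact neg_not_pos h' h

theorem al_pos (D : RS r) (i : Fin r) : al i ∈ D.Pos := by
  refine mem_Pos.2 ⟨D.al_mem i, fun j => ?_⟩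
  unfold al
  rw [Pi.single_apply]
  split_ifs <;> norm_num

end RS

end Pool.Agent.FLG
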