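import Pool.Agent.FLG.BDefs
import Pool.Agent.FLG.LenS

/-!
# FLG-Bruhat: the Bruhat order (definition `Bru` in BDefs)
-/

set_option autoImplicit false

open scoped BigOperators

namespace Pool.Agent.FLG.RS

variable {r : ℕ} {D : RS r}

theorem bru_edge {x : D.W} {a : Fin r → ℤ} (ha : a ∈ D.Pos) :
    D.len x < D.len (x * D.refl a) ↔ D.rt x a ∈ D.Pos := by
  constructor
  · intro h
    by_contra h1
    have h2 := len_lt_of_neg x ha h1
    omega
  · intro h
    exact len_lt_of_pos x ha h

theorem Bru.refl (u : D.W) : D.Bru u u := Relation.ReflTransGen.refl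

theorem Bru.trans {u v w : D.W} (h : D.Bru u v) (h' : D.Bru v w) : D.Bru u w :=
  Relation.ReflTransGen.trans h h'

theorem bru_mul_refl {u : D.W} {a : Fin r → ℤ} (ha : a ∈ D.Pos) (h : D.rt u a ∈ D.Pos) :
    D.Bru u (u * D.refl a) := by
  exact Relation.ReflTransGen.single ⟨a, ha, rfl, len_lt_of_pos u ha h⟩

theorem bru_refl_mul {u : D.W} {b : Fin r → ℤ} (hb : b ∈ D.Pos) (h : D.rt u⁻¹ b ∈ D.Pos) :
    D.Bru u (D.refl b * u) := by
  have h1 : u * D.refl (D.rt u⁻¹ b) = D.refl b * u := by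
    rw [refl_rt u⁻¹ (mem_of_pos hb), inv_inv, mul_assoc, mul_inv_cancel_left]
  rw [← h1]
  refine bru_mul_refl h ?_
  rw [D.rt_rt_inv]
  exact hb

theorem Bru.len_le {u w : D.W} (h : D.Bru u w) : D.len u ≤ D.len w := by
  induction h with
  | refl => exact le_rfl
  | tail _ h2 ih =>
    obtain ⟨a, _, _, h3⟩ := h2
    exact ih.trans h3.le

theorem Bru.len_lt {u w : D.W} (h : D.Bru u w) (hne : u ≠ w) : D.len u < D.len w := by
  rcases Relation.ReflTransGen.cases_head h with h1 | ⟨c, ⟨a, _, _, h2⟩, h3⟩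
  · exact absurd h1 hne
  · exact lt_of_lt_of_le h2 (Bru.len_le h3)

theorem Bru.antisymm {u w : D.W} (h : D.Bru u w) (h' : D.Bru w u) : u = w := by
  by_contra hne
  have h1 := h.len_lt hne
  have h2 := h'.len_le
  omega

theorem Bru.dom {u w : D.W} (h : D.Bru u w) (i : Fin r) : D.rt w D.tr i ≤ D.rt u D.tr i := by
  induction h with
  | refl => exact le_rfl
  | tail _ h2 ih =>
    obtain ⟨a, ha, rfl, h3⟩ := h2
    refine le_trans ?_ ih
    have h4 := (bru_edge ha).1 h3
    rw [D.rt_mul, rt_refl (mem_of_pos ha), D.rt_sub, D.rt_smul, Pi.sub_apply, Pi.smul_apply,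
      smul_eq_mul]
    have h5 : 2 ≤ dotProduct (D.co a) D.tr := two_le_L ha
    have h6 := (mem_Pos.1 h4).2 i
    have h7 := mul_nonneg (show (0 : ℤ) ≤ dotProduct (D.co a) D.tr by omega) h6
    linarith

theorem Bru.strict {u w : D.W} (h : D.Bru u w) (hne : u ≠ w) {ξ : Fin r → ℤ}
    (hξ : ∀ i, 0 < ξ i) : dotProduct ξ (D.rt w D.tr) < dotProduct ξ (D.rt u D.tr) := by
  have h1 := h.dom
  have h2 : ∃ i, D.rt w D.tr i < D.rt u D.tr i := by
    by_contra h3
    have h4 : D.rt w D.tr = D.rt u D.tr := by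
      funext i
      refine le_antisymm (h1 i) ?_
      by_contra h5
      exact h3 ⟨i, not_le.1 h5⟩
    have h5 : D.rt (u⁻¹ * w) D.tr = D.tr := by
      rw [D.rt_mul, h4, D.rt_inv_rt]
    have h6 := tr_regular h5
    exact hne (inv_mul_eq_one.1 h6)
  obtain ⟨i, hi⟩ := h2
  exact Finset.sum_lt_sum (fun j _ => mul_le_mul_of_nonneg_left (h1 j) (hξ j).le)
    ⟨i, Finset.mem_univ i, mul_lt_mul_of_pos_left hi (hξ i)⟩

theorem Bru.lift {u w : D.W} (h : D.Bru u w) {i : Fin r} (hi : D.len w < D.len (D.s i * w)) :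
    D.Bru (D.s i * u) (D.s i * w) ∧ D.Bru u (D.s i * w) := by
  have hb : D.rt w⁻¹ (al i) ∈ D.Pos := by
    by_contra h1
    have h2 := len_s_mul_of_neg i w h1
    omega
  induction h using Relation.ReflTransGen.head_induction_on with
  | refl => exact ⟨Bru.refl _, bru_refl_mul (D.al_pos i) hb⟩
  | head h1 h1' ih =>
    clear h1'
    rename_i x y
    obtain ⟨a, ha, rfl, h2⟩ := h1
    have h3 := (bru_edge ha).1 h2
    have h4 : D.Bru x (x * D.refl a) := bru_mul_refl ha h3
    refine ⟨?_, h4.trans ih.2⟩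
    by_cases h5 : D.rt x a = al i
    · have h6 : x * D.refl a = D.s i * x := by
        have h7 : D.s i = x * D.refl a * x⁻¹ := by
          unfold s
          rw [← h5]
          exact refl_rt x (mem_of_pos ha)
        rw [h7, inv_mul_cancel_right]
      rw [← h6]
      exact ih.2
    · have h6 : D.rt (D.s i * x) a ∈ D.Pos := by
        rw [D.rt_mul]
        exact (s_perm i h3 h5).1
      have h7 := bru_mul_refl ha h6
      rw [mul_assoc] at h7
      exact h7.trans ih.1

theorem bru_one (w : D.W) : D.Bru 1 w := by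
  have key : ∀ n : ℕ, ∀ w : D.W, D.len w = n → D.Bru 1 w := by
    intro n
    induction n with
    | zero =>
      intro w hw
      rw [eq_one_of_len hw]
      exact Bru.refl 1
    | succ n ih =>
      intro w hw
      have hw1 : w ≠ 1 := by
        intro h
        rw [h, len_one] at hw
        omega
      obtain ⟨i, hi⟩ := exists_descent hw1
      have h1 := ih (D.s i * w) (by omega)
      have h2 : D.s i * (D.s i * w) = w := by rw [← mul_assoc, s_mul_self, one_mul]
      have h3 := (h1.lift (i := i) (by rw [h2]; omega)).2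
      rw [h2] at h3
      exact h3
  exact key _ w rfl

theorem bru_w0 (w : D.W) : D.Bru w D.w0 := by
  have key : ∀ n : ℕ, ∀ w : D.W, D.len (D.w0 * w) = n → D.Bru w D.w0 := by
    intro n
    induction n with
    | zero =>
      intro w hw
      have h1 := eq_one_of_len hw
      have h2 : w = D.w0 := by
        have h3 : w = (D.w0)⁻¹ := eq_inv_of_mul_eq_one_right h1
        rw [h3]
        exact inv_eq_of_mul_eq_one_right w0_mul_self
      rw [h2]
      exact Bru.refl _
    | succ n ih =>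
      intro w hw
      have hw1 : (D.w0 * w)⁻¹ ≠ 1 := by
        intro h
        rw [inv_eq_one] at h
        rw [h, len_one] at hw
        omega
      obtain ⟨i, hi⟩ := exists_descent hw1
      have h1 : D.len (D.s i * (D.w0 * w)⁻¹) = D.len (D.w0 * (w * D.s i)) := by
        rw [← len_inv (D.s i * (D.w0 * w)⁻¹), mul_inv_rev, inv_inv, s_inv, mul_assoc]
      rw [h1, len_inv] at hi
      have h2 := ih (w * D.s i) (by omega)
      have h3 := len_w0_mul w
      have h4 := len_w0_mul (w * D.s i)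
      refine Bru.trans (Relation.ReflTransGen.single ⟨al i, D.al_pos i, rfl, ?_⟩) h2
      have h5 : D.len (w * D.refl (al i)) = D.len (w * D.s i) := rfl
      omega
  exact key _ w rfl

/-- a dominant regular coweight which separates the fixed points -/
theorem exists_xi (D : RS r) : ∃ ξ : Fin r → ℤ, (∀ i, 0 < ξ i) ∧
    Function.Injective fun w : D.W => dotProduct ξ (D.rt w D.tr) := by
  classical
  obtain ⟨f, hf⟩ : ∃ f : D.W → D.W → Polynomial ℤ, f = fun u w =>
      ∑ i : Fin r, Polynomial.C (D.rt u D.tr i - D.rt w D.tr i) * Polynomial.X ^ (i : ℕ) := ⟨_, rfl⟩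
  have h0 : ∀ u w, u ≠ w → f u w ≠ 0 := by
    intro u w huw h
    apply huw
    have h1 : D.rt u D.tr = D.rt w D.tr := by
      funext j
      have h2 := congrArg (fun p : Polynomial ℤ => p.coeff (j : ℕ)) h
      beta_reduce at h2
      rw [hf] at h2
      beta_reduce at h2
      rw [Polynomial.finsetSum_coeff, Polynomial.coeff_zero, Finset.sum_eq_single j] at h2
      · rw [Polynomial.coeff_C_mul_X_pow, if_pos rfl] at h2
        linarith
      · intro k _ hk
        rw [Polynomial.coeff_C_mul_X_pow, if_neg]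
        intro h3
        exact hk (Fin.ext h3.symm)
      · intro h3
        exact absurd (Finset.mem_univ j) h3
    have h2 : D.rt (u⁻¹ * w) D.tr = D.tr := by
      rw [D.rt_mul, ← h1, D.rt_inv_rt]
    exact inv_mul_eq_one.1 (tr_regular h2)
  obtain ⟨P, hP⟩ : ∃ P : Polynomial ℤ, P = ∏ q ∈ (Finset.univ : Finset (D.W × D.W)).filter
      (fun q => q.1 ≠ q.2), f q.1 q.2 := ⟨_, rfl⟩
  have h1 : P ≠ 0 := by
    rw [hP, Finset.prod_ne_zero_iff]
    intro q hq
    exact h0 _ _ (Finset.mem_filter.1 hq).2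
  obtain ⟨M, hM0, hM⟩ : ∃ M : ℤ, 0 < M ∧ P.eval M ≠ 0 := by
    by_contra h2
    apply h1
    refine Polynomial.eq_zero_of_infinite_isRoot P ((Set.Ioi_infinite (0 : ℤ)).mono fun M hM => ?_)
    by_contra h3
    exact h2 ⟨M, hM, h3⟩
  refine ⟨fun i => M ^ (i : ℕ), fun i => pow_pos hM0 _, fun u w huw => ?_⟩
  by_contra hne
  apply hM
  rw [hP, Polynomial.eval_prod]
  refine Finset.prod_eq_zero (i := (u, w)) (Finset.mem_filter.2 ⟨Finset.mem_univ _, hne⟩) ?_
  rw [hf]
  beta_reduce
  rw [Polynomial.eval_finsetSum]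
  have h2 : ∀ i : Fin r, Polynomial.eval M (Polynomial.C (D.rt u D.tr i - D.rt w D.tr i) *
      Polynomial.X ^ (i : ℕ)) = M ^ (i : ℕ) * D.rt u D.tr i - M ^ (i : ℕ) * D.rt w D.tr i := by
    intro i
    rw [Polynomial.eval_mul, Polynomial.eval_C, Polynomial.eval_pow, Polynomial.eval_X]
    ring
  rw [Finset.sum_congr rfl fun i _ => h2 i, Finset.sum_sub_distrib]
  exact sub_eq_zero.2 huw

end Pool.Agent.FLG.RS
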