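import Pool.Agent.FLG.Num
import Pool.Agent.DSTJ.JOde

/-!
# FLG-FBase: the solutions at the fixed points

PLAN. `sg_nr`, `sg_w1`: definitions. `FF_entry`: `FF y s u v = e^{s th u} * (cal * R⁻¹)_{uv} * e^{s pr (rt v tr) y}`. `FF_ode`: `J0_ode` for `G = fun y => (D.R y)⁻¹` (`J0_EE`: `J0 G y s = EE y s * diag * (R * G)`, `R * G = 1`) with
`Ct s = Cq ctr t (y e^s)` and `C_graded`. `FF_period`: `cal` and `R⁻¹` depend only on `e^{-s}`,
`e^{2πi th u} = (-1)^dm` (`th u = dm/2 - len u`). `FF_lim`: `cal_lim` along `z = e^s`, `s → +∞` real.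
-/

set_option autoImplicit false

open scoped BigOperators Topology
open Filter
open Pool.Agent.DST.TE Pool.Agent.DSTJ

namespace Pool.Agent.FLG.RS

variable {r : ℕ} {D : RS r} {N : ℕ} (n : D.Num N) (t : Fin r → ℂ)

/-- the equation -/
noncomputable def toBase : Base r N where
  θ := fun p => D.th (n.e p)
  K := D.KK
  C := fun k y => (D.Cg t k y).submatrix n.e n.e
  C_hol := fun k i j => Cg_diff t k _ _
  C_big := fun k hk y => by rw [Cg_big t hk y]; rfl
  e := fun p => -D.rt (n.e p) D.tr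
  I := {a // a ∈ D.Φ}
  finI := inferInstance
  wt := fun a => a.1
  R := fun y => (D.Rm y).submatrix n.e n.e
  R_hol := fun i j => Rm_diff _ _
  R_comm := fun y => base_R_comm n t y
  R_det := fun y hy => base_R_det n y hy
  ξ := n.ξ
  ξ_wt := fun a => ξ_ne n a.2
  ξ_e := base_ξ_e n

/-- the solutions attached to the fixed points -/
noncomputable def FF (y : Fin r → ℂ) (s : ℂ) : Matrix D.W D.W ℂ :=
  ((toBase n t).EE y s * Matrix.diagonal fun p => Complex.exp (-s * pr ((toBase n t).e p) y)).submatrix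
    n.e.symm n.e.symm

private theorem pr_neg' (a : Fin r → ℤ) (y : Fin r → ℂ) : pr (-a) y = -pr a y := by
  simp only [pr, Pi.neg_apply, Int.cast_neg, neg_mul, Finset.sum_neg_distrib]

theorem sg_nr {y : Fin r → ℂ} (hy : D.SG y) : (toBase n t).NR y := by
  intro p q k hk h
  have h1 : pr (-D.rt (n.e p) D.tr) y - pr (-D.rt (n.e q) D.tr) y = k := h
  rw [pr_neg', pr_neg'] at h1
  by_cases hpq : p = q
  · subst hpq
    apply hk
    have h2 : ((k : ℤ) : ℂ) = 0 := by
      rw [← h1]
      ring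
    exact_mod_cast h2
  · apply hy.2 (n.e q) (n.e p) (fun e => hpq (n.e.injective e).symm) k
    rw [← h1]
    ring

theorem sg_w1 {y : Fin r → ℂ} (hy : D.SG y) : (toBase n t).W1 y :=
  fun k m => hy.1 k.1 k.2 m

private theorem exp_diag' (v : Fin N → ℂ) (w : ℂ) :
    NormedSpace.exp (w • Matrix.diagonal v) = Matrix.diagonal fun a => Complex.exp (w * v a) := by
  have h1 : w • Matrix.diagonal v = Matrix.diagonal fun a => w * v a := by
    rw [← Matrix.diagonal_smul]
    rfl
  rw [h1, Matrix.exp_diagonal]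
  congr 1
  funext a
  rw [Pi.coe_exp, Complex.exp_eq_exp_ℂ]

private theorem EE_entry (y : Fin r → ℂ) (s : ℂ) (i j : Fin N) :
    (toBase n t).EE y s i j = Complex.exp (s * D.th (n.e i)) *
      ((toBase n t).cal y (Complex.exp (-s)) * ((toBase n t).R y)⁻¹) i j := by
  have h : NormedSpace.exp (s • Matrix.diagonal (toBase n t).θ) =
      Matrix.diagonal fun a => Complex.exp (s * (toBase n t).θ a) := exp_diag' _ _
  rw [Base.EE, h, Matrix.mul_assoc, Matrix.diagonal_mul]
  rfl

private theorem FF_entry (y : Fin r → ℂ) (s : ℂ) (u v : D.W) :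
    FF n t y s u v = Complex.exp (s * D.th u) *
      ((toBase n t).cal y (Complex.exp (-s)) * ((toBase n t).R y)⁻¹) (n.e.symm u) (n.e.symm v) *
      Complex.exp (s * pr (D.rt v D.tr) y) := by
  unfold FF
  rw [Matrix.submatrix_apply, Matrix.mul_diagonal, EE_entry]
  have h1 : pr ((toBase n t).e (n.e.symm v)) y = -pr (D.rt v D.tr) y := by
    show pr (-D.rt (n.e (n.e.symm v)) D.tr) y = _
    rw [n.e.apply_symm_apply, pr_neg']
  rw [h1, n.e.apply_symm_apply, neg_mul_neg]

theorem FF_ode {y : Fin r → ℂ} (hy : D.SG y) (s : ℂ) (u v : D.W) :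
    HasDerivAt (fun s => FF n t y s u v) (((Matrix.diagonal D.th -
      Complex.exp (-s) • D.Cq D.ctr t (fun i => y i * Complex.exp s)) * FF n t y s) u v) s := by
  have hR : ((toBase n t).R y).det ≠ 0 := base_R_det n y fun a => by
    have h1 := hy.1 a.1 a.2 0
    simpa using h1
  have hJ : ∀ s, (toBase n t).J0 (fun y => ((toBase n t).R y)⁻¹) y s =
      (toBase n t).EE y s * Matrix.diagonal fun p => Complex.exp (-s * pr ((toBase n t).e p) y) := by
    intro s
    rw [Base.J0_EE _ hR, Matrix.mul_nonsing_inv _ (isUnit_iff_ne_zero.2 hR), Matrix.mul_one]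
  have h := (toBase n t).J0_ode (G := fun y => ((toBase n t).R y)⁻¹) (sg_nr n t hy)
    (fun s => (D.Cq D.ctr t (fun i => y i * Complex.exp s)).submatrix n.e n.e)
    (fun w i j => C_graded t y w (n.e i) (n.e j)) s (n.e.symm u) (n.e.symm v)
  simp only [hJ] at h
  refine HasDerivAt.congr_deriv (f := fun s => FF n t y s u v) h ?_
  rw [Matrix.mul_apply, Matrix.mul_apply, ← Equiv.sum_comp n.e]
  refine Finset.sum_congr rfl fun p _ => ?_
  have h1 : FF n t y s (n.e p) v = ((toBase n t).EE y s *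
      Matrix.diagonal fun p => Complex.exp (-s * pr ((toBase n t).e p) y)) p (n.e.symm v) := by
    unfold FF
    rw [Matrix.submatrix_apply, n.e.symm_apply_apply]
  rw [h1]
  congr 1
  rw [Matrix.sub_apply, Matrix.sub_apply, Matrix.smul_apply, Matrix.smul_apply,
    Matrix.submatrix_apply, n.e.apply_symm_apply]
  congr 1
  rw [Matrix.diagonal_apply, Matrix.diagonal_apply]
  by_cases hu : n.e.symm u = p
  · rw [if_pos hu, if_pos (by rw [← hu, n.e.apply_symm_apply])]
    show D.th (n.e (n.e.symm u)) = _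
    rw [n.e.apply_symm_apply]
  · rw [if_neg hu, if_neg fun h2 => hu (by rw [h2, n.e.symm_apply_apply])]

theorem FF_period (y : Fin r → ℂ) (s : ℂ) (u v : D.W) :
    FF n t y (s + 2 * Real.pi * Complex.I) u v = (-1) ^ D.dm *
      Complex.exp (2 * Real.pi * Complex.I * pr (D.rt v D.tr) y) * FF n t y s u v := by
  rw [FF_entry, FF_entry]
  have h1 : Complex.exp (-(s + 2 * Real.pi * Complex.I)) = Complex.exp (-s) := by
    rw [neg_add, Complex.exp_add, Complex.exp_neg (2 * Real.pi * Complex.I),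
      Complex.exp_two_pi_mul_I, inv_one, mul_one]
  have h2 : Complex.exp ((s + 2 * Real.pi * Complex.I) * D.th u) =
      (-1) ^ D.dm * Complex.exp (s * D.th u) := by
    have h3 : (s + 2 * Real.pi * Complex.I) * D.th u = (D.dm : ℕ) * (Real.pi * Complex.I) +
        ((-(D.len u : ℤ) : ℤ) * (2 * Real.pi * Complex.I) + s * D.th u) := by
      unfold th
      push_cast
      ring
    rw [h3, Complex.exp_add, Complex.exp_add, Complex.exp_nat_mul, Complex.exp_pi_mul_I,
      Complex.exp_int_mul_two_pi_mul_I, one_mul]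
  have h4 : Complex.exp ((s + 2 * Real.pi * Complex.I) * pr (D.rt v D.tr) y) =
      Complex.exp (2 * Real.pi * Complex.I * pr (D.rt v D.tr) y) *
        Complex.exp (s * pr (D.rt v D.tr) y) := by
    rw [← Complex.exp_add]
    congr 1
    ring
  rw [h1, h2, h4]
  ring

theorem FF_lim {y : Fin r → ℂ} (hy : D.SG y) (u v : D.W) :
    Tendsto (fun s : ℝ => Complex.exp (-s * D.th u) * Complex.exp (-s * pr (D.rt v D.tr) y) *
      FF n t y s u v) atTop (𝓝 ((D.Rm y)⁻¹ u v)) := by
  have h0 : Tendsto (fun s : ℝ => Complex.exp (s : ℂ)) atTop (Bornology.cobounded ℂ) := by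
    rw [← tendsto_norm_atTop_iff_cobounded]
    have h1 : (fun s : ℝ => ‖Complex.exp (s : ℂ)‖) = fun s : ℝ => Real.exp s := by
      funext s
      rw [Complex.norm_exp, Complex.ofReal_re]
    rw [h1]
    exact Real.tendsto_exp_atTop
  have h1 : ∀ s : ℝ, Complex.exp (-s * D.th u) * Complex.exp (-s * pr (D.rt v D.tr) y) *
      FF n t y s u v = ∑ k, (toBase n t).cal y (Complex.exp (s : ℂ))⁻¹ (n.e.symm u) k *
        ((toBase n t).R y)⁻¹ k (n.e.symm v) := by
    intro s
    rw [FF_entry, ← Matrix.mul_apply, ← Complex.exp_neg]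
    have h2 : Complex.exp (-s * D.th u) * Complex.exp (s * D.th u) = 1 := by
      rw [← Complex.exp_add, neg_mul, neg_add_cancel, Complex.exp_zero]
    have h3 : Complex.exp (-s * pr (D.rt v D.tr) y) * Complex.exp (s * pr (D.rt v D.tr) y) = 1 := by
      rw [← Complex.exp_add, neg_mul, neg_add_cancel, Complex.exp_zero]
    linear_combination (((toBase n t).cal y (Complex.exp (-s)) * ((toBase n t).R y)⁻¹)
      (n.e.symm u) (n.e.symm v)) * (Complex.exp (-s * pr (D.rt v D.tr) y) *
        Complex.exp (s * pr (D.rt v D.tr) y)) * h2 +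
      (((toBase n t).cal y (Complex.exp (-s)) * ((toBase n t).R y)⁻¹)
      (n.e.symm u) (n.e.symm v)) * h3
  simp only [h1]
  have h4 : (D.Rm y)⁻¹ u v = ∑ k, (1 : Matrix (Fin N) (Fin N) ℂ) (n.e.symm u) k *
        ((toBase n t).R y)⁻¹ k (n.e.symm v) := by
    rw [← Matrix.mul_apply, Matrix.one_mul]
    have h5 : ((toBase n t).R y)⁻¹ = ((D.Rm y)⁻¹).submatrix n.e n.e :=
      Matrix.inv_submatrix_equiv _ _ _
    rw [h5, Matrix.submatrix_apply, n.e.apply_symm_apply, n.e.apply_symm_apply]
  rw [h4]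
  refine tendsto_finsetSum _ fun k _ => Tendsto.mul_const _ ?_
  exact ((toBase n t).cal_lim (sg_nr n t hy) (n.e.symm u) k).comp h0

end Pool.Agent.FLG.RS
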