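import Pool.Agent.FLG.FBase

/-!
# FLG-FDet: the solutions at the fixed points are independent

PLAN. `FF_det`: `EE` is a product of an invertible diagonal matrix, `cal` and `R⁻¹`; `det cal ≠ 0`: the columns of `J0` are solutions of a linear ODE, `det J0(s)` satisfies
`d/ds det = tr(...) det` so it vanishes everywhere or nowhere, and `cal → 1` as `s → +∞` (`cal_lim`): see `LL_det` in DSTJ/HUnit.lean and `J_det`/Wronskian lemmas in DST/SHol.lean, DST/SDet.lean.
-/

set_option autoImplicit false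

open scoped BigOperators Topology
open Filter
open Pool.Agent.DST.TE Pool.Agent.DSTJ

namespace Pool.Agent.FLG.RS

/-- a solution of a linear equation which vanishes at `0` vanishes at `1` -/
private theorem fd_zero {ι : Type} [Fintype ι] {B : ℝ → Matrix ι ι ℂ}
    (hB : ∀ i j, Continuous fun τ => B τ i j) {Z : ℝ → ι → ℂ}
    (hZ : ∀ τ i, HasDerivAt (fun τ => Z τ i) (((B τ).mulVec (Z τ)) i) τ) (h0 : Z 0 = 0) :
    Z 1 = 0 := by
  have hb : ∀ i j, ∃ C : ℝ, ∀ τ ∈ Set.Icc (0 : ℝ) 1, ‖B τ i j‖ ≤ C := fun i j =>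
    isCompact_Icc.exists_bound_of_continuousOn (hB i j).continuousOn
  choose C hC using hb
  have hC0 : ∀ i j, 0 ≤ C i j := fun i j =>
    (norm_nonneg _).trans (hC i j 0 (Set.left_mem_Icc.2 zero_le_one))
  have hZ' : ∀ τ, HasDerivAt Z ((B τ).mulVec (Z τ)) τ := fun τ => hasDerivAt_pi.2 (hZ τ)
  have h1 := norm_le_gronwallBound_of_norm_deriv_right_le (f := Z)
    (f' := fun τ => (B τ).mulVec (Z τ)) (δ := 0) (K := ∑ i, ∑ j, C i j) (ε := 0) (a := 0) (b := 1)
    (fun τ _ => (hZ' τ).continuousAt.continuousWithinAt) (fun τ _ => (hZ' τ).hasDerivWithinAt)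
    (by rw [h0, norm_zero]) (fun τ hτ => ?_) 1 (Set.right_mem_Icc.2 zero_le_one)
  · rw [gronwallBound_ε0_δ0] at h1
    exact norm_le_zero_iff.1 h1
  · rw [add_zero]
    have hS0 : ∀ i, 0 ≤ ∑ j, C i j := fun i => Finset.sum_nonneg fun j _ => hC0 i j
    refine (pi_norm_le_iff_of_nonneg (mul_nonneg (Finset.sum_nonneg fun i _ => hS0 i)
      (norm_nonneg _))).2 fun i => ?_
    show ‖∑ j, B τ i j * Z τ j‖ ≤ _
    calc ‖∑ j, B τ i j * Z τ j‖ ≤ ∑ j, ‖B τ i j * Z τ j‖ := norm_sum_le _ _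
      _ ≤ ∑ j, C i j * ‖Z τ‖ := by
          refine Finset.sum_le_sum fun j _ => ?_
          rw [norm_mul]
          exact mul_le_mul (hC i j τ ⟨hτ.1, hτ.2.le⟩) (norm_le_pi_norm (Z τ) j) (norm_nonneg _)
            (hC0 i j)
      _ = (∑ j, C i j) * ‖Z τ‖ := by rw [Finset.sum_mul]
      _ ≤ (∑ i, ∑ j, C i j) * ‖Z τ‖ :=
          mul_le_mul_of_nonneg_right (Finset.single_le_sum (f := fun i => ∑ j, C i j)
            (fun i _ => hS0 i) (Finset.mem_univ i)) (norm_nonneg _)

variable {r : ℕ} {D : RS r} {N : ℕ} (n : D.Num N) (t : Fin r → ℂ)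

private theorem fd_cont (y : Fin r → ℂ) (u v : D.W) : Continuous fun s : ℂ =>
    (Matrix.diagonal D.th - Complex.exp (-s) • D.Cq D.ctr t (fun i => y i * Complex.exp s)) u v := by
  simp only [Matrix.sub_apply, Matrix.smul_apply, smul_eq_mul, Cq, Matrix.diagonal_apply]
  split_ifs
  · unfold hv yt
    fun_prop
  · fun_prop

theorem FF_det {y : Fin r → ℂ} (hy : D.SG y) (s : ℂ) : (FF n t y s).det ≠ 0 := by
  intro hdet
  obtain ⟨c, hc0, hc⟩ := Matrix.exists_mulVec_eq_zero_iff.2 hdet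
  -- the determinant vanishes on the real axis
  have hall : ∀ x : ℝ, (FF n t y x).det = 0 := by
    intro x
    refine Matrix.exists_mulVec_eq_zero_iff.1 ⟨c, hc0, ?_⟩
    have hv : ∀ τ : ℝ, HasDerivAt (fun τ : ℝ => s + (τ : ℂ) * ((x : ℂ) - s)) ((x : ℂ) - s) τ := by
      intro τ
      have h1 : HasDerivAt (fun τ : ℝ => (τ : ℂ)) 1 τ := Complex.ofRealCLM.hasDerivAt
      have h2 := (h1.mul_const ((x : ℂ) - s)).const_add s
      simpa using h2
    have hvc : Continuous fun τ : ℝ => s + (τ : ℂ) * ((x : ℂ) - s) := by fun_prop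
    have h1 := fd_zero (ι := D.W)
      (B := fun τ : ℝ => ((x : ℂ) - s) • (Matrix.diagonal D.th -
        Complex.exp (-(s + (τ : ℂ) * ((x : ℂ) - s))) •
          D.Cq D.ctr t (fun i => y i * Complex.exp (s + (τ : ℂ) * ((x : ℂ) - s)))))
      (Z := fun τ : ℝ => (FF n t y (s + (τ : ℂ) * ((x : ℂ) - s))).mulVec c) ?_ ?_ ?_
    · have e1 : s + ((1 : ℝ) : ℂ) * ((x : ℂ) - s) = x := by push_cast; ring
      rw [e1] at h1
      exact h1
    · intro i j
      have h2 := (fd_cont t y i j).comp hvc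
      exact continuous_const.mul h2
    · intro τ i
      have h2 : HasDerivAt (fun w : ℂ => ∑ k, FF n t y w i k * c k)
          (∑ k, ((Matrix.diagonal D.th - Complex.exp (-(s + (τ : ℂ) * ((x : ℂ) - s))) •
            D.Cq D.ctr t (fun i => y i * Complex.exp (s + (τ : ℂ) * ((x : ℂ) - s)))) *
              FF n t y (s + (τ : ℂ) * ((x : ℂ) - s))) i k * c k) (s + (τ : ℂ) * ((x : ℂ) - s)) :=
        HasDerivAt.fun_sum fun k _ => (FF_ode n t hy _ i k).mul_const _
      have h3 := HasDerivAt.comp τ h2 (hv τ)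
      refine h3.congr_deriv ?_
      rw [Matrix.smul_mulVec, Pi.smul_apply, smul_eq_mul, Matrix.mulVec_mulVec, mul_comm]
      rfl
    · have e0 : s + ((0 : ℝ) : ℂ) * ((x : ℂ) - s) = s := by push_cast; ring
      rw [e0]
      exact hc
  -- the limit
  have hlim : Tendsto (fun x : ℝ => (Matrix.of fun u v : D.W =>
      Complex.exp (-x * D.th u) * Complex.exp (-x * pr (D.rt v D.tr) y) * FF n t y x u v :
        Matrix D.W D.W ℂ)) atTop (𝓝 ((D.Rm y)⁻¹)) :=
    tendsto_pi_nhds.2 fun u => tendsto_pi_nhds.2 fun v => FF_lim n t hy u v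
  have h2 : Continuous fun M : Matrix D.W D.W ℂ => M.det := continuous_id.matrix_det
  have h3 := (h2.tendsto ((D.Rm y)⁻¹)).comp hlim
  have h4 : ∀ x : ℝ, ((fun M : Matrix D.W D.W ℂ => M.det) ∘ fun x : ℝ => (Matrix.of fun u v : D.W =>
      Complex.exp (-x * D.th u) * Complex.exp (-x * pr (D.rt v D.tr) y) * FF n t y x u v :
        Matrix D.W D.W ℂ)) x = 0 := by
    intro x
    have h5 : (Matrix.of fun u v : D.W =>
        Complex.exp (-x * D.th u) * Complex.exp (-x * pr (D.rt v D.tr) y) * FF n t y x u v :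
          Matrix D.W D.W ℂ) = Matrix.diagonal (fun u => Complex.exp (-x * D.th u)) * FF n t y x *
            Matrix.diagonal fun v => Complex.exp (-x * pr (D.rt v D.tr) y) := by
      ext u v
      rw [Matrix.mul_diagonal, Matrix.diagonal_mul, Matrix.of_apply]
      ring
    show (Matrix.of fun u v : D.W =>
        Complex.exp (-x * D.th u) * Complex.exp (-x * pr (D.rt v D.tr) y) * FF n t y x u v :
          Matrix D.W D.W ℂ).det = 0
    rw [h5, Matrix.det_mul, Matrix.det_mul, hall x, mul_zero, zero_mul]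
  have h5 : ((D.Rm y)⁻¹).det = 0 :=
    tendsto_nhds_unique h3 (tendsto_const_nhds.congr fun x => (h4 x).symm)
  rw [Matrix.det_nonsing_inv, Ring.inverse_eq_inv', inv_eq_zero] at h5
  refine Rm_det_ne (D := D) (y := y) (fun a ha => ?_) h5
  have h6 := hy.1 a ha 0
  rwa [Int.cast_zero] at h6

end Pool.Agent.FLG.RS
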