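import Pool.Agent.FLG.Small

/-!
# The quantum cohomology and the `K`-theory of a complete flag variety

Let `P` be a reduced crystallographic root system in the complex vector space `V`, with a base `b`,
let `G` be the simply connected semisimple complex group with this root system, `B` a Borel subgroup
and `X = G/B`. Let `W` be the Weyl group `P.weylGroup`; `⟨h, α_i^∨⟩ = P.coroot' i h`.

* `H^*(X)` has the basis of the Schubert classes `σ_w`, `w ∈ W`, `σ_w ∈ H^{2 len w}(X)`, and
  `∫ σ_u σ_v = 1` if `u = w₀ v`, and `0` otherwise.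
* `H^2(X) = V`, the weight `μ` is the first Chern class of the line bundle `L_μ` (ample if `μ` is
  regular and dominant), `c_1(X) = 2ρ` is the sum of the positive roots, the Chern roots of the
  tangent bundle of `X` are the positive roots.
* The curve classes are the coroots, and quantum multiplication with `h ∈ H^2(X)` at the point
  `t ∈ H^2(X)` is given by the quantum Chevalley formula (Fulton–Woodward)
  `h • σ_w = ∑ ⟨h, α^∨⟩ σ_{w s_α} + ∑ ⟨h, α^∨⟩ e^{⟨t, α^∨⟩} σ_{w s_α}`, where the first sum is over
  the positive roots `α` with `len (w s_α) = len w + 1`, the second over the positive roots `α` with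
  `len (w s_α) = len w + 1 - ⟨2ρ, α^∨⟩`.
* `K_0(X)` is generated by the classes of the line bundles `L_μ`, `μ` a weight (Pittie, Steinberg),
  and has no torsion; `χ(L_μ, L_ν) = χ(X, L_{ν - μ})` is given by the dimension formula of Weyl.
-/

set_option autoImplicit false

open scoped BigOperators

namespace Pool.Agent.FLG.Flag

section

variable {ι V V' : Type} [Fintype ι] [AddCommGroup V] [Module ℂ V] [AddCommGroup V'] [Module ℂ V']
  {P : RootPairing ι ℂ V V'} (b : P.Base)

open Classical in
/-- the positive roots -/
noncomputable def pos : Finset ι := Finset.univ.filter fun i => b.IsPos i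

open Classical in
/-- the length of `w` is the number of positive roots `α` such that `w α` is negative -/
noncomputable def len (w : P.weylGroup) : ℕ :=
  ((pos b).filter fun i => ¬ b.IsPos (P.weylGroupToPerm w i)).card

/-- `c_1(X) = 2ρ` -/
noncomputable def c₁ : V := ∑ i ∈ pos b, P.root i

open Classical in
/-- The cup product with `h ∈ H^2(X)` (Chevalley formula). -/
noncomputable def cup (h : V) : Matrix P.weylGroup P.weylGroup ℂ := Matrix.of fun u w =>
  ∑ i ∈ pos b, if u = w * RootPairing.weylGroup.ofIdx P i ∧ len b u = len b w + 1 then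
    P.coroot' i h else 0

open Classical in
/-- The quantum product with `h ∈ H^2(X)` at the point `t ∈ H^2(X)` (quantum Chevalley formula). -/
noncomputable def mul (t h : V) : Matrix P.weylGroup P.weylGroup ℂ := cup b h +
  Matrix.of fun u w => ∑ i ∈ pos b, if u = w * RootPairing.weylGroup.ofIdx P i ∧
    (len b u : ℂ) + P.coroot' i (c₁ b) = len b w + 1 then
      P.coroot' i h * Complex.exp (P.coroot' i t) else 0

open Classical in
/-- The first structure connection of `X = G/B` at the point `t`: dimension, degrees of the Schubert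
classes, Poincaré pairing (`u = w₀ v` iff `u α` and `v α` have opposite signs for all roots `α`),
classical and quantum product with `c_1(X)`. -/
noncomputable def small (t : V) : Small P.weylGroup where
  dim := (pos b).card
  deg := len b
  pair := Matrix.of fun u v => if ∀ i, (b.IsPos (P.weylGroupToPerm u i) ↔
    ¬ b.IsPos (P.weylGroupToPerm v i)) then 1 else 0
  cup := cup b (c₁ b)
  mul := mul b t (c₁ b)

variable (P) in
/-- Formal integral combinations of line bundles `L_μ`, `μ` a weight; they represent the elements of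
`K_0(X)`. -/
abbrev KClass : Type := {μ : V // ∀ i, ∃ n : ℤ, P.coroot' i μ = n} →₀ ℤ

/-- `χ(X, L_μ) = ∏_{α > 0} ⟨μ + ρ, α^∨⟩ / ⟨ρ, α^∨⟩`, `2ρ = c_1(X)` -/
noncomputable def weyl (μ : V) : ℂ :=
  ∏ i ∈ pos b, (P.coroot' i (2 • μ + c₁ b)) / P.coroot' i (c₁ b)

/-- The Euler form `χ(x, y) = ∑ (-1)^k dim Hom(x, y[k])` on `K_0(X)`. -/
noncomputable def euler (x y : KClass P) : ℂ :=
  x.sum fun μ m => y.sum fun ν n => (m : ℂ) * n * weyl b (ν.1 - μ.1)

variable [Fintype P.weylGroup] [DecidableEq P.weylGroup]

/-- The Chern character `ch(x) ∈ H^*(X)` of a class in `K_0(X)`, `ch(L_μ) = e^μ`. -/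
noncomputable def chern (x : KClass P) : P.weylGroup → ℂ := fun u =>
  x.sum fun μ m => (m : ℂ) * NormedSpace.exp (cup b μ.1) u 1

/-- The coefficients of `log Γ(1 - x) = ∑ g_k x^k`. -/
noncomputable def gcoeff (k : ℕ) : ℂ :=
  iteratedDeriv k (fun x : ℂ => Complex.log (Complex.Gamma (1 - x))) 0 / k.factorial

/-- The operator of multiplication by `e^{t + πi c_1(X)} Γ̂`, where `Γ̂ = ∏_{α > 0} Γ(1 - α)` is the
`Γ`-class of the cotangent bundle of `X`. -/
noncomputable def gammaOp (t : V) : Matrix P.weylGroup P.weylGroup ℂ :=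
  NormedSpace.exp (cup b t + (Real.pi * Complex.I : ℂ) • cup b (c₁ b) +
    ∑ k ∈ Finset.Icc 1 (pos b).card, gcoeff k • ∑ i ∈ pos b, cup b (P.root i) ^ k)

/-- The matrix with the columns `ch(v_j)`. -/
noncomputable def chernMatrix {N : ℕ} (v : Fin N → KClass P) : Matrix P.weylGroup (Fin N) ℂ :=
  Matrix.of fun u j => chern b (v j) u

/-- `v` is a numerically exceptional basis of `K_0(X)`: the `ch(v_j)` are a basis of the lattice
`ch(K_0(X))` and linearly independent over `ℂ`, `χ(v_i, v_i) = 1`, and `χ(v_i, v_j) = 0` for
`i > j`. -/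
structure IsExceptionalBasis {N : ℕ} (v : Fin N → KClass P) : Prop where
  generate : ∀ x : KClass P, ∃ c : Fin N → ℤ, chern b x = ∑ j, c j • chern b (v j)
  independent : LinearIndependent ℂ fun j => chern b (v j)
  diag : ∀ i, euler b (v i) (v i) = 1
  lower : ∀ i j, j < i → euler b (v i) (v j) = 0

end

end Pool.Agent.FLG.Flag
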