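import Pool.Agent.FLG.Flag

/-!
# The quantum cohomology and the `K`-theory of a flag variety `G/Q`

Let `P` be a reduced crystallographic root system in the complex vector space `V`, with a base `b`,
and let `G ⊇ B` be as in `Flag.lean`. A set `J` of simple roots defines a parabolic subgroup `Q ⊇ B`
(the simple roots of its Levi subgroup are the elements of `J`), and `X = G/Q`. All the projective
homogeneous varieties are of this form; `Q = B` for `J = ∅`.

* The pull-back `H^*(X) → H^*(G/B)` is injective. `H^*(X)` has the basis of the Schubert classes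
  `σ_w`, where `w` is the minimal representative of a coset of `W / W_J`, `σ_w ∈ H^{2 len w}(X)`, and
  `∫ σ_u σ_v = 1` if `u W_J = w₀ v W_J`, and `0` otherwise.
* `H^2(X) ⊆ V` consists of the `h` with `⟨h, α^∨⟩ = 0` for `α ∈ J`; the Chern roots of the tangent
  bundle of `X` are the positive roots which are not roots of the Levi subgroup, `c_1(X)` is their
  sum.
* Quantum multiplication with `h ∈ H^2(X)` at the point `t ∈ H^2(X)` is given by the quantum Chevalley
  formula (Fulton–Woodward)
  `h • σ_w = ∑ ⟨h, α^∨⟩ σ_{w s_α W_J} + ∑ ⟨h, α^∨⟩ e^{⟨t, α^∨⟩} σ_{w s_α W_J}`, where the first sum is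
  over the positive roots `α` outside the Levi subgroup with `len (w s_α W_J) = len w + 1`, and the
  second over those with `len (w s_α W_J) = len w + 1 - ⟨c_1(X), α^∨⟩`.
* `K_0(X)` is generated by the homogeneous vector bundles, that is, by the representation ring of
  `Q`, which consists of the elements of the group ring of the weights which are invariant under
  `W_J` (Pittie, Steinberg); it has no torsion. The pull-back of such a bundle to `G/B` is a
  combination of line bundles, and the Euler form does not change under the pull-back.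
-/

set_option autoImplicit false

open scoped BigOperators

namespace Pool.Agent.FLG.FlagP

variable {ι V V' : Type} [Fintype ι] [AddCommGroup V] [Module ℂ V] [AddCommGroup V'] [Module ℂ V']
  {P : RootPairing ι ℂ V V'} (b : P.Base) (J : Set ι)

omit [Fintype ι] in
variable (P) in
/-- the Weyl group `W_J` of the Levi subgroup -/
noncomputable def levi : Subgroup P.weylGroup :=
  Subgroup.closure {w | ∃ j ∈ J, w = RootPairing.weylGroup.ofIdx P j}

/-- the minimal representatives of the cosets in `W / W_J` -/
abbrev Rep : Type := {w : P.weylGroup // ∀ j ∈ J, b.IsPos (P.weylGroupToPerm w j)}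

open Classical in
/-- the positive roots which are not roots of the Levi subgroup -/
noncomputable def pos : Finset ι :=
  Finset.univ.filter fun i => b.IsPos i ∧ P.root i ∉ Submodule.span ℂ (P.root '' J)

/-- `c_1(X)` -/
noncomputable def c₁ : V := ∑ i ∈ pos b J, P.root i

open Classical in
/-- The cup product with `h ∈ H^2(X)` (Chevalley formula). -/
noncomputable def cup (h : V) : Matrix (Rep b J) (Rep b J) ℂ := Matrix.of fun u w =>
  ∑ i ∈ pos b J, if u.1⁻¹ * (w.1 * RootPairing.weylGroup.ofIdx P i) ∈ levi P J ∧
    Flag.len b u.1 = Flag.len b w.1 + 1 then P.coroot' i h else 0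

open Classical in
/-- The quantum product with `h ∈ H^2(X)` at the point `t ∈ H^2(X)` (quantum Chevalley formula). -/
noncomputable def mul (t h : V) : Matrix (Rep b J) (Rep b J) ℂ := cup b J h +
  Matrix.of fun u w => ∑ i ∈ pos b J,
    if u.1⁻¹ * (w.1 * RootPairing.weylGroup.ofIdx P i) ∈ levi P J ∧
      (Flag.len b u.1 : ℂ) + P.coroot' i (c₁ b J) = Flag.len b w.1 + 1 then
        P.coroot' i h * Complex.exp (P.coroot' i t) else 0

open Classical in
/-- The first structure connection of `X` at the point `t`: dimension, degrees of the Schubert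
classes, Poincaré pairing (`w₀` is the element of `W` with `w₀ α < 0` for all positive roots `α`),
classical and quantum product with `c_1(X)`. -/
noncomputable def small (t : V) : Small (Rep b J) where
  dim := (pos b J).card
  deg := fun u => Flag.len b u.1
  pair := Matrix.of fun u v => if ∃ w₀ : P.weylGroup,
    (∀ i, b.IsPos i → ¬ b.IsPos (P.weylGroupToPerm w₀ i)) ∧ u.1⁻¹ * (w₀ * v.1) ∈ levi P J
    then 1 else 0
  cup := cup b J (c₁ b J)
  mul := mul b J t (c₁ b J)

variable (P) in
/-- The elements of the representation ring of `Q`: integral combinations of weights `μ` which are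
invariant under `W_J`. They represent the elements of `K_0(X)`: the bundle on `X` attached to the dual
of a representation of `Q` with the weights `μ`, of multiplicity `m_μ`, has the pull-back `∑ m_μ L_μ`
in `K_0(G/B)`. -/
abbrev KClass : Type := {x : Flag.KClass P // ∀ j ∈ J, ∀ μ ν, ν.1 = P.reflection j μ.1 → x ν = x μ}

/-- `H^2(X)` generates the algebra `H^*(X)` in which `F h` is the multiplication by `h ∈ H^2(X)`: the
only subspace which contains the unit `σ_1` and is stable under all `F h` is `H^*(X)`. -/
def Generates [DecidableEq P.weylGroup] [Fintype (Rep b J)] (F : V → Matrix (Rep b J) (Rep b J) ℂ) :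
    Prop :=
  ∀ S : Submodule ℂ (Rep b J → ℂ), (fun u => if u.1 = 1 then 1 else 0) ∈ S →
    (∀ h : V, (∀ j ∈ J, P.coroot' j h = 0) → ∀ x ∈ S, (F h).mulVec x ∈ S) → S = ⊤

/-- The Euler form `χ(x, y) = ∑ (-1)^k dim Hom(x, y[k])` on `K_0(X)`. -/
noncomputable def euler (x y : KClass P J) : ℂ := Flag.euler b x.1 y.1

variable [Fintype P.weylGroup] [DecidableEq P.weylGroup]

/-- The Chern character `ch(x) ∈ H^*(X) ⊆ H^*(G/B)` of a class in `K_0(X)`. -/
noncomputable def chern (x : KClass P J) : Rep b J → ℂ := fun u => Flag.chern b x.1 u.1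

/-- The operator of multiplication by `e^{t + πi c_1(X)} Γ̂` on `H^*(X) ⊆ H^*(G/B)`, where
`Γ̂ = ∏_α Γ(1 - α)`, `α` in `pos b J`, is the `Γ`-class of the cotangent bundle of `X`. -/
noncomputable def gammaOp (t : V) : Matrix (Rep b J) (Rep b J) ℂ :=
  (NormedSpace.exp (Flag.cup b t + (Real.pi * Complex.I : ℂ) • Flag.cup b (c₁ b J) +
    ∑ k ∈ Finset.Icc 1 (Flag.pos b).card, Flag.gcoeff k •
      ∑ i ∈ pos b J, Flag.cup b (P.root i) ^ k)).submatrix Subtype.val Subtype.val

/-- The matrix with the columns `ch(v_j)`. -/
noncomputable def chernMatrix {N : ℕ} (v : Fin N → KClass P J) : Matrix (Rep b J) (Fin N) ℂ :=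
  Matrix.of fun u j => chern b J (v j) u

/-- `v` is a numerically exceptional basis of `K_0(X)`: the `ch(v_j)` are a basis of the lattice
`ch(K_0(X))` and linearly independent over `ℂ`, `χ(v_i, v_i) = 1`, and `χ(v_i, v_j) = 0` for
`i > j`. -/
structure IsExceptionalBasis {N : ℕ} (v : Fin N → KClass P J) : Prop where
  generate : ∀ x : KClass P J, ∃ c : Fin N → ℤ, chern b J x = ∑ j, c j • chern b J (v j)
  independent : LinearIndependent ℂ fun j => chern b J (v j)
  diag : ∀ i, euler b J (v i) (v i) = 1
  lower : ∀ i j, j < i → euler b J (v i) (v j) = 0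

end Pool.Agent.FLG.FlagP
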