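import Pool.Agent.FLG.Small
import Pool.Agent.DSTJ.HDefs
import Pool.Agent.DSTJ.Data

/-!
# Small equivariant theory at one point `t ∈ H^2(X)` (input of the analytic part)

`structure GSD m N`: equivariant small quantum cohomology for a torus of rank `m` with `N` isolated fixed
points, equivariant `K`-theory, `Γ`-solutions; no `n`-point invariants, no cup product. The coordinates of
the basis of cohomology and the fixed points are both numbered by `Fin N`; fixed points by increasing
weight of `c_1` on `ξ`. `structure GS` adds the shift operators. `λ = y z`, `z = e^w`.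
-/

set_option autoImplicit false

open scoped BigOperators Topology
open Filter

namespace Pool.Agent.FLG

open Pool.Agent.DST.TE Pool.Agent.DSTJ Pool.Agent.DSTJ.Spec

structure GSD (m N : ℕ) where
  dim : ℕ
  deg : Fin N → ℕ
  /-- equivariant Poincaré pairing -/
  g : Matrix (Fin N) (Fin N) (MvPolynomial (Fin m) ℂ)
  g_symm : g.transpose = g
  g_unit : IsUnit g.det
  g_deg : ∀ i j (d : Fin m →₀ ℕ), (g i j).coeff d ≠ 0 → deg i + deg j = dim + ∑ k, d k
  /-- graded pieces (degree `n` in `q`) of the equivariant quantum product with `c_1`; `C 0` is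
  classical -/
  K : ℕ
  C : ℕ → Matrix (Fin N) (Fin N) (MvPolynomial (Fin m) ℂ)
  C_big : ∀ n, K < n → C n = 0
  C_deg : ∀ n i j (d : Fin m →₀ ℕ), (C n i j).coeff d ≠ 0 → deg i + n + ∑ k, d k = deg j + 1
  C_self : ∀ n, g * C n = (C n).transpose * g
  /-- tangent weights at the fixed points -/
  wt : Fin N → Fin dim → Fin m → ℤ
  prim : ∀ p k, ∃ μ : Fin m → ℤ, ∑ i, wt p k i * μ i = 1
  /-- a cocharacter; the fixed points are numbered by increasing weight of `c_1` -/
  ξ : Fin m → ℤ
  ξ_ne : ∀ p k, ∑ i, wt p k i * ξ i ≠ 0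
  strict : StrictMono fun p => ∑ k, ∑ i, wt p k i * ξ i
  /-- `R p a` is the restriction of the basis element `a` to the fixed point `p` -/
  R : Matrix (Fin N) (Fin N) (MvPolynomial (Fin m) ℂ)
  R_deg : ∀ p a (d : Fin m →₀ ℕ), (R p a).coeff d ≠ 0 → ∑ k, d k = deg a
  R_comm : ∀ y, evP R y * evP (C 0) y =
    Matrix.diagonal (fun p => ∑ k, pr (wt p k) y) * evP R y
  R_det : ∀ y, (∀ p k, pr (wt p k) y ≠ 0) → (evP R y).det ≠ 0
  /-- Atiyah–Bott localisation -/
  loc : ∀ y, (∀ p k, pr (wt p k) y ≠ 0) → ∀ a b, MvPolynomial.eval y (g a b) =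
    ∑ p, MvPolynomial.eval y (R p a) * MvPolynomial.eval y (R p b) / ∏ k, pr (wt p k) y
  /-- the restriction of `t` to the fixed point `p` is the linear form `∑ tp p i λ_i` -/
  tp : Fin N → Fin m → ℂ
  /-- `B i p` is the restriction to `p` of the `i`-th element of a basis of `K_H(X)` -/
  B : Matrix (Fin N) (Fin N) (RH m)
  B_tri : ∀ i p, p < i → B i p = 0
  B_diag : ∀ p, B p p = ∏ k, if 0 < ∑ i, wt p k i * ξ i then 1 - chr (wt p k) else 1
  /-- the equivariant Euler pairing of the basis -/
  χ : Matrix (Fin N) (Fin N) (RH m)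
  χ_unit : IsUnit χ.det
  χ_loc : ∀ y : Fin m → ℂ, (∀ p k, ∀ n : ℤ, pr (wt p k) y ≠ n) → ∀ i j, evK y (χ i j) =
    ∑ p, evK (-y) (B i p) * evK y (B j p) /
      ∏ k, (1 - Complex.exp (-(2 * Real.pi * Complex.I * pr (wt p k) y)))
  /-- the columns of `G y` are the classes `e^{t + πi c_1} Γ̂ Ch` of the basis of `K_H(X)` -/
  G : (Fin m → ℂ) → Matrix (Fin N) (Fin N) ℂ
  G_hol : ∀ y : Fin m → ℂ, (∀ p k, ∀ n : ℤ, n ≠ 0 → pr (wt p k) y ≠ n) → ∀ a i,
    DifferentiableAt ℂ (fun y => G y a i) y
  G_res : ∀ y : Fin m → ℂ, (∀ p k, ∀ n : ℤ, pr (wt p k) y ≠ n) →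
    evP R y * G y = Matrix.diagonal (fun p =>
      Complex.exp (∑ i, tp p i * y i + Real.pi * Complex.I * ∑ k, pr (wt p k) y) *
        ∏ k, Complex.Gamma (1 - pr (wt p k) y)) * Matrix.of fun p i => evK y (B i p)

namespace GSD

variable {m N : ℕ} (T : GSD m N)

/-- The first structure connection at `t` (non-equivariant limit `λ = 0`). -/
noncomputable def small : Small (Fin N) where
  dim := T.dim
  deg := T.deg
  pair := evP T.g 0
  cup := evP (T.C 0) 0
  mul := ∑ n ∈ Finset.range (T.K + 1), evP (T.C n) 0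

private theorem ev_diff {m : ℕ} (P : MvPolynomial (Fin m) ℂ) :
    Differentiable ℂ fun y : Fin m → ℂ => MvPolynomial.eval y P := by
  induction P using MvPolynomial.induction_on with
  | C a => simp only [MvPolynomial.eval_C]; exact differentiable_const _
  | add p q hp hq => simp only [map_add]; exact Differentiable.add hp hq
  | mul_X p n hp =>
    simp only [map_mul, MvPolynomial.eval_X]
    exact Differentiable.mul hp (by fun_prop)

private theorem evP_diff (P : Matrix (Fin N) (Fin N) (MvPolynomial (Fin m) ℂ)) (i j : Fin N) :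
    Differentiable ℂ fun y : Fin m → ℂ => evP P y i j := ev_diff (P i j)

private theorem pr_sum (p : Fin N) (y : Fin m → ℂ) :
    pr (fun i => ∑ k, T.wt p k i) y = ∑ k, pr (T.wt p k) y := by
  unfold pr
  push_cast
  rw [Finset.sum_comm]
  exact Finset.sum_congr rfl fun i _ => Finset.sum_mul _ _ _

/-- The equivariant quantum differential equation in the form of `DSTJ`. -/
noncomputable def toBase : Base m N where
  θ := fun a => (T.dim : ℂ) / 2 - T.deg a
  K := T.K
  C := fun n y => evP (T.C n) y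
  C_hol := fun n i j => evP_diff _ i j
  C_big := fun n hn y => by
    rw [T.C_big n hn]
    ext i j
    simp [evP]
  e := fun p i => ∑ k, T.wt p k i
  I := Fin N × Fin T.dim
  finI := inferInstance
  wt := fun x => T.wt x.1 x.2
  R := fun y => evP T.R y
  R_hol := fun i j => evP_diff _ i j
  R_comm := fun y => by
    rw [T.R_comm y]
    congr 2
    funext p
    exact (T.pr_sum p y).symm
  R_det := fun y hy => T.R_det y fun p k => hy (p, k)
  ξ := T.ξ
  ξ_wt := fun x => T.ξ_ne x.1 x.2
  ξ_e := by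
    intro p q h
    have h1 : ∀ p, ∑ i, (∑ k, T.wt p k i) * T.ξ i = ∑ k, ∑ i, T.wt p k i * T.ξ i := by
      intro p
      rw [Finset.sum_comm]
      exact Finset.sum_congr rfl fun i _ => Finset.sum_mul _ _ _
    have h2 : ∑ i, (∑ k, T.wt p k i) * T.ξ i = ∑ i, (∑ k, T.wt q k i) * T.ξ i := h
    rw [h1, h1] at h2
    exact T.strict.injective h2

/-- The value at `λ = y z`, `z = e^w` of a matrix of polynomials in `λ` and `z`. -/
noncomputable def valS {N m : ℕ}
    (S : Matrix (Fin N) (Fin N) (MvPolynomial (Option (Fin m)) ℂ)) (y : Fin m → ℂ) (w : ℂ) :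
    Matrix (Fin N) (Fin N) ℂ :=
  S.map (MvPolynomial.eval fun o => o.elim (Complex.exp w) fun k => y k * Complex.exp w)

/-- The standard solution `z^θ cal(1/z) z^{-c_1}` at `λ = 0`. -/
noncomputable def Z (w : ℂ) : Matrix (Fin N) (Fin N) ℂ :=
  T.toBase.J0 (fun _ => 1) 0 w

end GSD

/-- The small equivariant theory together with the shift operators `S μ`, polynomials in `λ` and `z`,
from `λ - μ z` to `λ`. -/
structure GS (m N : ℕ) extends GSD m N where
  S : (Fin m → ℤ) → Matrix (Fin N) (Fin N) (MvPolynomial (Option (Fin m)) ℂ)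
  S_unit : ∀ μ, IsUnit (S μ).det
  shift : ∀ (μ : Fin m → ℤ) (y : Fin m → ℂ), toGSD.toBase.W1 y → toGSD.toBase.NR y →
    toGSD.toBase.NR (y - cc μ) → ∀ w,
      toGSD.toBase.J0 G y w = GSD.valS (S μ) y w * toGSD.toBase.J0 G (y - cc μ) w

end Pool.Agent.FLG
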