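import Pool.Agent.FLG.Lmat
import Pool.Agent.FLG.Rtri
import Pool.Agent.FLG.Theta
import Pool.Agent.FLG.Tau

/-!
# FLG-GamI: the Gamma factors and the elements of length zero
-/

set_option autoImplicit false

open scoped BigOperators
open Pool.Agent.DST.TE

namespace Pool.Agent.FLG.RS

variable {r : ℕ} {D : RS r}

theorem L_even {a : Fin r → ℤ} (ha : a ∈ D.Φ) : Even (D.L a) := by
  obtain ⟨w, i, rfl⟩ := exists_al ha
  have h1 : D.L (D.rt w (al i)) = dotProduct (D.co (al i)) (D.rt w⁻¹ D.tr) :=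
    co_rt w (D.al_mem i) D.tr
  have h2 : dotProduct (D.co (al i)) D.tr = 2 := L_al (D := D) i
  rw [h1, rt_tr, dotProduct_sub, dotProduct_smul, h2, smul_eq_mul]
  exact (even_two).sub (even_two_mul _)

theorem parity (ν : Fin r → ℤ) (w : D.W) :
    (-1 : ℂ) ^ (dotProduct ν (D.rt w D.tr)) = (-1) ^ (dotProduct ν D.tr) := by
  rw [rt_tr, dotProduct_sub, dotProduct_smul, smul_eq_mul,
    zpow_sub₀ (neg_ne_zero.2 one_ne_zero), (even_two_mul _).neg_one_zpow, div_one]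

private theorem gam_val {v : D.W} {y : Fin r → ℂ} (hy : D.SG y) {a : Fin r → ℤ} (ha : a ∈ D.Pos)
    (n : ℤ) : pr (D.rt v a) y ≠ n :=
  hy.1 _ (D.rt_mem.2 (mem_of_pos ha)) n

theorem gam_ne (t : Fin r → ℂ) (v : D.W) {y : Fin r → ℂ} (hy : D.SG y) : D.gam t v y ≠ 0 := by
  unfold gam
  refine mul_ne_zero (Complex.exp_ne_zero _) (Finset.prod_ne_zero_iff.2 fun a ha => ?_)
  refine Complex.Gamma_ne_zero fun m hm => ?_
  apply gam_val hy ha (v := v) (-(m : ℤ) - 1)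
  push_cast
  linear_combination hm

private theorem diag' (y : Fin r → ℂ) (p : D.W) :
    D.Rm y p p = ∏ a ∈ D.Pos, if D.rt p a ∈ D.Pos then 1 else -pr (D.rt p a) y := by
  rw [Rm_diag]
  have h1 : ∏ a ∈ D.Pos, (if D.rt p a ∈ D.Pos then 1 else -pr (D.rt p a) y) =
      ∏ a ∈ D.Pos.filter (fun a => D.rt p a ∉ D.Pos), -pr (D.rt p a) y := by
    rw [Finset.prod_filter]
    refine Finset.prod_congr rfl fun a _ => ?_
    by_cases h : D.rt p a ∈ D.Pos
    · rw [if_pos h, if_neg (not_not.2 h)]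
    · rw [if_neg h, if_pos h]
  rw [h1]
  refine Finset.prod_nbij' (fun b => -D.rt p⁻¹ b) (fun a => -D.rt p a) ?_ ?_ ?_ ?_ ?_
  · intro b hb
    rw [Finset.mem_filter] at hb ⊢
    have h2 : D.rt p⁻¹ b ∈ D.Φ := D.rt_mem.2 (mem_of_pos hb.1)
    refine ⟨(not_pos_iff h2).1 hb.2, ?_⟩
    rw [D.rt_neg, D.rt_rt_inv]
    exact neg_not_pos hb.1
  · intro a ha
    rw [Finset.mem_filter] at ha ⊢
    have h2 : D.rt p a ∈ D.Φ := D.rt_mem.2 (mem_of_pos ha.1)
    refine ⟨(not_pos_iff h2).1 ha.2, ?_⟩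
    rw [D.rt_neg, D.rt_inv_rt]
    exact neg_not_pos ha.1
  · intro b _
    rw [D.rt_neg, D.rt_rt_inv, neg_neg]
  · intro a _
    rw [D.rt_neg, D.rt_inv_rt, neg_neg]
  · intro b _
    rw [D.rt_neg, D.rt_rt_inv]
    simp [pr]

private theorem hv_xi (t : Fin r → ℂ) (x : D.W) (ν : Fin r → ℤ) (v : D.W) (y : Fin r → ℂ) :
    D.hv t v (D.xi x ν y) = D.hv t (x * v) y + ∑ j, t j * ((D.yt (x * v)⁻¹ ν j : ℤ) : ℂ) := by
  unfold hv xi
  rw [← Finset.sum_add_distrib]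
  refine Finset.sum_congr rfl fun j _ => ?_
  rw [← D.yt_mul, ← mul_inv_rev, D.yt_add, D.yt_cc, Pi.add_apply, mul_add]
  rfl

private theorem pr_xi (x : D.W) (ν : Fin r → ℤ) (v : D.W) (y : Fin r → ℂ) (a : Fin r → ℤ) :
    pr (D.rt v a) (D.xi x ν y) = pr (D.rt (x * v) a) y + (dotProduct ν (D.rt (x * v) a) : ℤ) := by
  unfold xi
  rw [D.pr_yt, inv_inv, ← D.rt_mul, pr_add, pr_cc, dotProduct_comm]
  rfl

private theorem fac {η : ℂ} (hη : ∀ n : ℤ, η ≠ n) {p q : Prop} [Decidable p] [Decidable q] {m : ℤ}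
    (h : (if p then 0 else 1 : ℤ) = (if q then 0 else 1) + m) :
    (-1 : ℂ) ^ m * (if q then 1 else -η) * Complex.Gamma (1 + (η + m)) =
      (if p then 1 else -(η + m)) * Complex.Gamma (1 + η) := by
  have h0 : η ≠ 0 := by simpa using hη 0
  have h1 : 1 + η ≠ 0 := by
    intro h2
    apply hη (-1)
    push_cast
    linear_combination h2
  by_cases hp : p
  · by_cases hq : q
    · rw [if_pos hp, if_pos hq] at h
      have hm : m = 0 := by omega
      subst hm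
      simp [hp, hq]
    · rw [if_pos hp, if_neg hq] at h
      have hm : m = -1 := by omega
      subst hm
      rw [if_pos hp, if_neg hq]
      have e1 : (1 : ℂ) + (η + ((-1 : ℤ) : ℂ)) = η := by push_cast; ring
      have e2 : (1 : ℂ) + η = η + 1 := by ring
      rw [e1, e2, Complex.Gamma_add_one η h0]
      have e3 : ((-1 : ℂ) ^ (-1 : ℤ)) = -1 := by norm_num
      rw [e3]
      ring
  · by_cases hq : q
    · rw [if_neg hp, if_pos hq] at h
      have hm : m = 1 := by omega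
      subst hm
      rw [if_neg hp, if_pos hq]
      have e1 : (1 : ℂ) + (η + ((1 : ℤ) : ℂ)) = (1 + η) + 1 := by push_cast; ring
      rw [e1, Complex.Gamma_add_one (1 + η) h1, zpow_one]
      push_cast
      ring
    · rw [if_neg hp, if_neg hq] at h
      have hm : m = 0 := by omega
      subst hm
      simp [hp, hq]

theorem gam_M (t : Fin r → ℂ) {x : D.W} {ν : Fin r → ℤ} (h : D.IsTau x ν) (v : D.W)
    {y : Fin r → ℂ} (hy : D.SG y) :
    (-1) ^ (dotProduct ν D.tr) * qq t (D.yt (x * v)⁻¹ ν) * D.Rm y (x * v) (x * v) *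
      D.gam t v (D.xi x ν y) = D.Rm (D.xi x ν y) v v * D.gam t (x * v) y := by
  have h1 : Complex.exp (-D.hv t v (D.xi x ν y)) =
      Complex.exp (-D.hv t (x * v) y) * (qq t (D.yt (x * v)⁻¹ ν))⁻¹ := by
    rw [hv_xi, neg_add, Complex.exp_add, Complex.exp_neg (∑ j, t j * ((D.yt (x * v)⁻¹ ν j : ℤ) : ℂ))]
    rfl
  have h2 : (-1 : ℂ) ^ (dotProduct ν D.tr) =
      ∏ a ∈ D.Pos, (-1 : ℂ) ^ (dotProduct ν (D.rt (x * v) a)) := by
    rw [← parity ν (x * v)]
    have h3 : dotProduct ν (D.rt (x * v) D.tr) = ∑ a ∈ D.Pos, dotProduct ν (D.rt (x * v) a) := by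
      unfold tr
      rw [D.rt_sum, dotProduct_sum]
    rw [h3]
    induction D.Pos using Finset.cons_induction with
    | empty => simp
    | cons a s ha ih =>
      rw [Finset.sum_cons, Finset.prod_cons, zpow_add₀ (neg_ne_zero.2 one_ne_zero), ih]
  have h4 : (∏ a ∈ D.Pos, (-1 : ℂ) ^ (dotProduct ν (D.rt (x * v) a))) *
      (∏ a ∈ D.Pos, if D.rt (x * v) a ∈ D.Pos then 1 else -pr (D.rt (x * v) a) y) *
      (∏ a ∈ D.Pos, Complex.Gamma (1 + pr (D.rt v a) (D.xi x ν y))) =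
      (∏ a ∈ D.Pos, if D.rt v a ∈ D.Pos then 1 else -pr (D.rt v a) (D.xi x ν y)) *
      ∏ a ∈ D.Pos, Complex.Gamma (1 + pr (D.rt (x * v) a) y) := by
    rw [← Finset.prod_mul_distrib, ← Finset.prod_mul_distrib, ← Finset.prod_mul_distrib]
    refine Finset.prod_congr rfl fun a ha => ?_
    rw [pr_xi]
    refine fac (fun n => gam_val hy ha n) ?_
    have h5 := h (D.rt (x * v) a) (D.rt_mem.2 (mem_of_pos ha))
    rw [D.rt_mul x v, D.rt_inv_rt] at h5
    rw [D.rt_mul x v]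
    exact h5
  have hq := qq_ne_zero t (D.yt (x * v)⁻¹ ν)
  unfold gam
  rw [h1, diag' y (x * v), diag' (D.xi x ν y) v, h2]
  calc (∏ a ∈ D.Pos, (-1 : ℂ) ^ (dotProduct ν (D.rt (x * v) a))) * qq t (D.yt (x * v)⁻¹ ν) *
        (∏ a ∈ D.Pos, if D.rt (x * v) a ∈ D.Pos then 1 else -pr (D.rt (x * v) a) y) *
        (Complex.exp (-D.hv t (x * v) y) * (qq t (D.yt (x * v)⁻¹ ν))⁻¹ *
          ∏ a ∈ D.Pos, Complex.Gamma (1 + pr (D.rt v a) (D.xi x ν y)))
      = (qq t (D.yt (x * v)⁻¹ ν) * (qq t (D.yt (x * v)⁻¹ ν))⁻¹) * Complex.exp (-D.hv t (x * v) y) *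
        ((∏ a ∈ D.Pos, (-1 : ℂ) ^ (dotProduct ν (D.rt (x * v) a))) *
        (∏ a ∈ D.Pos, if D.rt (x * v) a ∈ D.Pos then 1 else -pr (D.rt (x * v) a) y) *
        (∏ a ∈ D.Pos, Complex.Gamma (1 + pr (D.rt v a) (D.xi x ν y)))) := by ring
    _ = _ := by
      rw [h4, mul_inv_cancel₀ hq]
      ring

end Pool.Agent.FLG.RS
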