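import Pool.Agent.FLG.GamI

/-!
# FLG-GamT: the Gamma factors and the affine reflections

PLAN. `gam_θ`: `y' = xi (refl b) (co b) y`; `hv t v y' = hv t (s_b v) y + ∑ j, t j * (yt (s_b v)⁻¹ (co b)) j`, `yt (s_b v)⁻¹ (co b) = -co (rt v⁻¹ b)`. For `a ∈ Pos`, `η = rt (s_b v) a`, `m = dotProduct (co b) η`: `pr (rt v a) y' = pr η y + m`,
`rt v a = s_b η = η - m b`. `m ∈ {0, ±1}` unless `η = ± b`; exactly one `a ∈ Pos` has `η = -b` (`rt v a = b`, as `rt v⁻¹ b ∈ Pos`), `m = -2`, and `η = b` does not occur. `m = 0`: equal factors. `m = 1`: `η > 0` (`pos_of_pos`), `rt v a = η - b < 0` (its pairing is `-1`):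
`Γ(1 + η + 1) = (1 + η) Γ(1 + η)` and the factor of `Rm_diag (y', v)` is `-(η + 1)`. `m = -1`: `η < 0 < rt v a`: `Γ(1 + η - 1) = Γ(1+η)/η`, factor `-η` of `Rm_diag (y, s_b v)`. `η = -b`: `Γ(1 - b(y) - 2) = Γ(1 - b(y)) / ((-b)(-b - 1))`, factor `-η = b(y)` in `Rm_diag (y, s_b v)`:
`(1 + b) * b * 1/((-b)(-b-1)) = 1`. Number of signs `≡ ∑ m = dotProduct (co b) (rt (s_b v) tr) = L(...)`, even (`L_even`).
-/

set_option autoImplicit false

open scoped BigOperators
open Pool.Agent.DST.TE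

namespace Pool.Agent.FLG.RS

variable {r : ℕ} {D : RS r}

private theorem gt_pr_neg (a : Fin r → ℤ) (y : Fin r → ℂ) : pr (-a) y = -pr a y := by
  unfold pr
  rw [← Finset.sum_neg_distrib]
  refine Finset.sum_congr rfl fun i _ => ?_
  rw [Pi.neg_apply]
  push_cast
  ring

private theorem gt_pr_cc (a μ : Fin r → ℤ) : pr a (cc μ) = ((dotProduct μ a : ℤ) : ℂ) := by
  rw [pr_cc]
  congr 1
  unfold dotProduct
  exact Finset.sum_congr rfl fun i _ => mul_comm _ _

private theorem gt_Rm (y : Fin r → ℂ) (u : D.W) :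
    D.Rm y u u = ∏ a ∈ D.Pos, if D.rt u a ∉ D.Pos then -pr (D.rt u a) y else 1 := by
  rw [Rm_diag, Finset.prod_ite, Finset.prod_const_one, mul_one]
  refine Finset.prod_nbij' (fun c => -D.rt u⁻¹ c) (fun a => -D.rt u a) ?_ ?_ ?_ ?_ ?_
  · intro c hc
    rw [Finset.mem_filter] at hc ⊢
    refine ⟨(not_pos_iff (D.rt_mem.2 (mem_of_pos hc.1))).1 hc.2, ?_⟩
    rw [D.rt_neg, D.rt_rt_inv]
    exact neg_not_pos hc.1
  · intro a ha
    rw [Finset.mem_filter] at ha ⊢
    refine ⟨(not_pos_iff (D.rt_mem.2 (mem_of_pos ha.1))).1 ha.2, ?_⟩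
    rw [D.rt_neg, D.rt_inv_rt]
    exact neg_not_pos ha.1
  · intro c _
    simp only [D.rt_neg, D.rt_rt_inv, neg_neg]
  · intro a _
    simp only [D.rt_neg, D.rt_inv_rt, neg_neg]
  · intro c _
    rw [D.rt_neg, D.rt_rt_inv, gt_pr_neg, neg_neg]

private theorem gt_step {b : Fin r → ℤ} (hb : D.IsMax b) {η : Fin r → ℤ} (hη : η ∈ D.Φ)
    (h1 : η ≠ b) (h2 : η ≠ -b) {y : Fin r → ℂ} (hy : D.SG y) :
    (if η ∉ D.Pos then -pr η y else 1) *
        Complex.Gamma (1 + (pr η y + ((dotProduct (D.co b) η : ℤ) : ℂ))) =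
      (-1 : ℂ) ^ (dotProduct (D.co b) η) *
        ((if D.rt (D.refl b) η ∉ D.Pos then -(pr η y + ((dotProduct (D.co b) η : ℤ) : ℂ)) else 1) *
          Complex.Gamma (1 + pr η y)) := by
  obtain ⟨h3, h4⟩ := hb.le_one hη h1 h2
  have hr : D.rt (D.refl b) η = η - dotProduct (D.co b) η • b := rt_refl hb.mem η
  have hbm := hb.mem
  have hcs := D.co_self b hbm
  rcases lt_trichotomy (dotProduct (D.co b) η) 0 with h5 | h5 | h5
  · have h6 : dotProduct (D.co b) η = -1 := by omega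
    have h7 : -η ∈ D.Pos := by
      apply hb.pos_of_pos (neg_mem hη)
      rw [dotProduct_neg, h6]
      norm_num
    have h8 : η ∉ D.Pos := (not_pos_iff hη).2 h7
    have h9 : D.rt (D.refl b) η ∈ D.Pos := by
      apply hb.pos_of_pos (D.rt_mem.2 hη)
      rw [hr, dotProduct_sub, dotProduct_smul, h6, hcs]
      norm_num
    have h10 : pr η y ≠ 0 := by
      have := hy.1 η hη 0
      rwa [Int.cast_zero] at this
    rw [if_neg (not_not.2 h9), if_pos h8, h6, Int.cast_neg, Int.cast_one,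
      add_comm 1 (pr η y), Complex.Gamma_add_one _ h10]
    have h11 : (1 : ℂ) + (pr η y + -1) = pr η y := by ring
    rw [h11]
    norm_num
  · rw [h5] at hr ⊢
    rw [zero_smul, sub_zero] at hr
    rw [hr, zpow_zero, one_mul, Int.cast_zero, add_zero]
  · have h6 : dotProduct (D.co b) η = 1 := by omega
    have h7 : η ∈ D.Pos := hb.pos_of_pos hη h5
    have h9 : -(D.rt (D.refl b) η) ∈ D.Pos := by
      apply hb.pos_of_pos (neg_mem (D.rt_mem.2 hη))
      rw [hr, dotProduct_neg, dotProduct_sub, dotProduct_smul, h6, hcs]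
      norm_num
    have h10 : D.rt (D.refl b) η ∉ D.Pos := (not_pos_iff (D.rt_mem.2 hη)).2 h9
    have h11 : (1 : ℂ) + pr η y ≠ 0 := by
      have := hy.1 η hη (-1)
      intro h
      apply this
      rw [Int.cast_neg, Int.cast_one]
      linear_combination h
    have h12 : (1 : ℂ) + (pr η y + 1) = (1 + pr η y) + 1 := by ring
    rw [if_pos h10, if_neg (not_not.2 h7), h6, Int.cast_one, h12, Complex.Gamma_add_one _ h11,
      zpow_one]
    ring

private theorem gt_zpow {ι : Type} (S : Finset ι) (m : ι → ℤ) :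
    ∏ a ∈ S, (-1 : ℂ) ^ (m a) = (-1) ^ (∑ a ∈ S, m a) := by
  classical
  induction S using Finset.induction_on with
  | empty => simp
  | insert a S ha ih =>
    rw [Finset.prod_insert ha, Finset.sum_insert ha, ih, zpow_add₀ (by norm_num)]

private theorem gt_hv (t : Fin r → ℂ) (b : Fin r → ℤ) (hb : b ∈ D.Φ) (v : D.W) (y : Fin r → ℂ) :
    Complex.exp (-D.hv t v (D.xi (D.refl b) (D.co b) y)) =
      qq t (D.co (D.rt v⁻¹ b)) * Complex.exp (-D.hv t (D.refl b * v) y) := by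
  unfold xi
  rw [← hv_mul]
  have h1 : D.hv t (D.refl b * v) (y + cc (D.co b)) =
      D.hv t (D.refl b * v) y + D.hv t (D.refl b * v) (cc (D.co b)) := by
    unfold hv
    rw [D.yt_add, ← Finset.sum_add_distrib]
    refine Finset.sum_congr rfl fun j _ => ?_
    rw [Pi.add_apply]
    ring
  have h2 : D.hv t (D.refl b * v) (cc (D.co b)) = -∑ j, t j * ((D.co (D.rt v⁻¹ b) j : ℤ) : ℂ) := by
    unfold hv
    rw [D.yt_cc, ← co_rt_eq _ hb, mul_inv_rev, refl_inv hb, D.rt_mul, rt_refl_self hb, D.rt_neg,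
      co_neg (D.rt_mem.2 hb), ← Finset.sum_neg_distrib]
    refine Finset.sum_congr rfl fun j _ => ?_
    unfold cc
    rw [Pi.neg_apply]
    push_cast
    ring
  rw [h1, h2]
  unfold qq
  rw [← Complex.exp_add]
  congr 1
  ring

theorem gam_θ (t : Fin r → ℂ) {b : Fin r → ℤ} (hb : D.IsMax b) (v : D.W)
    (hv : D.rt v⁻¹ b ∈ D.Pos) {y : Fin r → ℂ} (hy : D.SG y) :
    (1 + pr b y) * qq t (-D.co (D.rt v⁻¹ b)) * D.Rm y (D.refl b * v) (D.refl b * v) *
      D.gam t v (D.xi (D.refl b) (D.co b) y) =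
    D.Rm (D.xi (D.refl b) (D.co b) y) v v * D.gam t (D.refl b * v) y := by
  have hbm := hb.mem
  have hss := refl_mul_self hbm
  set u : D.W := D.refl b * v with hu
  have hvu : ∀ a, D.rt v a = D.rt (D.refl b) (D.rt u a) := by
    intro a
    rw [← D.rt_mul, hu, ← mul_assoc, hss, one_mul]
  have hpr : ∀ a, pr (D.rt v a) (D.xi (D.refl b) (D.co b) y) =
      pr (D.rt u a) y + ((dotProduct (D.co b) (D.rt u a) : ℤ) : ℂ) := by
    intro a
    unfold xi
    rw [← D.pr_rt, ← D.rt_mul, ← hu, pr_add, gt_pr_cc]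
  have hgam : D.gam t v (D.xi (D.refl b) (D.co b) y) =
      qq t (D.co (D.rt v⁻¹ b)) * Complex.exp (-D.hv t u y) *
        ∏ a ∈ D.Pos, Complex.Gamma (1 + (pr (D.rt u a) y +
          ((dotProduct (D.co b) (D.rt u a) : ℤ) : ℂ))) := by
    unfold gam
    rw [gt_hv t b hbm v y]
    congr 1
    exact Finset.prod_congr rfl fun a _ => by rw [hpr]
  rw [hgam, gt_Rm y u, gt_Rm _ v]
  have hq : qq t (-D.co (D.rt v⁻¹ b)) * qq t (D.co (D.rt v⁻¹ b)) = 1 := by
    rw [← qq_add, neg_add_cancel, qq_zero]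
  unfold gam
  set a0 := D.rt v⁻¹ b with ha0
  have hua0 : D.rt u a0 = -b := by
    rw [hu, D.rt_mul, ha0, D.rt_rt_inv, rt_refl_self hbm]
  have hva0 : D.rt v a0 = b := by rw [ha0, D.rt_rt_inv]
  obtain ⟨F, hF⟩ : ∃ F : (Fin r → ℤ) → ℂ, F = fun a =>
      (if D.rt u a ∉ D.Pos then -pr (D.rt u a) y else 1) *
        Complex.Gamma (1 + (pr (D.rt u a) y + ((dotProduct (D.co b) (D.rt u a) : ℤ) : ℂ))) :=
    ⟨_, rfl⟩
  obtain ⟨G, hG⟩ : ∃ G : (Fin r → ℤ) → ℂ, G = fun a =>
      (if D.rt v a ∉ D.Pos then -pr (D.rt v a) (D.xi (D.refl b) (D.co b) y) else 1) *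
        Complex.Gamma (1 + pr (D.rt u a) y) := ⟨_, rfl⟩
  have hmain : (1 + pr b y) * ∏ a ∈ D.Pos, F a = ∏ a ∈ D.Pos, G a := by
    have e1 : ∀ a ∈ D.Pos.erase a0, F a =
        (-1 : ℂ) ^ (dotProduct (D.co b) (D.rt u a)) * G a := by
      intro a ha
      obtain ⟨ha1, ha2⟩ := Finset.mem_erase.1 ha
      have k1 : D.rt u a ≠ b := by
        intro h
        have k : D.rt v a = -b := by rw [hvu, h, rt_refl_self hbm]
        have k' : a = -a0 := by
          apply D.rt_inj v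
          rw [k, D.rt_neg, hva0]
        rw [k'] at ha2
        exact neg_not_pos hv ha2
      have k2 : D.rt u a ≠ -b := by
        intro h
        apply ha1
        apply D.rt_inj u
        rw [h, hua0]
      have k3 := gt_step hb (D.rt_mem.2 (mem_of_pos ha2) : D.rt u a ∈ D.Φ) k1 k2 hy
      rw [hF, hG]
      simp only [hpr]
      rw [hvu]
      exact k3
    have e2 : (1 + pr b y) * F a0 = (-1 : ℂ) ^ (dotProduct (D.co b) (D.rt u a0)) * G a0 := by
      rw [hF, hG]
      simp only [hua0, hva0]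
      rw [if_pos (neg_not_pos hb.1), if_neg (not_not.2 hb.1), gt_pr_neg, dotProduct_neg,
        D.co_self b hbm]
      have n1 : -pr b y ≠ 0 := by
        have := hy.1 b hbm 0
        rw [Int.cast_zero] at this
        exact neg_ne_zero.2 this
      have n2 : -pr b y - 1 ≠ 0 := by
        have := hy.1 b hbm (-1)
        intro h
        apply this
        rw [Int.cast_neg, Int.cast_one]
        linear_combination -h
      have g1 := Complex.Gamma_add_one (-pr b y) n1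
      have g2 := Complex.Gamma_add_one (-pr b y - 1) n2
      rw [sub_add_cancel] at g2
      rw [add_comm 1 (-pr b y), g1, g2]
      have n3 : (1 : ℂ) + (-pr b y + ((-2 : ℤ) : ℂ)) = -pr b y - 1 := by
        push_cast
        ring
      rw [n3]
      have n4 : (-1 : ℂ) ^ (-2 : ℤ) = 1 := by norm_num
      rw [n4]
      ring
    have e3 : (1 + pr b y) * ∏ a ∈ D.Pos, F a =
        (∏ a ∈ D.Pos, (-1 : ℂ) ^ (dotProduct (D.co b) (D.rt u a))) * ∏ a ∈ D.Pos, G a := by
      rw [← Finset.mul_prod_erase D.Pos F hv, ← Finset.mul_prod_erase D.Pos G hv,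
        ← Finset.mul_prod_erase D.Pos (fun a => (-1 : ℂ) ^ (dotProduct (D.co b) (D.rt u a))) hv,
        Finset.prod_congr rfl e1, Finset.prod_mul_distrib, ← mul_assoc, e2]
      ring
    rw [e3, gt_zpow]
    have e4 : ∑ a ∈ D.Pos, dotProduct (D.co b) (D.rt u a) = D.L (D.rt u⁻¹ b) := by
      unfold L
      rw [co_rt _ hbm, inv_inv]
      unfold tr
      rw [D.rt_sum, dotProduct_sum]
    rw [e4, Even.neg_one_zpow (L_even (D.rt_mem.2 hbm)), one_mul]
  rw [hF, hG] at hmain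
  simp only [Finset.prod_mul_distrib] at hmain
  linear_combination (qq t (-D.co a0) * qq t (D.co a0) * Complex.exp (-D.hv t u y)) * hmain +
    (Complex.exp (-D.hv t u y) *
      (∏ a ∈ D.Pos, if D.rt v a ∉ D.Pos then -pr (D.rt v a) (D.xi (D.refl b) (D.co b) y) else 1) *
      ∏ a ∈ D.Pos, Complex.Gamma (1 + pr (D.rt u a) y)) * hq

end Pool.Agent.FLG.RS
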