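import Pool.Agent.FLG.Lmat
import Pool.Agent.FLG.Scale
import Pool.Agent.FLG.CommT
import Pool.Agent.FLG.CommM

/-!
# FLG-Ode: the elementary matrices intertwine the quantum differential equations
-/

set_option autoImplicit false

open scoped BigOperators
open Pool.Agent.DST.TE

namespace Pool.Agent.FLG.RS

variable {r : ℕ} {D : RS r}

private theorem od_rhs (c : ℂ) (P Q M : Matrix D.W D.W ℂ) (u v : D.W) :
    ((Matrix.diagonal D.th - c • P) * M - M * (Matrix.diagonal D.th - c • Q)) u v =
      (D.th u - D.th v) * M u v - c * ((P * M - M * Q) u v) := by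
  rw [Matrix.sub_mul, Matrix.mul_sub, Matrix.smul_mul, Matrix.mul_smul]
  simp only [Matrix.sub_apply, Matrix.smul_apply, Matrix.diagonal_mul, Matrix.mul_diagonal,
    smul_eq_mul]
  ring

private theorem od_sm (y : Fin r → ℂ) (e : ℂ) : (fun i => y i * e) = e • y := by
  funext i
  rw [Pi.smul_apply, smul_eq_mul, mul_comm]

private theorem od_th (u v : D.W) : D.th u - D.th v = (D.len v : ℂ) - D.len u := by
  unfold th
  ring

private theorem od_dot (μ a : Fin r → ℤ) : pr a (cc μ) = ((dotProduct μ a : ℤ) : ℂ) := by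
  rw [pr_cc]
  congr 1
  unfold dotProduct
  exact Finset.sum_congr rfl fun i _ => mul_comm _ _

/-- the diagonal parts -/
private theorem od_diag (E M : Matrix D.W D.W ℂ) (f g : D.W → ℂ) (u v : D.W) :
    ((E - Matrix.diagonal f) * M - M * (E - Matrix.diagonal g)) u v =
      (E * M - M * E) u v - (f u - g v) * M u v := by
  rw [Matrix.sub_mul, Matrix.mul_sub]
  simp only [Matrix.sub_apply, Matrix.diagonal_mul, Matrix.mul_diagonal]
  ring

theorem inter_Ms (t : Fin r → ℂ) (i : Fin r) : D.Inter t (D.s i) 0 (D.Ms i) := by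
  intro y s u v
  rw [od_rhs]
  have hx : (fun j => D.xi (D.s i) 0 y j * Complex.exp s) =
      D.yt (D.s i)⁻¹ (fun j => y j * Complex.exp s) := by
    rw [od_sm, od_sm, D.yt_smul]
    unfold xi
    have h0 : cc (0 : Fin r → ℤ) = 0 := by
      funext j
      simp [cc]
    rw [h0, add_zero]
  have hcomm := (IsLeft.simple (D := D) i).comm D.ctr t (fun j => y j * Complex.exp s)
  have hM : D.Ms i (fun j => y j * Complex.exp s) (Complex.exp s) =
      1 - pr (al i) (fun j => y j * Complex.exp s) • D.A i := rfl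
  have hcomm' : D.Cq D.ctr t (fun j => y j * Complex.exp s) *
      D.Ms i (fun j => y j * Complex.exp s) (Complex.exp s) =
      D.Ms i (fun j => y j * Complex.exp s) (Complex.exp s) *
        D.Cq D.ctr t (D.yt (D.s i)⁻¹ (fun j => y j * Complex.exp s)) := hcomm
  rw [hx, hcomm', sub_self, Matrix.zero_apply, mul_zero, sub_zero]
  have hfun : ∀ s', D.Ms i (fun j => y j * Complex.exp s') (Complex.exp s') u v =
      (1 : Matrix D.W D.W ℂ) u v - Complex.exp s' * (pr (al i) y * D.A i u v) := by
    intro s'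
    unfold Ms
    rw [Matrix.sub_apply, Matrix.smul_apply, smul_eq_mul, od_sm, pr_smul, mul_assoc]
  have hder : HasDerivAt (fun s' => D.Ms i (fun j => y j * Complex.exp s') (Complex.exp s') u v)
      (-(Complex.exp s * (pr (al i) y * D.A i u v))) s := by
    have h1 := ((Complex.hasDerivAt_exp s).mul_const (pr (al i) y * D.A i u v)).const_sub
      ((1 : Matrix D.W D.W ℂ) u v)
    refine h1.congr_of_eventuallyEq (Filter.Eventually.of_forall fun s' => ?_)
    exact hfun s'
  convert hder using 1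
  rw [hfun, od_th]
  have h1 : ((D.len v : ℂ) - D.len u) * (1 : Matrix D.W D.W ℂ) u v = 0 := by
    by_cases h : u = v
    · rw [h, sub_self, zero_mul]
    · rw [Matrix.one_apply_ne h, mul_zero]
  have h2 : ((D.len v : ℂ) - D.len u) * D.A i u v = D.A i u v := by
    unfold A
    rw [Matrix.of_apply]
    by_cases h : u = D.s i * v ∧ D.len u < D.len v
    · rw [if_pos h, mul_one]
      have h3 : D.len v = D.len u + 1 := by
        by_cases h4 : D.rt v⁻¹ (al i) ∈ D.Pos
        · have h5 := len_s_mul_of_pos i v h4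
          rw [← h.1] at h5
          omega
        · have h5 := len_s_mul_of_neg i v h4
          rw [← h.1] at h5
          omega
      rw [h3]
      push_cast
      ring
    · rw [if_neg h, mul_zero]
  linear_combination h1 - Complex.exp s * pr (al i) y * h2

theorem inter_Mθ (t : Fin r → ℂ) {b : Fin r → ℤ} (hb : D.IsMax b) :
    D.Inter t (D.refl b) (D.co b) (D.Mθ t b) := by
  have hbΦ : b ∈ D.Φ := hb.mem
  intro y s u v
  rw [od_rhs]
  set z := Complex.exp s with hz
  have hz0 : z ≠ 0 := Complex.exp_ne_zero s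
  set lam : Fin r → ℂ := fun j => y j * z with hlam
  set κ : ℂ := z + pr b lam with hκ
  have hprlam : pr b lam = z * pr b y := by
    rw [hlam, od_sm, pr_smul]
  -- the shifted point
  have hx : (fun j => D.xi (D.refl b) (D.co b) y j * z) = lam - κ • cc (D.co b) := by
    unfold xi
    rw [refl_inv hbΦ, D.yt_add, yt_refl hbΦ, yt_refl hbΦ, od_dot, D.co_self b hbΦ]
    funext j
    simp only [Pi.add_apply, Pi.sub_apply, Pi.smul_apply, smul_eq_mul, hlam, hκ]
    push_cast
    rw [show pr b (fun j => y j * z) = z * pr b y by rw [od_sm, pr_smul]]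
    ring
  set K : D.W → ℂ := fun w => ((dotProduct (D.co b) (D.rt w D.tr) : ℤ) : ℂ) with hK
  have hv1 : ∀ w, D.hv D.ctr w (lam - κ • cc (D.co b)) = D.hv D.ctr w lam - κ * K w := by
    intro w
    rw [hv_ctr, hv_ctr, pr_sub, pr_smul, od_dot]
  have hchK : ∀ w, D.ch D.ctr (D.rt w⁻¹ b) = K w := by
    intro w
    rw [ch_ctr]
    simp only [hK]
    unfold L
    rw [co_rt _ hbΦ, inv_inv]
  have hEA := E_Aθ (c := D.ch D.ctr) (ch_neg D.ctr) hb t
  have hM : ∀ s', D.Mθ t b (fun j => y j * Complex.exp s') (Complex.exp s') =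
      1 + (Complex.exp s' * (1 + pr b y)) • D.Aθ b t := by
    intro s'
    unfold Mθ
    rw [od_sm, pr_smul]
    congr 2
    ring
  have hMs : D.Mθ t b lam z = 1 + κ • D.Aθ b t := rfl
  have hκ' : κ = z * (1 + pr b y) := by rw [hκ, hprlam]; ring
  have hder : HasDerivAt (fun s' => D.Mθ t b (fun j => y j * Complex.exp s') (Complex.exp s') u v)
      (z * ((1 + pr b y) * D.Aθ b t u v)) s := by
    have h1 := ((Complex.hasDerivAt_exp s).mul_const ((1 + pr b y) * D.Aθ b t u v)).const_add
      ((1 : Matrix D.W D.W ℂ) u v)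
    refine h1.congr_of_eventuallyEq (Filter.Eventually.of_forall fun s' => ?_)
    change D.Mθ t b (fun j => y j * Complex.exp s') (Complex.exp s') u v = _
    rw [hM, Matrix.add_apply, Matrix.smul_apply, smul_eq_mul, mul_assoc]
  convert hder using 1
  rw [hx]
  unfold Cq
  rw [od_diag, hMs]
  have e1 : (D.E (D.ch D.ctr) t * (1 + κ • D.Aθ b t) - (1 + κ • D.Aθ b t) * D.E (D.ch D.ctr) t) u v =
      κ * (Matrix.diagonal fun w => D.ch D.ctr (D.rt w⁻¹ b)) u v := by
    rw [← hEA, mul_add, add_mul, mul_one, one_mul, Matrix.mul_smul, Matrix.smul_mul]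
    simp only [Matrix.sub_apply, Matrix.add_apply, Matrix.smul_apply, smul_eq_mul]
    ring
  rw [e1, od_th, hv1, Matrix.add_apply, Matrix.smul_apply, smul_eq_mul]
  have hexp : Complex.exp (-s) = z⁻¹ := by rw [hz, Complex.exp_neg]
  rw [hexp]
  by_cases huv : u = v
  · -- diagonal entries
    subst huv
    rw [Matrix.diagonal_apply_eq, hchK, Matrix.one_apply_eq]
    by_cases hA : u = D.refl b * u ∧ D.rt u⁻¹ b ∈ D.Pos
    · exfalso
      have h1 : D.refl b = 1 := by
        have := hA.1
        exact (mul_eq_right.1 this.symm)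
      have h2 := rt_refl_self hbΦ
      rw [h1, D.rt_one] at h2
      have h3 : b = 0 := by
        funext j
        have := congrFun h2 j
        rw [Pi.neg_apply] at this
        change b j = 0
        omega
      exact ne_zero hbΦ h3
    · have hA0 : D.Aθ b t u u = 0 := by
        unfold Aθ
        rw [Matrix.of_apply, if_neg hA]
      rw [hA0]
      ring
  · rw [Matrix.diagonal_apply_ne _ huv, Matrix.one_apply_ne huv]
    by_cases hA : u = D.refl b * v ∧ D.rt v⁻¹ b ∈ D.Pos
    · have h1 := IsMax.len hb v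
      rw [← hA.1, if_pos hA.2] at h1
      have h2 : (D.len u : ℂ) = D.len v + K v - 1 := by
        have : ((D.len u : ℤ) : ℂ) = (((D.len v : ℤ) + dotProduct (D.co b) (D.rt v D.tr) - 1 : ℤ) : ℂ) := by
          rw [h1]
        push_cast at this
        simp only [hK]
        exact this
      have h3 : D.hv D.ctr u lam = D.hv D.ctr v lam - pr b lam * K v := by
        rw [hA.1, hv_refl D.ctr v hbΦ, hchK]
      rw [h2, h3]
      have h4 : pr b lam = κ - z := by rw [hκ]; ring
      rw [h4, hκ']
      field_simp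
      ring
    · have hA0 : D.Aθ b t u v = 0 := by
        unfold Aθ
        rw [Matrix.of_apply, if_neg hA]
      rw [hA0]
      ring

theorem inter_Mτ (t : Fin r → ℂ) {x : D.W} {ν : Fin r → ℤ} (h : D.IsTau x ν) :
    D.Inter t x ν fun _ _ => D.Mτ x ν t := by
  intro y s u v
  rw [od_rhs]
  set z := Complex.exp s with hz
  have hz0 : z ≠ 0 := Complex.exp_ne_zero s
  set lam : Fin r → ℂ := fun j => y j * z with hlam
  have hexp : Complex.exp (-s) = z⁻¹ := by rw [hz, Complex.exp_neg]
  have hx : (fun j => D.xi x ν y j * z) = D.yt x⁻¹ (lam + z • cc ν) := by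
    unfold xi
    rw [od_sm, ← D.yt_smul, smul_add, hlam, od_sm]
  have hcomm := E_Mτ (D.ch D.ctr) h t
  suffices hval : (D.th u - D.th v) * D.Mτ x ν t u v - Complex.exp (-s) *
      ((D.Cq D.ctr t lam * D.Mτ x ν t - D.Mτ x ν t * D.Cq D.ctr t fun i => D.xi x ν y i * z) u v) =
      0 by
    rw [hval]
    exact hasDerivAt_const s (D.Mτ x ν t u v)
  unfold Cq
  rw [hx, od_diag, hcomm, sub_self, Matrix.zero_apply, od_th, hexp]
  by_cases huv : u = x * v
  · have h1 : D.hv D.ctr v (D.yt x⁻¹ (lam + z • cc ν)) =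
        D.hv D.ctr u lam + z * ((dotProduct ν (D.rt u D.tr) : ℤ) : ℂ) := by
      rw [← hv_mul, ← huv, hv_ctr, hv_ctr, pr_add, pr_smul, od_dot]
    have h2 := IsTau.len h v
    rw [← huv] at h2
    have h3 : (D.len u : ℂ) = D.len v - ((dotProduct ν (D.rt u D.tr) : ℤ) : ℂ) := by
      have : ((D.len u : ℤ) : ℂ) = (((D.len v : ℤ) - dotProduct ν (D.rt u D.tr) : ℤ) : ℂ) := by
        rw [h2]
      push_cast at this
      exact this
    rw [h1, h3]
    field_simp
    ring
  · have hM0 : D.Mτ x ν t u v = 0 := by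
      unfold Mτ
      rw [Matrix.of_apply, if_neg huv]
    rw [hM0]
    ring

theorem Inter.smul {t : Fin r → ℂ} {w : D.W} {ν : Fin r → ℤ}
    {M : (Fin r → ℂ) → ℂ → Matrix D.W D.W ℂ} (h : D.Inter t w ν M) (c : ℂ) :
    D.Inter t w ν fun y z => c • M y z := by
  intro y s u v
  have h1 := (h y s u v).const_mul c
  rw [od_rhs] at h1 ⊢
  have h2 : ∀ P Q N : Matrix D.W D.W ℂ,
      (D.th u - D.th v) * (c • N) u v - Complex.exp (-s) * ((P * (c • N) - (c • N) * Q) u v) =
      c * ((D.th u - D.th v) * N u v - Complex.exp (-s) * ((P * N - N * Q) u v)) := by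
    intro P Q N
    rw [Matrix.mul_smul, Matrix.smul_mul]
    simp only [Matrix.sub_apply, Matrix.smul_apply, smul_eq_mul]
    ring
  rw [h2]
  exact h1

end Pool.Agent.FLG.RS
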