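import Pool.Agent.FLG.Lmat
import Pool.Agent.FLG.Bruhat
import Pool.Agent.DSTJ.ShUnit

/-!
# FLG-Rmat: restrictions of the Schubert classes to the fixed points (definition)

`Rm y p w` is the entry `(1, w)` of the left action of `p⁻¹` at `p⁻¹ y`.
-/

set_option autoImplicit false

open scoped BigOperators
open Pool.Agent.DST.TE

namespace Pool.Agent.FLG.RS

variable {r : ℕ} {D : RS r}

/-- `Rm y p w` is the restriction of the Schubert class of `w` to the fixed point `p` -/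
noncomputable def Rm (D : RS r) (y : Fin r → ℂ) : Matrix D.W D.W ℂ :=
  Matrix.of fun p w => Lw p⁻¹ (D.yt p⁻¹ y) 1 w

theorem Rm_diff (p w : D.W) : Differentiable ℂ fun y => D.Rm y p w := by
  have h1 : Differentiable ℂ fun y : Fin r → ℂ => D.yt p⁻¹ y := by
    unfold yt
    fun_prop
  exact ((isLeft_Lw p⁻¹).diff 1 w).comp h1

theorem Rm_one (y : Fin r → ℂ) (p : D.W) : D.Rm y p 1 = 1 := by
  show Lw p⁻¹ (D.yt p⁻¹ y) 1 1 = 1
  rw [(isLeft_Lw p⁻¹).one, if_pos rfl]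

theorem Rm_homog (x : ℂ) (y : Fin r → ℂ) (p w : D.W) :
    D.Rm (fun i => x * y i) p w = x ^ D.len w * D.Rm y p w := by
  have h1 := (isLeft_Lw p⁻¹).homog x (D.yt p⁻¹ y) 1 w
  rw [len_one, pow_zero, one_mul] at h1
  have h2 : D.yt p⁻¹ (fun i => x * y i) = fun i => x * D.yt p⁻¹ y i := D.yt_smul p⁻¹ x y
  show Lw p⁻¹ (D.yt p⁻¹ fun i => x * y i) 1 w = x ^ D.len w * Lw p⁻¹ (D.yt p⁻¹ y) 1 w
  rw [h2, h1]

theorem Rm_C0 (h y : Fin r → ℂ) :
    D.Rm y * D.C0 h y = Matrix.diagonal (fun p => -D.hv h p y) * D.Rm y := by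
  ext p w
  rw [Matrix.diagonal_mul]
  have h1 := (isLeft_Lw (D := D) p⁻¹).comm0 h (D.yt p⁻¹ y)
  rw [inv_inv, D.yt_yt_inv] at h1
  have h2 := congrFun (congrFun h1 1) w
  have h3 : (D.Rm y * D.C0 h y) p w = (Lw p⁻¹ (D.yt p⁻¹ y) * D.C0 h y) 1 w := rfl
  rw [h3, ← h2, Matrix.mul_apply]
  have h4 : ∀ u, D.C0 h (D.yt p⁻¹ y) 1 u = if u = 1 then -D.hv h p y else 0 := by
    intro u
    unfold C0
    have h5 : D.E0 (D.ch h) 1 u = 0 := by
      show (∑ a ∈ D.Pos, if 1 = u * D.refl a ∧ D.len 1 = D.len u + 1 then D.ch h a else 0) = 0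
      refine Finset.sum_eq_zero fun a _ => if_neg ?_
      rintro ⟨_, h6⟩
      rw [len_one] at h6
      omega
    rw [Matrix.sub_apply, h5, zero_sub]
    by_cases hu : u = 1
    · rw [hu, Matrix.diagonal_apply_eq, if_pos rfl]
      unfold hv
      rw [inv_one]
      simp only [D.yt_one]
    · rw [Matrix.diagonal_apply_ne _ (Ne.symm hu), neg_zero, if_neg hu]
  rw [Finset.sum_congr rfl fun u _ => by rw [h4 u]]
  simp only [ite_mul, zero_mul, Finset.sum_ite_eq', Finset.mem_univ, if_true]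
  rfl

/-- the regular points -/
def Reg (D : RS r) : Set (Fin r → ℂ) := {y | (∀ a ∈ D.Φ, pr a y ≠ 0) ∧
  ∀ p q : D.W, p ≠ q → pr (D.rt p D.tr) y ≠ pr (D.rt q D.tr) y}

private abbrev RmK (D : RS r) : Type :=
  {a : Fin r → ℤ // a ∈ D.Φ} ⊕ {x : D.W × D.W // x.1 ≠ x.2}

private noncomputable def rmA (D : RS r) : RmK D → Fin r → ℤ
  | Sum.inl a => a.1
  | Sum.inr x => D.rt x.1.1 D.tr - D.rt x.1.2 D.tr

private theorem rm_xi {ξ : Fin r → ℤ} (hξ : ∀ i, 0 < ξ i)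
    (hi : Function.Injective fun w : D.W => dotProduct ξ (D.rt w D.tr)) (k : RmK D) :
    ∑ i, rmA D k i * ξ i ≠ 0 := by
  rcases k with ⟨a, ha⟩ | ⟨x, hx⟩
  · show ∑ i, a i * ξ i ≠ 0
    have key : ∀ b ∈ D.Φ, (∀ i, 0 ≤ b i) → 0 < ∑ i, b i * ξ i := by
      intro b hb h0
      refine lt_of_le_of_ne (Finset.sum_nonneg fun i _ => mul_nonneg (h0 i) (hξ i).le) ?_
      intro h1
      apply ne_zero hb
      funext i
      have h2 := (Finset.sum_eq_zero_iff_of_nonneg fun i _ => mul_nonneg (h0 i) (hξ i).le).1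
        h1.symm i (Finset.mem_univ i)
      exact (mul_eq_zero.1 h2).resolve_right (hξ i).ne'
    rcases D.sign a ha with h | h
    · exact (key a ha h).ne'
    · have h1 := key (-a) (neg_mem ha) fun i => by
        rw [Pi.neg_apply]
        have := h i
        omega
      have h2 : ∑ i, (-a) i * ξ i = -∑ i, a i * ξ i := by
        rw [← Finset.sum_neg_distrib]
        exact Finset.sum_congr rfl fun i _ => by rw [Pi.neg_apply, neg_mul]
      rw [h2] at h1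
      omega
  · show ∑ i, (D.rt x.1 D.tr - D.rt x.2 D.tr) i * ξ i ≠ 0
    have h1 : ∑ i, (D.rt x.1 D.tr - D.rt x.2 D.tr) i * ξ i =
        dotProduct ξ (D.rt x.1 D.tr) - dotProduct ξ (D.rt x.2 D.tr) := by
      unfold dotProduct
      rw [← Finset.sum_sub_distrib]
      exact Finset.sum_congr rfl fun i _ => by
        rw [Pi.sub_apply]
        ring
    rw [h1]
    intro h2
    exact hx (hi (sub_eq_zero.1 h2))

private theorem rm_pr (a b : Fin r → ℤ) (y : Fin r → ℂ) : pr (a - b) y = pr a y - pr b y := by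
  unfold pr
  rw [← Finset.sum_sub_distrib]
  exact Finset.sum_congr rfl fun i _ => by
    rw [Pi.sub_apply]
    push_cast
    ring

theorem dense_reg (D : RS r) : Dense D.Reg := by
  obtain ⟨ξ, hξ, hi⟩ := exists_xi D
  intro y
  have h1 := Pool.Agent.DSTJ.Spec.dense_hyp (rmA D) (fun _ => (0 : ℂ)) ξ (rm_xi hξ hi) y
  refine closure_mono ?_ h1
  intro y' hy'
  refine ⟨fun a ha => hy' (Sum.inl ⟨a, ha⟩), fun p q hpq h2 => ?_⟩
  refine hy' (Sum.inr ⟨(p, q), hpq⟩) ?_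
  show pr (D.rt p D.tr - D.rt q D.tr) y' = 0
  rw [rm_pr, h2, sub_self]

theorem dense_SG (D : RS r) : Dense {y | D.SG y} := by
  obtain ⟨ξ, hξ, hi⟩ := exists_xi D
  intro y
  have h1 := Pool.Agent.DSTJ.Spec.dense_hyp (K := RmK D × ℤ) (fun k => rmA D k.1)
    (fun k => (k.2 : ℂ)) ξ (fun k => rm_xi hξ hi k.1) y
  refine closure_mono ?_ h1
  intro y' hy'
  refine ⟨fun a ha n => hy' (Sum.inl ⟨a, ha⟩, n), fun p q hpq n h2 => ?_⟩
  refine hy' (Sum.inr ⟨(p, q), hpq⟩, n) ?_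
  show pr (D.rt p D.tr - D.rt q D.tr) y' = n
  rw [rm_pr, h2]

end Pool.Agent.FLG.RS
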