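import Pool.Agent.FLG.Rtri

/-!
# FLG-Pair: the equivariant Poincaré pairing

`Pg y = Π M_{w₀}(w₀ y)` with `Π u v = 1` iff `u = w₀ v`.
-/

set_option autoImplicit false

open scoped BigOperators
open Pool.Agent.DST.TE

namespace Pool.Agent.FLG.RS

variable {r : ℕ} {D : RS r}

/-- the equivariant Poincaré pairing of the Schubert classes -/
noncomputable def Pg (D : RS r) (y : Fin r → ℂ) : Matrix D.W D.W ℂ :=
  Matrix.of fun u v => Lw D.w0 (D.yt D.w0 y) (D.w0 * u) v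

private theorem w0_inv' : (D.w0)⁻¹ = D.w0 := inv_eq_of_mul_eq_one_right w0_mul_self

private theorem w0_w0 (u : D.W) : D.w0 * (D.w0 * u) = u := by
  rw [← mul_assoc, w0_mul_self, one_mul]

private theorem yt_w0_w0 (y : Fin r → ℂ) : D.yt D.w0 (D.yt D.w0 y) = y := by
  rw [← D.yt_mul, w0_mul_self, D.yt_one]

private theorem eq_w0_iff {u v : D.W} : D.w0 * u = v ↔ u = D.w0 * v :=
  ⟨fun h => by rw [← h, w0_w0], fun h => by rw [h, w0_w0]⟩

private theorem yt_diff (w : D.W) : Differentiable ℂ fun y : Fin r → ℂ => D.yt w y := by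
  rw [differentiable_pi]
  intro j
  unfold yt
  fun_prop

theorem Pg_diff (u v : D.W) : Differentiable ℂ fun y => D.Pg y u v :=
  ((isLeft_Lw D.w0).diff (D.w0 * u) v).comp (yt_diff D.w0)

theorem Pg_zero (u v : D.W) : D.Pg 0 u v = if u = D.w0 * v then 1 else 0 := by
  unfold Pg
  rw [Matrix.of_apply, D.yt_zero, (isLeft_Lw D.w0).zero, Matrix.one_apply]
  by_cases h : u = D.w0 * v
  · rw [if_pos h, if_pos (eq_w0_iff.2 h)]
  · rw [if_neg h, if_neg (fun h' => h (eq_w0_iff.1 h'))]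

theorem Pg_det (y : Fin r → ℂ) : (D.Pg y).det ≠ 0 := by
  have h1 : D.Pg y = (Lw D.w0 (D.yt D.w0 y)).submatrix (Equiv.mulLeft D.w0) id := rfl
  rw [h1, Matrix.det_permute, (isLeft_Lw D.w0).det, mul_one]
  rcases Int.units_eq_one_or (Equiv.Perm.sign (Equiv.mulLeft D.w0)) with h | h
  · rw [h]
    norm_num
  · rw [h]
    norm_num

theorem Pg_homog (x : ℂ) (y : Fin r → ℂ) (u v : D.W) :
    x ^ D.dm * D.Pg (fun i => x * y i) u v = x ^ (D.len u + D.len v) * D.Pg y u v := by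
  have h1 := (isLeft_Lw D.w0).homog x (D.yt D.w0 y) (D.w0 * u) v
  have h2 : D.yt D.w0 (fun i => x * y i) = fun i => x * D.yt D.w0 y i := D.yt_smul D.w0 x y
  unfold Pg
  rw [Matrix.of_apply, Matrix.of_apply, h2, ← len_w0_mul u, pow_add, pow_add,
    mul_comm (x ^ D.len (D.w0 * u)), mul_assoc, mul_assoc, h1]

private theorem Pg_gen {y : Fin r → ℂ} {X Y : Matrix D.W D.W ℂ}
    (h : X * Lw D.w0 (D.yt D.w0 y) = Lw D.w0 (D.yt D.w0 y) * Y)
    (h' : ∀ u k, X (D.w0 * u) (D.w0 * k) = Y k u) : D.Pg y * Y = Y.transpose * D.Pg y := by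
  ext u v
  have h1 : (D.Pg y * Y) u v = (Lw D.w0 (D.yt D.w0 y) * Y) (D.w0 * u) v := rfl
  rw [h1, ← h, Matrix.mul_apply, Matrix.mul_apply]
  refine (Fintype.sum_equiv (Equiv.mulLeft D.w0) _ _ fun k => ?_).symm
  rw [Matrix.transpose_apply, ← h']
  rfl

private theorem len_w0_iff {u k : D.W} :
    D.len (D.w0 * u) = D.len (D.w0 * k) + 1 ↔ D.len k = D.len u + 1 := by
  have h1 := len_w0_mul u
  have h2 := len_w0_mul k
  constructor
  · intro h
    omega
  · intro h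
    omega

private theorem len_w0_iff' {u k : D.W} (n : ℤ) :
    (D.len (D.w0 * u) : ℤ) + n = D.len (D.w0 * k) + 1 ↔ (D.len k : ℤ) + n = D.len u + 1 := by
  have h1 := len_w0_mul u
  have h2 := len_w0_mul k
  constructor
  · intro h
    omega
  · intro h
    omega

private theorem w0_edge {u k : D.W} {a : Fin r → ℤ} (ha : a ∈ D.Pos) :
    D.w0 * u = D.w0 * k * D.refl a ↔ k = u * D.refl a := by
  constructor
  · intro h
    have h1 : u = k * D.refl a := by
      rw [mul_assoc] at h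
      exact mul_left_cancel h
    rw [h1, mul_assoc, refl_mul_self (mem_of_pos ha), mul_one]
  · intro h
    rw [h, mul_assoc, mul_assoc, refl_mul_self (mem_of_pos ha), mul_one]

private theorem E_w0 (c : (Fin r → ℤ) → ℂ) (t : Fin r → ℂ) (u k : D.W) :
    D.E c t (D.w0 * u) (D.w0 * k) = D.E c t k u := by
  unfold E
  rw [Matrix.of_apply, Matrix.of_apply]
  refine Finset.sum_congr rfl fun a ha => ?_
  simp only [w0_edge ha, len_w0_iff, len_w0_iff']

private theorem E0_w0 (c : (Fin r → ℤ) → ℂ) (u k : D.W) :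
    D.E0 c (D.w0 * u) (D.w0 * k) = D.E0 c k u := by
  unfold E0
  rw [Matrix.of_apply, Matrix.of_apply]
  refine Finset.sum_congr rfl fun a ha => ?_
  simp only [w0_edge ha, len_w0_iff]

private theorem diag_w0 (h y : Fin r → ℂ) (u k : D.W) :
    (Matrix.diagonal fun u => D.hv h u (D.yt D.w0 y)) (D.w0 * u) (D.w0 * k) =
      (Matrix.diagonal fun u => D.hv h u y) k u := by
  by_cases hku : k = u
  · rw [hku, Matrix.diagonal_apply_eq, Matrix.diagonal_apply_eq, hv_mul, w0_inv', yt_w0_w0]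
  · rw [Matrix.diagonal_apply_ne _ hku, Matrix.diagonal_apply_ne]
    exact fun h => hku (mul_left_cancel h).symm

theorem Pg_self (h t y : Fin r → ℂ) :
    D.Pg y * D.Cq h t y = (D.Cq h t y).transpose * D.Pg y := by
  refine Pg_gen (X := D.Cq h t (D.yt D.w0 y)) ?_ fun u k => ?_
  · rw [(isLeft_Lw D.w0).comm, w0_inv', yt_w0_w0]
  · unfold Cq
    rw [Matrix.sub_apply, Matrix.sub_apply, E_w0, diag_w0]

theorem Pg_self0 (h y : Fin r → ℂ) : D.Pg y * D.C0 h y = (D.C0 h y).transpose * D.Pg y := by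
  refine Pg_gen (X := D.C0 h (D.yt D.w0 y)) ?_ fun u k => ?_
  · rw [(isLeft_Lw D.w0).comm0, w0_inv', yt_w0_w0]
  · unfold C0
    rw [Matrix.sub_apply, Matrix.sub_apply, E0_w0, diag_w0]

/-- the roots `b` with `p⁻¹ b < 0` -/
private theorem prod_neg (p : D.W) (y : Fin r → ℂ) :
    ∏ b ∈ D.Φ.filter (fun b => D.rt p⁻¹ b ∉ D.Pos), pr b y =
      ∏ a ∈ D.Pos, (-pr (D.rt p a) y) := by
  symm
  refine Finset.prod_nbij' (fun a => -D.rt p a) (fun b => -D.rt p⁻¹ b) ?_ ?_ ?_ ?_ ?_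
  · intro a ha
    refine Finset.mem_filter.2 ⟨neg_mem (D.rt_mem.2 (mem_of_pos ha)), ?_⟩
    rw [D.rt_neg, D.rt_inv_rt]
    exact neg_not_pos ha
  · intro b hb
    obtain ⟨h1, h2⟩ := Finset.mem_filter.1 hb
    exact (not_pos_iff (D.rt_mem.2 h1)).1 h2
  · intro a _
    rw [D.rt_neg, D.rt_inv_rt, neg_neg]
  · intro b _
    rw [D.rt_neg, D.rt_rt_inv, neg_neg]
  · intro a _
    unfold pr
    rw [← Finset.sum_neg_distrib]
    refine Finset.sum_congr rfl fun i _ => ?_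
    rw [Pi.neg_apply]
    push_cast
    ring

private theorem diag_prod (y : Fin r → ℂ) (p : D.W) :
    D.Rm y p p * D.Rm (D.yt D.w0 y) (D.w0 * p) (D.w0 * p) =
      ∏ a ∈ D.Pos, (-pr (D.rt p a) y) := by
  rw [← prod_neg, Rm_diag, Rm_diag,
    ← Finset.prod_filter_mul_prod_filter_not (D.Φ.filter (fun b => D.rt p⁻¹ b ∉ D.Pos))
      (fun b => b ∈ D.Pos)]
  congr 1
  · refine Finset.prod_congr ?_ fun _ _ => rfl
    ext b
    simp only [Finset.mem_filter]
    constructor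
    · rintro ⟨h1, h2⟩
      exact ⟨⟨mem_of_pos h1, h2⟩, h1⟩
    · rintro ⟨⟨_, h2⟩, h1⟩
      exact ⟨h1, h2⟩
  · refine Finset.prod_nbij' (fun b => D.rt D.w0 b) (fun b => D.rt D.w0 b) ?_ ?_ ?_ ?_ ?_
    · intro b hb
      obtain ⟨h1, h2⟩ := Finset.mem_filter.1 hb
      refine Finset.mem_filter.2 ⟨Finset.mem_filter.2 ⟨D.rt_mem.2 (mem_of_pos h1), ?_⟩, w0_pos h1⟩
      rwa [mul_inv_rev, w0_inv', D.rt_mul] at h2
    · intro b hb
      obtain ⟨h1, h2⟩ := Finset.mem_filter.1 hb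
      obtain ⟨h3, h4⟩ := Finset.mem_filter.1 h1
      refine Finset.mem_filter.2 ⟨?_, ?_⟩
      · have h5 := w0_pos ((not_pos_iff h3).1 h2)
        rw [D.rt_neg] at h5
        exact (pos_or_neg (D.rt_mem.2 h3)).resolve_right h5
      · rw [mul_inv_rev, w0_inv', D.rt_mul, ← D.rt_mul D.w0, w0_mul_self, D.rt_one]
        exact h4
    · intro b _
      rw [← D.rt_mul, w0_mul_self, D.rt_one]
    · intro b _
      rw [← D.rt_mul, w0_mul_self, D.rt_one]
    · intro b _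
      rw [D.pr_yt, w0_inv']

private theorem roots_w0 {y : Fin r → ℂ} (hy : ∀ a ∈ D.Φ, pr a y ≠ 0) :
    ∀ a ∈ D.Φ, pr a (D.yt D.w0 y) ≠ 0 := by
  intro a ha
  rw [D.pr_yt]
  exact hy _ (D.rt_mem.2 ha)

private theorem Pg_eq {y : Fin r → ℂ} (hy : ∀ a ∈ D.Φ, pr a y ≠ 0) (u v : D.W) :
    D.Pg y u v = ∑ p, (D.Rm (D.yt D.w0 y))⁻¹ (D.w0 * u) (D.w0 * p) * D.Rm y p v := by
  have hdet := Rm_det_ne (roots_w0 hy)
  have h1 : D.Rm (D.yt D.w0 y) * Lw D.w0 (D.yt D.w0 y) =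
      (D.Rm y).submatrix (Equiv.mulLeft D.w0) id := by
    ext p k
    rw [Rm_left (isLeft_Lw D.w0), w0_inv', yt_w0_w0]
    rfl
  have h2 : Lw D.w0 (D.yt D.w0 y) =
      (D.Rm (D.yt D.w0 y))⁻¹ * (D.Rm y).submatrix (Equiv.mulLeft D.w0) id := by
    rw [← h1, Matrix.nonsing_inv_mul_cancel_left _ _ (isUnit_iff_ne_zero.2 hdet)]
  have h3 : D.Pg y u v = Lw D.w0 (D.yt D.w0 y) (D.w0 * u) v := rfl
  rw [h3, h2, Matrix.mul_apply]
  refine (Fintype.sum_equiv (Equiv.mulLeft D.w0) _ _ fun k => ?_).symm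
  change _ = (D.Rm (D.yt D.w0 y))⁻¹ (D.w0 * u) (D.w0 * k) * D.Rm y (D.w0 * (D.w0 * k)) v
  rw [w0_w0]

private theorem Pg_loc_reg {y : Fin r → ℂ} (hy : y ∈ D.Reg) (u v : D.W) :
    D.Pg y u v = ∑ p, D.Rm y p u * D.Rm y p v / ∏ a ∈ D.Pos, (-pr (D.rt p a) y) := by
  obtain ⟨hy1, hy2⟩ := hy
  have hdet : IsUnit (D.Rm y).det := isUnit_iff_ne_zero.2 (Rm_det_ne hy1)
  have hdet' : IsUnit (D.Rm y).transpose.det := by rwa [Matrix.det_transpose]
  obtain ⟨X, hX⟩ : ∃ X, X = (D.Rm y).transpose⁻¹ * D.Pg y * (D.Rm y)⁻¹ := ⟨_, rfl⟩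
  have hg : D.Pg y = (D.Rm y).transpose * X * D.Rm y := by
    rw [hX]
    simp only [Matrix.mul_assoc]
    rw [Matrix.nonsing_inv_mul _ hdet, Matrix.mul_one,
      Matrix.mul_nonsing_inv_cancel_left _ _ hdet']
  obtain ⟨Λ, hΛ⟩ : ∃ Λ : Matrix D.W D.W ℂ, Λ = Matrix.diagonal (fun p => -D.hv D.ctr p y) :=
    ⟨_, rfl⟩
  have hC : D.Rm y * D.C0 D.ctr y = Λ * D.Rm y := by
    rw [hΛ]
    exact Rm_C0 D.ctr y
  have hCt : (D.C0 D.ctr y).transpose * (D.Rm y).transpose = (D.Rm y).transpose * Λ := by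
    rw [← Matrix.transpose_mul, hC, Matrix.transpose_mul, hΛ, Matrix.diagonal_transpose]
  have hcomm : X * Λ = Λ * X := by
    have h1 := Pg_self0 (D := D) D.ctr y
    rw [hg] at h1
    have h2 : (D.Rm y).transpose * (X * Λ) * D.Rm y = (D.Rm y).transpose * (Λ * X) * D.Rm y := by
      calc (D.Rm y).transpose * (X * Λ) * D.Rm y
          = (D.Rm y).transpose * X * (Λ * D.Rm y) := by simp only [Matrix.mul_assoc]
        _ = (D.Rm y).transpose * X * D.Rm y * D.C0 D.ctr y := by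
            rw [← hC]
            simp only [Matrix.mul_assoc]
        _ = (D.C0 D.ctr y).transpose * ((D.Rm y).transpose * X * D.Rm y) := h1
        _ = (D.C0 D.ctr y).transpose * (D.Rm y).transpose * (X * D.Rm y) := by
            simp only [Matrix.mul_assoc]
        _ = (D.Rm y).transpose * (Λ * X) * D.Rm y := by
            rw [hCt]
            simp only [Matrix.mul_assoc]
    have h3 := congrArg (fun M => (D.Rm y).transpose⁻¹ * M * (D.Rm y)⁻¹) h2
    simp only [Matrix.mul_assoc] at h3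
    rw [Matrix.mul_nonsing_inv _ hdet, Matrix.mul_one, Matrix.mul_one,
      Matrix.nonsing_inv_mul_cancel_left _ _ hdet',
      Matrix.nonsing_inv_mul_cancel_left _ _ hdet'] at h3
    exact h3
  have hdiag : ∀ p q, p ≠ q → X p q = 0 := by
    intro p q hpq
    have h1 := congrFun (congrFun hcomm p) q
    rw [hΛ, Matrix.mul_diagonal, Matrix.diagonal_mul, hv_ctr, hv_ctr] at h1
    have h2 := hy2 p q hpq
    have h3 : X p q * (pr (D.rt p D.tr) y - pr (D.rt q D.tr) y) = 0 := by linear_combination h1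
    rcases mul_eq_zero.1 h3 with h4 | h4
    · exact h4
    · exact absurd (sub_eq_zero.1 h4) h2
  have hXd : X = Matrix.diagonal fun p => X p p := by
    ext p q
    by_cases hpq : p = q
    · rw [hpq, Matrix.diagonal_apply_eq]
    · rw [Matrix.diagonal_apply_ne _ hpq, hdiag p q hpq]
  have hg' : ∀ u v, D.Pg y u v = ∑ p, D.Rm y p u * X p p * D.Rm y p v := by
    intro u v
    rw [hg, Matrix.mul_apply]
    refine Finset.sum_congr rfl fun p _ => ?_
    rw [hXd, Matrix.mul_diagonal, Matrix.transpose_apply, Matrix.diagonal_apply_eq]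
  have hx : ∀ p, X p p = (∏ a ∈ D.Pos, (-pr (D.rt p a) y))⁻¹ := by
    have h1 : (Matrix.of fun u p => D.Rm y p u * X p p) * D.Rm y =
        (Matrix.of fun u p => (D.Rm (D.yt D.w0 y))⁻¹ (D.w0 * u) (D.w0 * p)) * D.Rm y := by
      ext u v
      rw [Matrix.mul_apply, Matrix.mul_apply]
      exact (hg' u v).symm.trans (Pg_eq hy1 u v)
    have h2 := congrArg (fun M => M * (D.Rm y)⁻¹) h1
    simp only [Matrix.mul_nonsing_inv_cancel_right _ _ hdet] at h2
    intro p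
    have h3 := congrFun (congrFun h2 p) p
    rw [Matrix.of_apply, Matrix.of_apply, Rm_inv_diag (roots_w0 hy1)] at h3
    have h4 : D.Rm y p p * D.Rm (D.yt D.w0 y) (D.w0 * p) (D.w0 * p) ≠ 0 := by
      rw [diag_prod]
      refine Finset.prod_ne_zero_iff.2 fun a ha => ?_
      exact neg_ne_zero.2 (hy1 _ (D.rt_mem.2 (mem_of_pos ha)))
    have h5 := left_ne_zero_of_mul h4
    rw [← diag_prod, mul_inv, ← h3, ← mul_assoc, inv_mul_cancel₀ h5, one_mul]
  rw [hg']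
  refine Finset.sum_congr rfl fun p _ => ?_
  rw [hx]
  ring

/-- Atiyah–Bott localisation -/
theorem Pg_loc {y : Fin r → ℂ} (hy : ∀ a ∈ D.Φ, pr a y ≠ 0) (u v : D.W) :
    D.Pg y u v = ∑ p, D.Rm y p u * D.Rm y p v / ∏ a ∈ D.Pos, (-pr (D.rt p a) y) := by
  have h1 : ContinuousAt (fun y => D.Pg y u v) y := (Pg_diff u v).continuous.continuousAt
  have h2 : ContinuousAt (fun y => ∑ p, D.Rm y p u * D.Rm y p v /
      ∏ a ∈ D.Pos, (-pr (D.rt p a) y)) y := by
    refine tendsto_finsetSum _ fun p _ => ?_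
    refine ContinuousAt.div ?_ ?_ ?_
    · exact ((Rm_diff p u).continuous.mul (Rm_diff p v).continuous).continuousAt
    · exact (continuous_finsetProd _ fun a _ => (continuous_pr _).neg).continuousAt
    · refine Finset.prod_ne_zero_iff.2 fun a ha => ?_
      exact neg_ne_zero.2 (hy _ (D.rt_mem.2 (mem_of_pos ha)))
  refine tendsto_nhds_unique_of_frequently_eq h1 h2 ?_
  have h3 := mem_closure_iff_frequently.1 (dense_reg D y)
  exact h3.mono fun z hz => Pg_loc_reg hz u v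

theorem Pg_symm (y : Fin r → ℂ) : (D.Pg y).transpose = D.Pg y := by
  ext u v
  rw [Matrix.transpose_apply]
  have h1 : ContinuousAt (fun y => D.Pg y u v) y := (Pg_diff u v).continuous.continuousAt
  have h2 : ContinuousAt (fun y => D.Pg y v u) y := (Pg_diff v u).continuous.continuousAt
  refine tendsto_nhds_unique_of_frequently_eq h2 h1 ?_
  have h3 := mem_closure_iff_frequently.1 (dense_reg D y)
  refine h3.mono fun z hz => ?_
  rw [Pg_loc_reg hz, Pg_loc_reg hz]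
  refine Finset.sum_congr rfl fun p _ => ?_
  rw [mul_comm (D.Rm z p v)]

/-- `R⁻¹ = g⁻¹ Rᵀ d` -/
theorem Rm_inv {y : Fin r → ℂ} (hy : ∀ a ∈ D.Φ, pr a y ≠ 0) (u p : D.W) :
    (D.Rm y)⁻¹ u p = ∑ v, (D.Pg y)⁻¹ u v * (D.Rm y p v / ∏ a ∈ D.Pos, (-pr (D.rt p a) y)) := by
  have hdet : IsUnit (D.Rm y).det := isUnit_iff_ne_zero.2 (Rm_det_ne hy)
  have hdg : IsUnit (D.Pg y).det := isUnit_iff_ne_zero.2 (Pg_det y)
  obtain ⟨Z, hZ⟩ : ∃ Z : Matrix D.W D.W ℂ,
      Z = Matrix.of fun v p => D.Rm y p v / ∏ a ∈ D.Pos, (-pr (D.rt p a) y) := ⟨_, rfl⟩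
  have h1 : D.Pg y = Z * D.Rm y := by
    ext u v
    rw [Pg_loc hy, Matrix.mul_apply]
    refine Finset.sum_congr rfl fun p _ => ?_
    rw [hZ, Matrix.of_apply]
    ring
  have h2 : (D.Rm y)⁻¹ = (D.Pg y)⁻¹ * Z := by
    have h3 : D.Pg y * (D.Rm y)⁻¹ = Z := by
      rw [h1, Matrix.mul_nonsing_inv_cancel_right _ _ hdet]
    rw [← h3, Matrix.nonsing_inv_mul_cancel_left _ _ hdg]
  rw [h2, Matrix.mul_apply, hZ]
  rfl

end Pool.Agent.FLG.RS
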