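import Pool.Agent.FLG.Good
import Pool.Agent.FLG.Ode
import Pool.Agent.FLG.GamI

/-!
# FLG-PhiM: the elements of length zero are good

PLAN. `M = (-1)^(dotProduct ν tr) • Mτ x ν t`, constant, determinant nonzero (a permutation matrix with nonzero weights: e.g. it has the left inverse with the entries `if u = x * w then (qq t (yt u⁻¹ ν))⁻¹` transposed). `inter_FF` with `inter_Mτ`, `Inter.smul` gives `h`.
The entry `u = x v`: `(M FF(y')) (x v) v = ± q^{(x v)⁻¹ν} FF(y') s v v`. Multiply by `e^{-s th (x v)} e^{-s pr (rt (x v) tr) y}`: `pr (rt v tr) y' = pr (rt (x v) tr) y + dotProduct ν (rt (x v) tr)` (`pr_xi`) and `th (x v) = th v + dotProduct ν (rt (x v) tr)` (`IsTau.len`), so the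
exponents cancel and `FF_lim` gives `± q^{..} (Rm y')⁻¹ v v = h (Rm y)⁻¹ (x v) (x v)`; `Rm_inv_diag`. With `gam_M` this is `h * gam t v y' = gam t (x v) y`.
-/

set_option autoImplicit false

open scoped BigOperators Topology
open Filter
open Pool.Agent.DST.TE Pool.Agent.DSTJ

namespace Pool.Agent.FLG.RS

variable {r : ℕ} {D : RS r} {N : ℕ} (n : D.Num N) (t : Fin r → ℂ)

private theorem sg_ne' {y : Fin r → ℂ} (hy : D.SG y) : ∀ a ∈ D.Φ, pr a y ≠ 0 := fun a ha => by
  have := hy.1 a ha 0
  simpa using this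

private theorem Mτ_det (x : D.W) (ν : Fin r → ℤ) : (D.Mτ x ν t).det ≠ 0 := by
  have h1 : (Matrix.of fun u w => if w = x * u then (qq t (D.yt w⁻¹ ν))⁻¹ else 0 :
      Matrix D.W D.W ℂ) * D.Mτ x ν t = 1 := by
    ext u v
    rw [Matrix.mul_apply, Matrix.one_apply]
    simp only [Matrix.of_apply, Mτ]
    rw [Finset.sum_eq_single (x * u)]
    · by_cases h : u = v
      · subst h
        rw [if_pos rfl, if_pos rfl, if_pos rfl]
        exact inv_mul_cancel₀ (qq_ne_zero _ _)
      · rw [if_neg h, if_neg fun h' => h (mul_left_cancel h'), mul_zero]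
    · intro w _ hw
      rw [if_neg hw, zero_mul]
    · intro h
      exact absurd (Finset.mem_univ _) h
  intro h2
  have h3 := congrArg Matrix.det h1
  rw [Matrix.det_mul, h2, mul_zero, Matrix.det_one] at h3
  exact zero_ne_one h3

theorem good_τ {x : D.W} {ν : Fin r → ℤ} (h : D.IsTau x ν) : Good n t x ν := by
  set c : ℂ := (-1) ^ (dotProduct ν D.tr) with hc
  have hc0 : c ≠ 0 := zpow_ne_zero _ (by norm_num)
  refine ⟨fun _ _ => c • D.Mτ x ν t, fun u v => contDiff_const, fun _ _ => ?_, ?_⟩
  · rw [Matrix.det_smul]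
    exact mul_ne_zero (pow_ne_zero _ hc0) (Mτ_det t x ν)
  · intro y hy s u v
    have hy' : D.SG (D.xi x ν y) := sg_xi hy _ _
    obtain ⟨k, hk'⟩ := inter_FF n t ((inter_Mτ t h).smul c) hy v
    have hk : ∀ s u, (c • D.Mτ x ν t * FF n t (D.xi x ν y) s) u v =
        k * FF n t y s u (x * v) := hk'
    show (c • D.Mτ x ν t * FF n t (D.xi x ν y) s) u v * _ = _
    rw [hk s u]
    suffices h1 : k * D.gam t v (D.xi x ν y) = D.gam t (x * v) y by
      rw [← h1]; ring
    have hRv : D.Rm (D.xi x ν y) v v ≠ 0 := by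
      rw [Rm_diag]
      exact Finset.prod_ne_zero_iff.2 fun b hb =>
        sg_ne' hy' b (mem_of_pos (Finset.mem_filter.1 hb).1)
    have hRx : D.Rm y (x * v) (x * v) ≠ 0 := by
      rw [Rm_diag]
      exact Finset.prod_ne_zero_iff.2 fun b hb =>
        sg_ne' hy b (mem_of_pos (Finset.mem_filter.1 hb).1)
    have hentry : ∀ s, (c • D.Mτ x ν t * FF n t (D.xi x ν y) s) (x * v) v =
        c * qq t (D.yt (x * v)⁻¹ ν) * FF n t (D.xi x ν y) s v v := by
      intro s
      rw [Matrix.smul_mul, Matrix.smul_apply, Matrix.mul_apply, Finset.sum_eq_single v]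
      · simp only [Mτ, Matrix.of_apply, smul_eq_mul]
        rw [if_pos trivial]
        ring
      · intro w _ hw
        simp only [Mτ, Matrix.of_apply]
        rw [if_neg fun h' => hw (mul_left_cancel h').symm, zero_mul]
      · intro h'
        exact absurd (Finset.mem_univ _) h'
    have ha : Tendsto (fun s : ℝ => Complex.exp (-s * D.th (x * v)) *
        Complex.exp (-s * pr (D.rt (x * v) D.tr) y) * (k * FF n t y s (x * v) (x * v))) atTop
        (𝓝 (k * (D.Rm y)⁻¹ (x * v) (x * v))) := by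
      have := (FF_lim n t hy (x * v) (x * v)).const_mul k
      refine this.congr fun s => ?_
      ring
    have hb : Tendsto (fun s : ℝ => c * qq t (D.yt (x * v)⁻¹ ν) *
        (Complex.exp (-s * D.th v) * Complex.exp (-s * pr (D.rt v D.tr) (D.xi x ν y)) *
          FF n t (D.xi x ν y) s v v)) atTop
        (𝓝 (c * qq t (D.yt (x * v)⁻¹ ν) * (D.Rm (D.xi x ν y))⁻¹ v v)) :=
      (FF_lim n t hy' v v).const_mul _
    have hab : ∀ s : ℝ, Complex.exp (-s * D.th (x * v)) *
        Complex.exp (-s * pr (D.rt (x * v) D.tr) y) * (k * FF n t y s (x * v) (x * v)) =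
        c * qq t (D.yt (x * v)⁻¹ ν) *
        (Complex.exp (-s * D.th v) * Complex.exp (-s * pr (D.rt v D.tr) (D.xi x ν y)) *
          FF n t (D.xi x ν y) s v v) := by
      intro s
      rw [← hk s (x * v), hentry s]
      have h1 : Complex.exp (-s * D.th (x * v)) * Complex.exp (-s * pr (D.rt (x * v) D.tr) y) =
          Complex.exp (-s * D.th v) * Complex.exp (-s * pr (D.rt v D.tr) (D.xi x ν y)) := by
        rw [← Complex.exp_add, ← Complex.exp_add]
        congr 1
        rw [pr_xi, ← rt_mul]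
        have h2 : (D.len (x * v) : ℂ) =
            D.len v - ((dotProduct ν (D.rt (x * v) D.tr) : ℤ) : ℂ) := by
          exact_mod_cast congrArg (Int.cast (R := ℂ)) (h.len v)
        unfold th
        rw [h2]
        ring
      rw [h1]
      ring
    have h1 := tendsto_nhds_unique ha (hb.congr fun s => (hab s).symm)
    rw [Rm_inv_diag (sg_ne' hy), Rm_inv_diag (sg_ne' hy')] at h1
    have h2 := gam_M t h v hy
    rw [← hc] at h2
    have h3 : k * D.Rm (D.xi x ν y) v v =
        c * qq t (D.yt (x * v)⁻¹ ν) * D.Rm y (x * v) (x * v) := by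
      field_simp at h1
      linear_combination h1
    have h4 : D.Rm (D.xi x ν y) v v * (k * D.gam t v (D.xi x ν y)) =
        D.Rm (D.xi x ν y) v v * D.gam t (x * v) y := by
      rw [← h2, ← h3]
      ring
    exact mul_left_cancel₀ hRv h4

end Pool.Agent.FLG.RS
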