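import Pool.Agent.FLG.Good
import Pool.Agent.FLG.Ode
import Pool.Agent.FLG.Pair

/-!
# FLG-PhiS: the simple reflections are good

PLAN. `M = Ms i` (polynomial; determinant `1` by `IsLeft.simple`). `gam t v (s_i y) = gam t (s_i v) y`: `xi (s i) 0 y = yt (s i) y` (`s_inv`), `hv_mul`, `pr_rt`. So it suffices to show `h = 1` in `inter_FF` (`inter_Ms`).
`M (y e^s) u k = e^{s (th u - th k)} M y u k` (`IsLeft.homog` or directly). Multiply the relation by `e^{-s th u} e^{-s c}`, `c = pr (rt (s i * v) tr) y = pr (rt v tr) (xi (s i) 0 y)`, take `u = s i * v` and `s → +∞` (`FF_lim` for both sides):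
`∑_k M y u k * (Rm (s_i y))⁻¹ k v = h * (Rm y)⁻¹ u (s i * v)`. By `Rm_left` (`Rm y * M y = ` row permutation of `Rm (s_i y)`) the left side is `(Rm y)⁻¹ u (s i * v)`, nonzero for `u = s i * v` (`Rm_inv_diag`, `Rm_diag`).
-/

set_option autoImplicit false

open scoped BigOperators Topology
open Filter
open Pool.Agent.DST.TE Pool.Agent.DSTJ

namespace Pool.Agent.FLG.RS

variable {r : ℕ} {D : RS r} {N : ℕ} (n : D.Num N) (t : Fin r → ℂ)

private theorem xi_s (i : Fin r) (y : Fin r → ℂ) : D.xi (D.s i) 0 y = D.yt (D.s i)⁻¹ y := by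
  have h0 : (cc (0 : Fin r → ℤ) : Fin r → ℂ) = 0 := by
    funext j
    simp [cc]
  unfold xi
  rw [h0, add_zero]

private theorem sg_ne {y : Fin r → ℂ} (hy : D.SG y) : ∀ a ∈ D.Φ, pr a y ≠ 0 := fun a ha => by
  have := hy.1 a ha 0
  simpa using this

private theorem gam_s (i : Fin r) (v : D.W) (y : Fin r → ℂ) :
    D.gam t v (D.xi (D.s i) 0 y) = D.gam t (D.s i * v) y := by
  unfold gam
  congr 1
  · rw [hv_mul, xi_s]
  · refine Finset.prod_congr rfl fun a _ => ?_
    rw [pr_xi, zero_dotProduct, rt_mul]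
    simp

/-- the relation between the restriction matrices -/
private theorem key {i : Fin r} {y : Fin r → ℂ} (hy : ∀ a ∈ D.Φ, pr a y ≠ 0)
    (hy' : ∀ a ∈ D.Φ, pr a (D.yt (D.s i)⁻¹ y) ≠ 0) (u v : D.W) :
    ((1 - pr (al i) y • D.A i) * (D.Rm (D.yt (D.s i)⁻¹ y))⁻¹) u v =
      (D.Rm y)⁻¹ u (D.s i * v) := by
  have h1 : IsUnit (D.Rm y).det := isUnit_iff_ne_zero.2 (Rm_det_ne hy)
  have h2 : IsUnit (D.Rm (D.yt (D.s i)⁻¹ y)).det := isUnit_iff_ne_zero.2 (Rm_det_ne hy')
  have h3 : ∀ p, (D.Rm y * ((1 - pr (al i) y • D.A i) * (D.Rm (D.yt (D.s i)⁻¹ y))⁻¹)) p v =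
      if p = D.s i * v then 1 else 0 := by
    intro p
    rw [← Matrix.mul_assoc, Matrix.mul_apply]
    have h4 : ∀ k, (D.Rm y * (1 - pr (al i) y • D.A i)) p k =
        D.Rm (D.yt (D.s i)⁻¹ y) ((D.s i)⁻¹ * p) k := fun k => Rm_left (IsLeft.simple i) y p k
    simp only [h4]
    rw [← Matrix.mul_apply, Matrix.mul_nonsing_inv _ h2, Matrix.one_apply]
    refine if_congr ?_ rfl rfl
    exact inv_mul_eq_iff_eq_mul
  have h5 : (1 - pr (al i) y • D.A i) * (D.Rm (D.yt (D.s i)⁻¹ y))⁻¹ = (D.Rm y)⁻¹ *
      (D.Rm y * ((1 - pr (al i) y • D.A i) * (D.Rm (D.yt (D.s i)⁻¹ y))⁻¹)) := by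
    rw [← Matrix.mul_assoc (D.Rm y)⁻¹, Matrix.nonsing_inv_mul _ h1, Matrix.one_mul]
  rw [h5, Matrix.mul_apply]
  simp only [h3]
  simp

theorem good_s (i : Fin r) : Good n t (D.s i) 0 := by
  have hL := IsLeft.simple (D := D) i
  refine ⟨D.Ms i, ?_, ?_, ?_⟩
  · intro u v
    have h1 : (fun q : (Fin r → ℂ) × ℂ => D.Ms i q.1 q.2 u v) =
        fun q : (Fin r → ℂ) × ℂ => (1 : Matrix D.W D.W ℂ) u v - pr (al i) q.1 * D.A i u v := by
      funext q
      simp [Ms, Matrix.sub_apply, Matrix.smul_apply]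
    rw [h1]
    unfold pr
    fun_prop
  · intro y z
    show (1 - pr (al i) y • D.A i).det ≠ 0
    rw [hL.det]
    exact one_ne_zero
  · intro y hy
    have hy' : D.SG (D.xi (D.s i) 0 y) := sg_xi hy _ _
    have hc : ∀ v, pr (D.rt v D.tr) (D.xi (D.s i) 0 y) = pr (D.rt (D.s i * v) D.tr) y := by
      intro v
      rw [pr_xi, zero_dotProduct, rt_mul]
      simp
    have hmain : ∀ v, ∀ s u, (D.Ms i (fun i => y i * Complex.exp s) (Complex.exp s) *
        FF n t (D.xi (D.s i) 0 y) s) u v = FF n t y s u (D.s i * v) := by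
      intro v
      obtain ⟨h, hh⟩ := inter_FF n t (inter_Ms t i) hy v
      suffices h1 : h = 1 by
        intro s u
        rw [hh s u, h1, one_mul]
      set u := D.s i * v with hu
      have ha : Tendsto (fun s : ℝ => Complex.exp (-s * D.th u) *
          Complex.exp (-s * pr (D.rt u D.tr) y) * (h * FF n t y s u u)) atTop
          (𝓝 (h * (D.Rm y)⁻¹ u u)) := by
        have := (FF_lim n t hy u u).const_mul h
        refine this.congr fun s => ?_
        ring
      have hb : Tendsto (fun s : ℝ => ∑ k, (1 - pr (al i) y • D.A i) u k *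
          (Complex.exp (-s * D.th k) * Complex.exp (-s * pr (D.rt v D.tr) (D.xi (D.s i) 0 y)) *
            FF n t (D.xi (D.s i) 0 y) s k v)) atTop
          (𝓝 (∑ k, (1 - pr (al i) y • D.A i) u k * (D.Rm (D.xi (D.s i) 0 y))⁻¹ k v)) :=
        tendsto_finsetSum _ fun k _ => (FF_lim n t hy' k v).const_mul _
      have hab : ∀ s : ℝ, Complex.exp (-s * D.th u) *
          Complex.exp (-s * pr (D.rt u D.tr) y) * (h * FF n t y s u u) =
          ∑ k, (1 - pr (al i) y • D.A i) u k *
          (Complex.exp (-s * D.th k) * Complex.exp (-s * pr (D.rt v D.tr) (D.xi (D.s i) 0 y)) *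
            FF n t (D.xi (D.s i) 0 y) s k v) := by
        intro s
        have h1 := hh s u
        rw [← h1, Matrix.mul_apply, Finset.mul_sum]
        refine Finset.sum_congr rfl fun k _ => ?_
        rw [hc v]
        have h2 := hL.homog (Complex.exp s) y u k
        have h3 : D.Ms i (fun i => y i * Complex.exp s) (Complex.exp s) u k =
            (1 - pr (al i) (fun i => Complex.exp s * y i) • D.A i) u k := by
          unfold Ms
          have : (fun i => y i * Complex.exp s) = fun i => Complex.exp s * y i := by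
            funext j; ring
          rw [this]
        rw [h3]
        have h4 : Complex.exp (-s * D.th u) *
            (1 - pr (al i) (fun i => Complex.exp s * y i) • D.A i) u k =
            Complex.exp (-s * D.th k) * (1 - pr (al i) y • D.A i) u k := by
          have h5 : Complex.exp (-s * D.th u) =
              Complex.exp (-s * ((D.dm : ℂ) / 2)) * Complex.exp s ^ D.len u := by
            rw [← Complex.exp_nat_mul, ← Complex.exp_add]
            congr 1
            unfold th
            ring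
          have h6 : Complex.exp (-s * D.th k) =
              Complex.exp (-s * ((D.dm : ℂ) / 2)) * Complex.exp s ^ D.len k := by
            rw [← Complex.exp_nat_mul, ← Complex.exp_add]
            congr 1
            unfold th
            ring
          rw [h5, h6, mul_assoc, h2, mul_assoc]
        rw [show Complex.exp (-s * D.th u) * Complex.exp (-s * pr (D.rt u D.tr) y) *
          ((1 - pr (al i) (fun i => Complex.exp s * y i) • D.A i) u k *
            FF n t (D.xi (D.s i) 0 y) s k v) = (Complex.exp (-s * D.th u) *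
            (1 - pr (al i) (fun i => Complex.exp s * y i) • D.A i) u k) *
            (Complex.exp (-s * pr (D.rt u D.tr) y) * FF n t (D.xi (D.s i) 0 y) s k v) by ring, h4]
        ring
      have h1 : h * (D.Rm y)⁻¹ u u =
          ∑ k, (1 - pr (al i) y • D.A i) u k * (D.Rm (D.xi (D.s i) 0 y))⁻¹ k v :=
        tendsto_nhds_unique ha (hb.congr fun s => (hab s).symm)
      rw [← Matrix.mul_apply, xi_s, key (sg_ne hy) (by rw [← xi_s]; exact sg_ne hy')] at h1
      have h2 : (D.Rm y)⁻¹ u u ≠ 0 := by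
        rw [Rm_inv_diag (sg_ne hy), Rm_diag]
        refine inv_ne_zero (Finset.prod_ne_zero_iff.2 fun b hb => ?_)
        exact sg_ne hy b (mem_of_pos (Finset.mem_filter.1 hb).1)
      rw [← hu] at h1
      exact mul_right_cancel₀ h2 (by rw [h1, one_mul])
    intro s u v
    rw [hmain v s u, gam_s]

end Pool.Agent.FLG.RS
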