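import Pool.Agent.FLG.Good
import Pool.Agent.FLG.Ode
import Pool.Agent.FLG.GamT

/-!
# FLG-PhiT: the affine reflections are good

PLAN. `M = Mθ t b`, `A = Aθ b t`, `A * A = 0` (`(s_b w)⁻¹ b = -w⁻¹ b`), determinant: `M y z * M y' z = 1` where `y' = s_b y - z co b` (`z + pr b y' = -(z + pr b y)`), so `det ≠ 0`. `inter_FF` with `inter_Mθ` gives `h_v(y)` for every `v` and every `SG` point `y`.
CASE `rt v⁻¹ b ∈ Pos`, `u = s_b v`: `A u k ≠ 0` only for `k = v`, so `(M FF(y')) u v = FF(y') s u v + e^s (1 + pr b y) q^{-co (v⁻¹ b)} FF(y') s v v`, `y' = xi (refl b) (co b) y`. Multiply by `e^{-s th u} e^{-s pr (rt u tr) y}`: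
`pr (rt v tr) y' = pr (rt u tr) y + dotProduct (co b) (rt u tr)` (`pr_xi`), `κ := dotProduct (co b) (rt v tr) = -dotProduct (co b) (rt u tr) > 0` (it is `L (rt v⁻¹ b)`), `len u = len v + κ - 1` (`IsMax.len`). First term: `e^{-sκ} * (bounded) → 0` (`FF_lim` for the entry `(u, v)`).
Second term: `e^{s (1 + th v - th u - κ)} = 1`, tends to `(1 + pr b y) q^{..} (Rm y')⁻¹ v v`. So `h_v(y) (Rm y)⁻¹ u u = (1 + pr b y) q^{..} (Rm y')⁻¹ v v`; with `Rm_inv_diag` and `gam_θ`: `h_v(y) * gam t v y' = gam t (s_b v) y`.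
CASE `rt v⁻¹ b ∉ Pos`: `v = s_b v'` with `v' = s_b v`, `rt v'⁻¹ b ∈ Pos`. The first case for `v'` at the point `y'` (`xi (refl b) (co b) y' = y`): `M(y') FF(y) v' * gam v' y = FF(y') v * gam v y'`; multiply by `M(y)` from the left, `M(y) M(y') = 1` (at `λ = y e^s`): the relation for `v`.
-/

set_option autoImplicit false

open scoped BigOperators Topology
open Filter
open Pool.Agent.DST.TE Pool.Agent.DSTJ

namespace Pool.Agent.FLG.RS

section

variable {r : ℕ} {D : RS r} (t : Fin r → ℂ)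

private theorem pt_flag {b : Fin r → ℤ} (hb : b ∈ D.Φ) (v : D.W) :
    D.rt (D.refl b * v)⁻¹ b = -D.rt v⁻¹ b := by
  rw [mul_inv_rev, refl_inv hb, D.rt_mul, rt_refl_self hb, D.rt_neg]

private theorem pt_sq {b : Fin r → ℤ} (hb : b ∈ D.Φ) : D.Aθ b t * D.Aθ b t = 0 := by
  ext u w
  rw [Matrix.mul_apply, Matrix.zero_apply]
  refine Finset.sum_eq_zero fun v _ => ?_
  unfold Aθ
  rw [Matrix.of_apply, Matrix.of_apply]
  by_cases h1 : v = D.refl b * w ∧ D.rt w⁻¹ b ∈ D.Pos
  · obtain ⟨h2, h3⟩ := h1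
    rw [if_neg, zero_mul]
    rintro ⟨-, h4⟩
    rw [h2, pt_flag hb] at h4
    exact neg_not_pos h3 h4
  · rw [if_neg h1, mul_zero]

private theorem pt_mul {b : Fin r → ℤ} (hb : b ∈ D.Φ) {y y' : Fin r → ℂ} {z z' : ℂ}
    (h : (z + pr b y) + (z' + pr b y') = 0) : D.Mθ t b y z * D.Mθ t b y' z' = 1 := by
  unfold Mθ
  rw [mul_add, mul_one, add_mul, one_mul, smul_mul_smul_comm, pt_sq t hb, smul_zero, add_zero,
    add_assoc, ← add_smul, h, zero_smul, add_zero]

private theorem pt_det {b : Fin r → ℤ} (hb : b ∈ D.Φ) (y : Fin r → ℂ) (z : ℂ) :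
    (D.Mθ t b y z).det ≠ 0 := by
  have h1 : D.Mθ t b y z * D.Mθ t b y (-z - 2 * pr b y) = 1 := pt_mul t hb (by ring)
  have h2 := congrArg Matrix.det h1
  rw [Matrix.det_mul, Matrix.det_one] at h2
  exact left_ne_zero_of_mul_eq_one h2

private theorem pt_cd (b : Fin r → ℤ) (u v : D.W) :
    ContDiff ℂ 1 fun q : (Fin r → ℂ) × ℂ => D.Mθ t b q.1 q.2 u v := by
  simp only [Mθ, Matrix.add_apply, Matrix.smul_apply, smul_eq_mul, pr]
  fun_prop

private theorem pt_xi_xi {b : Fin r → ℤ} (hb : b ∈ D.Φ) (y : Fin r → ℂ) :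
    D.xi (D.refl b) (D.co b) (D.xi (D.refl b) (D.co b) y) = y := by
  unfold xi
  rw [refl_inv hb, D.yt_add, ← D.yt_mul, refl_mul_self hb, D.yt_one, D.yt_cc, ← co_rt_eq _ hb,
    rt_refl_self hb, co_neg hb]
  funext i
  simp [cc]

private theorem pt_dot {b : Fin r → ℤ} (hb : b ∈ D.Φ) (x : Fin r → ℤ) :
    dotProduct (D.co b) (D.rt (D.refl b) x) = -dotProduct (D.co b) x := by
  rw [rt_refl hb, dotProduct_sub, dotProduct_smul, D.co_self b hb, smul_eq_mul]
  ring

private theorem pt_exp {κ : ℤ} (hκ : 2 ≤ κ) :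
    Tendsto (fun s : ℝ => Complex.exp (-(s : ℂ) * κ)) atTop (𝓝 0) := by
  rw [tendsto_zero_iff_norm_tendsto_zero]
  have h1 : (fun s : ℝ => ‖Complex.exp (-(s : ℂ) * κ)‖) = fun s : ℝ => Real.exp (-(s * κ)) := by
    funext s
    rw [Complex.norm_exp]
    congr 1
    have h2 : (-(s : ℂ) * κ) = ((-(s * κ) : ℝ) : ℂ) := by push_cast; ring
    rw [h2, Complex.ofReal_re]
  rw [h1]
  refine Real.tendsto_exp_neg_atTop_nhds_zero.comp ?_
  refine tendsto_id.atTop_mul_const ?_
  have h3 : (2 : ℝ) ≤ κ := by exact_mod_cast hκ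
  linarith

end

variable {r : ℕ} {D : RS r} {N : ℕ} (n : D.Num N) (t : Fin r → ℂ)

private theorem pt_case {b : Fin r → ℤ} (hb : D.IsMax b) {v : D.W} (hv : D.rt v⁻¹ b ∈ D.Pos)
    {y : Fin r → ℂ} (hy : D.SG y) (s : ℂ) (u : D.W) :
    (D.Mθ t b (fun i => y i * Complex.exp s) (Complex.exp s) *
      FF n t (D.xi (D.refl b) (D.co b) y) s) u v * D.gam t v (D.xi (D.refl b) (D.co b) y) =
      FF n t y s u (D.refl b * v) * D.gam t (D.refl b * v) y := by
  have hbΦ := hb.mem
  have hy' := sg_xi hy (D.refl b) (D.co b)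
  obtain ⟨y', hy'd⟩ : ∃ y', y' = D.xi (D.refl b) (D.co b) y := ⟨_, rfl⟩
  obtain ⟨h, hh⟩ := inter_FF n t (inter_Mθ t hb) hy v
  obtain ⟨κ, hκ⟩ : ∃ κ : ℤ, κ = dotProduct (D.co b) (D.rt v D.tr) := ⟨_, rfl⟩
  have hgam := gam_θ t hb v hv hy
  rw [← hy'd] at hy' hh hgam ⊢
  have hκ2 : 2 ≤ κ := by
    have h1 := two_le_L hv
    unfold L at h1
    rw [co_rt _ hbΦ, inv_inv] at h1
    rw [hκ]
    exact h1
  -- exponents
  have hpr : pr (D.rt (D.refl b * v) D.tr) y = pr (D.rt v D.tr) y' + κ := by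
    rw [hy'd, pr_xi, ← D.rt_mul, D.rt_mul (D.refl b) v, pt_dot hbΦ, ← hκ]
    push_cast
    ring
  have hth : D.th (D.refl b * v) = D.th v - κ + 1 := by
    unfold th
    have h1 := hb.len v
    rw [if_pos hv, ← hκ] at h1
    have h2 : ((D.len (D.refl b * v) : ℤ) : ℂ) = ((D.len v + κ - 1 : ℤ) : ℂ) := by rw [h1]
    push_cast at h2
    rw [h2]
    ring
  -- the entry
  have hent : ∀ s : ℂ, h * FF n t y s (D.refl b * v) (D.refl b * v) =
      FF n t y' s (D.refl b * v) v + Complex.exp s * (1 + pr b y) *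
        (qq t (-D.co (D.rt v⁻¹ b)) * FF n t y' s v v) := by
    intro s
    rw [← hh s (D.refl b * v)]
    unfold Mθ
    rw [add_mul, one_mul, Matrix.add_apply, Matrix.smul_mul, Matrix.smul_apply, smul_eq_mul]
    congr 1
    have h1 : (D.Aθ b t * FF n t y' s) (D.refl b * v) v =
        qq t (-D.co (D.rt v⁻¹ b)) * FF n t y' s v v := by
      rw [Matrix.mul_apply, Finset.sum_eq_single v]
      · congr 1
        unfold Aθ
        rw [Matrix.of_apply, if_pos ⟨rfl, hv⟩]
      · intro k _ hk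
        unfold Aθ
        rw [Matrix.of_apply, if_neg, zero_mul]
        rintro ⟨h2, -⟩
        exact hk (mul_left_cancel h2).symm
      · intro h2
        exact absurd (Finset.mem_univ _) h2
    rw [h1]
    congr 1
    have h2 : pr b (fun i => y i * Complex.exp s) = pr b y * Complex.exp s := by
      unfold pr
      rw [Finset.sum_mul]
      exact Finset.sum_congr rfl fun i _ => by ring
    rw [h2]
    ring
  -- the limit
  have hL := (FF_lim n t hy (D.refl b * v) (D.refl b * v)).const_mul h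
  have hR1 := (pt_exp hκ2).mul (FF_lim n t hy' (D.refl b * v) v)
  have hR2 := (FF_lim n t hy' v v).const_mul ((1 + pr b y) * qq t (-D.co (D.rt v⁻¹ b)))
  have hR := hR1.add hR2
  have heq : ∀ s : ℝ, h * (Complex.exp (-s * D.th (D.refl b * v)) *
      Complex.exp (-s * pr (D.rt (D.refl b * v) D.tr) y) *
        FF n t y s (D.refl b * v) (D.refl b * v)) =
      Complex.exp (-(s : ℂ) * κ) * (Complex.exp (-s * D.th (D.refl b * v)) *
        Complex.exp (-s * pr (D.rt v D.tr) y') * FF n t y' s (D.refl b * v) v) +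
      (1 + pr b y) * qq t (-D.co (D.rt v⁻¹ b)) * (Complex.exp (-s * D.th v) *
        Complex.exp (-s * pr (D.rt v D.tr) y') * FF n t y' s v v) := by
    intro s
    have e1 : Complex.exp (-(s : ℂ) * pr (D.rt (D.refl b * v) D.tr) y) =
        Complex.exp (-(s : ℂ) * κ) * Complex.exp (-s * pr (D.rt v D.tr) y') := by
      rw [hpr, ← Complex.exp_add]
      congr 1
      ring
    have e2 : Complex.exp (-(s : ℂ) * D.th (D.refl b * v)) * Complex.exp (-(s : ℂ) * κ) *
        Complex.exp s = Complex.exp (-s * D.th v) := by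
      rw [hth, ← Complex.exp_add, ← Complex.exp_add]
      congr 1
      ring
    have e3 := hent s
    rw [e1, ← e2]
    linear_combination Complex.exp (-(s : ℂ) * D.th (D.refl b * v)) *
      (Complex.exp (-(s : ℂ) * κ) * Complex.exp (-s * pr (D.rt v D.tr) y')) * e3
  have hlim : h * (D.Rm y)⁻¹ (D.refl b * v) (D.refl b * v) =
      (1 + pr b y) * qq t (-D.co (D.rt v⁻¹ b)) * (D.Rm y')⁻¹ v v := by
    have h1 := tendsto_nhds_unique (hL.congr heq) hR
    rw [h1, zero_mul, zero_add]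
  have hne : ∀ {y : Fin r → ℂ}, D.SG y → ∀ a ∈ D.Φ, pr a y ≠ 0 := by
    intro y hy a ha
    have h6 := hy.1 a ha 0
    rwa [Int.cast_zero] at h6
  have hRne : ∀ {y : Fin r → ℂ}, D.SG y → ∀ p : D.W, D.Rm y p p ≠ 0 := by
    intro y hy p
    rw [Rm_diag]
    refine Finset.prod_ne_zero_iff.2 fun a ha => hne hy a ?_
    exact mem_of_pos (Finset.mem_filter.1 ha).1
  rw [Rm_inv_diag (hne hy), Rm_inv_diag (hne hy')] at hlim
  have h1 := hRne hy (D.refl b * v)
  have h2 := hRne hy' v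
  have h3 : h * D.Rm y' v v = (1 + pr b y) * qq t (-D.co (D.rt v⁻¹ b)) *
      D.Rm y (D.refl b * v) (D.refl b * v) := by
    field_simp at hlim
    linear_combination hlim
  have h4 : h * D.gam t v y' = D.gam t (D.refl b * v) y := by
    apply mul_left_cancel₀ h2
    rw [← hgam]
    linear_combination D.gam t v y' * h3
  rw [hh s u, ← h4]
  ring

theorem good_θ {b : Fin r → ℤ} (hb : D.IsMax b) : Good n t (D.refl b) (D.co b) := by
  have hbΦ := hb.mem
  refine ⟨D.Mθ t b, fun u v => pt_cd t b u v, fun y z => pt_det t hbΦ y z, fun y hy s u v => ?_⟩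
  by_cases hv : D.rt v⁻¹ b ∈ D.Pos
  · exact pt_case n t hb hv hy s u
  · have hΦ : D.rt v⁻¹ b ∈ D.Φ := D.rt_mem.2 hbΦ
    have hv' : D.rt (D.refl b * v)⁻¹ b ∈ D.Pos := by
      rw [pt_flag hbΦ]
      exact (not_pos_iff hΦ).1 hv
    have hy' := sg_xi hy (D.refl b) (D.co b)
    have h1 := fun k => pt_case n t hb hv' hy' s k
    rw [pt_xi_xi hbΦ, ← mul_assoc, refl_mul_self hbΦ, one_mul] at h1
    have h2 : D.Mθ t b (fun i => y i * Complex.exp s) (Complex.exp s) *
        D.Mθ t b (fun i => D.xi (D.refl b) (D.co b) y i * Complex.exp s) (Complex.exp s) = 1 := by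
      refine pt_mul t hbΦ ?_
      have h3 : ∀ y : Fin r → ℂ, pr b (fun i => y i * Complex.exp s) = pr b y * Complex.exp s := by
        intro y
        unfold pr
        rw [Finset.sum_mul]
        exact Finset.sum_congr rfl fun i _ => by ring
      rw [h3, h3, pr_xi, rt_refl_self hbΦ, dotProduct_neg, D.co_self b hbΦ]
      have h4 : pr (-b) y = -pr b y := by
        simp [pr]
      rw [h4]
      push_cast
      ring
    have h3 : (D.Mθ t b (fun i => y i * Complex.exp s) (Complex.exp s) *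
        FF n t (D.xi (D.refl b) (D.co b) y) s) u v * D.gam t v (D.xi (D.refl b) (D.co b) y) =
        (D.Mθ t b (fun i => y i * Complex.exp s) (Complex.exp s) *
          (D.Mθ t b (fun i => D.xi (D.refl b) (D.co b) y i * Complex.exp s) (Complex.exp s) *
            FF n t y s)) u (D.refl b * v) * D.gam t (D.refl b * v) y := by
      rw [Matrix.mul_apply, Matrix.mul_apply (M := D.Mθ t b (fun i => y i * Complex.exp s) (Complex.exp s)), Finset.sum_mul, Finset.sum_mul]
      refine Finset.sum_congr rfl fun k _ => ?_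
      rw [mul_assoc, mul_assoc, h1 k]
    rw [h3, ← Matrix.mul_assoc, h2, Matrix.one_mul]

end Pool.Agent.FLG.RS
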