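import Mathlib

/-!
# Project FLAG: reduced crystallographic root systems with a base, in coordinates

Elements of the root lattice are vectors `a : Fin r → ℤ` (coordinates in the simple roots), elements
of the dual lattice (the coweight lattice) are vectors `μ : Fin r → ℤ`, `⟨a, μ⟩ = μ ⬝ᵥ a`. Points of the
Lie algebra of the (adjoint) torus are vectors `y : Fin r → ℂ`, `y_j = α_j(y)`.
-/

set_option autoImplicit false

open scoped BigOperators

namespace Pool.Agent.FLG

/-- A reduced crystallographic root system of rank `r` with a base `α_1, …, α_r` and its Weyl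
group. -/
structure RS (r : ℕ) where
  /-- the Weyl group -/
  W : Type
  [grp : Group W]
  [fin : Fintype W]
  [dec : DecidableEq W]
  /-- the roots, in coordinates with respect to the simple roots -/
  Φ : Finset (Fin r → ℤ)
  /-- the coroots: `co a j = ⟨α_j, a^∨⟩` -/
  co : (Fin r → ℤ) → Fin r → ℤ
  /-- the coordinates of the coroot `a^∨` with respect to the simple coroots -/
  cof : (Fin r → ℤ) → Fin r → ℤ
  /-- the action of the Weyl group on the root lattice -/
  act : W →* Matrix (Fin r) (Fin r) ℤ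
  act_inj : Function.Injective act
  act_mem : ∀ w, ∀ a ∈ Φ, (act w).mulVec a ∈ Φ
  /-- the reflections -/
  refl : (Fin r → ℤ) → W
  act_refl : ∀ a ∈ Φ, ∀ b, (act (refl a)).mulVec b = b - dotProduct (co a) b • a
  co_self : ∀ a ∈ Φ, dotProduct (co a) a = 2
  co_act : ∀ w, ∀ a ∈ Φ, ∀ b,
    dotProduct (co ((act w).mulVec a)) ((act w).mulVec b) = dotProduct (co a) b
  co_cof : ∀ a ∈ Φ, co a = ∑ i, cof a i • co (Pi.single i 1)
  simple : ∀ i, Pi.single i 1 ∈ Φ
  gen : Subgroup.closure (Set.range fun i => refl (Pi.single i 1)) = ⊤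
  sign : ∀ a ∈ Φ, (∀ i, 0 ≤ a i) ∨ ∀ i, a i ≤ 0
  reduced : ∀ a ∈ Φ, ∀ b ∈ Φ, ∀ m n : ℤ, m ≠ 0 → m • a = n • b → a = b ∨ a = -b
  rank2 : ∀ a ∈ Φ, ∀ b ∈ Φ, a ≠ b → a ≠ -b →
    (dotProduct (co a) b = 0 ∧ dotProduct (co b) a = 0) ∨
    (1 ≤ dotProduct (co a) b ∧ 1 ≤ dotProduct (co b) a ∧
      (dotProduct (co a) b = 1 ∨ dotProduct (co b) a = 1)) ∨
    (dotProduct (co a) b ≤ -1 ∧ dotProduct (co b) a ≤ -1 ∧
      (dotProduct (co a) b = -1 ∨ dotProduct (co b) a = -1))

attribute [instance] RS.grp RS.fin RS.dec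

namespace RS

variable {r : ℕ} (D : RS r)

/-- the action of `w` on the root lattice -/
def rt (w : D.W) (a : Fin r → ℤ) : Fin r → ℤ := (D.act w).mulVec a

/-- the contragredient action of `w` on `Fin r → R` (coweights for `R = ℤ`, points of the Lie algebra
for `R = ℂ`) -/
def yt {R : Type*} [CommRing R] (w : D.W) (y : Fin r → R) : Fin r → R :=
  fun j => ∑ i, ((D.act w⁻¹ i j : ℤ) : R) * y i

/-- the positive roots -/
def Pos : Finset (Fin r → ℤ) := D.Φ.filter fun a => ∀ i, 0 ≤ a i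

/-- the simple roots -/
def al (i : Fin r) : Fin r → ℤ := Pi.single i 1

/-- the simple reflections -/
def s (i : Fin r) : D.W := D.refl (al i)

/-- `2ρ` -/
def tr : Fin r → ℤ := ∑ a ∈ D.Pos, a

/-- the length -/
def len (w : D.W) : ℕ := (D.Pos.filter fun a => D.rt w a ∉ D.Pos).card

/-- the dimension of the flag variety -/
def dm : ℕ := D.Pos.card

/-- `⟨2ρ, a^∨⟩` -/
def L (a : Fin r → ℤ) : ℤ := dotProduct (D.co a) D.tr

/-- the maximal elements of the root poset -/
def IsMax (a : Fin r → ℤ) : Prop := a ∈ D.Pos ∧ ∀ b ∈ D.Φ, (∀ i, a i ≤ b i) → b = a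

/-- the element `t_ν w` of the extended affine Weyl group has length `0` -/
def IsTau (w : D.W) (ν : Fin r → ℤ) : Prop := ∀ b ∈ D.Φ,
  (if D.rt w⁻¹ b ∈ D.Pos then 0 else 1 : ℤ) = (if b ∈ D.Pos then 0 else 1) + dotProduct ν b

/-- `e^{⟨t, μ⟩}` -/
noncomputable def qq (t : Fin r → ℂ) (μ : Fin r → ℤ) : ℂ := Complex.exp (∑ i, t i * (μ i : ℂ))

/-- The Bruhat part of the quantum Chevalley operator with labels `c a` (`c a = ⟨h, a^∨⟩` for the
divisor class `h`, `c a = L a` for `c_1 = 2ρ`). -/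
noncomputable def E0 (c : (Fin r → ℤ) → ℂ) : Matrix D.W D.W ℂ := Matrix.of fun u w =>
  ∑ a ∈ D.Pos, if u = w * D.refl a ∧ D.len u = D.len w + 1 then c a else 0

/-- The quantum part in which the curve classes have degree `c_1 = k`. -/
noncomputable def Eq (c : (Fin r → ℤ) → ℂ) (t : Fin r → ℂ) (k : ℤ) : Matrix D.W D.W ℂ :=
  Matrix.of fun u w => ∑ a ∈ D.Pos,
    if u = w * D.refl a ∧ (D.len u : ℤ) + D.L a = D.len w + 1 ∧ D.L a = k then
      c a * qq t (D.co a) else 0

/-- The quantum Chevalley operator with labels `c a`, at `t = ∑ t_j α_j ∈ H^2`. -/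
noncomputable def E (c : (Fin r → ℤ) → ℂ) (t : Fin r → ℂ) : Matrix D.W D.W ℂ :=
  Matrix.of fun u w => ∑ a ∈ D.Pos, if u = w * D.refl a then c a *
    ((if D.len u = D.len w + 1 then 1 else 0) +
      (if (D.len u : ℤ) + D.L a = D.len w + 1 then qq t (D.co a) else 0)) else 0

/-- the labels of `c_1 = 2ρ` -/
def cL (a : Fin r → ℤ) : ℂ := (D.L a : ℂ)

/-- the labels of the divisor class `h = ∑ h_j α_j` -/
noncomputable def ch (h : Fin r → ℂ) (a : Fin r → ℤ) : ℂ := ∑ j, h j * (D.co a j : ℂ)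

/-- The quantum product with the equivariant class `c_1 = 2ρ`. -/
noncomputable def CC (t y : Fin r → ℂ) : Matrix D.W D.W ℂ :=
  D.E D.cL t - Matrix.diagonal fun w => ∑ i, ((D.rt w D.tr i : ℤ) : ℂ) * y i

/-- the left divided difference operators -/
noncomputable def A (i : Fin r) : Matrix D.W D.W ℂ := Matrix.of fun u w =>
  if u = D.s i * w ∧ D.len u < D.len w then 1 else 0

/-- the affine left divided difference operators -/
noncomputable def Aθ (b : Fin r → ℤ) (t : Fin r → ℂ) : Matrix D.W D.W ℂ := Matrix.of fun u w =>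
  if u = D.refl b * w ∧ D.rt w⁻¹ b ∈ D.Pos then qq t (-D.co (D.rt w⁻¹ b)) else 0

/-- the operators of the elements of length `0` -/
noncomputable def Mτ (x : D.W) (ν : Fin r → ℤ) (t : Fin r → ℂ) : Matrix D.W D.W ℂ :=
  Matrix.of fun u w => if u = x * w then qq t (D.yt u⁻¹ ν) else 0

end RS

end Pool.Agent.FLG
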