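import Pool.Agent.FLG.PhiS
import Pool.Agent.FLG.PhiT
import Pool.Agent.FLG.PhiM
import Pool.Agent.DSTJ.DetAll

/-!
# FLG-ShiftF: the shift operators
-/

set_option autoImplicit false

open scoped BigOperators Topology
open Filter
open Pool.Agent.DST.TE Pool.Agent.DSTJ

namespace Pool.Agent.FLG.RS

variable {r : ℕ} {D : RS r} {N : ℕ} (n : D.Num N) (t : Fin r → ℂ)

theorem good_all (ν : Fin r → ℤ) : Good n t 1 ν :=
  generation (fun w ν => Good n t w ν) (good_one n t) (fun _ _ _ _ h h' => good_mul n t h h')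
    (good_s n t) (fun _ h => good_θ n t h) (fun _ _ h => good_τ n t h) ν

private theorem xi_one (μ : Fin r → ℤ) (y : Fin r → ℂ) : D.xi 1 (-μ) y = y - cc μ := by
  unfold xi
  rw [inv_one, D.yt_one]
  funext i
  simp [cc, sub_eq_add_neg]

private theorem J0_FF {y : Fin r → ℂ} (hy : D.SG y) (G : (Fin r → ℂ) → Matrix (Fin N) (Fin N) ℂ)
    (s : ℂ) : (toBase n t).J0 G y s =
      (FF n t y s).submatrix n.e n.e * ((toBase n t).R y * G y) := by
  have hR : ((toBase n t).R y).det ≠ 0 :=
    base_R_det n y fun a h => hy.1 a.1 a.2 0 (by rw [h]; simp)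
  rw [(toBase n t).J0_EE hR, ← Matrix.mul_assoc]
  congr 1
  ext i j
  simp [FF]

/-- The shift operators, for solutions `J0 G` with `R G = (e^{πi c_1} gam) B`, `B` periodic. -/
theorem exists_shift (μ : Fin r → ℤ) :
    ∃ S : (Fin r → ℂ) → ℂ → Matrix (Fin N) (Fin N) ℂ,
      (∀ i j, ContDiff ℂ 1 fun q : (Fin r → ℂ) × ℂ => S q.1 q.2 i j) ∧
      (∀ y z, (S y z).det ≠ 0) ∧
      ∀ (G B : (Fin r → ℂ) → Matrix (Fin N) (Fin N) ℂ),
        (∀ y, (toBase n t).W2 y → ∀ i j, DifferentiableAt ℂ (fun y => G y i j) y) →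
        (∀ y, (toBase n t).W1 y → B (y - cc μ) = B y) →
        (∀ y, (toBase n t).W1 y → (toBase n t).R y * G y = Matrix.diagonal (fun p =>
          Complex.exp (Real.pi * Complex.I * pr (-D.rt (n.e p) D.tr) y) *
            D.gam t (n.e p) y) * B y) →
        ∀ y, (toBase n t).W1 y → (toBase n t).NR y → (toBase n t).NR (y - cc μ) → ∀ s,
          (toBase n t).J0 G y s = S (fun i => y i * Complex.exp s) (Complex.exp s) *
            (toBase n t).J0 G (y - cc μ) s := by
  obtain ⟨M, hM1, hM2, hM3⟩ := good_all n t (-μ)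
  obtain ⟨c, hc⟩ : ∃ c : ℂ, c = (-1) ^ (dotProduct μ D.tr) := ⟨_, rfl⟩
  have hcc : c * c = 1 := by
    rw [hc, ← zpow_add₀ (by norm_num : (-1 : ℂ) ≠ 0)]
    exact Even.neg_one_zpow ⟨_, rfl⟩
  have hc0 : c ≠ 0 := by
    intro h
    rw [h, mul_zero] at hcc
    exact zero_ne_one hcc
  refine ⟨fun y z => c • (M y z).submatrix n.e n.e, fun i j => ?_, fun y z => ?_, ?_⟩
  · have h1 : (fun q : (Fin r → ℂ) × ℂ => (c • (M q.1 q.2).submatrix n.e n.e) i j) =
        fun q => c * M q.1 q.2 (n.e i) (n.e j) := by
      funext q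
      rw [Matrix.smul_apply, Matrix.submatrix_apply, smul_eq_mul]
    rw [h1]
    exact contDiff_const.mul (hM1 _ _)
  · rw [Matrix.det_smul, Matrix.det_submatrix_equiv_self]
    exact mul_ne_zero (pow_ne_zero _ hc0) (hM2 _ _)
  · intro G B hG hB hRG
    have hSG : ∀ y, D.SG y → ∀ s, (toBase n t).J0 G y s =
        (c • (M (fun i => y i * Complex.exp s) (Complex.exp s)).submatrix n.e n.e) *
          (toBase n t).J0 G (y - cc μ) s := by
      intro y hy s
      have hy' : D.SG (y - cc μ) := by
        rw [← xi_one]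
        exact sg_xi hy _ _
      rw [J0_FF n t hy, J0_FF n t hy', hRG y (sg_w1 n t hy), hRG _ (sg_w1 n t hy'),
        hB y (sg_w1 n t hy), ← Matrix.mul_assoc, ← Matrix.mul_assoc, ← Matrix.mul_assoc]
      congr 1
      ext i p
      rw [Matrix.mul_diagonal, Matrix.mul_diagonal, Matrix.submatrix_apply, Matrix.smul_mul,
        Matrix.smul_apply, Matrix.submatrix_mul_equiv, Matrix.submatrix_apply, smul_eq_mul]
      have h1 := hM3 y hy s (n.e i) (n.e p)
      rw [one_mul, xi_one] at h1
      have h2 : Complex.exp (Real.pi * Complex.I * pr (-D.rt (n.e p) D.tr) (y - cc μ)) =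
          Complex.exp (Real.pi * Complex.I * pr (-D.rt (n.e p) D.tr) y) * c := by
        rw [hc, ← parity μ (n.e p), pr_sub, ← Complex.exp_pi_mul_I, ← Complex.exp_int_mul,
          ← Complex.exp_add, pr_cc]
        congr 1
        have h3 : (∑ i, (-D.rt (n.e p) D.tr) i * μ i : ℤ) =
            -dotProduct μ (D.rt (n.e p) D.tr) := by
          unfold dotProduct
          rw [← Finset.sum_neg_distrib]
          exact Finset.sum_congr rfl fun i _ => by
            rw [Pi.neg_apply]
            ring
        rw [h3]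
        push_cast
        ring
      rw [h2]
      linear_combination (-Complex.exp (Real.pi * Complex.I * pr (-D.rt (n.e p) D.tr) y)) * h1 -
        Complex.exp (Real.pi * Complex.I * pr (-D.rt (n.e p) D.tr) y) *
          (M (fun i => y i * Complex.exp s) (Complex.exp s) * FF n t (y - cc μ) s) (n.e i) (n.e p) *
            D.gam t (n.e p) (y - cc μ) * hcc
    intro y hy hn hn' s
    have hw2 : (toBase n t).W2 y := fun k m _ => hy k m
    have hw2' : (toBase n t).W2 (y - cc μ) := by
      intro k m _ h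
      rw [pr_sub, pr_cc] at h
      refine hy k (m + ∑ i, (toBase n t).wt k i * μ i) ?_
      push_cast
      push_cast at h
      rw [← h]
      ring
    ext i j
    have hcont : ∀ i, ContinuousAt (fun y => (toBase n t).J0 G y s i j) y := by
      intro i
      have h1 := ((toBase n t).J0_diff hn (hG y hw2) s i j).continuousAt
      have h2 : ContinuousAt (fun y : Fin r → ℂ => (y, s)) y := by fun_prop
      exact ContinuousAt.comp (f := fun y : Fin r → ℂ => (y, s))
        (g := fun q : (Fin r → ℂ) × ℂ => (toBase n t).J0 G q.1 q.2 i j) h1 h2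
    have hcont' : ∀ i, ContinuousAt (fun y => (toBase n t).J0 G (y - cc μ) s i j) y := by
      intro i
      have h1 := ((toBase n t).J0_diff hn' (hG _ hw2') s i j).continuousAt
      have h2 : ContinuousAt (fun y : Fin r → ℂ => (y - cc μ, s)) y := by fun_prop
      exact ContinuousAt.comp (f := fun y : Fin r → ℂ => (y - cc μ, s))
        (g := fun q : (Fin r → ℂ) × ℂ => (toBase n t).J0 G q.1 q.2 i j) h1 h2
    have hright : ContinuousAt (fun y => ∑ k, c * M (fun i => y i * Complex.exp s)
        (Complex.exp s) (n.e i) (n.e k) * (toBase n t).J0 G (y - cc μ) s k j) y := by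
      refine tendsto_finsetSum _ fun k _ => ?_
      refine ContinuousAt.mul ?_ (hcont' k)
      have h1 : Continuous fun y : Fin r → ℂ => c * M (fun i => y i * Complex.exp s)
          (Complex.exp s) (n.e i) (n.e k) := by
        refine continuous_const.mul ?_
        exact (hM1 (n.e i) (n.e k)).continuous.comp (f := fun y : Fin r → ℂ =>
          ((fun i => y i * Complex.exp s, Complex.exp s) : (Fin r → ℂ) × ℂ)) (by fun_prop)
      exact h1.continuousAt
    have hne : (𝓝[{y | D.SG y}] y).NeBot := mem_closure_iff_nhdsWithin_neBot.1 (dense_SG D y)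
    have h1 : (toBase n t).J0 G y s i j = ∑ k, c * M (fun i => y i * Complex.exp s)
        (Complex.exp s) (n.e i) (n.e k) * (toBase n t).J0 G (y - cc μ) s k j := by
      refine tendsto_nhds_unique_of_eventuallyEq (l := 𝓝[{y | D.SG y}] y)
        ((hcont i).tendsto.mono_left nhdsWithin_le_nhds)
        (hright.tendsto.mono_left nhdsWithin_le_nhds) ?_
      filter_upwards [self_mem_nhdsWithin] with y' hy'
      rw [hSG y' hy' s, Matrix.mul_apply]
      exact Finset.sum_congr rfl fun k _ => by
        rw [Matrix.smul_apply, Matrix.submatrix_apply, smul_eq_mul]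
    rw [h1, Matrix.mul_apply]
    rfl

end Pool.Agent.FLG.RS
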