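import Pool.Agent.FLG.Basic

/-!
# FLG-Simple: simple reflections, the invariant form, conjugacy to simple roots
-/

set_option autoImplicit false

open scoped BigOperators

namespace Pool.Agent.FLG.RS

variable {r : ℕ} {D : RS r}

theorem rt_s_al (i : Fin r) : D.rt (D.s i) (al i) = -al i := rt_refl_self (D.al_mem i)

theorem s_mul_self (i : Fin r) : D.s i * D.s i = 1 := refl_mul_self (D.al_mem i)

theorem s_inv (i : Fin r) : (D.s i)⁻¹ = D.s i := refl_inv (D.al_mem i)

private theorem al_same (i : Fin r) : (al i : Fin r → ℤ) i = 1 := by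
  simp [al]

private theorem al_ne {i j : Fin r} (h : j ≠ i) : (al i : Fin r → ℤ) j = 0 := by
  simp [al, h]

private theorem s_s (i : Fin r) (a : Fin r → ℤ) : D.rt (D.s i) (D.rt (D.s i) a) = a := by
  rw [← D.rt_mul, s_mul_self, D.rt_one]

private theorem rt_s (i : Fin r) (a : Fin r → ℤ) :
    D.rt (D.s i) a = a - dotProduct (D.co (al i)) a • al i := rt_refl (D.al_mem i) a

theorem s_perm (i : Fin r) {a : Fin r → ℤ} (ha : a ∈ D.Pos) (h : a ≠ al i) :
    D.rt (D.s i) a ∈ D.Pos ∧ D.rt (D.s i) a ≠ al i := by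
  constructor
  · rcases pos_or_neg (D.rt_mem.2 (mem_of_pos ha) : D.rt (D.s i) a ∈ D.Φ) with h1 | h1
    · exact h1
    · exfalso
      have h2 : ∀ j, j ≠ i → a j = 0 := by
        intro j hj
        have h3 := (mem_Pos.1 h1).2 j
        have h4 := (mem_Pos.1 ha).2 j
        rw [rt_s, Pi.neg_apply, Pi.sub_apply, Pi.smul_apply, al_ne hj, smul_zero, sub_zero] at h3
        omega
      have h3 : (1 : ℤ) • a = a i • al i := by
        funext j
        rw [one_smul, Pi.smul_apply, smul_eq_mul]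
        by_cases hj : j = i
        · rw [hj, al_same, mul_one]
        · rw [h2 j hj, al_ne hj, mul_zero]
      rcases D.reduced a (mem_of_pos ha) (al i) (D.al_mem i) 1 _ one_ne_zero h3 with h4 | h4
      · exact h h4
      · rw [h4] at ha
        exact neg_not_pos (al_pos D i) ha
  · intro h1
    have h2 : a = -al i := by
      rw [← s_s (D := D) i a, h1, rt_s_al]
    rw [h2] at ha
    exact neg_not_pos (al_pos D i) ha

theorem rt_s_tr (i : Fin r) : D.rt (D.s i) D.tr = D.tr - (2 : ℤ) • al i := by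
  classical
  have h1 : ∑ a ∈ D.Pos.erase (al i), D.rt (D.s i) a = ∑ a ∈ D.Pos.erase (al i), a := by
    apply Finset.sum_nbij (D.rt (D.s i))
    · intro a ha
      obtain ⟨h2, h3⟩ := Finset.mem_erase.1 ha
      obtain ⟨h4, h5⟩ := s_perm i h3 h2
      exact Finset.mem_erase.2 ⟨h5, h4⟩
    · intro a _ b _ h
      exact D.rt_inj _ h
    · intro b hb
      obtain ⟨h2, h3⟩ := Finset.mem_erase.1 (Finset.mem_coe.1 hb)
      obtain ⟨h4, h5⟩ := s_perm i h3 h2
      exact ⟨D.rt (D.s i) b, Finset.mem_coe.2 (Finset.mem_erase.2 ⟨h5, h4⟩), s_s i b⟩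
    · intro a _
      rfl
  have h2 : D.tr = al i + ∑ a ∈ D.Pos.erase (al i), a := by
    unfold tr
    rw [Finset.add_sum_erase D.Pos (fun a => a) (al_pos D i)]
  rw [h2, D.rt_add, D.rt_sum, h1, rt_s_al, two_smul]
  abel

theorem L_al (i : Fin r) : D.L (al i) = 2 := by
  have h1 := congrFun ((rt_s (D := D) i D.tr).symm.trans (rt_s_tr i)) i
  rw [Pi.sub_apply, Pi.sub_apply, Pi.smul_apply, Pi.smul_apply, al_same, smul_eq_mul, smul_eq_mul,
    mul_one, mul_one] at h1
  unfold L
  omega

/-- an invariant form on the root lattice -/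
def form (D : RS r) (x y : Fin r → ℤ) : ℤ :=
  ∑ b ∈ D.Φ, dotProduct (D.co b) x * dotProduct (D.co b) y

theorem form_rt (w : D.W) (x y : Fin r → ℤ) : D.form (D.rt w x) (D.rt w y) = D.form x y := by
  unfold form
  symm
  apply Finset.sum_nbij (D.rt w)
  · intro b hb
    exact D.rt_mem.2 hb
  · intro a _ b _ h
    exact D.rt_inj _ h
  · intro b hb
    exact ⟨D.rt w⁻¹ b, Finset.mem_coe.2 (D.rt_mem.2 (Finset.mem_coe.1 hb)), D.rt_rt_inv w b⟩
  · intro b hb
    rw [co_rt w hb, co_rt w hb, D.rt_inv_rt, D.rt_inv_rt]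

private theorem form_sub (x y z : Fin r → ℤ) (c : ℤ) :
    D.form (x - c • y) z = D.form x z - c * D.form y z := by
  unfold form
  rw [Finset.mul_sum, ← Finset.sum_sub_distrib]
  refine Finset.sum_congr rfl fun b _ => ?_
  rw [dotProduct_sub, dotProduct_smul, smul_eq_mul]
  ring

private theorem form_neg (x y : Fin r → ℤ) : D.form x (-y) = -D.form x y := by
  unfold form
  rw [← Finset.sum_neg_distrib]
  refine Finset.sum_congr rfl fun b _ => ?_
  rw [dotProduct_neg]
  ring

private theorem form_expand (x a : Fin r → ℤ) : D.form x a = ∑ i, a i * D.form x (al i) := by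
  unfold form
  simp only [Finset.mul_sum]
  rw [Finset.sum_comm]
  refine Finset.sum_congr rfl fun b _ => ?_
  have h1 : dotProduct (D.co b) a = ∑ i, D.co b i * a i := rfl
  rw [h1, Finset.mul_sum]
  refine Finset.sum_congr rfl fun i _ => ?_
  rw [dot_al]
  ring

theorem form_co {b : Fin r → ℤ} (hb : b ∈ D.Φ) (x : Fin r → ℤ) :
    2 * D.form x b = dotProduct (D.co b) x * D.form b b := by
  have h1 := form_rt (D := D) (D.refl b) x b
  rw [rt_refl hb x, rt_refl_self hb, form_neg, form_sub] at h1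
  linarith

theorem form_pos {b : Fin r → ℤ} (hb : b ∈ D.Φ) : 4 ≤ D.form b b := by
  have h1 : dotProduct (D.co b) b * dotProduct (D.co b) b ≤ D.form b b :=
    Finset.single_le_sum (f := fun c => dotProduct (D.co c) b * dotProduct (D.co c) b)
      (fun c _ => mul_self_nonneg _) hb
  rw [D.co_self b hb] at h1
  linarith

theorem exists_simple_pos {a : Fin r → ℤ} (ha : a ∈ D.Pos) :
    ∃ i, 0 < a i ∧ 0 < dotProduct (D.co (al i)) a := by
  by_contra h
  push Not at h
  have h1 := form_pos (mem_of_pos ha)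
  have h2 : 2 * D.form a a ≤ 0 := by
    rw [form_expand a a, Finset.mul_sum]
    refine Finset.sum_nonpos fun i _ => ?_
    have h3 := form_co (D.al_mem i) a
    have h4 := form_pos (D.al_mem i)
    have h5 : 2 * (a i * D.form a (al i)) =
        a i * (dotProduct (D.co (al i)) a * D.form (al i) (al i)) := by
      rw [← h3]
      ring
    rw [h5]
    rcases lt_or_eq_of_le ((mem_Pos.1 ha).2 i) with h6 | h6
    · exact mul_nonpos_of_nonneg_of_nonpos h6.le
        (mul_nonpos_of_nonpos_of_nonneg (h i h6) (by linarith))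
    · rw [← h6, zero_mul]
  linarith

private theorem exists_al_pos : ∀ (n : ℕ) (a : Fin r → ℤ), a ∈ D.Pos → (∑ i, a i).toNat = n →
    ∃ (w : D.W) (i : Fin r), D.rt w (al i) = a := by
  intro n
  induction n using Nat.strong_induction_on with
  | _ n ih =>
    intro a ha hn
    obtain ⟨i, h1, h2⟩ := exists_simple_pos ha
    by_cases h3 : a = al i
    · exact ⟨1, i, by rw [D.rt_one, h3]⟩
    · obtain ⟨h4, -⟩ := s_perm i ha h3
      have h5 : ∑ j, D.rt (D.s i) a j = ∑ j, a j - dotProduct (D.co (al i)) a := by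
        rw [rt_s]
        simp only [Pi.sub_apply, Pi.smul_apply, Finset.sum_sub_distrib, smul_eq_mul]
        rw [← Finset.mul_sum]
        have h6 : ∑ j, (al i : Fin r → ℤ) j = 1 := by
          unfold al
          rw [Finset.sum_pi_single']
          simp
        rw [h6, mul_one]
      have h6 : 0 ≤ ∑ j, D.rt (D.s i) a j := Finset.sum_nonneg fun j _ => (mem_Pos.1 h4).2 j
      obtain ⟨w, k, hw⟩ := ih (∑ j, D.rt (D.s i) a j).toNat (by omega) _ h4 rfl
      exact ⟨D.s i * w, k, by rw [D.rt_mul, hw, s_s]⟩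

theorem exists_al {a : Fin r → ℤ} (ha : a ∈ D.Φ) : ∃ (w : D.W) (i : Fin r), D.rt w (al i) = a := by
  rcases pos_or_neg ha with h | h
  · exact exists_al_pos _ a h rfl
  · obtain ⟨w, i, hw⟩ := exists_al_pos _ (-a) h rfl
    exact ⟨D.refl (-a) * w, i, by rw [D.rt_mul, hw, rt_refl_self (neg_mem ha), neg_neg]⟩

theorem exists_prim {a : Fin r → ℤ} (ha : a ∈ D.Φ) : ∃ μ : Fin r → ℤ, dotProduct μ a = 1 := by
  obtain ⟨w, i, rfl⟩ := exists_al ha
  exact ⟨D.yt w (al i), by rw [D.dot_yt, D.rt_inv_rt, dot_al, al_same]⟩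

end Pool.Agent.FLG.RS
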