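import Mathlib

/-!
# The first structure connection at one point and its monodromy data

`X : Small ι` collects the data of a Fano manifold `X` which enter the first structure connection at
one point `t ∈ H^2(X)`, in a homogeneous basis `φ_i`, `i : ι`, of `H^*(X)`. The connection is written
on the universal cover `w = log z` of `ℂ \ {0}`.
-/

set_option autoImplicit false

open scoped BigOperators Topology
open Filter

namespace Pool.Agent.FLG

/-- The dimension and the degrees `φ_i ∈ H^{2 deg i}(X)`, the Poincaré pairing, and the matrices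
(acting on columns of coordinates) of the classical and of the quantum product with `c_1(X)` at the
point `t`. -/
structure Small (ι : Type) where
  dim : ℕ
  deg : ι → ℕ
  pair : Matrix ι ι ℂ
  cup : Matrix ι ι ℂ
  mul : Matrix ι ι ℂ

section defs

variable {ι : Type} [Fintype ι] [DecidableEq ι] {N : ℕ} (X : Small ι)

/-- The grading operator `θ(φ_a) = (D/2 - deg φ_a) φ_a`. -/
noncomputable def Small.theta : Matrix ι ι ℂ :=
  Matrix.diagonal fun a => (X.dim : ℂ) / 2 - X.deg a

/-- The operator `(2πi)^deg`. -/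
noncomputable def Small.twist : Matrix ι ι ℂ :=
  Matrix.diagonal fun a => (2 * Real.pi * Complex.I) ^ X.deg a

/-- The columns of `Y` are solutions of `(z ∂_z + c_1(X) •) J = θ J` at the point `t`, that is, of
`dJ/dw = (θ - e^{-w} c_1(X) •) J`, on the universal cover `w = log z`. -/
def IsSolution {κ : Type} (Y : ℂ → Matrix ι κ ℂ) : Prop :=
  ∀ w i j, HasDerivAt (fun w => Y w i j) (((X.theta - Complex.exp (-w) • X.mul) * Y w) i j) w

/-- The solution `𝒮(t,z) z^θ z^{-ρ}`, `ρ = c_1(X) ∪`, attached to a single-valued function `𝒮`. -/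
noncomputable def zSol (𝒮 : ℂ → Matrix ι ι ℂ) (w : ℂ) : Matrix ι ι ℂ :=
  𝒮 (Complex.exp w) * NormedSpace.exp (w • X.theta) * NormedSpace.exp (-w • X.cup)

omit [Fintype ι] [DecidableEq ι] in
/-- `Y e^{-U/z}` tends to `Ψ` as `z → 0` radially, in every direction `arg z ∈ (α, β)`: the
leading term of the asymptotics `Y ~ Ψ R e^{U/z}`, `R = 1 + O(z)`. -/
def HasAsymptotics (u : Fin N → ℂ) (Ψ : Matrix ι (Fin N) ℂ) (α β : ℝ)
    (Y : ℂ → Matrix ι (Fin N) ℂ) : Prop :=
  ∀ φ ∈ Set.Ioo α β, Tendsto (fun s : ℝ => Y (s + φ * Complex.I) *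
    Matrix.diagonal fun j => Complex.exp (-u j * Complex.exp (-(s + φ * Complex.I))))
    atBot (𝓝 Ψ)

/-- The oriented line `ℝ e^{iφ}` is admissible: it contains no ray `i (u - u') ℝ_{>0}`, `u ≠ u'`
canonical coordinates at `t` (the eigenvalues of `c_1(X) •`). -/
def IsAdmissible (φ : ℝ) : Prop :=
  ∀ x y, X.mul.charpoly.IsRoot x → X.mul.charpoly.IsRoot y → x ≠ y →
    ((x - y) * Complex.exp (-φ * Complex.I)).re ≠ 0

/-- Monodromy data of quantum cohomology at a point `t` with pairwise distinct canonical coordinates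
`u_1, …, u_N`. -/
structure MonodromyData (N : ℕ) where
  /-- the canonical coordinates, that is, the eigenvalues of `c_1(X) •` -/
  u : Fin N → ℂ
  /-- the columns of `Ψ` are the normalised idempotents -/
  Ψ : Matrix ι (Fin N) ℂ
  eigen : X.mul * Ψ = Ψ * Matrix.diagonal u
  normalised : Ψ.transpose * X.pair * Ψ = 1
  /-- the oriented line `ℓ` is `ℝ e^{iφ}` -/
  φ : ℝ
  /-- `ℓ` contains no ray `i (u_i - u_j) ℝ_{>0}`, and the canonical coordinates are ordered
  lexicographically -/
  ordered : ∀ i j, i < j →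
    (u i * Complex.exp (-φ * Complex.I)).re < (u j * Complex.exp (-φ * Complex.I)).re
  /-- the opening of the sectors exceeds `π` -/
  ε : ℝ
  ε_pos : 0 < ε
  /-- the solution `X_+` with prescribed asymptotics to the right of `ℓ` -/
  Xplus : ℂ → Matrix ι (Fin N) ℂ
  plus_solution : IsSolution X Xplus
  plus_asymptotics : HasAsymptotics u Ψ (φ - Real.pi - ε) (φ + ε) Xplus
  /-- the solution `X_-` with prescribed asymptotics to the left of `ℓ` -/
  Xminus : ℂ → Matrix ι (Fin N) ℂ
  minus_solution : IsSolution X Xminus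
  minus_asymptotics : HasAsymptotics u Ψ (φ - ε) (φ + Real.pi + ε) Xminus
  /-- the calibration -/
  𝒮 : ℂ → Matrix ι ι ℂ
  calibration_limit : Tendsto 𝒮 (Bornology.cobounded ℂ) (𝓝 1)
  calibration_solution : IsSolution X (zSol X 𝒮)
  /-- the Stokes matrix -/
  S : Matrix (Fin N) (Fin N) ℂ
  stokes : ∀ w, Xminus w = Xplus w * S
  /-- the central connection matrix -/
  C : Matrix ι (Fin N) ℂ
  central : ∀ w, Xminus w = zSol X 𝒮 w * C

/-- The pairing `[a, b) = (Z(e^{πi} z) a, Z(z) b)` of the solutions `Z a` and `Z b`, with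
`Z = 𝒮 z^θ z^{-ρ}`; it does not depend on `w = log z`. -/
noncomputable def flatPairing {X : Small ι} (M : MonodromyData X N) (w : ℂ) (a b : ι → ℂ) : ℂ :=
  dotProduct ((zSol X M.𝒮 (w + Real.pi * Complex.I)).mulVec a)
    (X.pair.mulVec ((zSol X M.𝒮 w).mulVec b))

/-- `Z = z^θ M(z) z^{-c_1(X)}`, `z = e^w`, is the standard fundamental solution of the quantum
differential equation at the point `t`: `M(z) → 1` as `z → ∞`. -/
def IsStandard (Z : ℂ → Matrix ι ι ℂ) : Prop :=
  IsSolution X Z ∧ ∃ M : ℂ → Matrix ι ι ℂ,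
    (∀ i j, Tendsto (fun z => M z i j) (Bornology.cobounded ℂ) (𝓝 ((1 : Matrix _ _ ℂ) i j))) ∧
    ∀ w, Z w = NormedSpace.exp (w • X.theta) * M (Complex.exp w) * NormedSpace.exp (-w • X.cup)

end defs

end Pool.Agent.FLG
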